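import Pool.Agent.Lib.SBP.Defs2

/-!
# SBP.Align : the tags determine blocks and colours

PROOF.  lab b c T = b % M + M * (colour field), the colour field is c if b ≤ T + D and 0 otherwise;
b % M < M, so lab b c T = lab b' c' T' implies b % M = b' % M and equality of the colour fields.
D = 2 d0 + 2, M = 4 d0 + 5, all blocks are ≥ b0 ≥ D + d3 + 1 > d0.  Call T exact if for each i:
T + d0 < bi (low) or bi < T (absent).  By hypothesis ExOK holds at every exact T; in particular at an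
exact T the number of low elements on the left (1, 2) and on the right (3, 4) is the same.
By symmetry (swap 1, 2; swap 3, 4; swap the sides; ExOK and the conclusion are symmetric) assume
b2 ≤ b1, b4 ≤ b3, b3 ≤ b1.  T = 0 is exact and all are low: (*) b1 ≡ b3, b2 ≡ b4 or b1 ≡ b4, b2 ≡ b3 mod M.
CLAIM 1: b1 = b3.  Suppose b3 < b1.
 (i) b3 + 2 d0 + 3 ≤ b1: the cells T with b3 < T < b1 - d0 are at least d0 + 2 many, those with
     b2 - d0 ≤ T ≤ b2 are at most d0 + 1, so there is T with b3 < T, T + d0 < b1 and (T + d0 < b2 or b2 < T)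
     (explicitly: T = b3 + 1 if b3 + 1 + d0 < b2 or b2 < b3 + 1, otherwise T = b2 + 1 : then
     b2 ≤ b3 + 1 + d0, so b2 + 1 + d0 ≤ b3 + 2 d0 + 2 < b1).  It is exact, 3 and 4 are absent, 1 is low: contradiction to ExOK.
 (ii) b1 - 2 d0 - 2 ≤ b3 < b1: 0 < b1 - b3 < M, so b1 % M ≠ b3 % M and (*) gives b1 ≡ b4, b2 ≡ b3;
     b4 ≤ b3 < b1 and b4 ≡ b1 mod M give b4 + M ≤ b1.  Cells T with b4 < T, T + d0 < b3: choose T = b4 + 1
     if b4 + 1 + d0 < b2 or b2 < b4 + 1, otherwise T = b2 + 1, where b2 ≤ b4 + 1 + d0 and so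
     T + d0 ≤ b4 + 2 + 2 d0 ≤ b1 - M + 2 + 2 d0 < b3.  It is exact: 4 absent, 1 and 3 low.  If 2 is low:
     two on the left, one on the right, contradiction.  If 2 is absent: ExOK gives lab b1 = lab b3, so b1 ≡ b3, contradiction.
CLAIM 2: b2 = b4.  By (*) and b1 = b3 we get b2 ≡ b4 mod M in both cases.  If b4 < b2 then b4 + M ≤ b2; T = b4 + 1 is exact
     (T + d0 < b4 + M ≤ b2 ≤ b1 = b3): 1, 2, 3 low, 4 absent: contradiction.  Symmetrically b2 < b4.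
COLOURS.  Let j = b1 = b3 and l = b2 = b4 ≤ j.
 l = j: T = j - d0 - 1 is low for all, j ≤ T + D, so the labels are j % M + M ci and ExOK gives
     (c1 = c3 and c2 = c4) or (c1 = c4 and c2 = c3), which is the conclusion (all blocks equal).
 l < j: (1, 3): choose T with j ≤ T + D, T + d0 < j and (T + d0 < l or l < T): T = j - D if
     j - D + d0 < l or l < j - D, otherwise T = l + 1 : then l ≤ j - D + d0, T + d0 ≤ j - D + 2 d0 + 1 < j and T > j - D.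
     It is exact.  If 2, 4 are absent: lab equality gives c1 = c3.  If they are low: either lab1 = lab3, so c1 = c3, or lab1 = lab4,
     so j ≡ l mod M, l < j, so l + M ≤ j, but T + d0 < l and j ≤ T + D gives j + d0 < l + D: contradiction.
     (2, 4): T = l - d0 - 1: all low; l ≤ T + D.  The colour fields of 1 and 3 at T are equal because c1 = c3, so lab1 = lab3.
     ExOK: either lab2 = lab4, or lab1 = lab4 and lab2 = lab3 = lab1 = lab4; so lab2 = lab4 and c2 = c4.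
-/

namespace Pool.Agent.SBP

private theorem Align_lab (P : Par) {b c b' c' T : ℕ} (h : P.lab b c T = P.lab b' c' T) :
    b % P.M = b' % P.M ∧
      (if b ≤ T + P.D then c else 0) = (if b' ≤ T + P.D then c' else 0) := by
  unfold Par.lab at h
  have hM : 0 < P.M := by unfold Par.M; omega
  have e1 := congrArg (fun x => x % P.M) h
  have e2 := congrArg (fun x => x / P.M) h
  simp only [Nat.add_mul_mod_self_left, Nat.mod_mod] at e1
  refine ⟨e1, ?_⟩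
  simp only [Nat.add_mul_div_left _ _ hM, Nat.div_eq_of_lt (Nat.mod_lt _ hM), Nat.zero_add] at e2
  exact e2

private theorem Align_modlt (P : Par) {a b : ℕ} (h : a % P.M = b % P.M) (hab : a < b) :
    a + P.M ≤ b := by
  have h1 : P.M ∣ b - a := (Nat.modEq_iff_dvd' hab.le).1 h
  have h2 := Nat.le_of_dvd (by omega) h1
  omega

private theorem Align_main (P : Par) (h : P.OK) (b1 b2 b3 b4 c1 c2 c3 c4 : ℕ)
    (h1 : P.b0 ≤ b1) (h2 : P.b0 ≤ b2) (h3 : P.b0 ≤ b3) (h4 : P.b0 ≤ b4)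
    (h21 : b2 ≤ b1) (h43 : b4 ≤ b3) (h31 : b3 ≤ b1)
    (hEx : ∀ T, (T + P.d0 < b1 ∨ b1 < T) → (T + P.d0 < b2 ∨ b2 < T) →
      (T + P.d0 < b3 ∨ b3 < T) → (T + P.d0 < b4 ∨ b4 < T) → ExOK P b1 b2 b3 b4 c1 c2 c3 c4 T) :
    (b1 = b3 ∧ c1 = c3 ∧ b2 = b4 ∧ c2 = c4) ∨ (b1 = b4 ∧ c1 = c4 ∧ b2 = b3 ∧ c2 = c3) := by
  have hD : P.D = 2 * P.d0 + 2 := rfl
  have hM : P.M = 4 * P.d0 + 5 := rfl
  have hb0 := h.b0
  have star : (b1 % P.M = b3 % P.M ∧ b2 % P.M = b4 % P.M) ∨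
      (b1 % P.M = b4 % P.M ∧ b2 % P.M = b3 % P.M) := by
    have hx := hEx 0 (by omega) (by omega) (by omega) (by omega)
    rcases hx with ⟨-, -, -, -, hx | hx⟩ | hx | hx | hx | hx | hx
    · exact Or.inl ⟨(Align_lab P hx.1).1, (Align_lab P hx.2).1⟩
    · exact Or.inr ⟨(Align_lab P hx.1).1, (Align_lab P hx.2).1⟩
    all_goals (exfalso; omega)
  have cl1 : b1 = b3 := by
    by_contra hne
    have hlt : b3 < b1 := by omega
    by_cases hi : b3 + 2 * P.d0 + 3 ≤ b1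
    · have hT : ∃ T, b3 < T ∧ T + P.d0 < b1 ∧ (T + P.d0 < b2 ∨ b2 < T) := by
        by_cases hh : b3 + 1 + P.d0 < b2 ∨ b2 < b3 + 1
        · exact ⟨b3 + 1, by omega, by omega, hh⟩
        · exact ⟨b2 + 1, by omega, by omega, Or.inr (by omega)⟩
      obtain ⟨T, t1, t2, t3⟩ := hT
      have hx := hEx T (by omega) t3 (by omega) (by omega)
      rcases hx with hx | hx | hx | hx | hx | hx <;> omega
    · have e : b1 % P.M = b4 % P.M ∧ b2 % P.M = b3 % P.M := by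
        rcases star with s | s
        · exfalso
          have := Align_modlt P s.1.symm hlt
          omega
        · exact s
      have e1 := Align_modlt P e.1.symm (show b4 < b1 by omega)
      have hT : ∃ T, b4 < T ∧ T + P.d0 < b3 ∧ (T + P.d0 < b2 ∨ b2 < T) := by
        by_cases hh : b4 + 1 + P.d0 < b2 ∨ b2 < b4 + 1
        · exact ⟨b4 + 1, by omega, by omega, hh⟩
        · exact ⟨b2 + 1, by omega, by omega, Or.inr (by omega)⟩
      obtain ⟨T, t1, t2, t3⟩ := hT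
      have hx := hEx T (by omega) t3 (by omega) (by omega)
      rcases hx with hx | hx | hx | hx | hx | hx
      · omega
      · have e2 := (Align_lab P hx.2.2.2.2).1
        have e3 := Align_modlt P e2.symm hlt
        omega
      all_goals omega
  have cl2 : b2 = b4 := by
    have e : b2 % P.M = b4 % P.M := by
      rcases star with s | s
      · exact s.2
      · rw [s.2, ← cl1, s.1]
    by_contra hne
    rcases Nat.lt_or_ge b4 b2 with hlt | hge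
    · have e1 := Align_modlt P e.symm hlt
      have hx := hEx (b4 + 1) (by omega) (by omega) (by omega) (by omega)
      rcases hx with hx | hx | hx | hx | hx | hx <;> omega
    · have e1 := Align_modlt P e (show b2 < b4 by omega)
      have hx := hEx (b2 + 1) (by omega) (by omega) (by omega) (by omega)
      rcases hx with hx | hx | hx | hx | hx | hx <;> omega
  subst cl1
  subst cl2
  rcases Nat.eq_or_lt_of_le h21 with hj | hj
  · subst hj
    have hx := hEx (b2 - P.d0 - 1) (by omega) (by omega) (by omega) (by omega)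
    have hc : b2 ≤ b2 - P.d0 - 1 + P.D := by omega
    rcases hx with ⟨-, -, -, -, hx | hx⟩ | hx | hx | hx | hx | hx
    · have e1 := (Align_lab P hx.1).2
      have e2 := (Align_lab P hx.2).2
      rw [if_pos hc, if_pos hc] at e1 e2
      exact Or.inl ⟨rfl, e1, rfl, e2⟩
    · have e1 := (Align_lab P hx.1).2
      have e2 := (Align_lab P hx.2).2
      rw [if_pos hc, if_pos hc] at e1 e2
      exact Or.inr ⟨rfl, e1, rfl, e2⟩
    all_goals (exfalso; omega)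
  · have e13 : c1 = c3 := by
      have hT : ∃ T, b1 ≤ T + P.D ∧ T + P.d0 < b1 ∧ (T + P.d0 < b2 ∨ b2 < T) := by
        by_cases hh : b1 - P.D + P.d0 < b2 ∨ b2 < b1 - P.D
        · exact ⟨b1 - P.D, by omega, by omega, hh⟩
        · exact ⟨b2 + 1, by omega, by omega, Or.inr (by omega)⟩
      obtain ⟨T, t1, t2, t3⟩ := hT
      have hx := hEx T (by omega) t3 (by omega) t3
      rcases hx with ⟨-, u1, -, -, hx | hx⟩ | hx | hx | hx | hx | hx
      · have e1 := (Align_lab P hx.1).2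
        rw [if_pos t1, if_pos t1] at e1
        exact e1
      · exfalso
        have e1 := (Align_lab P hx.1).1
        have e2 := Align_modlt P e1.symm hj
        omega
      · have e1 := (Align_lab P hx.2.2.2.2).2
        rw [if_pos t1, if_pos t1] at e1
        exact e1
      all_goals (exfalso; omega)
    have hx := hEx (b2 - P.d0 - 1) (by omega) (by omega) (by omega) (by omega)
    have hc : b2 ≤ b2 - P.d0 - 1 + P.D := by omega
    have e24 : P.lab b2 c2 (b2 - P.d0 - 1) = P.lab b2 c4 (b2 - P.d0 - 1) := by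
      rcases hx with ⟨-, -, -, -, hx | hx⟩ | hx | hx | hx | hx | hx
      · exact hx.2
      · rw [hx.2, ← e13]
        exact hx.1
      all_goals (exfalso; omega)
    have e2 := (Align_lab P e24).2
    rw [if_pos hc, if_pos hc] at e2
    exact Or.inl ⟨rfl, e13, rfl, e2⟩

private theorem Align_swap12 (P : Par) {b1 b2 b3 b4 c1 c2 c3 c4 T : ℕ}
    (h : ExOK P b1 b2 b3 b4 c1 c2 c3 c4 T) : ExOK P b2 b1 b3 b4 c2 c1 c3 c4 T := by
  rcases h with ⟨a, b, c, d, e | e⟩ | ⟨a, b, c, d, e⟩ | ⟨a, b, c, d, e⟩ | ⟨a, b, c, d, e⟩ |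
    ⟨a, b, c, d, e⟩ | ⟨a, b, c, d⟩
  · exact Or.inl ⟨b, a, c, d, Or.inr ⟨e.2, e.1⟩⟩
  · exact Or.inl ⟨b, a, c, d, Or.inl ⟨e.2, e.1⟩⟩
  · exact Or.inr (Or.inr (Or.inr (Or.inl ⟨b, a, c, d, e⟩)))
  · exact Or.inr (Or.inr (Or.inr (Or.inr (Or.inl ⟨b, a, c, d, e⟩))))
  · exact Or.inr (Or.inl ⟨b, a, c, d, e⟩)
  · exact Or.inr (Or.inr (Or.inl ⟨b, a, c, d, e⟩))
  · exact Or.inr (Or.inr (Or.inr (Or.inr (Or.inr ⟨b, a, c, d⟩))))

private theorem Align_swap34 (P : Par) {b1 b2 b3 b4 c1 c2 c3 c4 T : ℕ}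
    (h : ExOK P b1 b2 b3 b4 c1 c2 c3 c4 T) : ExOK P b1 b2 b4 b3 c1 c2 c4 c3 T := by
  rcases h with ⟨a, b, c, d, e | e⟩ | ⟨a, b, c, d, e⟩ | ⟨a, b, c, d, e⟩ | ⟨a, b, c, d, e⟩ |
    ⟨a, b, c, d, e⟩ | ⟨a, b, c, d⟩
  · exact Or.inl ⟨a, b, d, c, Or.inr ⟨e.1, e.2⟩⟩
  · exact Or.inl ⟨a, b, d, c, Or.inl ⟨e.1, e.2⟩⟩
  · exact Or.inr (Or.inr (Or.inl ⟨a, b, d, c, e⟩))
  · exact Or.inr (Or.inl ⟨a, b, d, c, e⟩)
  · exact Or.inr (Or.inr (Or.inr (Or.inr (Or.inl ⟨a, b, d, c, e⟩))))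
  · exact Or.inr (Or.inr (Or.inr (Or.inl ⟨a, b, d, c, e⟩)))
  · exact Or.inr (Or.inr (Or.inr (Or.inr (Or.inr ⟨a, b, d, c⟩))))

private theorem Align_sides (P : Par) {b1 b2 b3 b4 c1 c2 c3 c4 T : ℕ}
    (h : ExOK P b1 b2 b3 b4 c1 c2 c3 c4 T) : ExOK P b3 b4 b1 b2 c3 c4 c1 c2 T := by
  rcases h with ⟨a, b, c, d, e | e⟩ | ⟨a, b, c, d, e⟩ | ⟨a, b, c, d, e⟩ | ⟨a, b, c, d, e⟩ |
    ⟨a, b, c, d, e⟩ | ⟨a, b, c, d⟩
  · exact Or.inl ⟨c, d, a, b, Or.inl ⟨e.1.symm, e.2.symm⟩⟩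
  · exact Or.inl ⟨c, d, a, b, Or.inr ⟨e.2.symm, e.1.symm⟩⟩
  · exact Or.inr (Or.inl ⟨c, d, a, b, e.symm⟩)
  · exact Or.inr (Or.inr (Or.inr (Or.inl ⟨c, d, a, b, e.symm⟩)))
  · exact Or.inr (Or.inr (Or.inl ⟨c, d, a, b, e.symm⟩))
  · exact Or.inr (Or.inr (Or.inr (Or.inr (Or.inl ⟨c, d, a, b, e.symm⟩))))
  · exact Or.inr (Or.inr (Or.inr (Or.inr (Or.inr ⟨c, d, a, b⟩))))

private theorem Align_main2 (P : Par) (h : P.OK) (b1 b2 b3 b4 c1 c2 c3 c4 : ℕ)
    (h1 : P.b0 ≤ b1) (h2 : P.b0 ≤ b2) (h3 : P.b0 ≤ b3) (h4 : P.b0 ≤ b4)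
    (h21 : b2 ≤ b1) (h43 : b4 ≤ b3)
    (hEx : ∀ T, (T + P.d0 < b1 ∨ b1 < T) → (T + P.d0 < b2 ∨ b2 < T) →
      (T + P.d0 < b3 ∨ b3 < T) → (T + P.d0 < b4 ∨ b4 < T) → ExOK P b1 b2 b3 b4 c1 c2 c3 c4 T) :
    (b1 = b3 ∧ c1 = c3 ∧ b2 = b4 ∧ c2 = c4) ∨ (b1 = b4 ∧ c1 = c4 ∧ b2 = b3 ∧ c2 = c3) := by
  rcases Nat.le_total b3 b1 with h31 | h31
  · exact Align_main P h b1 b2 b3 b4 c1 c2 c3 c4 h1 h2 h3 h4 h21 h43 h31 hEx
  · have key := Align_main P h b3 b4 b1 b2 c3 c4 c1 c2 h3 h4 h1 h2 h43 h21 h31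
      (fun T t3 t4 t1 t2 => Align_sides P (hEx T t1 t2 t3 t4))
    omega

theorem align (P : Par) (h : P.OK) (b1 b2 b3 b4 c1 c2 c3 c4 : ℕ)
    (h1 : P.b0 ≤ b1) (h2 : P.b0 ≤ b2) (h3 : P.b0 ≤ b3) (h4 : P.b0 ≤ b4)
    (hEx : ∀ T, (T + P.d0 < b1 ∨ b1 < T) → (T + P.d0 < b2 ∨ b2 < T) →
      (T + P.d0 < b3 ∨ b3 < T) → (T + P.d0 < b4 ∨ b4 < T) → ExOK P b1 b2 b3 b4 c1 c2 c3 c4 T) :
    (b1 = b3 ∧ c1 = c3 ∧ b2 = b4 ∧ c2 = c4) ∨ (b1 = b4 ∧ c1 = c4 ∧ b2 = b3 ∧ c2 = c3) := by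
  rcases Nat.le_total b2 b1 with h21 | h21 <;> rcases Nat.le_total b4 b3 with h43 | h43
  · exact Align_main2 P h b1 b2 b3 b4 c1 c2 c3 c4 h1 h2 h3 h4 h21 h43 hEx
  · have key := Align_main2 P h b1 b2 b4 b3 c1 c2 c4 c3 h1 h2 h4 h3 h21 h43
      (fun T t1 t2 t4 t3 => Align_swap34 P (hEx T t1 t2 t3 t4))
    omega
  · have key := Align_main2 P h b2 b1 b3 b4 c2 c1 c3 c4 h2 h1 h3 h4 h21 h43
      (fun T t2 t1 t3 t4 => Align_swap12 P (hEx T t1 t2 t3 t4))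
    omega
  · have key := Align_main2 P h b2 b1 b4 b3 c2 c1 c4 c3 h2 h1 h4 h3 h21 h43
      (fun T t2 t1 t4 t3 => Align_swap12 P (Align_swap34 P (hEx T t1 t2 t3 t4)))
    omega

end Pool.Agent.SBP
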