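import Pool.Agent.Lib.SBP.DivCnt

/-!
# SBP.BadExp : the average number of bad primes of block b

PROOF.  For q ∈ QJ P J, q' = ext q: nb P q' b ≤ number of tuples (c, k, l, c', k3, k2, k4) with c < Γ b, k, k3 < 2^ν b, k3 ≠ k, b0 ≤ l < b, S l < a b + a l, c' < Γ l,
k2, k4 < 2^ν l and Cong q' l b x1 x2 x3 x4.  (Union bound.)  Sum over q and interchange: for every tuple the number of q with Cong is at most
2^(Le b) |QJ| / 2^(S b) by cong_count with j = b, x T = x1 x2 (T < l), x1 (l ≤ T < b), y T = x3 x4, x3: they are different: x1 ≠ x3 (OK.inj, k ≠ k3), and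
x1 x2 = x3 x4 would give the prime x1 = x3 or x1 = x4, but x4 ≤ 2^(a l) ≤ 2^(a b - 2) < x1 (a l + 2 ≤ a b by induction with OK.a2); sizes:
x1 x2 ≤ 2^(a b + a l) ≤ 2^(2 S b) (OK.ah, S l ≤ S b).
Number of tuples for given l: Γ b Γ l 2^(2 ν b + 2 ν l) = 2^(b^3 + l^3 + 2 ν b + 2 ν l), and OK.bad: b^3 + ν b + l^3 + 2 ν l + Le b + 2 b + 5 ≤ S b.  So
(Σ_q nb) 2^(S b) ≤ Σ_l 2^(b^3 + l^3 + 2 ν b + 2 ν l + Le b) |QJ| ≤ b 2^(ν b + S b - 2 b - 5) |QJ|, and b ≤ 2^b.
-/

namespace Pool.Agent.SBP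

open Finset

private theorem badExp_a (P : Par) (h : P.OK) {l b : ℕ} (hl : P.b0 ≤ l) (hlb : l < b) :
    P.a l + 2 ≤ P.a b := by
  induction b, hlb using Nat.le_induction with
  | base => exact h.a2 l hl
  | succ n hn ih =>
    have := h.a2 n (by omega)
    omega

private theorem badExp_S (P : Par) {l b : ℕ} (hlb : l ≤ b) : P.S l ≤ P.S b := by
  unfold Par.S
  exact Finset.sum_le_sum_of_subset (Finset.range_mono hlb)

/-- the tuples (c, k, c', k3, k2, k4) -/
private def badExp_tup (P : Par) (b l : ℕ) : Finset (ℕ × ℕ × ℕ × ℕ × ℕ × ℕ) :=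
  range (P.Γ b) ×ˢ range (2 ^ P.ν b) ×ˢ range (P.Γ l) ×ˢ range (2 ^ P.ν b) ×ˢ
    range (2 ^ P.ν l) ×ˢ range (2 ^ P.ν l)

private theorem badExp_tup_card (P : Par) (b l : ℕ) :
    (badExp_tup P b l).card = 2 ^ (b ^ 3 + l ^ 3 + 2 * P.ν b + 2 * P.ν l) := by
  unfold badExp_tup Par.Γ
  simp only [Finset.card_product, Finset.card_range]
  simp only [← pow_add]
  congr 1
  ring

private def badExp_ev (P : Par) (q : ℕ → ℕ) (b l : ℕ) (t : ℕ × ℕ × ℕ × ℕ × ℕ × ℕ) : Prop :=
  t.2.2.2.1 ≠ t.2.1 ∧ Cong q l b (P.ell b t.1 t.2.1) (P.ell l t.2.2.1 t.2.2.2.2.1)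
    (P.ell b t.1 t.2.2.2.1) (P.ell l t.2.2.1 t.2.2.2.2.2)

private def badExp_ls (P : Par) (b : ℕ) : Finset ℕ :=
  (range b).filter (fun l => P.b0 ≤ l ∧ P.S l < P.a b + P.a l)

open Classical in
private theorem badExp_union (P : Par) (q : ℕ → ℕ) (b : ℕ) :
    nb P q b ≤ ∑ l ∈ badExp_ls P b, ((badExp_tup P b l).filter (badExp_ev P q b l)).card := by
  -- the set of the pairs (c, k) and its cover
  have h1 : nb P q b = ((range (P.Γ b) ×ˢ range (2 ^ P.ν b)).filter
      (fun x => Bad P q b x.1 x.2)).card := by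
    unfold nb
    rw [Finset.card_filter, Finset.sum_product]
    refine Finset.sum_congr rfl fun c _ => ?_
    rw [Finset.card_filter]
  rw [h1]
  have h2 : (range (P.Γ b) ×ˢ range (2 ^ P.ν b)).filter (fun x => Bad P q b x.1 x.2) ⊆
      (badExp_ls P b).biUnion (fun l => ((badExp_tup P b l).filter (badExp_ev P q b l)).image
        (fun t => (t.1, t.2.1))) := by
    rintro ⟨c, k⟩ hx
    rw [Finset.mem_filter, Finset.mem_product, Finset.mem_range, Finset.mem_range] at hx
    obtain ⟨⟨hc, hk⟩, l, hl0, hlb, hS, c', hc', k3, hk3, hne, k2, hk2, k4, hk4, hC⟩ := hx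
    rw [Finset.mem_biUnion]
    refine ⟨l, ?_, ?_⟩
    · unfold badExp_ls
      rw [Finset.mem_filter, Finset.mem_range]
      exact ⟨hlb, hl0, hS⟩
    · rw [Finset.mem_image]
      refine ⟨(c, k, c', k3, k2, k4), ?_, rfl⟩
      rw [Finset.mem_filter]
      refine ⟨?_, hne, hC⟩
      unfold badExp_tup
      simp only [Finset.mem_product, Finset.mem_range]
      exact ⟨hc, hk, hc', hk3, hk2, hk4⟩
  refine (Finset.card_le_card h2).trans (Finset.card_biUnion_le.trans ?_)
  exact Finset.sum_le_sum fun l _ => Finset.card_image_le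

open Classical in
private theorem badExp_one (P : Par) (h : P.OK) (J b : ℕ) (hb : P.b0 ≤ b) (hJ : b ≤ J)
    (l : ℕ) (hl : l ∈ badExp_ls P b) (t : ℕ × ℕ × ℕ × ℕ × ℕ × ℕ) (ht : t ∈ badExp_tup P b l) :
    ((QJ P J).filter (fun q => badExp_ev P (ext q) b l t)).card * 2 ^ P.S b ≤
      2 ^ P.Le b * (QJ P J).card := by
  obtain ⟨c, k, c', k3, k2, k4⟩ := t
  unfold badExp_ls at hl
  rw [Finset.mem_filter, Finset.mem_range] at hl
  obtain ⟨hlb, hl0, hS⟩ := hl
  unfold badExp_tup at ht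
  simp only [Finset.mem_product, Finset.mem_range] at ht
  obtain ⟨hc, hk, hc', hk3, hk2, hk4⟩ := ht
  by_cases hne : k3 = k
  · have h0 : (QJ P J).filter (fun q => badExp_ev P (ext q) b l (c, k, c', k3, k2, k4)) = ∅ := by
      rw [Finset.filter_eq_empty_iff]
      intro q _ hq
      exact hq.1 hne
    rw [h0, Finset.card_empty, zero_mul]
    exact Nat.zero_le _
  · set x1 := P.ell b c k with hx1
    set x2 := P.ell l c' k2 with hx2
    set x3 := P.ell b c k3 with hx3
    set x4 := P.ell l c' k4 with hx4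
    have p1 : x1.Prime := h.prime b hb c hc k hk
    have p3 : x3.Prime := h.prime b hb c hc k3 hk3
    have p4 : x4.Prime := h.prime l hl0 c' hc' k4 hk4
    have u1 : x1 ≤ 2 ^ P.a b := h.hi b hb c hc k hk
    have u2 : x2 ≤ 2 ^ P.a l := h.hi l hl0 c' hc' k2 hk2
    have u3 : x3 ≤ 2 ^ P.a b := h.hi b hb c hc k3 hk3
    have u4 : x4 ≤ 2 ^ P.a l := h.hi l hl0 c' hc' k4 hk4
    have l1 : 2 ^ (P.a b - 2) < x1 := h.lo b hb c hc k hk
    have ha := badExp_a P h hl0 hlb
    have hSl := badExp_S P (le_of_lt hlb)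
    have hah := h.ah b hb
    have hal := h.ah l hl0
    have n13 : x1 ≠ x3 := by
      intro he
      exact hne (h.inj b hb c hc c hc k hk k3 hk3 he).2.symm
    have n14 : x1 ≠ x4 := by
      intro he
      have h3 : 2 ^ P.a l ≤ 2 ^ (P.a b - 2) := Nat.pow_le_pow_right (by norm_num) (by omega)
      omega
    have n1234 : x1 * x2 ≠ x3 * x4 := by
      intro he
      have h3 : x1 ∣ x3 * x4 := he ▸ dvd_mul_right x1 x2
      rcases p1.dvd_mul.1 h3 with h4 | h4
      · exact n13 ((Nat.prime_dvd_prime_iff_eq p1 p3).1 h4)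
      · exact n14 ((Nat.prime_dvd_prime_iff_eq p1 p4).1 h4)
    have hpow : 2 ^ P.a b * 2 ^ P.a l ≤ 2 ^ (2 * P.S b) := by
      rw [← pow_add]
      exact Nat.pow_le_pow_right (by norm_num) (by omega)
    have hpow' : 2 ^ P.a b ≤ 2 ^ (2 * P.S b) :=
      Nat.pow_le_pow_right (by norm_num) (by omega)
    have key := cong_count P h J b hJ (fun T => if T < l then x1 * x2 else x1)
      (fun T => if T < l then x3 * x4 else x3) ?_ ?_ ?_
    · refine le_trans (Nat.mul_le_mul_right _ (Finset.card_le_card ?_)) key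
      intro q hq
      rw [Finset.mem_filter] at hq ⊢
      refine ⟨hq.1, fun T hT => ?_⟩
      obtain ⟨-, hC1, hC2⟩ := hq.2
      by_cases hTl : T < l
      · simp only [if_pos hTl]
        exact hC1 T hTl
      · simp only [if_neg hTl]
        exact hC2 T (by omega) hT
    · intro T _
      by_cases hTl : T < l
      · simp only [if_pos hTl]
        exact n1234
      · simp only [if_neg hTl]
        exact n13
    · intro T _
      by_cases hTl : T < l
      · simp only [if_pos hTl]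
        exact (Nat.mul_le_mul u1 u2).trans hpow
      · simp only [if_neg hTl]
        exact u1.trans hpow'
    · intro T _
      by_cases hTl : T < l
      · simp only [if_pos hTl]
        exact (Nat.mul_le_mul u3 u4).trans hpow
      · simp only [if_neg hTl]
        exact u3.trans hpow'

open Classical in
private theorem badExp_swap (P : Par) (J b l : ℕ) :
    ∑ q ∈ QJ P J, ((badExp_tup P b l).filter (badExp_ev P (ext q) b l)).card =
      ∑ t ∈ badExp_tup P b l, ((QJ P J).filter (fun q => badExp_ev P (ext q) b l t)).card := by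
  simp only [Finset.card_filter]
  exact Finset.sum_comm

theorem bad_exp (P : Par) (h : P.OK) (J b : ℕ) (hb : P.b0 ≤ b) (hJ : b ≤ J) :
    (∑ q ∈ QJ P J, nb P (ext q) b) * 2 ^ (b + 5) ≤ 2 ^ P.ν b * (QJ P J).card := by
  classical
  have h1 : (∑ q ∈ QJ P J, nb P (ext q) b) ≤ ∑ l ∈ badExp_ls P b,
      ∑ t ∈ badExp_tup P b l, ((QJ P J).filter (fun q => badExp_ev P (ext q) b l t)).card := by
    refine (Finset.sum_le_sum fun q _ => badExp_union P (ext q) b).trans ?_
    rw [Finset.sum_comm]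
    exact le_of_eq (Finset.sum_congr rfl fun l _ => badExp_swap P J b l)
  have h2 : ∀ l ∈ badExp_ls P b, (∑ t ∈ badExp_tup P b l,
      ((QJ P J).filter (fun q => badExp_ev P (ext q) b l t)).card) * 2 ^ P.S b * 2 ^ (2 * b + 5) ≤
        2 ^ (P.ν b + P.S b) * (QJ P J).card := by
    intro l hl
    have h3 : (∑ t ∈ badExp_tup P b l,
        ((QJ P J).filter (fun q => badExp_ev P (ext q) b l t)).card) * 2 ^ P.S b ≤
        (badExp_tup P b l).card * (2 ^ P.Le b * (QJ P J).card) := by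
      rw [Finset.sum_mul, ← smul_eq_mul (badExp_tup P b l).card]
      exact Finset.sum_le_card_nsmul _ _ _ fun t ht => badExp_one P h J b hb hJ l hl t ht
    refine (Nat.mul_le_mul_right _ h3).trans ?_
    rw [badExp_tup_card]
    unfold badExp_ls at hl
    rw [Finset.mem_filter, Finset.mem_range] at hl
    obtain ⟨hlb, hl0, hS⟩ := hl
    have h4 := h.bad b hb l hl0 hlb hS
    have h5 : 2 ^ (b ^ 3 + l ^ 3 + 2 * P.ν b + 2 * P.ν l) * (2 ^ P.Le b * (QJ P J).card) *
        2 ^ (2 * b + 5) = 2 ^ (b ^ 3 + l ^ 3 + 2 * P.ν b + 2 * P.ν l + P.Le b + (2 * b + 5)) *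
          (QJ P J).card := by
      rw [pow_add _ _ (2 * b + 5), pow_add _ _ (P.Le b)]
      ring
    rw [h5]
    refine Nat.mul_le_mul_right _ (Nat.pow_le_pow_right (by norm_num) ?_)
    omega
  have h3 : (∑ q ∈ QJ P J, nb P (ext q) b) * 2 ^ P.S b * 2 ^ (2 * b + 5) ≤
      2 ^ b * (2 ^ (P.ν b + P.S b) * (QJ P J).card) := by
    calc (∑ q ∈ QJ P J, nb P (ext q) b) * 2 ^ P.S b * 2 ^ (2 * b + 5)
        ≤ (∑ l ∈ badExp_ls P b, ∑ t ∈ badExp_tup P b l,
          ((QJ P J).filter (fun q => badExp_ev P (ext q) b l t)).card) * 2 ^ P.S b *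
            2 ^ (2 * b + 5) := by gcongr
      _ = ∑ l ∈ badExp_ls P b, (∑ t ∈ badExp_tup P b l,
          ((QJ P J).filter (fun q => badExp_ev P (ext q) b l t)).card) * 2 ^ P.S b *
            2 ^ (2 * b + 5) := by
          rw [Finset.sum_mul, Finset.sum_mul]
      _ ≤ (badExp_ls P b).card • (2 ^ (P.ν b + P.S b) * (QJ P J).card) :=
          Finset.sum_le_card_nsmul _ _ _ h2
      _ ≤ 2 ^ b * (2 ^ (P.ν b + P.S b) * (QJ P J).card) := by
          rw [smul_eq_mul]
          refine Nat.mul_le_mul_right _ ?_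
          refine (Finset.card_filter_le _ _).trans ?_
          rw [Finset.card_range]
          exact Nat.lt_two_pow_self.le
  have h4 : 0 < 2 ^ b * 2 ^ P.S b := by positivity
  refine Nat.le_of_mul_le_mul_left ?_ h4
  calc 2 ^ b * 2 ^ P.S b * ((∑ q ∈ QJ P J, nb P (ext q) b) * 2 ^ (b + 5))
      = (∑ q ∈ QJ P J, nb P (ext q) b) * 2 ^ P.S b * 2 ^ (2 * b + 5) := by
        rw [show 2 * b + 5 = b + (b + 5) by ring, pow_add 2 b (b + 5)]
        ring
    _ ≤ 2 ^ b * (2 ^ (P.ν b + P.S b) * (QJ P J).card) := h3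
    _ = 2 ^ b * 2 ^ P.S b * (2 ^ P.ν b * (QJ P J).card) := by
        rw [pow_add]
        ring

end Pool.Agent.SBP
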