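import Pool.Agent.Lib.SBP.Defs2

/-!
# SBP.CellCov : covering one cell

Notation: h = 2^(s+5), B = 2^(s+6) = 2h, n ≤ 2^(s+2), so 8 n ≤ h.  κ ≤ 1 is the incoming carry, m < B the digit of m,
Vf := m + B κ' - κ the total.
log3: (total V = Vf.) If κ + 2 n ≤ m take κ' = 0, otherwise κ' = 1; so 2 n ≤ V (B ≥ 16 n) and V < B + 2 n.
  Take ξ := 0 if V < h, otherwise ξ := (V - h) / n + 1; then V < n ξ + h, and n ξ + 2 n ≤ V + 2... precisely: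
  ξ = 0: 2 n ≤ V.  ξ > 0: V - h < n ξ ≤ V - h + n, so n ξ + 2 n ≤ V - h + 3 n ≤ V.  Take ξy := ξ / 2, ξx := ξ - ξ / 2.
  n ξ ≤ V - h + n ≤ h + 3 n gives n ξx ≤ n (ξ + 1) / 2 ≤ (h + 4 n) / 2 ≤ 3 h / 4, so rx + n ξx < n + 3h/4 ≤ h (8 n ≤ h; the same for y).
  ξ < 32 because n ξx < h = 32 * 2^s ≤ 32 n.  And (ry + n ξy) + (rx + n ξx) ≥ n ξ > V - h,
  (ry + n ξy) + (rx + n ξx) ≤ 2 (n - 1) + n ξ ≤ V.
log2: if κ + n ≤ m: κ' = 0, Vf = m - κ ≥ n.  (i) Vf < h: ey = 0, ξy = 0, V = Vf.  (ii) h ≤ Vf < h + n: ey = 0, ξy = 1, V = Vf: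
  ry + n ≤ 2 n - 1 ≤ h ≤ V, V < h + n ≤ ry + n + h.  (iii) h + n ≤ Vf (< B): ey = 1, ξy = 0, V = Vf - h ∈ [n, h).
  if m < κ + n: κ' = 1, Vf = m + B - κ, B - 1 ≤ Vf < B + n: ey = 1, ξy = 2, V = Vf - h, h - 1 ≤ V < h + n:
  ry + 2 n ≤ 3 n - 1 ≤ h - 1 ≤ V (8 n ≤ h), V < h + n ≤ ry + 2 n + h; ry + 2 n < h.
log1: if κ ≤ m: κ' = 0, ez = 1 iff h ≤ m - κ, V = m - κ - ez h.  Otherwise κ = 1, m = 0: κ' = 1, ez = 1, V = B - 1 - h = h - 1.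
tag3: TagOK.cover with r = m + 2^β - κ: the sum Σ = t1 + t2 + t3 satisfies 2 Σ < 3 * 2^β and Σ + κ ≡ m mod 2^β;
  so Σ + κ = m + 2^β κ'' with κ'' ≤ 1 (m < 2^β; Σ + κ < 2 * 2^β; if m = 0... κ'' ∈ {0, 1} follows from Σ + κ ≡ m and 0 ≤ Σ + κ < 2 * 2^β).
tag2 (the last summand t is free): t := (m + 2 * 2^β - κ - τ) % 2^β, where τ < 2^β; τ + t + κ < 2 * 2^β + ... : τ ≤ 2^β - 2 when τ = t1 + t2 with
  2 t1 < 2^β, 2 t2 < 2^β, or τ = t1 with 2 t1 < 2^β: hypothesis τ + 1 < 2^β; then τ + t + κ < 2 * 2^β and it is ≡ m.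
tag1 (alone): if κ ≤ m: t = m - κ, κ'' = 0, otherwise (κ = 1, m = 0) t = 2^β - 1, κ'' = 1.
-/

namespace Pool.Agent.SBP

private theorem CellCov_log3 (p n m κ : ℕ) (h1 : p ≤ n) (h2 : n ≤ 4 * p) (hp : 0 < p)
    (hm : m < 64 * p) (hκ : κ ≤ 1) : ∃ κ' V ξy ξx : ℕ, κ' ≤ 1 ∧ ξy < 32 ∧ ξx < 32 ∧
      V + κ = m + 64 * p * κ' ∧ ∀ ry < n, ∀ rx < n,
        ry + n * ξy < 32 * p ∧ rx + n * ξx < 32 * p ∧
        (ry + n * ξy) + (rx + n * ξx) ≤ V ∧ V < (ry + n * ξy) + (rx + n * ξx) + 32 * p := by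
  obtain ⟨κ', V, hκ', hV, hV1, hV2⟩ : ∃ κ' V : ℕ, κ' ≤ 1 ∧ V + κ = m + 64 * p * κ' ∧ 2 * n ≤ V ∧
      V < 64 * p + 2 * n := by
    by_cases hc : κ + 2 * n ≤ m
    · exact ⟨0, m - κ, by omega, by omega, by omega, by omega⟩
    · exact ⟨1, m + 64 * p - κ, by omega, by omega, by omega, by omega⟩
  obtain ⟨ξ, hξ1, hξ2⟩ : ∃ ξ : ℕ, V < n * ξ + 32 * p ∧ (ξ = 0 ∨ n * ξ + 32 * p ≤ V + n) := by
    by_cases hc : V < 32 * p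
    · exact ⟨0, by omega, Or.inl rfl⟩
    · refine ⟨(V - 32 * p) / n + 1, ?_, Or.inr ?_⟩
      · have h3 := Nat.div_add_mod (V - 32 * p) n
        have h4 := Nat.mod_lt (V - 32 * p) (show 0 < n by omega)
        have h5 : n * ((V - 32 * p) / n + 1) = n * ((V - 32 * p) / n) + n := by ring
        omega
      · have h3 := Nat.div_add_mod (V - 32 * p) n
        have h5 : n * ((V - 32 * p) / n + 1) = n * ((V - 32 * p) / n) + n := by ring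
        omega
  have ha : n * (ξ / 2) + n * (ξ - ξ / 2) = n * ξ := by
    rw [← mul_add]
    congr 1
    omega
  have hab : n * (ξ / 2) ≤ n * (ξ - ξ / 2) := Nat.mul_le_mul_left n (by omega)
  have hba : n * (ξ - ξ / 2) ≤ n * (ξ / 2) + n := by
    have : n * (ξ / 2) + n = n * (ξ / 2 + 1) := by ring
    rw [this]
    exact Nat.mul_le_mul_left n (by omega)
  set a := n * (ξ / 2) with hadef
  set b := n * (ξ - ξ / 2) with hbdef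
  have hb : b + n ≤ 32 * p := by
    rcases hξ2 with h | h
    · subst h
      simp only [Nat.zero_div, Nat.sub_zero, mul_zero] at hadef hbdef
      omega
    · omega
  have hξx : ξ - ξ / 2 < 32 := by
    by_contra hc
    push Not at hc
    have h3 : n * 32 ≤ n * (ξ - ξ / 2) := Nat.mul_le_mul_left n hc
    omega
  refine ⟨κ', V, ξ / 2, ξ - ξ / 2, hκ', by omega, hξx, hV, ?_⟩
  intro ry hry rx hrx
  rw [← hadef, ← hbdef]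
  refine ⟨by omega, by omega, ?_, by omega⟩
  rcases hξ2 with h | h
  · subst h
    simp only [Nat.zero_div, Nat.sub_zero, mul_zero] at hadef hbdef
    omega
  · omega

private theorem CellCov_pow (s : ℕ) : 2 ^ (s + 2) = 4 * 2 ^ s ∧ 2 ^ (s + 5) = 32 * 2 ^ s ∧
    2 ^ (s + 6) = 64 * 2 ^ s ∧ 0 < 2 ^ s := by
  refine ⟨by ring, by ring, by ring, by positivity⟩

theorem log3 (s n m κ : ℕ) (h1 : 2 ^ s ≤ n) (h2 : n ≤ 2 ^ (s + 2)) (hm : m < 2 ^ (s + 6))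
    (hκ : κ ≤ 1) : ∃ κ' V ξy ξx : ℕ, κ' ≤ 1 ∧ ξy < 32 ∧ ξx < 32 ∧
      V + κ = m + 2 ^ (s + 6) * κ' ∧ ∀ ry < n, ∀ rx < n,
        ry + n * ξy < 2 ^ (s + 5) ∧ rx + n * ξx < 2 ^ (s + 5) ∧
        (ry + n * ξy) + (rx + n * ξx) ≤ V ∧ V < (ry + n * ξy) + (rx + n * ξx) + 2 ^ (s + 5) := by
  obtain ⟨e2, e5, e6, e0⟩ := CellCov_pow s
  rw [e2] at h2
  rw [e6] at hm
  rw [e5, e6]
  exact CellCov_log3 (2 ^ s) n m κ h1 h2 e0 hm hκ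

private theorem CellCov_log2 (p n m κ : ℕ) (h1 : p ≤ n) (h2 : n ≤ 4 * p) (hp : 0 < p)
    (hm : m < 64 * p) (hκ : κ ≤ 1) : ∃ κ' V ξy ey : ℕ, κ' ≤ 1 ∧ ξy < 32 ∧ ey ≤ 1 ∧
      V + ey * (32 * p) + κ = m + 64 * p * κ' ∧ ∀ ry < n,
        ry + n * ξy < 32 * p ∧ ry + n * ξy ≤ V ∧ V < ry + n * ξy + 32 * p := by
  by_cases hc : κ + n ≤ m
  · by_cases hi : m - κ < 32 * p
    · refine ⟨0, m - κ, 0, 0, by omega, by omega, by omega, by omega, ?_⟩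
      intro ry hry
      refine ⟨by omega, by omega, by omega⟩
    · by_cases hii : m - κ < 32 * p + n
      · refine ⟨0, m - κ, 1, 0, by omega, by omega, by omega, by omega, ?_⟩
        intro ry hry
        refine ⟨by omega, by omega, by omega⟩
      · refine ⟨0, m - κ - 32 * p, 0, 1, by omega, by omega, by omega, by omega, ?_⟩
        intro ry hry
        refine ⟨by omega, by omega, by omega⟩
  · refine ⟨1, m + 64 * p - κ - 32 * p, 2, 1, by omega, by omega, by omega, by omega, ?_⟩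
    intro ry hry
    refine ⟨by omega, by omega, by omega⟩

theorem log2 (s n m κ : ℕ) (h1 : 2 ^ s ≤ n) (h2 : n ≤ 2 ^ (s + 2)) (hm : m < 2 ^ (s + 6))
    (hκ : κ ≤ 1) : ∃ κ' V ξy ey : ℕ, κ' ≤ 1 ∧ ξy < 32 ∧ ey ≤ 1 ∧
      V + ey * 2 ^ (s + 5) + κ = m + 2 ^ (s + 6) * κ' ∧ ∀ ry < n,
        ry + n * ξy < 2 ^ (s + 5) ∧ ry + n * ξy ≤ V ∧ V < ry + n * ξy + 2 ^ (s + 5) := by
  obtain ⟨e2, e5, e6, e0⟩ := CellCov_pow s
  rw [e2] at h2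
  rw [e6] at hm
  rw [e5, e6]
  exact CellCov_log2 (2 ^ s) n m κ h1 h2 e0 hm hκ

private theorem CellCov_log1 (p m κ : ℕ) (hp : 0 < p) (hm : m < 64 * p) (hκ : κ ≤ 1) :
    ∃ κ' V ez : ℕ, κ' ≤ 1 ∧ ez ≤ 1 ∧ V < 32 * p ∧
      V + ez * (32 * p) + κ = m + 64 * p * κ' ∧ (κ' = 0 ∨ m = 0) := by
  by_cases hc : κ ≤ m
  · by_cases hi : m - κ < 32 * p
    · exact ⟨0, m - κ, 0, by omega, by omega, by omega, by omega, Or.inl rfl⟩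
    · exact ⟨0, m - κ - 32 * p, 1, by omega, by omega, by omega, by omega, Or.inl rfl⟩
  · exact ⟨1, 32 * p - 1, 1, by omega, by omega, by omega, by omega, Or.inr (by omega)⟩

theorem log1 (s m κ : ℕ) (hm : m < 2 ^ (s + 6)) (hκ : κ ≤ 1) :
    ∃ κ' V ez : ℕ, κ' ≤ 1 ∧ ez ≤ 1 ∧ V < 2 ^ (s + 5) ∧
      V + ez * 2 ^ (s + 5) + κ = m + 2 ^ (s + 6) * κ' ∧ (κ' = 0 ∨ m = 0) := by
  obtain ⟨e2, e5, e6, e0⟩ := CellCov_pow s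
  rw [e6] at hm
  rw [e5, e6]
  exact CellCov_log1 (2 ^ s) m κ e0 hm hκ

private theorem CellCov_mod (W m S : ℕ) (hm : m < W) (h : S ≡ m [MOD W]) (hS : S < 2 * W) :
    ∃ κ' : ℕ, κ' ≤ 1 ∧ S = m + W * κ' := by
  have h1 : S % W = m := by
    have h2 : S % W = m % W := h
    rw [h2, Nat.mod_eq_of_lt hm]
  refine ⟨S / W, ?_, ?_⟩
  · have : S / W < 2 := Nat.div_lt_of_lt_mul (by omega)
    omega
  · have := Nat.mod_add_div S W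
    omega

theorem tag3 {g w : ℕ} {X : ℕ → Set ℕ} (hX : TagOK g w X) {N1 N2 N3 : ℕ} (h1 : N1 < 2 ^ g)
    (h2 : N2 < 2 ^ g) (h3 : N3 < 2 ^ g) (m κ : ℕ) (hm : m < 2 ^ w) (hκ : κ ≤ 1) :
    ∃ κ' : ℕ, κ' ≤ 1 ∧ ∃ t1 ∈ X N1, ∃ t2 ∈ X N2, ∃ t3 ∈ X N3,
      t1 + t2 + t3 + κ = m + 2 ^ w * κ' := by
  obtain ⟨t1, ht1, t2, ht2, t3, ht3, h⟩ := hX.cover N1 h1 N2 h2 N3 h3 (m + 2 ^ w - κ)
  have l1 := hX.lt N1 h1 t1 ht1
  have l2 := hX.lt N2 h2 t2 ht2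
  have l3 := hX.lt N3 h3 t3 ht3
  have hmod : t1 + t2 + t3 + κ ≡ m [MOD 2 ^ w] := by
    have e1 : t1 + t2 + t3 ≡ m + 2 ^ w - κ [MOD 2 ^ w] := h
    have e2 := e1.add_right κ
    have e3 : m + 2 ^ w - κ + κ = m + 2 ^ w := by omega
    rw [e3] at e2
    exact e2.trans (by simp [Nat.ModEq])
  obtain ⟨κ', hκ', hS⟩ := CellCov_mod _ _ _ hm hmod (by omega)
  exact ⟨κ', hκ', t1, ht1, t2, ht2, t3, ht3, hS⟩

theorem tag2 (w m κ τ : ℕ) (hm : m < 2 ^ w) (hκ : κ ≤ 1) (hτ : τ + 1 < 2 ^ w) :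
    ∃ κ' t : ℕ, κ' ≤ 1 ∧ t < 2 ^ w ∧ τ + t + κ = m + 2 ^ w * κ' := by
  have hpos : 0 < 2 ^ w := by omega
  have ht := Nat.mod_lt (m + 2 * 2 ^ w - κ - τ) hpos
  set t := (m + 2 * 2 ^ w - κ - τ) % 2 ^ w with htdef
  have hmod : τ + t + κ ≡ m [MOD 2 ^ w] := by
    have e1 : t ≡ m + 2 * 2 ^ w - κ - τ [MOD 2 ^ w] := Nat.mod_modEq _ _
    have e2 := (e1.add_left τ).add_right κ
    have e3 : τ + (m + 2 * 2 ^ w - κ - τ) + κ = m + 2 * 2 ^ w := by omega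
    rw [e3] at e2
    refine e2.trans ?_
    have : m + 2 * 2 ^ w = m + 2 ^ w * 2 := by ring
    rw [this]
    simp [Nat.ModEq]
  obtain ⟨κ', hκ', hS⟩ := CellCov_mod _ _ _ hm hmod (by omega)
  exact ⟨κ', t, hκ', ht, hS⟩

theorem tag1 (w m κ : ℕ) (hm : m < 2 ^ w) (hκ : κ ≤ 1) :
    ∃ κ' t : ℕ, κ' ≤ 1 ∧ t < 2 ^ w ∧ t + κ = m + 2 ^ w * κ' ∧ (κ' = 0 ∨ (κ = 1 ∧ m = 0)) := by
  by_cases hc : κ ≤ m
  · exact ⟨0, m - κ, by omega, by omega, by omega, Or.inl rfl⟩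
  · exact ⟨1, 2 ^ w - 1, by omega, by omega, by omega, Or.inr ⟨by omega, by omega⟩⟩

end Pool.Agent.SBP
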