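import Mathlib

/-!
# SBP.Choice : choice of lam, gam, d2, d3

PROOF.  √2 < a + b, a ≤ b ≤ 1 (so a > 0.41).  By continuity choose lam > 1 with lam < 3/2 and (1 + √2) < 1 + (a + b) / lam^3 and lam - 1 < lam/5 (lam < 5/4);
d2 := k + 1 where k ≥ 1 is the least natural number with lam^(-k) < b, that is 1 < b lam^k (exists as lam^k → ∞); minimality and b ≤ 1 give b lam^(k-1) ≤ 1
(for k = 1 this is b ≤ 1), so b lam^(d2) ≤ lam^2, lam^(-d2) ≥ b / lam^2.  d3 := k' + 1 where k' > k is the least number > k with 1 < a lam^(k').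
If k' > k + 1 then a lam^(k'-1) ≤ 1, lam^(-d3) ≥ a / lam^2; if k' = k + 1 then lam^(-d3) = lam^(-d2-1) ≥ b / lam^3 ≥ a / lam^3.
So 1 + lam^(-d2) + lam^(-d3) ≥ 1 + (a + b)/lam^3 > 1 + √2 = 1/(√2 - 1); choose gam with 1/(1 + lam^(-d2) + lam^(-d3)) < gam < √2 - 1 and gam ≥ 1/5, gam ≤ 1/2
(√2 - 1 = 0.414..., the maximum of the two lower bounds is < √2 - 1; take the midpoint).
1 < b lam^k is lam < b lam^(d2); the same for a.
-/

namespace Pool.Agent.SBP

theorem choice (a b : ℝ) (hab : a ≤ b) (hb : b ≤ 1) (h : Real.sqrt 2 < a + b) :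
    ∃ (lam gam : ℝ) (d2 d3 : ℕ), 1 < lam ∧ 1 / 5 ≤ gam ∧ gam ≤ 1 / 2 ∧ gam < Real.sqrt 2 - 1 ∧
      lam - 1 < gam * lam ∧ 2 ≤ d2 ∧ d2 < d3 ∧ lam < b * lam ^ d2 ∧ lam < a * lam ^ d3 ∧
      lam ^ d3 < gam * (lam ^ d3 + lam ^ (d3 - d2) + 1) := by
  have hs0 : (0 : ℝ) ≤ 2 := by norm_num
  have hs : Real.sqrt 2 * Real.sqrt 2 = 2 := Real.mul_self_sqrt hs0
  have hs1 : (1.41 : ℝ) < Real.sqrt 2 := by
    rw [Real.lt_sqrt (by norm_num)]
    norm_num
  have hs2 : Real.sqrt 2 < 1.42 := by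
    rw [Real.sqrt_lt' (by norm_num)]
    norm_num
  have ha : 0 < a := by linarith
  have hb0 : 0 < b := by linarith
  -- choice of lam
  obtain ⟨lam, hl1, hl2, hl3⟩ : ∃ lam : ℝ, 1 < lam ∧ lam < 5 / 4 ∧
      Real.sqrt 2 * lam ^ 3 < a + b := by
    set e : ℝ := (a + b - Real.sqrt 2) / 16 with he
    have he0 : 0 < e := by rw [he]; linarith
    have he1 : e < 1 / 16 := by rw [he]; linarith
    refine ⟨1 + e, by linarith, by linarith, ?_⟩
    have h1 : (1 + e) ^ 3 ≤ 1 + 4 * e := by nlinarith [mul_pos he0 he0, mul_pos (mul_pos he0 he0) he0]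
    have h2 : Real.sqrt 2 * (1 + e) ^ 3 ≤ Real.sqrt 2 * (1 + 4 * e) :=
      mul_le_mul_of_nonneg_left h1 (Real.sqrt_nonneg 2)
    have h3 : Real.sqrt 2 * e ≤ 1.42 * e := mul_le_mul_of_nonneg_right hs2.le he0.le
    have h4 : a + b = Real.sqrt 2 + 16 * e := by rw [he]; ring
    nlinarith
  have hl0 : 0 < lam := by linarith
  -- choice of k
  have hex : ∃ k : ℕ, 1 < b * lam ^ k := by
    obtain ⟨n, hn⟩ := pow_unbounded_of_one_lt (1 / b) hl1
    refine ⟨n, ?_⟩
    rw [div_lt_iff₀ hb0] at hn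
    linarith
  obtain ⟨k, hk1, hk2, hk3⟩ : ∃ k : ℕ, 1 ≤ k ∧ 1 < b * lam ^ k ∧ b * lam ^ (k - 1) ≤ 1 := by
    classical
    refine ⟨Nat.find hex, ?_, Nat.find_spec hex, ?_⟩
    · rw [Nat.one_le_iff_ne_zero]
      intro h0
      have h1 := Nat.find_spec hex
      rw [h0, pow_zero, mul_one] at h1
      linarith
    · by_cases h0 : Nat.find hex = 0
      · have h1 := Nat.find_spec hex
        rw [h0, pow_zero, mul_one] at h1
        linarith
      · exact not_lt.1 (Nat.find_min hex (Nat.sub_lt (Nat.pos_of_ne_zero h0) one_pos))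
  have hex' : ∃ m : ℕ, k < m ∧ 1 < a * lam ^ m := by
    obtain ⟨n, hn⟩ := pow_unbounded_of_one_lt (1 / a) hl1
    refine ⟨max n (k + 1), lt_of_lt_of_le (Nat.lt_succ_self k) (le_max_right _ _), ?_⟩
    rw [div_lt_iff₀ ha] at hn
    have h1 : lam ^ n ≤ lam ^ max n (k + 1) := pow_le_pow_right₀ hl1.le (le_max_left _ _)
    nlinarith
  obtain ⟨m, hm1, hm2, hm3⟩ : ∃ m : ℕ, k < m ∧ 1 < a * lam ^ m ∧
      (m = k + 1 ∨ a * lam ^ (m - 1) ≤ 1) := by
    classical
    refine ⟨Nat.find hex', (Nat.find_spec hex').1, (Nat.find_spec hex').2, ?_⟩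
    by_cases h0 : Nat.find hex' = k + 1
    · exact Or.inl h0
    · right
      have h1 := (Nat.find_spec hex').1
      have h2 := Nat.find_min hex' (m := Nat.find hex' - 1) (Nat.sub_lt (by omega) one_pos)
      rw [not_and, not_lt] at h2
      exact h2 (by omega)
  have hlk : lam ^ (k + 1) = lam ^ k * lam := pow_succ _ _
  have hbk : b * lam ^ (k + 1) ≤ lam ^ 3 := by
    have h1 : lam ^ (k + 1) = lam ^ (k - 1) * lam ^ 2 := by
      rw [← pow_add]; congr 1; omega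
    have h2 : lam ^ 2 ≤ lam ^ 3 := pow_le_pow_right₀ hl1.le (by norm_num)
    have h3 : 0 < lam ^ 2 := by positivity
    rw [h1]
    nlinarith
  have ham : a * lam ^ (m + 1) ≤ lam ^ 3 := by
    rcases hm3 with h0 | h0
    · have h1 : lam ^ (m + 1) = lam ^ (k - 1) * lam ^ 3 := by
        rw [← pow_add]; congr 1; omega
      have h3 : 0 < lam ^ 3 := by positivity
      have h4 : 0 < lam ^ (k - 1) := by positivity
      have h5 : a * lam ^ (k - 1) ≤ 1 := le_trans (mul_le_mul_of_nonneg_right hab h4.le) hk3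
      rw [h1]
      nlinarith
    · have h1 : lam ^ (m + 1) = lam ^ (m - 1) * lam ^ 2 := by
        rw [← pow_add]; congr 1; omega
      have h2 : lam ^ 2 ≤ lam ^ 3 := pow_le_pow_right₀ hl1.le (by norm_num)
      have h3 : 0 < lam ^ 2 := by positivity
      rw [h1]
      nlinarith
  set D : ℝ := lam ^ (m + 1) with hD
  set T : ℝ := lam ^ (m + 1 - (k + 1)) with hT
  have hD0 : 0 < D := by rw [hD]; positivity
  have hT0 : 0 < T := by rw [hT]; positivity
  have hDT : D = lam ^ (k + 1) * T := by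
    rw [hD, hT, ← pow_add]; congr 1; omega
  have hl30 : 0 < lam ^ 3 := by positivity
  have hbD : b * D ≤ lam ^ 3 * T := by
    rw [hDT]
    nlinarith
  have hS : Real.sqrt 2 * D < T + 1 := by
    have h1 : (a + b) * D ≤ lam ^ 3 * (T + 1) := by nlinarith
    have h2 : Real.sqrt 2 * lam ^ 3 * D < (a + b) * D := mul_lt_mul_of_pos_right hl3 hD0
    have h3 : lam ^ 3 * (Real.sqrt 2 * D) < lam ^ 3 * (T + 1) := by nlinarith
    exact lt_of_mul_lt_mul_left h3 hl30.le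
  set S : ℝ := D + T + 1 with hSdef
  have hS0 : 0 < S := by rw [hSdef]; linarith
  have hg : D / S < Real.sqrt 2 - 1 := by
    rw [div_lt_iff₀ hS0, hSdef]
    have h1 : 0 < Real.sqrt 2 - 1 := by linarith
    nlinarith
  have hg0 : 0 < D / S := div_pos hD0 hS0
  refine ⟨lam, (D / S + (Real.sqrt 2 - 1)) / 2, k + 1, m + 1, hl1, by linarith, by linarith,
    by linarith, ?_, by omega, by omega, ?_, ?_, ?_⟩
  · have h1 : 1 / 5 < (D / S + (Real.sqrt 2 - 1)) / 2 := by linarith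
    nlinarith
  · rw [hlk]
    nlinarith
  · have h1 : lam ^ (m + 1) = lam ^ m * lam := pow_succ _ _
    rw [h1]
    nlinarith
  · have h1 : D / S < (D / S + (Real.sqrt 2 - 1)) / 2 := by linarith
    have h2 : D / S * S = D := div_mul_cancel₀ _ hS0.ne'
    have h3 : D / S * S < (D / S + (Real.sqrt 2 - 1)) / 2 * S := mul_lt_mul_of_pos_right h1 hS0
    rw [h2] at h3
    exact h3

end Pool.Agent.SBP
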