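import Mathlib

/-!
# SBP.Compact : compactness

PROOF of compact_choice.  Let U be a nonprincipal ultrafilter on ℕ (Filter.hyperfilter ℕ).  For every i the type A i is finite, so there is
E i : A i with {n | D n i = E i} ∈ U (the finite union of these sets over A i is univ: Ultrafilter.finite_sUnion_mem_iff /
Ultrafilter.eventually_exists_mem_iff, or by contradiction with Filter.iInter_mem).  For a finset F and n0 the set
{n | n0 ≤ n ∧ ∀ i ∈ F, D n i = E i} is in U (Filter.hyperfilter_le_cofinite for the first part), so it is nonempty.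
-/

namespace Pool.Agent.SBP

theorem compact_choice {ι : Type*} {A : ι → Type*} [∀ i, Finite (A i)] (D : ℕ → ∀ i, A i) :
    ∃ E : ∀ i, A i, ∀ (F : Finset ι) (n0 : ℕ), ∃ n, n0 ≤ n ∧ ∀ i ∈ F, D n i = E i := by
  classical
  set U : Ultrafilter ℕ := Filter.hyperfilter ℕ with hU
  have h1 : ∀ i, ∃ a : A i, ∀ᶠ n in (U : Filter ℕ), D n i = a := by
    intro i
    have h2 : ∀ᶠ n in (U : Filter ℕ), ∃ a : A i, D n i = a :=
      Filter.Eventually.of_forall fun n => ⟨_, rfl⟩
    exact (Ultrafilter.eventually_exists_iff).1 h2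
  choose E hE using h1
  refine ⟨E, fun F n0 => ?_⟩
  have h3 : ∀ᶠ n in (U : Filter ℕ), ∀ i ∈ F, D n i = E i :=
    (Filter.eventually_all_finset F).2 fun i _ => hE i
  have h4 : ∀ᶠ n in (U : Filter ℕ), n0 ≤ n := by
    have h5 : (U : Filter ℕ) ≤ Filter.cofinite := Filter.hyperfilter_le_cofinite
    apply h5
    rw [Nat.cofinite_eq_atTop]
    exact Filter.eventually_ge_atTop n0
  obtain ⟨n, hn1, hn2⟩ := (h4.and h3).exists
  exact ⟨n, hn1, hn2⟩

end Pool.Agent.SBP
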