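import Pool.Agent.Lib.SBP.Defs2

/-!
# SBP.Digit : digits

exact_cell: mod 2^h the two sides are lo1 + lo2 and lo3 + lo4 (both < 2^h), so they agree; divide by 2^h:
(w1 + w2) + 2^k (t1 + t2) + 2^(k+β) (R1 + R2) = the same with 3, 4; w1 + w2 < 2^k gives w1 + w2 = w3 + w4 and then
t1 + t2 < 2^β gives t1 + t2 = t3 + t4.
lab_lt: if b ≤ T + D then c < 2^(b^3) ≤ 2^((T+D)^3), otherwise the field is 0; so
lab ≤ (M - 1) + M (2^((T+D)^3) - 1) < M 2^((T+D)^3) ≤ 2^(M + (T+D)^3) (M ≤ 2^M).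
val_low: all cells i ≤ T are low, so e = 0, w i < 2^(s i + 5), 2 t i < 2^(β i) (TagOK.lt and lab_lt).
lo = Σ_{i<T} (w i + 2^(s i + 6) t i) 2^(hh i); by induction on n ≤ T: 2 Σ_{i<n} < 2^(hh n) (n = 0: 0 < 1;
step: 2 w i + 2 ≤ 2^(s i + 6), 2 t i + 2 ≤ 2^(β i) (parity, β i ≥ 1), so
2 (w i + 2^(s i + 6) t i) + 2 ≤ 2^(s i + 6 + β i) ).  The rest R = Σ_{T < i < b} cell i * 2^(hh i - hh (T+1)).
val_abs: val < 2^(hh b) by induction (cell i < 2^(s i + 6 + β i): w + e 2^(s+5) < 2^(s+6), t < 2^(β i): low: TagOK.lt,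
wide: t < (f + 1) 2^(β - 1) ≤ 2^β), and 2 * 2^(hh b) ≤ 2^(hh (b + 1)) ≤ 2^(hh T).
digits_unique: induction on n from the top or from the bottom (mod 2^(hh n)); the sum over T < n is < 2^(hh n).
-/

namespace Pool.Agent.SBP

open Finset

private theorem Digit_split {A x y X Y : ℕ} (hx : x < A) (hy : y < A)
    (e : x + A * X = y + A * Y) : x = y ∧ X = Y := by
  have hA : 0 < A := by omega
  have h1 := congrArg (fun z => z % A) e
  have h2 := congrArg (fun z => z / A) e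
  simp only [Nat.add_mul_mod_self_left, Nat.add_mul_div_left _ _ hA] at h1 h2
  rw [Nat.mod_eq_of_lt hx, Nat.mod_eq_of_lt hy] at h1
  rw [Nat.div_eq_of_lt hx, Nat.div_eq_of_lt hy, zero_add, zero_add] at h2
  exact ⟨h1, h2⟩

private theorem Digit_hh_succ (P : Par) (n : ℕ) : P.hh (n + 1) = P.hh n + (P.s n + 6 + P.β n) := by
  unfold Par.hh
  rw [Finset.sum_range_succ]

private theorem Digit_hh_mono (P : Par) {m n : ℕ} (h : m ≤ n) : P.hh m ≤ P.hh n := by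
  induction n, h using Nat.le_induction with
  | base => exact le_refl _
  | succ n _ ih => rw [Digit_hh_succ]; omega

private theorem Digit_beta_pos (P : Par) (T : ℕ) : 1 ≤ P.β T := by
  unfold Par.β Par.g Par.M
  omega

private theorem Digit_sum_lt (P : Par) (n : ℕ) (c : ℕ → ℕ)
    (hc : ∀ T < n, c T < 2 ^ (P.s T + 6 + P.β T)) :
    ∑ T ∈ range n, c T * 2 ^ P.hh T < 2 ^ P.hh n := by
  induction n with
  | zero => simp [Par.hh]
  | succ n ih =>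
    rw [Finset.sum_range_succ, Digit_hh_succ, pow_add]
    have h1 := ih (fun T hT => hc T (by omega))
    have h2 : c n + 1 ≤ 2 ^ (P.s n + 6 + P.β n) := hc n (by omega)
    calc ∑ T ∈ range n, c T * 2 ^ P.hh T + c n * 2 ^ P.hh n
        < 2 ^ P.hh n + c n * 2 ^ P.hh n := by omega
      _ = 2 ^ P.hh n * (c n + 1) := by ring
      _ ≤ 2 ^ P.hh n * 2 ^ (P.s n + 6 + P.β n) := Nat.mul_le_mul_left _ h2

private theorem Digit_sum_lt2 (P : Par) (n : ℕ) (c : ℕ → ℕ)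
    (hc : ∀ T < n, 2 * c T < 2 ^ (P.s T + 6 + P.β T)) :
    2 * ∑ T ∈ range n, c T * 2 ^ P.hh T < 2 ^ P.hh n := by
  have h := Digit_sum_lt P n (fun T => 2 * c T) hc
  rw [Finset.mul_sum]
  refine lt_of_eq_of_lt ?_ h
  exact Finset.sum_congr rfl fun T _ => by ring

theorem exact_cell {h k β lo1 lo2 lo3 lo4 w1 w2 w3 w4 t1 t2 t3 t4 R1 R2 R3 R4 : ℕ}
    (l1 : 2 * lo1 < 2 ^ h) (l2 : 2 * lo2 < 2 ^ h) (l3 : 2 * lo3 < 2 ^ h) (l4 : 2 * lo4 < 2 ^ h)
    (a1 : 2 * w1 < 2 ^ k) (a2 : 2 * w2 < 2 ^ k) (a3 : 2 * w3 < 2 ^ k) (a4 : 2 * w4 < 2 ^ k)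
    (b1 : 2 * t1 < 2 ^ β) (b2 : 2 * t2 < 2 ^ β) (b3 : 2 * t3 < 2 ^ β) (b4 : 2 * t4 < 2 ^ β)
    (e : (lo1 + 2 ^ h * (w1 + 2 ^ k * t1) + 2 ^ (h + k + β) * R1) +
         (lo2 + 2 ^ h * (w2 + 2 ^ k * t2) + 2 ^ (h + k + β) * R2) =
         (lo3 + 2 ^ h * (w3 + 2 ^ k * t3) + 2 ^ (h + k + β) * R3) +
         (lo4 + 2 ^ h * (w4 + 2 ^ k * t4) + 2 ^ (h + k + β) * R4)) :
    w1 + w2 = w3 + w4 ∧ t1 + t2 = t3 + t4 := by
  have e1 : (lo1 + lo2) + 2 ^ h * ((w1 + w2) + 2 ^ k * ((t1 + t2) + 2 ^ β * (R1 + R2))) =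
      (lo3 + lo4) + 2 ^ h * ((w3 + w4) + 2 ^ k * ((t3 + t4) + 2 ^ β * (R3 + R4))) := by
    rw [pow_add, pow_add] at e
    linear_combination e
  have h1 := Digit_split (by omega) (by omega) e1
  have h2 := Digit_split (by omega) (by omega) h1.2
  have h3 := Digit_split (by omega) (by omega) h2.2
  exact ⟨h2.1, h3.1⟩

theorem lab_lt (P : Par) {b c : ℕ} (hc : c < P.Γ b) (T : ℕ) : P.lab b c T < 2 ^ P.g T := by
  have hM : 0 < P.M := by unfold Par.M; omega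
  have h1 : b % P.M < P.M := Nat.mod_lt _ hM
  have h2 : (if b ≤ T + P.D then c else 0) + 1 ≤ 2 ^ (T + P.D) ^ 3 := by
    split_ifs with h
    · unfold Par.Γ at hc
      exact lt_of_lt_of_le hc (Nat.pow_le_pow_right (by norm_num) (Nat.pow_le_pow_left h 3))
    · rw [zero_add]
      exact Nat.one_le_two_pow
  have h3 : P.M ≤ 2 ^ P.M := Nat.lt_two_pow_self.le
  unfold Par.lab Par.g
  calc b % P.M + P.M * (if b ≤ T + P.D then c else 0)
      < P.M + P.M * (if b ≤ T + P.D then c else 0) := by omega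
    _ = P.M * ((if b ≤ T + P.D then c else 0) + 1) := by ring
    _ ≤ 2 ^ P.M * 2 ^ (T + P.D) ^ 3 := Nat.mul_le_mul h3 h2
    _ = 2 ^ ((T + P.D) ^ 3 + P.M) := by rw [← pow_add, add_comm]

private theorem Digit_low_tag (P : Par) (h : P.OK) {e f : ℕ → ℕ → ℕ → ℕ} {u : Elt}
    (hu : u.Valid P e f) {T : ℕ} (hT : T + P.d0 < u.b) : 2 * u.t T < 2 ^ P.β T :=
  (h.X T).lt _ (lab_lt P hu.c T) _ (hu.lowt T hT)

private theorem Digit_cell2 {s β w t : ℕ} (hβ : 1 ≤ β) (hw : w < 2 ^ (s + 5))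
    (ht : 2 * t < 2 ^ β) : 2 * (w + 2 ^ (s + 6) * t) < 2 ^ (s + 6 + β) := by
  obtain ⟨β, rfl⟩ : ∃ x, β = x + 1 := ⟨β - 1, by omega⟩
  have h1 : t + 1 ≤ 2 ^ β := by
    rw [pow_succ] at ht
    omega
  have h2 : 2 * (w + 2 ^ (s + 6) * t) < 2 ^ (s + 6) * (2 * (t + 1)) := by
    have h3 : 2 ^ (s + 6) = 2 * 2 ^ (s + 5) := by rw [pow_succ]; ring
    have h4 : 2 ^ (s + 6) * (2 * (t + 1)) = 2 * (2 ^ (s + 6) * t) + 2 * 2 ^ (s + 6) := by ring
    rw [h4]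
    omega
  calc 2 * (w + 2 ^ (s + 6) * t) < 2 ^ (s + 6) * (2 * (t + 1)) := h2
    _ ≤ 2 ^ (s + 6) * (2 * 2 ^ β) := Nat.mul_le_mul_left _ (by omega)
    _ = 2 ^ (s + 6 + (β + 1)) := by rw [← pow_succ', ← pow_add]

theorem val_low (P : Par) (h : P.OK) {e f : ℕ → ℕ → ℕ → ℕ} {u : Elt} (hu : u.Valid P e f)
    {T : ℕ} (hT : T + P.d0 < u.b) : ∃ lo R : ℕ, 2 * lo < 2 ^ P.hh T ∧
      u.val P e = lo + 2 ^ P.hh T * (u.w T + 2 ^ (P.s T + 6) * u.t T) +
        2 ^ (P.hh T + (P.s T + 6) + P.β T) * R := by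
  obtain ⟨r, hr⟩ : ∃ r, u.b = (T + 1) + r := ⟨u.b - (T + 1), by omega⟩
  refine ⟨∑ i ∈ range T, (u.w i + 2 ^ (P.s i + 6) * u.t i) * 2 ^ P.hh i,
    ∑ i ∈ range r, (u.w (T + 1 + i) + e u.b u.c (T + 1 + i) * 2 ^ (P.s (T + 1 + i) + 5) +
      2 ^ (P.s (T + 1 + i) + 6) * u.t (T + 1 + i)) * 2 ^ (P.hh (T + 1 + i) - P.hh (T + 1)),
    ?_, ?_⟩
  · apply Digit_sum_lt2
    intro i hi
    exact Digit_cell2 (Digit_beta_pos P i) (hu.w i (by omega))
      (Digit_low_tag P h hu (by omega))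
  · unfold Elt.val
    have hsplit : ∀ g : ℕ → ℕ, ∑ i ∈ range u.b, g i =
        (∑ i ∈ range T, g i + g T) + ∑ i ∈ range r, g (T + 1 + i) := by
      intro g
      rw [hr, Finset.sum_range_add, Finset.sum_range_succ]
    rw [hsplit]
    congr 1
    · congr 1
      · apply Finset.sum_congr rfl
        intro i hi
        rw [Finset.mem_range] at hi
        rw [hu.lowe i (by omega)]
        ring
      · rw [hu.lowe T hT]
        ring
    · rw [Finset.mul_sum]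
      apply Finset.sum_congr rfl
      intro i _
      have h1 : P.hh T + (P.s T + 6) + P.β T = P.hh (T + 1) := by
        rw [Digit_hh_succ]
        ring
      have h2 : P.hh (T + 1) ≤ P.hh (T + 1 + i) := Digit_hh_mono P (by omega)
      rw [h1]
      have h3 : (2 : ℕ) ^ P.hh (T + 1 + i) =
          2 ^ P.hh (T + 1) * 2 ^ (P.hh (T + 1 + i) - P.hh (T + 1)) := by
        rw [← pow_add, Nat.add_sub_cancel' h2]
      rw [h3]
      ring

theorem val_abs (P : Par) (h : P.OK) {e f : ℕ → ℕ → ℕ → ℕ} {u : Elt} (hu : u.Valid P e f)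
    {T : ℕ} (hT : u.b < T) : 2 * u.val P e < 2 ^ P.hh T := by
  have h1 : u.val P e < 2 ^ P.hh u.b := by
    unfold Elt.val
    apply Digit_sum_lt P u.b
      (fun T => u.w T + e u.b u.c T * 2 ^ (P.s T + 5) + 2 ^ (P.s T + 6) * u.t T)
    intro i hi
    have hw := hu.w i hi
    have he := hu.e1 i
    have hw2 : u.w i + e u.b u.c i * 2 ^ (P.s i + 5) < 2 ^ (P.s i + 6) := by
      have h3 : (2 : ℕ) ^ (P.s i + 6) = 2 * 2 ^ (P.s i + 5) := by rw [pow_succ]; ring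
      have h4 : e u.b u.c i * 2 ^ (P.s i + 5) ≤ 1 * 2 ^ (P.s i + 5) := Nat.mul_le_mul_right _ he
      rw [h3]
      omega
    have ht : u.t i + 1 ≤ 2 ^ P.β i := by
      by_cases hlow : i + P.d0 < u.b
      · have := Digit_low_tag P h hu hlow
        omega
      · have h5 := (hu.widet i hi (by omega)).2
        have h6 : (f u.b u.c i + 1) * 2 ^ (P.β i - 1) ≤ 2 * 2 ^ (P.β i - 1) :=
          Nat.mul_le_mul_right _ (by have := hu.f1 i; omega)
        have h7 : 2 * 2 ^ (P.β i - 1) = 2 ^ P.β i := by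
          have h8 : P.β i - 1 + 1 = P.β i := Nat.sub_add_cancel (Digit_beta_pos P i)
          rw [← pow_succ', h8]
        omega
    calc u.w i + e u.b u.c i * 2 ^ (P.s i + 5) + 2 ^ (P.s i + 6) * u.t i
        < 2 ^ (P.s i + 6) + 2 ^ (P.s i + 6) * u.t i := by omega
      _ = 2 ^ (P.s i + 6) * (u.t i + 1) := by ring
      _ ≤ 2 ^ (P.s i + 6) * 2 ^ P.β i := Nat.mul_le_mul_left _ ht
      _ = 2 ^ (P.s i + 6 + P.β i) := by rw [pow_add (2 : ℕ) (P.s i + 6)]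
  have h2 : P.hh u.b + 1 ≤ P.hh T := by
    have h3 : P.hh (u.b + 1) ≤ P.hh T := Digit_hh_mono P (by omega)
    rw [Digit_hh_succ] at h3
    omega
  calc 2 * u.val P e < 2 * 2 ^ P.hh u.b := by omega
    _ = 2 ^ (P.hh u.b + 1) := by rw [pow_succ]; ring
    _ ≤ 2 ^ P.hh T := Nat.pow_le_pow_right (by norm_num) h2

private theorem Digit_cell_lt {s β w t : ℕ} (hw : w < 2 ^ (s + 6)) (ht : t < 2 ^ β) :
    w + 2 ^ (s + 6) * t < 2 ^ (s + 6 + β) := by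
  calc w + 2 ^ (s + 6) * t < 2 ^ (s + 6) + 2 ^ (s + 6) * t := by omega
    _ = 2 ^ (s + 6) * (t + 1) := by ring
    _ ≤ 2 ^ (s + 6) * 2 ^ β := Nat.mul_le_mul_left _ ht
    _ = 2 ^ (s + 6 + β) := by rw [pow_add (2 : ℕ) (s + 6)]

theorem digits_unique (P : Par) (n : ℕ) (w t w' t' : ℕ → ℕ)
    (hw : ∀ T < n, w T < 2 ^ (P.s T + 6)) (ht : ∀ T < n, t T < 2 ^ P.β T)
    (hw' : ∀ T < n, w' T < 2 ^ (P.s T + 6)) (ht' : ∀ T < n, t' T < 2 ^ P.β T)
    (e : ∑ T ∈ range n, (w T + 2 ^ (P.s T + 6) * t T) * 2 ^ P.hh T =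
      ∑ T ∈ range n, (w' T + 2 ^ (P.s T + 6) * t' T) * 2 ^ P.hh T) :
    ∀ T < n, w T = w' T ∧ t T = t' T := by
  induction n with
  | zero => intro T hT; omega
  | succ n ih =>
    rw [Finset.sum_range_succ, Finset.sum_range_succ] at e
    have h1 := Digit_sum_lt P n (fun T => w T + 2 ^ (P.s T + 6) * t T)
      (fun T hT => Digit_cell_lt (hw T (by omega)) (ht T (by omega)))
    have h2 := Digit_sum_lt P n (fun T => w' T + 2 ^ (P.s T + 6) * t' T)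
      (fun T hT => Digit_cell_lt (hw' T (by omega)) (ht' T (by omega)))
    rw [mul_comm _ (2 ^ P.hh n), mul_comm _ (2 ^ P.hh n)] at e
    have h3 := Digit_split h1 h2 e
    have h4 := Digit_split (hw n (by omega)) (hw' n (by omega)) h3.2
    intro T hT
    rcases Nat.lt_succ_iff_lt_or_eq.1 hT with h5 | h5
    · exact ih (fun T hT => hw T (by omega)) (fun T hT => ht T (by omega))
        (fun T hT => hw' T (by omega)) (fun T hT => ht' T (by omega)) h3.1 T h5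
    · rw [h5]
      exact h4

end Pool.Agent.SBP
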