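import Pool.Agent.Lib.SBP.Align
import Pool.Agent.Lib.SBP.Digit

/-!
# SBP.Core : four valid elements with val1 + val2 = val3 + val4

PROOF.  STEP 1 (ExOK at every exact T, then align).  Let T be exact.  For each i: if T + d0 < bi use val_low
(w i = ui.w T < 2^(s T + 5), t i = ui.t T ∈ X T (lab), 2 t i < 2^β by TagOK.lt); if bi < T use
val_abs: val = lo + 0 with w = t = R = 0.  exact_cell with h = hh T, k = s T + 6, β = β T gives
t1 + t2 = t3 + t4.  All labels are < 2^(g T) (lab_lt).  All four low: TagOK.two.  Three low: TagOK.three.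
Two low on one side, none on the other: TagOK.pos.  One low on each side: t = t', TagOK.one gives equal labels.
Exactly one low: TagOK.pos.  None low: last case of ExOK.  So ExOK holds and align applies.
STEP 2.  By the symmetry 3 <-> 4 assume b1 = b3, c1 = c3, b2 = b4, c2 = c4.  For each element put
t' T = t T - (if b ≤ T + d0 then f b c T else 0) * 2^(β T - 1); then 2 t' T < 2^(β T) for all T < b (low: TagOK.lt;
wide: widet), and val = Σ_{T<b} (w + 2^(s+6) t') 2^hh + E(b,c), where E(b,c) = Σ_{T<b} (e b c T 2^(s+5) +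
2^(s+6) (if b ≤ T + d0 then f b c T else 0) 2^(β-1)) 2^hh depends only on b, c (and e, f).  So the sums without E agree.
Extend w and t' by 0 to T ≥ b, add the sums over range n, n = max b1 b2, and apply digits_unique to
W = w1 + w2 < 2^(s+6), t1' + t2' < 2^β (β T ≥ 1) and the same for 3, 4.  For T ≥ n everything is 0.
-/

namespace Pool.Agent.SBP

open Finset

private theorem Core_beta (P : Par) (T : ℕ) : 1 ≤ P.β T := by
  unfold Par.β Par.g Par.M
  omega

private theorem Core_two (a : ℕ) (h : 1 ≤ a) : 2 * 2 ^ (a - 1) = 2 ^ a := by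
  obtain ⟨b, rfl⟩ : ∃ b, a = b + 1 := ⟨a - 1, by omega⟩
  rw [Nat.add_sub_cancel, pow_succ]
  ring

private theorem Core_low (P : Par) (h : P.OK) {e f : ℕ → ℕ → ℕ → ℕ} {u : Elt}
    (hu : u.Valid P e f) {T : ℕ} (hT : T + P.d0 < u.b) : 2 * u.t T < 2 ^ P.β T :=
  (h.X T).lt _ (lab_lt P hu.c T) _ (hu.lowt T hT)

/-- the data of an element at an exact cell -/
private theorem Core_data (P : Par) (h : P.OK) {e f : ℕ → ℕ → ℕ → ℕ} {u : Elt}
    (hu : u.Valid P e f) {T : ℕ} (hT : T + P.d0 < u.b ∨ u.b < T) :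
    ∃ lo R w t : ℕ, 2 * lo < 2 ^ P.hh T ∧ 2 * w < 2 ^ (P.s T + 6) ∧ 2 * t < 2 ^ P.β T ∧
      u.val P e = lo + 2 ^ P.hh T * (w + 2 ^ (P.s T + 6) * t) +
        2 ^ (P.hh T + (P.s T + 6) + P.β T) * R ∧
      ((T + P.d0 < u.b ∧ t ∈ P.X T (P.lab u.b u.c T)) ∨ (u.b < T ∧ t = 0)) := by
  rcases hT with hT | hT
  · obtain ⟨lo, R, h1, h2⟩ := val_low P h hu hT
    refine ⟨lo, R, u.w T, u.t T, h1, ?_, Core_low P h hu hT, h2, Or.inl ⟨hT, hu.lowt T hT⟩⟩
    have h3 := hu.w T (by omega)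
    have h4 : 2 ^ (P.s T + 6) = 2 * 2 ^ (P.s T + 5) := by
      rw [pow_succ]
      ring
    omega
  · refine ⟨u.val P e, 0, 0, 0, val_abs P h hu hT, by positivity, by positivity, by ring,
      Or.inr ⟨hT, rfl⟩⟩

private theorem Core_ex (P : Par) (h : P.OK) {e f : ℕ → ℕ → ℕ → ℕ} {u1 u2 u3 u4 : Elt}
    (h1 : u1.Valid P e f) (h2 : u2.Valid P e f) (h3 : u3.Valid P e f) (h4 : u4.Valid P e f)
    (hs : u1.val P e + u2.val P e = u3.val P e + u4.val P e) (T : ℕ)
    (a1 : T + P.d0 < u1.b ∨ u1.b < T) (a2 : T + P.d0 < u2.b ∨ u2.b < T)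
    (a3 : T + P.d0 < u3.b ∨ u3.b < T) (a4 : T + P.d0 < u4.b ∨ u4.b < T) :
    ExOK P u1.b u2.b u3.b u4.b u1.c u2.c u3.c u4.c T := by
  obtain ⟨lo1, R1, w1, t1, p1, q1, r1, s1, m1⟩ := Core_data P h h1 a1
  obtain ⟨lo2, R2, w2, t2, p2, q2, r2, s2, m2⟩ := Core_data P h h2 a2
  obtain ⟨lo3, R3, w3, t3, p3, q3, r3, s3, m3⟩ := Core_data P h h3 a3
  obtain ⟨lo4, R4, w4, t4, p4, q4, r4, s4, m4⟩ := Core_data P h h4 a4
  rw [s1, s2, s3, s4] at hs
  have ht : t1 + t2 = t3 + t4 :=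
    (exact_cell p1 p2 p3 p4 q1 q2 q3 q4 r1 r2 r3 r4 hs).2
  have l1 := lab_lt P h1.c T
  have l2 := lab_lt P h2.c T
  have l3 := lab_lt P h3.c T
  have l4 := lab_lt P h4.c T
  have hX := h.X T
  unfold ExOK
  rcases m1 with ⟨m1, n1⟩ | ⟨m1, n1⟩ <;> rcases m2 with ⟨m2, n2⟩ | ⟨m2, n2⟩ <;>
    rcases m3 with ⟨m3, n3⟩ | ⟨m3, n3⟩ <;> rcases m4 with ⟨m4, n4⟩ | ⟨m4, n4⟩
  · exact Or.inl ⟨m1, m2, m3, m4, hX.two _ l1 _ l2 _ l3 _ l4 _ n1 _ n2 _ n3 _ n4 ht⟩
  · exact absurd (by omega) (hX.three _ l1 _ l2 _ l3 _ n1 _ n2 _ n3)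
  · exact absurd (by omega) (hX.three _ l1 _ l2 _ l4 _ n1 _ n2 _ n4)
  · have := hX.pos _ l1 _ n1
    omega
  · exact absurd (by omega) (hX.three _ l3 _ l4 _ l1 _ n3 _ n4 _ n1)
  · have e1 : t1 = t3 := by omega
    rw [e1] at n1
    exact Or.inr (Or.inl ⟨m1, m2, m3, m4, hX.one _ l1 _ l3 _ n1 n3⟩)
  · have e1 : t1 = t4 := by omega
    rw [e1] at n1
    exact Or.inr (Or.inr (Or.inl ⟨m1, m2, m3, m4, hX.one _ l1 _ l4 _ n1 n4⟩))
  · have := hX.pos _ l1 _ n1
    omega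
  · exact absurd (by omega) (hX.three _ l3 _ l4 _ l2 _ n3 _ n4 _ n2)
  · have e1 : t2 = t3 := by omega
    rw [e1] at n2
    exact Or.inr (Or.inr (Or.inr (Or.inl ⟨m1, m2, m3, m4, hX.one _ l2 _ l3 _ n2 n3⟩)))
  · have e1 : t2 = t4 := by omega
    rw [e1] at n2
    exact Or.inr (Or.inr (Or.inr (Or.inr (Or.inl ⟨m1, m2, m3, m4, hX.one _ l2 _ l4 _ n2 n4⟩))))
  · have := hX.pos _ l2 _ n2
    omega
  · have := hX.pos _ l3 _ n3
    omega
  · have := hX.pos _ l3 _ n3
    omega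
  · have := hX.pos _ l4 _ n4
    omega
  · exact Or.inr (Or.inr (Or.inr (Or.inr (Or.inr ⟨m1, m2, m3, m4⟩))))

/-- the part of the value which only depends on block and colour -/
private def Core_E (P : Par) (e f : ℕ → ℕ → ℕ → ℕ) (b c : ℕ) : ℕ :=
  ∑ T ∈ range b, (e b c T * 2 ^ (P.s T + 5) +
    2 ^ (P.s T + 6) * ((if b ≤ T + P.d0 then f b c T else 0) * 2 ^ (P.β T - 1))) * 2 ^ P.hh T

private def Core_t (P : Par) (f : ℕ → ℕ → ℕ → ℕ) (u : Elt) (T : ℕ) : ℕ :=
  if T < u.b then u.t T - (if u.b ≤ T + P.d0 then f u.b u.c T else 0) * 2 ^ (P.β T - 1) else 0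

private def Core_w (u : Elt) (T : ℕ) : ℕ := if T < u.b then u.w T else 0

private theorem Core_w_lt (P : Par) {e f : ℕ → ℕ → ℕ → ℕ} {u : Elt}
    (hu : u.Valid P e f) (T : ℕ) : 2 * Core_w u T < 2 ^ (P.s T + 6) := by
  have h4 : 2 ^ (P.s T + 6) = 2 * 2 ^ (P.s T + 5) := by
    rw [pow_succ]
    ring
  have h5 : 0 < 2 ^ (P.s T + 5) := by positivity
  unfold Core_w
  split_ifs with hT
  · have h3 := hu.w T hT
    omega
  · omega

private theorem Core_t_lt (P : Par) (h : P.OK) {e f : ℕ → ℕ → ℕ → ℕ} {u : Elt}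
    (hu : u.Valid P e f) (T : ℕ) : 2 * Core_t P f u T < 2 ^ P.β T := by
  have h5 : 0 < 2 ^ P.β T := by positivity
  unfold Core_t
  split_ifs with hT hw
  · have h1 := hu.widet T hT hw
    have h2 := Core_two _ (Core_beta P T)
    have h3 : (f u.b u.c T + 1) * 2 ^ (P.β T - 1) =
        f u.b u.c T * 2 ^ (P.β T - 1) + 2 ^ (P.β T - 1) := by ring
    rw [h3] at h1
    omega
  · have h1 := Core_low P h hu (T := T) (by omega)
    rw [Nat.zero_mul, Nat.sub_zero]
    exact h1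
  · omega

private theorem Core_val (P : Par) {e f : ℕ → ℕ → ℕ → ℕ} {u : Elt}
    (hu : u.Valid P e f) {n : ℕ} (hn : u.b ≤ n) :
    u.val P e = ∑ T ∈ range n, (Core_w u T + 2 ^ (P.s T + 6) * Core_t P f u T) * 2 ^ P.hh T +
      Core_E P e f u.b u.c := by
  have h1 : ∑ T ∈ range n, (Core_w u T + 2 ^ (P.s T + 6) * Core_t P f u T) * 2 ^ P.hh T =
      ∑ T ∈ range u.b, (Core_w u T + 2 ^ (P.s T + 6) * Core_t P f u T) * 2 ^ P.hh T := by
    symm
    apply Finset.sum_subset (Finset.range_subset_range.2 hn)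
    intro T _ hT
    rw [Finset.mem_range] at hT
    unfold Core_w Core_t
    rw [if_neg hT, if_neg hT]
    ring
  rw [h1]
  unfold Elt.val Core_E
  rw [← Finset.sum_add_distrib]
  apply Finset.sum_congr rfl
  intro T hT
  rw [Finset.mem_range] at hT
  unfold Core_w Core_t
  rw [if_pos hT, if_pos hT]
  have h2 : u.t T = (u.t T - (if u.b ≤ T + P.d0 then f u.b u.c T else 0) * 2 ^ (P.β T - 1)) +
      (if u.b ≤ T + P.d0 then f u.b u.c T else 0) * 2 ^ (P.β T - 1) := by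
    split_ifs with hw
    · have h3 := (hu.widet T hT hw).1
      omega
    · simp
  conv_lhs => rw [h2]
  ring

private theorem Core_sum (P : Par) (h : P.OK) {e f : ℕ → ℕ → ℕ → ℕ} {u1 u2 u3 u4 : Elt}
    (h1 : u1.Valid P e f) (h2 : u2.Valid P e f) (h3 : u3.Valid P e f) (h4 : u4.Valid P e f)
    (hs : u1.val P e + u2.val P e = u3.val P e + u4.val P e)
    (hb : u1.b = u3.b) (hc : u1.c = u3.c) (hb' : u2.b = u4.b) (hc' : u2.c = u4.c) (T : ℕ) :
    (if T < u1.b then u1.w T else 0) + (if T < u2.b then u2.w T else 0) =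
      (if T < u3.b then u3.w T else 0) + (if T < u4.b then u4.w T else 0) := by
  have hn1 : u1.b ≤ max u1.b u2.b := le_max_left _ _
  have hn2 : u2.b ≤ max u1.b u2.b := le_max_right _ _
  have hn3 : u3.b ≤ max u1.b u2.b := by rw [← hb]; exact hn1
  have hn4 : u4.b ≤ max u1.b u2.b := by rw [← hb']; exact hn2
  by_cases hT : T < max u1.b u2.b
  · have e1 := Core_val P h1 hn1
    have e2 := Core_val P h2 hn2
    have e3 := Core_val P h3 hn3
    have e4 := Core_val P h4 hn4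
    rw [e1, e2, e3, e4, hb, hc, hb', hc'] at hs
    have key := digits_unique P (max u1.b u2.b) (fun T => Core_w u1 T + Core_w u2 T)
      (fun T => Core_t P f u1 T + Core_t P f u2 T) (fun T => Core_w u3 T + Core_w u4 T)
      (fun T => Core_t P f u3 T + Core_t P f u4 T)
      (fun T _ => by
        have a1 := Core_w_lt P h1 T
        have a2 := Core_w_lt P h2 T
        omega)
      (fun T _ => by
        have a1 := Core_t_lt P h h1 T
        have a2 := Core_t_lt P h h2 T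
        omega)
      (fun T _ => by
        have a1 := Core_w_lt P h3 T
        have a2 := Core_w_lt P h4 T
        omega)
      (fun T _ => by
        have a1 := Core_t_lt P h h3 T
        have a2 := Core_t_lt P h h4 T
        omega)
      (by
        have g1 : ∀ a b a' b' : ℕ → ℕ,
            ∑ T ∈ range (max u1.b u2.b), ((a T + a' T) + 2 ^ (P.s T + 6) * (b T + b' T)) *
              2 ^ P.hh T =
            ∑ T ∈ range (max u1.b u2.b), (a T + 2 ^ (P.s T + 6) * b T) * 2 ^ P.hh T +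
            ∑ T ∈ range (max u1.b u2.b), (a' T + 2 ^ (P.s T + 6) * b' T) * 2 ^ P.hh T := by
          intro a b a' b'
          rw [← Finset.sum_add_distrib]
          apply Finset.sum_congr rfl
          intro T _
          ring
        rw [g1, g1]
        rw [← hb, ← hb'] at hs
        omega)
    exact (key T hT).1
  · rw [if_neg (by omega), if_neg (by omega), if_neg (by omega), if_neg (by omega)]

theorem core (P : Par) (h : P.OK) (e f : ℕ → ℕ → ℕ → ℕ) (u1 u2 u3 u4 : Elt)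
    (h1 : u1.Valid P e f) (h2 : u2.Valid P e f) (h3 : u3.Valid P e f) (h4 : u4.Valid P e f)
    (hs : u1.val P e + u2.val P e = u3.val P e + u4.val P e) :
    ((u1.b = u3.b ∧ u1.c = u3.c ∧ u2.b = u4.b ∧ u2.c = u4.c) ∨
      (u1.b = u4.b ∧ u1.c = u4.c ∧ u2.b = u3.b ∧ u2.c = u3.c)) ∧
    ∀ T, (if T < u1.b then u1.w T else 0) + (if T < u2.b then u2.w T else 0) =
      (if T < u3.b then u3.w T else 0) + (if T < u4.b then u4.w T else 0) := by
  have hal := align P h u1.b u2.b u3.b u4.b u1.c u2.c u3.c u4.c h1.b h2.b h3.b h4.b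
    (fun T a1 a2 a3 a4 => Core_ex P h h1 h2 h3 h4 hs T a1 a2 a3 a4)
  rcases hal with ⟨p1, p2, p3, p4⟩ | ⟨p1, p2, p3, p4⟩
  · exact ⟨Or.inl ⟨p1, p2, p3, p4⟩, fun T => Core_sum P h h1 h2 h3 h4 hs p1 p2 p3 p4 T⟩
  · refine ⟨Or.inr ⟨p1, p2, p3, p4⟩, fun T => ?_⟩
    rw [Core_sum P h h1 h2 h4 h3 (by rw [hs, add_comm]) p1 p2 p3 p4 T, add_comm]

end Pool.Agent.SBP
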