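import Pool.Agent.Lib.SBP.CellCov
import Pool.Agent.Lib.SBP.Digit

/-!
# SBP.Cover : prescriptions exist for every m of level j

PROOF.  Digits of m: μ T = (m / 2^(hh T)) % 2^(s T + 6), μ' T = (m / 2^(hh T + s T + 6)) % 2^(β T), so that
m = Σ_{T<j} (μ T + 2^(s T + 6) μ' T) 2^(hh T) (as m < 2^(hh j)).  by := j - d2, bx := j - d3, bx < by < j,
d02, d03: every T ≥ by is wide for z (j ≤ T + d0), every T ≥ bx is wide for y (by ≤ T + d0).
ONE CELL: for every T < j and every incoming carry κ ≤ 1 there are κ1 (from the log digit to the tag digit), κ'' ≤ 1 (outgoing) and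
the prescribed numbers such that
   Vf + κ = μ T + 2^(s+6) κ1 with Vf = V + (ez + ey) 2^(s+5),   tz + ty + tx + κ1 = μ' T + 2^β κ'' :
 T < bx: log digit: log3 (ez = ey = 0).  Tag digit: if T + d0 < bx all three are low: tag3 with the three labels (lab_lt;
   c < Γ (j - d3) ≤ Γ (j - d2) ≤ Γ j).  Otherwise x is wide: take tz := an element of X T (lab j c T) if T + d0 < j, else 0; the same for ty
   (T + d0 < by or 0) (elements exist by tag3 / TagOK.cover); 2 tz < 2^β, 2 ty < 2^β (2^β even, so tz + ty + 1 < 2^β), tx from tag2.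
 bx ≤ T < by: log2 (ez = 0), y is wide; tz as before, tx = 0, ty from tag2 (tz + 1 < 2^β as 2 tz < 2^β, β ≥ 2).
 by ≤ T < j: z is wide: log1 and tag1 (ey = ty = tx = 0); if κ'' = 1 then κ1 = 1 and μ' T = 0, hence (log1) μ T = 0: so
   κ'' = 0 as soon as μ T + μ' T > 0.
Choose the carries recursively: κ_0 = 0, κ_(T+1) = κ''(T, κ_T) (Classical.choose on the one-cell statement; outside T < j put 0).
SUM: for wz, wy, wx as in the field `sum`: the three sums add up to Σ_{T<j} (Vf T + 2^(s+6) (tz + ty + tx)) 2^(hh T) (extend the sums over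
range (j - d2), range (j - d3) by zero terms), and Vf T = μ T + 2^(s+6) κ1 - κ_T, tz + ty + tx = μ' T + 2^β κ_(T+1) - κ1 give
Σ_{T<j} (...) 2^(hh T) + Σ κ_T 2^(hh T) = m + Σ κ_(T+1) 2^(hh (T+1)), so the sum is m + κ_j 2^(hh j) (κ_0 = 0); by induction on j.
κ_j = 0: the cell j - 1 is ≥ by (d2 ≥ 1) and m ≥ 2^(hh (j-1)) gives μ (j-1) + μ' (j-1) > 0.
Fields with T outside of the range: ξ < 32, e ≤ 1 everywhere: put 0.
-/

namespace Pool.Agent.SBP

open Finset

/-- the numbers prescribed at one cell; k is the outgoing carry -/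
private structure CoverD where
  k : ℕ
  V : ℕ
  ξy : ℕ
  ξx : ℕ
  ez : ℕ
  ey : ℕ
  tz : ℕ
  ty : ℕ
  tx : ℕ

/-- digits of m at the cell T -/
private def CoverMu (P : Par) (m T : ℕ) : ℕ := (m / 2 ^ P.hh T) % 2 ^ (P.s T + 6)
private def CoverMu' (P : Par) (m T : ℕ) : ℕ := (m / 2 ^ P.hh T / 2 ^ (P.s T + 6)) % 2 ^ (P.β T)

private structure CoverP (P : Par) (n : ℕ → ℕ) (j m c T κ : ℕ) (d : CoverD) : Prop where
  k : d.k ≤ 1
  hξy : d.ξy < 32
  hξx : d.ξx < 32
  hez : d.ez ≤ 1
  hey : d.ey ≤ 1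
  htz : d.tz < 2 ^ P.β T
  hty : d.ty < 2 ^ P.β T
  htx : d.tx < 2 ^ P.β T
  lz : T + P.d0 < j → d.ez = 0 ∧ d.tz ∈ P.X T (P.lab j c T)
  ly : T + P.d0 < j - P.d2 → d.ey = 0 ∧ d.ty ∈ P.X T (P.lab (j - P.d2) c T)
  lx : T + P.d0 < j - P.d3 → d.tx ∈ P.X T (P.lab (j - P.d3) c T)
  zx : j - P.d3 ≤ T → d.tx = 0
  zy : j - P.d2 ≤ T → d.ty = 0 ∧ d.ey = 0
  res3 : T < j - P.d3 → ∀ ry < n T, ∀ rx < n T,
    ry + n T * d.ξy < 2 ^ (P.s T + 5) ∧ rx + n T * d.ξx < 2 ^ (P.s T + 5) ∧
    (ry + n T * d.ξy) + (rx + n T * d.ξx) ≤ d.V ∧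
    d.V < (ry + n T * d.ξy) + (rx + n T * d.ξx) + 2 ^ (P.s T + 5)
  res2 : j - P.d3 ≤ T → T < j - P.d2 → ∀ ry < n T,
    ry + n T * d.ξy < 2 ^ (P.s T + 5) ∧ ry + n T * d.ξy ≤ d.V ∧
    d.V < ry + n T * d.ξy + 2 ^ (P.s T + 5)
  res1 : j - P.d2 ≤ T → d.V < 2 ^ (P.s T + 5)
  eq : d.V + (d.ez + d.ey) * 2 ^ (P.s T + 5) + 2 ^ (P.s T + 6) * (d.tz + d.ty + d.tx) + κ =
    CoverMu P m T + 2 ^ (P.s T + 6) * CoverMu' P m T + 2 ^ (P.s T + 6) * 2 ^ (P.β T) * d.k
  top : j - P.d2 ≤ T → 0 < CoverMu P m T + CoverMu' P m T → d.k = 0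

private theorem Cover_Gamma (P : Par) {a b c : ℕ} (hab : a ≤ b) (hc : c < P.Γ a) : c < P.Γ b := by
  refine lt_of_lt_of_le hc ?_
  unfold Par.Γ
  exact Nat.pow_le_pow_right (by norm_num) (Nat.pow_le_pow_left hab 3)

private theorem Cover_elt {g w : ℕ} {X : ℕ → Set ℕ} (hX : TagOK g w X) {N : ℕ} (hN : N < 2 ^ g) :
    ∃ t ∈ X N, 2 * t < 2 ^ w := by
  obtain ⟨t1, h1, -⟩ := hX.cover N hN N hN N hN 0
  exact ⟨t1, h1, hX.lt N hN t1 h1⟩

private theorem Cover_comb {V E B t κ μ μ' κ1 W k : ℕ} (h1 : V + E + κ = μ + B * κ1)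
    (h2 : t + κ1 = μ' + W * k) : V + E + B * t + κ = μ + B * μ' + B * W * k := by
  have h3 : B * t + B * κ1 = B * μ' + B * W * k := by
    rw [← mul_add, h2]; ring
  omega

private theorem Cover_cell (P : Par) (h : P.OK) (n : ℕ → ℕ) (hn1 : ∀ T, 2 ^ P.s T ≤ n T)
    (hn2 : ∀ T, n T ≤ 2 ^ (P.s T + 2)) (j m c : ℕ) (hj : P.b0 + P.d3 ≤ j)
    (hc : c < P.Γ (j - P.d3)) (T : ℕ) (_hT : T < j) (κ : ℕ) (hκ : κ ≤ 1) :
    ∃ d, CoverP P n j m c T κ d := by
  have hd23 := h.d23
  have hd2 := h.d2
  have hd02 := h.d02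
  have hd03 := h.d03
  have hcz : c < P.Γ j := Cover_Gamma P (Nat.sub_le _ _) hc
  have hcy : c < P.Γ (j - P.d2) := Cover_Gamma P (by omega) hc
  have hlz := lab_lt P hcz T
  have hly := lab_lt P hcy T
  have hlx := lab_lt P hc T
  have hμ : CoverMu P m T < 2 ^ (P.s T + 6) := Nat.mod_lt _ (by positivity)
  have hμ' : CoverMu' P m T < 2 ^ (P.β T) := Nat.mod_lt _ (by positivity)
  have hβ : 2 ≤ P.β T := by
    unfold Par.β Par.g Par.M
    omega
  obtain ⟨e, he⟩ : ∃ e, 2 ^ P.β T = 4 * e := by
    obtain ⟨b, hb⟩ := Nat.exists_eq_add_of_le hβ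
    exact ⟨2 ^ b, by rw [hb, pow_add]; norm_num⟩
  have he0 : 0 < e := by
    have : 0 < 2 ^ P.β T := by positivity
    omega
  -- an element for z
  obtain ⟨tz, htz, hztz⟩ : ∃ tz, 2 * tz < 2 ^ P.β T ∧
      (T + P.d0 < j → tz ∈ P.X T (P.lab j c T)) := by
    by_cases hz : T + P.d0 < j
    · obtain ⟨t, h1, h2⟩ := Cover_elt (h.X T) hlz
      exact ⟨t, h2, fun _ => h1⟩
    · exact ⟨0, by omega, fun h => absurd h hz⟩
  obtain ⟨ty, hty, hyty⟩ : ∃ ty, 2 * ty < 2 ^ P.β T ∧
      (T + P.d0 < j - P.d2 → ty ∈ P.X T (P.lab (j - P.d2) c T)) := by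
    by_cases hz : T + P.d0 < j - P.d2
    · obtain ⟨t, h1, h2⟩ := Cover_elt (h.X T) hly
      exact ⟨t, h2, fun _ => h1⟩
    · exact ⟨0, by omega, fun h => absurd h hz⟩
  rcases lt_or_ge T (j - P.d3) with hA | hA
  · obtain ⟨κ1, V, ξy, ξx, hκ1, hξy, hξx, heq, hres⟩ :=
      log3 (P.s T) (n T) (CoverMu P m T) κ (hn1 T) (hn2 T) hμ hκ
    by_cases hA1 : T + P.d0 < j - P.d3
    · obtain ⟨k, hk, t1, ht1, t2, ht2, t3, ht3, hteq⟩ :=
        tag3 (h.X T) hlz hly hlx (CoverMu' P m T) κ1 hμ' hκ1
      have b1 := (h.X T).lt _ hlz t1 ht1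
      have b2 := (h.X T).lt _ hly t2 ht2
      have b3 := (h.X T).lt _ hlx t3 ht3
      refine ⟨⟨k, V, ξy, ξx, 0, 0, t1, t2, t3⟩, ?_⟩
      exact
        { k := hk
          hξy := hξy
          hξx := hξx
          hez := Nat.zero_le _
          hey := Nat.zero_le _
          htz := by dsimp only; omega
          hty := by dsimp only; omega
          htx := by dsimp only; omega
          lz := fun _ => ⟨rfl, ht1⟩
          ly := fun _ => ⟨rfl, ht2⟩
          lx := fun _ => ht3
          zx := fun h => by omega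
          zy := fun h => by omega
          res3 := fun _ => hres
          res2 := fun h => by omega
          res1 := fun h => by omega
          eq := by
            dsimp only
            exact Cover_comb (by simpa using heq) hteq
          top := fun h => by omega }
    · obtain ⟨k, tx, hk, htx, hteq⟩ := tag2 (P.β T) (CoverMu' P m T) κ1 (tz + ty) hμ' hκ1
        (by omega)
      refine ⟨⟨k, V, ξy, ξx, 0, 0, tz, ty, tx⟩, ?_⟩
      exact
        { k := hk
          hξy := hξy
          hξx := hξx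
          hez := Nat.zero_le _
          hey := Nat.zero_le _
          htz := by dsimp only; omega
          hty := by dsimp only; omega
          htx := htx
          lz := fun h => ⟨rfl, hztz h⟩
          ly := fun h => ⟨rfl, hyty h⟩
          lx := fun h => absurd h hA1
          zx := fun h => by omega
          zy := fun h => by omega
          res3 := fun _ => hres
          res2 := fun h => by omega
          res1 := fun h => by omega
          eq := by
            dsimp only
            exact Cover_comb (by simpa using heq) hteq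
          top := fun h => by omega }
  · rcases lt_or_ge T (j - P.d2) with hB | hB
    · obtain ⟨κ1, V, ξy, ey, hκ1, hξy, hey, heq, hres⟩ :=
        log2 (P.s T) (n T) (CoverMu P m T) κ (hn1 T) (hn2 T) hμ hκ
      obtain ⟨k, ty', hk, hty', hteq⟩ := tag2 (P.β T) (CoverMu' P m T) κ1 tz hμ' hκ1
        (by omega)
      refine ⟨⟨k, V, ξy, 0, 0, ey, tz, ty', 0⟩, ?_⟩
      exact
        { k := hk
          hξy := hξy
          hξx := by norm_num
          hez := Nat.zero_le _
          hey := hey
          htz := by dsimp only; omega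
          hty := hty'
          htx := by positivity
          lz := fun h => ⟨rfl, hztz h⟩
          ly := fun h => by omega
          lx := fun h => by omega
          zx := fun _ => rfl
          zy := fun h => by omega
          res3 := fun h => by omega
          res2 := fun _ _ => hres
          res1 := fun h => by omega
          eq := by
            dsimp only
            exact Cover_comb (by simpa using heq) (by simpa using hteq)
          top := fun h => by omega }
    · obtain ⟨κ1, V, ez, hκ1, hez, hV, heq, hor⟩ :=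
        log1 (P.s T) (CoverMu P m T) κ hμ hκ
      obtain ⟨k, tz', hk, htz', hteq, hor'⟩ := tag1 (P.β T) (CoverMu' P m T) κ1 hμ' hκ1
      refine ⟨⟨k, V, 0, 0, ez, 0, tz', 0, 0⟩, ?_⟩
      exact
        { k := hk
          hξy := by norm_num
          hξx := by norm_num
          hez := hez
          hey := Nat.zero_le _
          htz := htz'
          hty := by positivity
          htx := by positivity
          lz := fun h => by omega
          ly := fun h => by omega
          lx := fun h => by omega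
          zx := fun _ => rfl
          zy := fun _ => ⟨rfl, rfl⟩
          res3 := fun h => by omega
          res2 := fun _ h => by omega
          res1 := fun _ => hV
          eq := by
            dsimp only
            exact Cover_comb (by simpa using heq) (by simpa using hteq)
          top := fun _ h => by
            dsimp only
            omega }

/-- a choice of the prescribed numbers -/
private noncomputable def CoverF (P : Par) (n : ℕ → ℕ) (j m c T κ : ℕ) : CoverD :=
  open Classical in if h : ∃ d, CoverP P n j m c T κ d then h.choose else ⟨0, 0, 0, 0, 0, 0, 0, 0, 0⟩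

/-- the carries -/
private noncomputable def CoverK (P : Par) (n : ℕ → ℕ) (j m c : ℕ) : ℕ → ℕ
  | 0 => 0
  | T + 1 => (CoverF P n j m c T (CoverK P n j m c T)).k

private theorem Cover_digits (P : Par) (m i : ℕ) :
    m % 2 ^ P.hh (i + 1) = m % 2 ^ P.hh i +
      (CoverMu P m i + 2 ^ (P.s i + 6) * CoverMu' P m i) * 2 ^ P.hh i := by
  have e1 : P.hh (i + 1) = P.hh i + (P.s i + 6 + P.β i) := by
    unfold Par.hh
    rw [sum_range_succ]
  have e2 : m / 2 ^ P.hh i % (2 ^ (P.s i + 6) * 2 ^ P.β i) =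
      CoverMu P m i + 2 ^ (P.s i + 6) * CoverMu' P m i := by
    rw [Nat.mod_mul]
    rfl
  rw [e1, pow_add, Nat.mod_mul, pow_add 2 (P.s i + 6), e2]
  ring

private theorem Cover_ext (a j : ℕ) (h : a ≤ j) (f : ℕ → ℕ) :
    ∑ T ∈ range a, f T = ∑ T ∈ range j, if T < a then f T else 0 := by
  rw [← sum_filter]
  congr 1
  ext x
  simp only [mem_range, mem_filter]
  omega

theorem exists_pres (P : Par) (h : P.OK) (n : ℕ → ℕ) (hn1 : ∀ T, 2 ^ P.s T ≤ n T)
    (hn2 : ∀ T, n T ≤ 2 ^ (P.s T + 2)) (j m c : ℕ) (hj : P.b0 + P.d3 ≤ j)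
    (hm1 : 2 ^ P.hh (j - 1) ≤ m) (hm2 : m < 2 ^ P.hh j) (hc : c < P.Γ (j - P.d3)) :
    Nonempty (Pres P n j m c) := by
  classical
  have hd23 := h.d23
  have hd2 := h.d2
  have hb0 := h.b0
  set K : ℕ → ℕ := CoverK P n j m c with hKdef
  set F : ℕ → CoverD := fun T => CoverF P n j m c T (K T) with hFdef
  have hK0 : K 0 = 0 := rfl
  have hKs : ∀ T, K (T + 1) = (F T).k := fun T => rfl
  have hFK : ∀ T < j, K T ≤ 1 → CoverP P n j m c T (K T) (F T) := by
    intro T hT hk
    have hex := Cover_cell P h n hn1 hn2 j m c hj hc T hT (K T) hk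
    have : F T = hex.choose := by
      simp only [hFdef, CoverF]
      rw [dif_pos hex]
    rw [this]
    exact hex.choose_spec
  have hK1 : ∀ T, T ≤ j → K T ≤ 1 := by
    intro T
    induction T with
    | zero => intro _; rw [hK0]; exact Nat.zero_le _
    | succ T ih =>
      intro hT
      rw [hKs]
      exact (hFK T (by omega) (ih (by omega))).k
  have hF : ∀ T < j, CoverP P n j m c T (K T) (F T) := fun T hT => hFK T hT (hK1 T (by omega))
  have hhs : ∀ i, P.hh (i + 1) = P.hh i + (P.s i + 6 + P.β i) := fun i => by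
    unfold Par.hh
    rw [sum_range_succ]
  have htel : ∀ i, i ≤ j → ∑ T ∈ range i, ((F T).V + ((F T).ez + (F T).ey) * 2 ^ (P.s T + 5) +
      2 ^ (P.s T + 6) * ((F T).tz + (F T).ty + (F T).tx)) * 2 ^ P.hh T =
      m % 2 ^ P.hh i + K i * 2 ^ P.hh i := by
    intro i
    induction i with
    | zero =>
      intro _
      rw [hK0]
      have : P.hh 0 = 0 := rfl
      rw [this]
      simp [Nat.mod_one]
    | succ i ih =>
      intro hi
      rw [sum_range_succ, ih (by omega), Cover_digits, hKs]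
      have e := (hF i (by omega)).eq
      rw [hhs i, pow_add 2 (P.hh i), pow_add 2 (P.s i + 6)]
      have e' := congrArg (fun z => z * 2 ^ P.hh i) e
      simp only [add_mul] at e' ⊢
      nlinarith [e']
  have hKj : K j = 0 := by
    obtain ⟨i, rfl⟩ : ∃ i, j = i + 1 := ⟨j - 1, by omega⟩
    rw [hKs]
    refine (hF i (by omega)).top (by omega) ?_
    rw [Nat.add_sub_cancel] at hm1
    by_contra hcon
    have h0 : CoverMu P m i = 0 ∧ CoverMu' P m i = 0 := by omega
    have h1 := Cover_digits P m i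
    rw [h0.1, h0.2, Nat.mod_eq_of_lt hm2] at h1
    simp only [mul_zero, add_zero, zero_mul] at h1
    have h2 : m % 2 ^ P.hh i < 2 ^ P.hh i := Nat.mod_lt _ (by positivity)
    omega
  have hmain := htel j le_rfl
  rw [hKj, zero_mul, add_zero, Nat.mod_eq_of_lt hm2] at hmain
  refine ⟨{
    ξy := fun T => if T < j then (F T).ξy else 0
    ξx := fun T => if T < j then (F T).ξx else 0
    ez := fun T => if T < j then (F T).ez else 0
    ey := fun T => if T < j then (F T).ey else 0
    tz := fun T => (F T).tz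
    ty := fun T => (F T).ty
    tx := fun T => (F T).tx
    V := fun T => (F T).V
    hξy := ?_
    hξx := ?_
    hez := ?_
    hey := ?_
    htz := ?_
    hty := ?_
    htx := ?_
    lz := ?_
    ly := ?_
    lx := ?_
    res3 := ?_
    res2 := ?_
    res1 := ?_
    sum := ?_ }⟩
  · intro T
    split_ifs with hT
    · exact (hF T hT).hξy
    · norm_num
  · intro T
    split_ifs with hT
    · exact (hF T hT).hξx
    · norm_num
  · intro T
    split_ifs with hT
    · exact (hF T hT).hez
    · exact Nat.zero_le _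
  · intro T
    split_ifs with hT
    · exact (hF T hT).hey
    · exact Nat.zero_le _
  · intro T hT
    exact (hF T hT).htz
  · intro T hT
    exact (hF T (by omega)).hty
  · intro T hT
    exact (hF T (by omega)).htx
  · intro T hT
    have hTj : T < j := by omega
    rw [if_pos hTj]
    exact (hF T hTj).lz hT
  · intro T hT
    have hTj : T < j := by omega
    rw [if_pos hTj]
    exact (hF T hTj).ly hT
  · intro T hT
    exact (hF T (by omega)).lx hT
  · intro T hT
    have hTj : T < j := by omega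
    rw [if_pos hTj, if_pos hTj]
    exact (hF T hTj).res3 hT
  · intro T hT1 hT2
    have hTj : T < j := by omega
    rw [if_pos hTj]
    exact (hF T hTj).res2 hT1 hT2
  · intro T hT1 hT2
    exact (hF T hT2).res1 hT1
  · intro wz wy wx h3 h2 h1
    rw [Cover_ext (j - P.d2) j (Nat.sub_le _ _), Cover_ext (j - P.d3) j (Nat.sub_le _ _),
      ← sum_add_distrib, ← sum_add_distrib]
    refine Eq.trans (sum_congr rfl fun T hT => ?_) hmain
    have hTj : T < j := mem_range.mp hT
    have c := hF T hTj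
    simp only [if_pos hTj]
    rcases lt_or_ge T (j - P.d3) with hA | hA
    · rw [if_pos (show T < j - P.d2 by omega), if_pos hA, ← h3 T hA]
      ring
    · rw [if_neg (show ¬ T < j - P.d3 by omega)]
      have zx := c.zx hA
      rcases lt_or_ge T (j - P.d2) with hB | hB
      · rw [if_pos hB, ← h2 T hA hB, zx]
        ring
      · rw [if_neg (show ¬ T < j - P.d2 by omega)]
        obtain ⟨zy1, zy2⟩ := c.zy hB
        rw [← h1 T hB hTj, zx, zy1, zy2]
        ring

end Pool.Agent.SBP
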