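import Pool.Agent.Lib.SBP.Defs

/-!
# SBP.DLog : discrete logarithms

PROOF.  (ZMod q)ˣ is cyclic of order q - 1 (instance for finite fields).  Take a generator γ
(IsCyclic.exists_generator); for x with ¬ q ∣ x let f x be a natural number n with γ^n = the unit x in (ZMod q)ˣ
(n exists since the group is finite), and f x = 0 otherwise.  γ^(f(xy)) = γ^(f x) γ^(f y), and
γ^m = γ^n iff m ≡ n [MOD orderOf γ] (pow_eq_pow_iff_modEq), orderOf γ = q - 1 (orderOf_eq_card_of_forall_mem_zpowers,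
ZMod.card_units).  The units of x and y agree iff (x : ZMod q) = y iff x ≡ y [MOD q].
-/

namespace Pool.Agent.SBP

theorem exists_isLog (q : ℕ) (hq : q.Prime) : ∃ f : ℕ → ℕ, IsLog q f := by
  classical
  have : Fact q.Prime := ⟨hq⟩
  obtain ⟨γ, hγ⟩ := IsCyclic.exists_generator (α := (ZMod q)ˣ)
  have hord : orderOf γ = q - 1 := by
    rw [orderOf_eq_card_of_forall_mem_zpowers hγ, Nat.card_eq_fintype_card, ZMod.card_units]
  have hex : ∀ u : (ZMod q)ˣ, ∃ n : ℕ, γ ^ n = u := by
    intro u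
    have h := hγ u
    rw [← mem_powers_iff_mem_zpowers] at h
    exact h
  choose lg hlg using hex
  have hne : ∀ x : ℕ, ¬ q ∣ x → (x : ZMod q) ≠ 0 := by
    intro x hx h
    exact hx ((ZMod.natCast_eq_zero_iff x q).mp h)
  let f : ℕ → ℕ := fun x => if h : q ∣ x then 0 else lg (Units.mk0 (x : ZMod q) (hne x h))
  have hf : ∀ x : ℕ, ∀ h : ¬ q ∣ x, γ ^ (f x) = Units.mk0 (x : ZMod q) (hne x h) := by
    intro x h
    have : f x = lg (Units.mk0 (x : ZMod q) (hne x h)) := dif_neg h
    rw [this, hlg]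
  refine ⟨f, fun x y hx hy => ⟨?_, ?_⟩⟩
  · have hxy : ¬ q ∣ x * y := fun h => (hq.dvd_mul.mp h).elim hx hy
    rw [← hord, ← pow_eq_pow_iff_modEq, pow_add, hf _ hxy, hf _ hx, hf _ hy]
    apply Units.ext
    rw [Units.val_mul, Units.val_mk0, Units.val_mk0, Units.val_mk0]
    push_cast
    rfl
  · rw [← hord, ← pow_eq_pow_iff_modEq, hf _ hx, hf _ hy, ← ZMod.natCast_eq_natCast_iff]
    constructor
    · intro h
      have h1 := congrArg Units.val h
      rwa [Units.val_mk0, Units.val_mk0] at h1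
    · intro h
      apply Units.ext
      rwa [Units.val_mk0, Units.val_mk0]

end Pool.Agent.SBP
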