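import Mathlib

/-!
# SBP.Defs : Sidon sets with summands of prescribed sizes (MP_348f18_nt) : definitions

Cells T = 0, 1, 2, ...; cell T consists of a log digit (base 2^(s T + 6)) and a tag digit
(base 2^(β T)).  Block b uses the cells T < b.  The last d0 cells of a block are called wide.
-/

namespace Pool.Agent.SBP

open Finset

/-- A family of tag sets X N (labels N < 2^g) in base 2^w. -/
structure TagOK (g w : ℕ) (X : ℕ → Set ℕ) : Prop where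
  lt : ∀ N < 2 ^ g, ∀ t ∈ X N, 2 * t < 2 ^ w
  pos : ∀ N < 2 ^ g, ∀ t ∈ X N, 0 < t
  one : ∀ N < 2 ^ g, ∀ N' < 2 ^ g, ∀ t, t ∈ X N → t ∈ X N' → N = N'
  two : ∀ N1 < 2 ^ g, ∀ N2 < 2 ^ g, ∀ N3 < 2 ^ g, ∀ N4 < 2 ^ g,
    ∀ t1 ∈ X N1, ∀ t2 ∈ X N2, ∀ t3 ∈ X N3, ∀ t4 ∈ X N4, t1 + t2 = t3 + t4 →
      (N1 = N3 ∧ N2 = N4) ∨ (N1 = N4 ∧ N2 = N3)
  three : ∀ N1 < 2 ^ g, ∀ N2 < 2 ^ g, ∀ N3 < 2 ^ g,
    ∀ t1 ∈ X N1, ∀ t2 ∈ X N2, ∀ t3 ∈ X N3, t1 + t2 ≠ t3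
  cover : ∀ N1 < 2 ^ g, ∀ N2 < 2 ^ g, ∀ N3 < 2 ^ g, ∀ r : ℕ,
    ∃ t1 ∈ X N1, ∃ t2 ∈ X N2, ∃ t3 ∈ X N3, (t1 + t2 + t3) % 2 ^ w = r % 2 ^ w

/-- The parameters of the construction. -/
structure Par where
  /-- number of wide cells -/
  d0 : ℕ
  /-- block distance of y -/
  d2 : ℕ
  /-- block distance of x -/
  d3 : ℕ
  /-- first block -/
  b0 : ℕ
  /-- the modulus of cell T is a prime in (2^(s T), 2^(s T + 2)] -/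
  s : ℕ → ℕ
  /-- the primes of block b lie in (2^(a b - 2), 2^(a b)] -/
  a : ℕ → ℕ
  /-- every colour of block b has 2^(ν b) primes -/
  ν : ℕ → ℕ
  /-- the prime number k of colour c in block b -/
  ell : ℕ → ℕ → ℕ → ℕ
  /-- the tag sets of cell T -/
  X : ℕ → ℕ → Set ℕ

namespace Par

variable (P : Par)

def D : ℕ := 2 * P.d0 + 2
def M : ℕ := 4 * P.d0 + 5
/-- the labels at cell T are smaller than 2^(g T) -/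
def g (T : ℕ) : ℕ := (T + P.D) ^ 3 + P.M
/-- the base of the tag digit at cell T is 2^(β T) -/
def β (T : ℕ) : ℕ := 78 * P.g T
/-- number of colours of block b -/
def Γ (_P : Par) (b : ℕ) : ℕ := 2 ^ (b ^ 3)
def S (j : ℕ) : ℕ := ∑ T ∈ range j, P.s T
/-- the cell T starts at the binary digit number hh T -/
def hh (j : ℕ) : ℕ := ∑ T ∈ range j, (P.s T + 6 + P.β T)
/-- the sum of the widths of the tag digits -/
def tb (j : ℕ) : ℕ := ∑ T ∈ range j, P.β T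
/-- the label of block b and colour c at cell T -/
def lab (b c T : ℕ) : ℕ := b % P.M + P.M * (if b ≤ T + P.D then c else 0)
/-- the possible moduli of cell T -/
def bin (T : ℕ) : Finset ℕ := (Finset.Ioc (2 ^ P.s T) (2 ^ (P.s T + 2))).filter Nat.Prime
/-- exponent of the loss factor -/
def Le (j : ℕ) : ℕ := j * (2 * (P.S j).size + 2)

/-- The admissibility conditions on the parameters. -/
structure OK : Prop where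
  d2 : 2 ≤ P.d2
  d23 : P.d2 < P.d3
  d02 : P.d2 ≤ P.d0
  d03 : P.d3 ≤ P.d2 + P.d0
  b0 : P.D + P.d3 + 1 ≤ P.b0
  s14 : ∀ T, 14 ≤ P.s T
  s2 : ∀ T, P.s T + 2 ≤ P.s (T + 1)
  X : ∀ T, TagOK (P.g T) (P.β T) (P.X T)
  a2 : ∀ b, P.b0 ≤ b → P.a b + 2 ≤ P.a (b + 1)
  as : ∀ b, P.b0 ≤ b → ∀ T < b, P.s T + 4 ≤ P.a b
  ah : ∀ b, P.b0 ≤ b → 2 * P.a b ≤ P.S b
  prime : ∀ b, P.b0 ≤ b → ∀ c < P.Γ b, ∀ k < 2 ^ P.ν b, (P.ell b c k).Prime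
  lo : ∀ b, P.b0 ≤ b → ∀ c < P.Γ b, ∀ k < 2 ^ P.ν b, 2 ^ (P.a b - 2) < P.ell b c k
  hi : ∀ b, P.b0 ≤ b → ∀ c < P.Γ b, ∀ k < 2 ^ P.ν b, P.ell b c k ≤ 2 ^ (P.a b)
  inj : ∀ b, P.b0 ≤ b → ∀ c < P.Γ b, ∀ c' < P.Γ b, ∀ k < 2 ^ P.ν b, ∀ k' < 2 ^ P.ν b,
    P.ell b c k = P.ell b c' k' → c = c' ∧ k = k'
  bad : ∀ j, P.b0 ≤ j → ∀ l, P.b0 ≤ l → l < j → P.S l < P.a j + P.a l →
    j ^ 3 + P.ν j + l ^ 3 + 2 * P.ν l + P.Le j + 2 * j + 5 ≤ P.S j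
  en : ∀ j, P.b0 + P.d3 ≤ j →
    P.S j + 23 * j + 3 + 3 * P.tb j ≤ P.ν j + P.ν (j - P.d2) + P.ν (j - P.d3)
  tr : ∀ j, P.b0 + P.d3 ≤ j →
    (P.hh j + j + 2) * (1 + 2 ^ (9 * j + 10 + P.Le j)) ≤ 2 ^ ((j - P.d3) ^ 3)

end Par

/-- f is a discrete logarithm modulo q. -/
def IsLog (q : ℕ) (f : ℕ → ℕ) : Prop := ∀ x y : ℕ, ¬ q ∣ x → ¬ q ∣ y →
  (f (x * y) ≡ f x + f y [MOD (q - 1)]) ∧ (f x ≡ f y [MOD (q - 1)] ↔ x ≡ y [MOD q])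

/-- The congruences for two pairs from block j (x1, x3) and block l (x2, x4). -/
def Cong (q : ℕ → ℕ) (l j x1 x2 x3 x4 : ℕ) : Prop :=
  (∀ T < l, x1 * x2 ≡ x3 * x4 [MOD q T]) ∧ (∀ T, l ≤ T → T < j → x1 ≡ x3 [MOD q T])

/-- The bad primes of block b and colour c. -/
def Bad (P : Par) (q : ℕ → ℕ) (b c k : ℕ) : Prop :=
  ∃ l, P.b0 ≤ l ∧ l < b ∧ P.S l < P.a b + P.a l ∧ ∃ c' < P.Γ l, ∃ k3 < 2 ^ P.ν b, k3 ≠ k ∧
    ∃ k2 < 2 ^ P.ν l, ∃ k4 < 2 ^ P.ν l,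
      Cong q l b (P.ell b c k) (P.ell l c' k2) (P.ell b c k3) (P.ell l c' k4)

/-- The congruences for two triples of colour c (level j). -/
def Cong3 (P : Par) (q : ℕ → ℕ) (j c kz ky kx kz' ky' kx' : ℕ) : Prop :=
  (∀ T < j - P.d3, P.ell j c kz * P.ell (j - P.d2) c ky * P.ell (j - P.d3) c kx ≡
    P.ell j c kz' * P.ell (j - P.d2) c ky' * P.ell (j - P.d3) c kx' [MOD q T]) ∧
  (∀ T, j - P.d3 ≤ T → T < j - P.d2 → P.ell j c kz * P.ell (j - P.d2) c ky ≡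
    P.ell j c kz' * P.ell (j - P.d2) c ky' [MOD q T]) ∧
  (∀ T, j - P.d2 ≤ T → T < j → P.ell j c kz ≡ P.ell j c kz' [MOD q T])

open Classical in
/-- Number of pairs of coordinatewise different triples with these congruences. -/
noncomputable def energy (P : Par) (q : ℕ → ℕ) (j c : ℕ) : ℕ :=
  (((range (2 ^ P.ν j) ×ˢ range (2 ^ P.ν (j - P.d2)) ×ˢ range (2 ^ P.ν (j - P.d3))) ×ˢ
    (range (2 ^ P.ν j) ×ˢ range (2 ^ P.ν (j - P.d2)) ×ˢ range (2 ^ P.ν (j - P.d3)))).filter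
    (fun p => p.1.1 ≠ p.2.1 ∧ p.1.2.1 ≠ p.2.2.1 ∧ p.1.2.2 ≠ p.2.2.2 ∧
      Cong3 P q j c p.1.1 p.1.2.1 p.1.2.2 p.2.1 p.2.2.1 p.2.2.2)).card

/-- Good moduli. -/
structure GoodQ (P : Par) (q : ℕ → ℕ) : Prop where
  mem : ∀ T, q T ∈ P.bin T
  bad : ∀ b, P.b0 ≤ b → ∀ c < P.Γ b, ∀ s : Finset ℕ,
    (∀ k ∈ s, k < 2 ^ P.ν b ∧ Bad P q b c k) → 2 * s.card ≤ 2 ^ P.ν b
  en : ∀ j, P.b0 + P.d3 ≤ j →
    (∑ c ∈ range (P.Γ (j - P.d3)), energy P q j c) * 2 ^ P.S j ≤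
      2 ^ (j + 4 + (j - P.d3) ^ 3 + 2 * (P.ν j + P.ν (j - P.d2) + P.ν (j - P.d3)) + P.Le j)

/-- An element of block b and colour c with its log digits (without the extra half)
and its tag digits. -/
structure Elt where
  b : ℕ
  c : ℕ
  w : ℕ → ℕ
  t : ℕ → ℕ

/-- The value of an element; e is the bit of the extra half of the log digit. -/
def Elt.val (P : Par) (e : ℕ → ℕ → ℕ → ℕ) (u : Elt) : ℕ :=
  ∑ T ∈ range u.b,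
    (u.w T + e u.b u.c T * 2 ^ (P.s T + 5) + 2 ^ (P.s T + 6) * u.t T) * 2 ^ (P.hh T)

/-- Valid elements. -/
structure Elt.Valid (P : Par) (e f : ℕ → ℕ → ℕ → ℕ) (u : Elt) : Prop where
  b : P.b0 ≤ u.b
  c : u.c < P.Γ u.b
  w : ∀ T < u.b, u.w T < 2 ^ (P.s T + 5)
  e1 : ∀ T, e u.b u.c T ≤ 1
  f1 : ∀ T, f u.b u.c T ≤ 1
  lowe : ∀ T, T + P.d0 < u.b → e u.b u.c T = 0
  lowt : ∀ T, T + P.d0 < u.b → u.t T ∈ P.X T (P.lab u.b u.c T)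
  widet : ∀ T, T < u.b → u.b ≤ T + P.d0 → f u.b u.c T * 2 ^ (P.β T - 1) ≤ u.t T ∧
    u.t T < (f u.b u.c T + 1) * 2 ^ (P.β T - 1)

end Pool.Agent.SBP
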