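import Pool.Agent.Lib.SBP.Defs

/-!
# SBP.Defs2 : data types of the probabilistic part, prescriptions, exactness at a cell
-/

namespace Pool.Agent.SBP

open Finset

/-- Colour data of block b: shift, bit e and bit f at every cell. -/
abbrev Th (q : ℕ → ℕ) (b : ℕ) : Type := (T : Fin b) → Fin (q T - 2 + 1) × Bool × Bool

/-- Element data of block b: lift and tag at every cell. -/
abbrev Ed (P : Par) (b : ℕ) : Type := (T : Fin b) → Fin 32 × Fin (2 ^ P.β T)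

/-- All data of one colour of block b. -/
abbrev Yb (P : Par) (q : ℕ → ℕ) (b : ℕ) : Type := Th q b × (Fin (2 ^ P.ν b) → Ed P b)

/-- the element number k of block b and colour c with data y -/
def eltY (P : Par) (q : ℕ → ℕ) (lg : ℕ → ℕ → ℕ) (b c : ℕ) (y : Yb P q b)
    (k : Fin (2 ^ P.ν b)) : Elt where
  b := b
  c := c
  w := fun T => if h : T < b then
    (lg T (P.ell b c k) + ((y.1 ⟨T, h⟩).1 : ℕ)) % (q T - 1) + (q T - 1) * ((y.2 k ⟨T, h⟩).1 : ℕ)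
    else 0
  t := fun T => if h : T < b then ((y.2 k ⟨T, h⟩).2 : ℕ) else 0

/-- the effective bit e of the data y of block b -/
def eY (P : Par) {q : ℕ → ℕ} {b : ℕ} (y : Yb P q b) : ℕ → ℕ → ℕ → ℕ := fun _ _ T =>
  if h : T < b then (if b ≤ T + P.d0 then ((y.1 ⟨T, h⟩).2.1).toNat else 0) else 0

/-- the bit f of the data y of block b -/
def fY (P : Par) {q : ℕ → ℕ} {b : ℕ} (y : Yb P q b) : ℕ → ℕ → ℕ → ℕ := fun _ _ T =>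
  if h : T < b then ((y.1 ⟨T, h⟩).2.2).toNat else 0

/-- The Sidon set. -/
def SS (P : Par) (q : ℕ → ℕ) (lg : ℕ → ℕ → ℕ) (D : ∀ b : ℕ, ℕ → Yb P q b) : Set ℕ :=
  {u | ∃ b, P.b0 ≤ b ∧ ∃ c < P.Γ b, ∃ k : Fin (2 ^ P.ν b), ¬ Bad P q b c k ∧
    (eltY P q lg b c (D b c) k).Valid P (eY P (D b c)) (fY P (D b c)) ∧
    u = (eltY P q lg b c (D b c) k).val P (eY P (D b c))}

/-- the number m of level j is represented with colour c -/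
def cov (P : Par) (q : ℕ → ℕ) (lg : ℕ → ℕ → ℕ) (j m c : ℕ)
    (u : Yb P q j) (v : Yb P q (j - P.d2)) (w : Yb P q (j - P.d3)) : Prop :=
  ∃ (kz : Fin (2 ^ P.ν j)) (ky : Fin (2 ^ P.ν (j - P.d2))) (kx : Fin (2 ^ P.ν (j - P.d3))),
    ¬ Bad P q j c kz ∧ ¬ Bad P q (j - P.d2) c ky ∧ ¬ Bad P q (j - P.d3) c kx ∧
    (eltY P q lg j c u kz).Valid P (eY P u) (fY P u) ∧
    (eltY P q lg (j - P.d2) c v ky).Valid P (eY P v) (fY P v) ∧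
    (eltY P q lg (j - P.d3) c w kx).Valid P (eY P w) (fY P w) ∧
    (eltY P q lg j c u kz).val P (eY P u) + (eltY P q lg (j - P.d2) c v ky).val P (eY P v) +
      (eltY P q lg (j - P.d3) c w kx).val P (eY P w) = m

/-- Prescriptions for the representation of m (level j, colour c); n T = q T - 1. -/
structure Pres (P : Par) (n : ℕ → ℕ) (j m c : ℕ) where
  ξy : ℕ → ℕ
  ξx : ℕ → ℕ
  ez : ℕ → ℕ
  ey : ℕ → ℕ
  tz : ℕ → ℕ
  ty : ℕ → ℕ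
  tx : ℕ → ℕ
  V : ℕ → ℕ
  hξy : ∀ T, ξy T < 32
  hξx : ∀ T, ξx T < 32
  hez : ∀ T, ez T ≤ 1
  hey : ∀ T, ey T ≤ 1
  htz : ∀ T < j, tz T < 2 ^ P.β T
  hty : ∀ T < j - P.d2, ty T < 2 ^ P.β T
  htx : ∀ T < j - P.d3, tx T < 2 ^ P.β T
  lz : ∀ T, T + P.d0 < j → ez T = 0 ∧ tz T ∈ P.X T (P.lab j c T)
  ly : ∀ T, T + P.d0 < j - P.d2 → ey T = 0 ∧ ty T ∈ P.X T (P.lab (j - P.d2) c T)
  lx : ∀ T, T + P.d0 < j - P.d3 → tx T ∈ P.X T (P.lab (j - P.d3) c T)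
  res3 : ∀ T < j - P.d3, ∀ ry < n T, ∀ rx < n T,
    ry + n T * ξy T < 2 ^ (P.s T + 5) ∧ rx + n T * ξx T < 2 ^ (P.s T + 5) ∧
    (ry + n T * ξy T) + (rx + n T * ξx T) ≤ V T ∧
    V T < (ry + n T * ξy T) + (rx + n T * ξx T) + 2 ^ (P.s T + 5)
  res2 : ∀ T, j - P.d3 ≤ T → T < j - P.d2 → ∀ ry < n T,
    ry + n T * ξy T < 2 ^ (P.s T + 5) ∧ ry + n T * ξy T ≤ V T ∧
    V T < ry + n T * ξy T + 2 ^ (P.s T + 5)
  res1 : ∀ T, j - P.d2 ≤ T → T < j → V T < 2 ^ (P.s T + 5)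
  sum : ∀ wz wy wx : ℕ → ℕ,
    (∀ T < j - P.d3, wz T + wy T + wx T = V T) →
    (∀ T, j - P.d3 ≤ T → T < j - P.d2 → wz T + wy T = V T) →
    (∀ T, j - P.d2 ≤ T → T < j → wz T = V T) →
    (∑ T ∈ range j, (wz T + ez T * 2 ^ (P.s T + 5) + 2 ^ (P.s T + 6) * tz T) * 2 ^ (P.hh T)) +
    (∑ T ∈ range (j - P.d2),
      (wy T + ey T * 2 ^ (P.s T + 5) + 2 ^ (P.s T + 6) * ty T) * 2 ^ (P.hh T)) +
    (∑ T ∈ range (j - P.d3), (wx T + 2 ^ (P.s T + 6) * tx T) * 2 ^ (P.hh T)) = m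

/-- What the tags tell at a cell T at which all four elements are low (T + d0 < b) or absent. -/
def ExOK (P : Par) (b1 b2 b3 b4 c1 c2 c3 c4 T : ℕ) : Prop :=
  (T + P.d0 < b1 ∧ T + P.d0 < b2 ∧ T + P.d0 < b3 ∧ T + P.d0 < b4 ∧
    ((P.lab b1 c1 T = P.lab b3 c3 T ∧ P.lab b2 c2 T = P.lab b4 c4 T) ∨
     (P.lab b1 c1 T = P.lab b4 c4 T ∧ P.lab b2 c2 T = P.lab b3 c3 T))) ∨
  (T + P.d0 < b1 ∧ b2 < T ∧ T + P.d0 < b3 ∧ b4 < T ∧ P.lab b1 c1 T = P.lab b3 c3 T) ∨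
  (T + P.d0 < b1 ∧ b2 < T ∧ b3 < T ∧ T + P.d0 < b4 ∧ P.lab b1 c1 T = P.lab b4 c4 T) ∨
  (b1 < T ∧ T + P.d0 < b2 ∧ T + P.d0 < b3 ∧ b4 < T ∧ P.lab b2 c2 T = P.lab b3 c3 T) ∨
  (b1 < T ∧ T + P.d0 < b2 ∧ b3 < T ∧ T + P.d0 < b4 ∧ P.lab b2 c2 T = P.lab b4 c4 T) ∨
  (b1 < T ∧ b2 < T ∧ b3 < T ∧ b4 < T)

/-- the space of moduli of the first J cells -/
def QJ (P : Par) (J : ℕ) : Finset (Fin J → ℕ) := Fintype.piFinset (fun T : Fin J => P.bin T)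

/-- extension by 0 -/
def ext {J : ℕ} (q : Fin J → ℕ) (T : ℕ) : ℕ := if h : T < J then q ⟨T, h⟩ else 0

open Classical in
/-- number of bad primes of block b -/
noncomputable def nb (P : Par) (q : ℕ → ℕ) (b : ℕ) : ℕ :=
  ∑ c ∈ range (P.Γ b), ((range (2 ^ P.ν b)).filter (fun k => Bad P q b c k)).card

end Pool.Agent.SBP
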