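import Mathlib

/-!
# SBP.PrimeW : primes in (2^s, 2^(s+2)] and the primes ell

PROOF of prime_window.  Let x = 2^s, N = number of primes in (x, 4x].  Chebyshev.theta_ge (4x): 4 x log 2 - log (4x+1) - 2 √(4x) log (4x) ≤ θ(4x);
Chebyshev.theta_le_log4_mul_x: θ(x) ≤ x log 4 = 2 x log 2.  θ(4x) - θ(x) = Σ_{x < p ≤ 4x} log p ≤ N log (4x) = N (s+2) log 2.
So N (s+2) log 2 ≥ 2 x log 2 - log (4x+1) - 4 √x (s+2) log 2, and this is ≥ x log 2 because
log (4x+1) + 4 √x (s+2) log 2 ≤ x log 2 for s ≥ 14: √x = 2^(s/2) (Real.sqrt; or use √x ≤ ... with x = 2^s ≥ 2^14), log(4x+1) ≤ (s+3) log 2 and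
(s + 3) + 4 (s+2) √x ≤ x, e.g. because 8 (s + 2) ≤ √x * ... : s + 2 ≤ √x / 8 for s ≥ 14 (s = 14: 16 = 128 / 8; induction: 2 (s+3)^2 * 64 ≤ ... from
64 (s+2)^2 ≤ 2^s, which holds at s = 14 (64 * 256 = 2^14) and (s+3)^2 ≤ 2 (s+2)^2).
exists_ell: for every b ≥ b0, prime_window with s = a b - 2 ≥ 14 gives 2^(a b - 2) ≤ a b * #primes in (2^(a b - 2), 2^(a b)], so
2^(ν b + b^3) ≤ # primes, and there is an injection Fin (2^(b^3)) × Fin (2^(ν b)) → primes (Finset.exists_subset_card_eq + Finset.equivFin,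
or Fintype.card_le_of_embedding's converse Function.Embedding.nonempty_of_card_le).
-/

namespace Pool.Agent.SBP

open Finset

private theorem PrimeW_num (s : ℕ) (hs : 14 ≤ s) : 64 * (s + 2) ^ 2 ≤ 2 ^ s := by
  induction s, hs using Nat.le_induction with
  | base => norm_num
  | succ n hn ih =>
    have h1 : (n + 1 + 2) ^ 2 ≤ 2 * (n + 2) ^ 2 := by nlinarith
    calc 64 * (n + 1 + 2) ^ 2 ≤ 64 * (2 * (n + 2) ^ 2) := Nat.mul_le_mul_left _ h1
      _ = 2 * (64 * (n + 2) ^ 2) := by ring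
      _ ≤ 2 * 2 ^ n := Nat.mul_le_mul_left _ ih
      _ = 2 ^ (n + 1) := by ring

theorem prime_window (s : ℕ) (hs : 14 ≤ s) :
    2 ^ s ≤ (s + 2) * ((Finset.Ioc (2 ^ s) (2 ^ (s + 2))).filter Nat.Prime).card := by
  set N := ((Finset.Ioc (2 ^ s) (2 ^ (s + 2))).filter Nat.Prime).card with hN
  have hl2 : 0 < Real.log 2 := Real.log_pos one_lt_two
  have h1 := Chebyshev.theta_ge (2 ^ (s + 2))
  have h2 := Chebyshev.theta_le_log4_mul_x (x := ((2 ^ s : ℕ) : ℝ)) (by positivity)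
  have hlog : Real.log ((2 ^ (s + 2) : ℕ) : ℝ) = ((s : ℝ) + 2) * Real.log 2 := by
    push_cast
    rw [Real.log_pow]
    push_cast
    ring
  have h3 : Chebyshev.theta ((2 ^ (s + 2) : ℕ) : ℝ) - Chebyshev.theta ((2 ^ s : ℕ) : ℝ) ≤
      N * (((s : ℝ) + 2) * Real.log 2) := by
    have e1 : ∀ n : ℕ, Chebyshev.theta (n : ℝ) =
        ∑ p ∈ Finset.Ioc 0 n, if p.Prime then Real.log p else 0 := by
      intro n
      rw [Chebyshev.theta, Nat.floor_natCast, Finset.sum_filter]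
    rw [e1, e1, ← Finset.sum_Ioc_consecutive _ (Nat.zero_le (2 ^ s))
      (Nat.pow_le_pow_right (by norm_num) (by omega : s ≤ s + 2)), add_sub_cancel_left,
      ← Finset.sum_filter]
    calc _ ≤ ∑ p ∈ (Finset.Ioc (2 ^ s) (2 ^ (s + 2))).filter Nat.Prime,
          (((s : ℝ) + 2) * Real.log 2) := by
          refine Finset.sum_le_sum fun p hp => ?_
          rw [Finset.mem_filter, Finset.mem_Ioc] at hp
          rw [← hlog]
          exact Real.log_le_log (by exact_mod_cast hp.2.pos) (by exact_mod_cast hp.1.2)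
      _ = N * (((s : ℝ) + 2) * Real.log 2) := by rw [Finset.sum_const, nsmul_eq_mul]
  have hl4 : Real.log 4 = 2 * Real.log 2 := by
    rw [show (4 : ℝ) = 2 ^ 2 by norm_num, Real.log_pow]
    push_cast
    ring
  set r : ℝ := √((2 : ℝ) ^ s) with hr
  have hr0 : 0 ≤ r := Real.sqrt_nonneg _
  have hr2 : r ^ 2 = (2 : ℝ) ^ s := Real.sq_sqrt (by positivity)
  have hrs : √(((2 ^ (s + 2) : ℕ) : ℝ)) = 2 * r := by
    have e : (((2 ^ (s + 2) : ℕ) : ℝ)) = (2 * r) ^ 2 := by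
      rw [mul_pow, hr2]
      push_cast
      ring
    rw [e, Real.sqrt_sq (by positivity)]
  have hr8 : 8 * ((s : ℝ) + 2) ≤ r := by
    apply Real.le_sqrt_of_sq_le
    have := PrimeW_num s hs
    have h4 : (64 : ℝ) * ((s : ℝ) + 2) ^ 2 ≤ 2 ^ s := by exact_mod_cast this
    nlinarith
  have hl1 : Real.log (((2 ^ (s + 2) : ℕ) : ℝ) + 1) ≤ ((s : ℝ) + 3) * Real.log 2 := by
    have e : ((s : ℝ) + 3) * Real.log 2 = Real.log ((2 : ℝ) ^ (s + 3)) := by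
      rw [Real.log_pow]
      push_cast
      ring
    rw [e]
    apply Real.log_le_log (by positivity)
    push_cast
    have h5 : (1 : ℝ) ≤ 2 ^ (s + 2) := one_le_pow₀ (by norm_num)
    rw [show s + 3 = (s + 2) + 1 by ring, pow_succ (2 : ℝ) (s + 2)]
    linarith
  rw [hlog, hrs] at h1
  rw [hl4] at h2
  have hs0 : (14 : ℝ) ≤ s := by exact_mod_cast hs
  have hX : (((2 ^ (s + 2) : ℕ) : ℝ)) = 4 * (2 : ℝ) ^ s := by
    push_cast
    ring
  have hX' : (((2 ^ s : ℕ) : ℝ)) = (2 : ℝ) ^ s := by push_cast; ring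
  rw [hX] at h1 h3 hl1
  rw [hX'] at h2 h3
  have h6 : (2 * (2 : ℝ) ^ s - (s + 3) - 4 * r * (s + 2)) * Real.log 2 ≤
      ((s + 2) * N) * Real.log 2 := by nlinarith
  have h7 := le_of_mul_le_mul_right h6 hl2
  have h8 : (2 : ℝ) ^ s ≤ (s + 2) * N := by
    rw [← hr2] at h7 ⊢
    nlinarith
  exact_mod_cast h8

theorem exists_ell (b0 : ℕ) (a ν : ℕ → ℕ)
    (h : ∀ b, b0 ≤ b → 16 ≤ a b ∧ 2 ^ (ν b + b ^ 3) * a b ≤ 2 ^ (a b - 2)) :
    ∃ ell : ℕ → ℕ → ℕ → ℕ, ∀ b, b0 ≤ b →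
      (∀ c < 2 ^ (b ^ 3), ∀ k < 2 ^ ν b,
        (ell b c k).Prime ∧ 2 ^ (a b - 2) < ell b c k ∧ ell b c k ≤ 2 ^ (a b)) ∧
      (∀ c < 2 ^ (b ^ 3), ∀ c' < 2 ^ (b ^ 3), ∀ k < 2 ^ ν b, ∀ k' < 2 ^ ν b,
        ell b c k = ell b c' k' → c = c' ∧ k = k') := by
  classical
  have key : ∀ b, ∃ g : ℕ → ℕ → ℕ, b0 ≤ b →
      (∀ c < 2 ^ (b ^ 3), ∀ k < 2 ^ ν b,
        (g c k).Prime ∧ 2 ^ (a b - 2) < g c k ∧ g c k ≤ 2 ^ (a b)) ∧
      (∀ c < 2 ^ (b ^ 3), ∀ c' < 2 ^ (b ^ 3), ∀ k < 2 ^ ν b, ∀ k' < 2 ^ ν b,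
        g c k = g c' k' → c = c' ∧ k = k') := by
    intro b
    by_cases hb : b0 ≤ b
    swap
    · exact ⟨fun _ _ => 0, fun h' => absurd h' hb⟩
    obtain ⟨h16, hle⟩ := h b hb
    have hw := prime_window (a b - 2) (by omega)
    have e1 : a b - 2 + 2 = a b := by omega
    rw [e1] at hw
    set Pb := (Finset.Ioc (2 ^ (a b - 2)) (2 ^ a b)).filter Nat.Prime with hPb
    have hcard : 2 ^ (ν b + b ^ 3) ≤ Pb.card := by
      have h1 : 2 ^ (ν b + b ^ 3) * a b ≤ Pb.card * a b := by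
        rw [mul_comm (Pb.card)]
        exact hle.trans hw
      exact Nat.le_of_mul_le_mul_right h1 (by omega)
    have hc2 : Fintype.card (Fin (2 ^ (b ^ 3)) × Fin (2 ^ ν b)) ≤ Fintype.card Pb := by
      rw [Fintype.card_prod, Fintype.card_fin, Fintype.card_fin, Fintype.card_coe, ← pow_add,
        add_comm]
      exact hcard
    obtain ⟨f⟩ := Function.Embedding.nonempty_of_card_le hc2
    refine ⟨fun c k => if hh : c < 2 ^ (b ^ 3) ∧ k < 2 ^ ν b then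
      (f (⟨c, hh.1⟩, ⟨k, hh.2⟩)).1 else 0, fun _ => ⟨fun c hc k hk => ?_,
      fun c hc c' hc' k hk k' hk' heq => ?_⟩⟩
    · simp only [dif_pos (And.intro hc hk)]
      have hm : ∀ z : Pb, (z : ℕ).Prime ∧ 2 ^ (a b - 2) < (z : ℕ) ∧ (z : ℕ) ≤ 2 ^ (a b) := by
        intro z
        have hz := Finset.mem_filter.1 z.2
        have hz1 := Finset.mem_Ioc.1 hz.1
        exact ⟨hz.2, hz1.1, hz1.2⟩
      exact hm _
    · simp only [dif_pos (And.intro hc hk), dif_pos (And.intro hc' hk')] at heq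
      have h1 := f.injective (Subtype.ext heq)
      rw [Prod.mk.injEq, Fin.mk.injEq, Fin.mk.injEq] at h1
      exact h1
  choose ell hell using key
  exact ⟨ell, fun b hb => hell b hb⟩

end Pool.Agent.SBP
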