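import Pool.Agent.Lib.SBP.Defs2
import Pool.Agent.Lib.SBP.PrimeW

/-!
# SBP.DivCnt : how many moduli satisfy given congruences

PROOF.  For T < j let A T = {p ∈ bin T : x T ≡ y T [MOD p]}.  D = |x T - y T| is nonzero and ≤ 2^(2 S j); the primes in A T divide D, so their
product ≥ (2^(s T))^|A T| divides D: |A T| s T ≤ 2 S j, |A T| ≤ 2 S j.  By prime_window 2^(s T) ≤ (s T + 2) |bin T|.
The filtered set is the piFinset of A T (T < j) and bin T (T ≥ j), so its cardinality is ∏_{T<j} |A T| ∏_{j≤T<J} |bin T|.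
Multiply by 2^(S j) = ∏_{T<j} 2^(s T): ∏_{T<j} (|A T| 2^(s T)) ≤ ∏_{T<j} (2 S j (s T + 2) |bin T|) ≤ 2^(Le j) ∏_{T<j} |bin T|, because
s T + 2 ≤ S j + 2 and with z = (S j).size: S j < 2^z (Nat.lt_size_self), 2 S j (S j + 2) ≤ 2^(z+1) 2^(z+1) = 2^(2z+2), and
(2^(2z+2))^j = 2^(Le j).
-/

namespace Pool.Agent.SBP

open Finset

private theorem divCnt_card (P : Par) (h : P.OK) (j T : ℕ) (a b : ℕ) (hne : a ≠ b)
    (ha : a ≤ 2 ^ (2 * P.S j)) (hb : b ≤ 2 ^ (2 * P.S j)) :
    ((P.bin T).filter (fun p => a ≡ b [MOD p])).card ≤ 2 * P.S j := by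
  set A := (P.bin T).filter (fun p => a ≡ b [MOD p]) with hA
  set D : ℕ := ((b : ℤ) - a).natAbs with hD
  have hD0 : D ≠ 0 := by omega
  have hD1 : D ≤ 2 ^ (2 * P.S j) := by omega
  have hdvd : ∀ p ∈ A, p ∣ D := by
    intro p hp
    have h1 : a ≡ b [MOD p] := (Finset.mem_filter.1 hp).2
    have h2 : (p : ℤ) ∣ (b : ℤ) - a := Nat.modEq_iff_dvd.1 h1
    have h3 := Int.natAbs_dvd_natAbs.2 h2
    rwa [Int.natAbs_natCast] at h3
  have hpr : ∀ p ∈ A, Prime p := by
    intro p hp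
    have h1 : p ∈ P.bin T := (Finset.mem_filter.1 hp).1
    exact (Finset.mem_filter.1 h1).2.prime
  have h4 : ∏ p ∈ A, p ≤ D :=
    Nat.le_of_dvd (Nat.pos_of_ne_zero hD0) (Finset.prod_primes_dvd D hpr hdvd)
  have h5 : (2 ^ P.s T) ^ A.card ≤ ∏ p ∈ A, p := by
    refine Finset.pow_card_le_prod _ _ _ fun p hp => ?_
    have h1 : p ∈ P.bin T := (Finset.mem_filter.1 hp).1
    exact (Finset.mem_Ioc.1 (Finset.mem_filter.1 h1).1).1.le
  have h6 : 2 ^ (P.s T * A.card) ≤ 2 ^ (2 * P.S j) := by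
    rw [pow_mul]
    exact h5.trans (h4.trans hD1)
  have h7 : P.s T * A.card ≤ 2 * P.S j := (Nat.pow_le_pow_iff_right (by norm_num)).1 h6
  have h8 : 1 ≤ P.s T := le_trans (by norm_num) (h.s14 T)
  calc A.card = 1 * A.card := (one_mul _).symm
    _ ≤ P.s T * A.card := Nat.mul_le_mul_right _ h8
    _ ≤ 2 * P.S j := h7

private theorem divCnt_win (P : Par) (h : P.OK) (T : ℕ) :
    2 ^ P.s T ≤ (P.s T + 2) * (P.bin T).card := prime_window (P.s T) (h.s14 T)

private theorem divCnt_num (P : Par) (j T : ℕ) (hT : T < j) :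
    2 * P.S j * (P.s T + 2) ≤ 2 ^ (2 * (P.S j).size + 2) := by
  have h1 : P.s T ≤ P.S j :=
    Finset.single_le_sum (f := fun T => P.s T) (fun _ _ => Nat.zero_le _) (Finset.mem_range.2 hT)
  have h2 : P.S j < 2 ^ (P.S j).size := Nat.lt_size_self _
  have h3 : 1 ≤ 2 ^ (P.S j).size := Nat.one_le_two_pow
  have h4 : 2 ^ (2 * (P.S j).size + 2) = (2 * 2 ^ (P.S j).size) * (2 * 2 ^ (P.S j).size) := by
    ring
  rw [h4]
  exact Nat.mul_le_mul (by omega) (by omega)

private theorem divCnt_prod {J j : ℕ} (hj : j ≤ J) (f : ℕ → ℕ) :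
    ∏ T ∈ range J, (if T < j then f T else 1) = ∏ T ∈ range j, f T := by
  rw [Finset.prod_ite, Finset.prod_const_one, mul_one]
  refine Finset.prod_congr ?_ fun _ _ => rfl
  ext T
  rw [Finset.mem_filter, Finset.mem_range, Finset.mem_range]
  omega

open Classical in
theorem cong_count (P : Par) (h : P.OK) (J j : ℕ) (hj : j ≤ J) (x y : ℕ → ℕ)
    (hne : ∀ T < j, x T ≠ y T) (hx : ∀ T < j, x T ≤ 2 ^ (2 * P.S j))
    (hy : ∀ T < j, y T ≤ 2 ^ (2 * P.S j)) :
    ((QJ P J).filter (fun q => ∀ T < j, x T ≡ y T [MOD ext q T])).card * 2 ^ P.S j ≤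
      2 ^ P.Le j * (QJ P J).card := by
  have hset : (QJ P J).filter (fun q => ∀ T < j, x T ≡ y T [MOD ext q T]) =
      Fintype.piFinset (fun T : Fin J => if (T : ℕ) < j then
        (P.bin T).filter (fun p => x T ≡ y T [MOD p]) else P.bin T) := by
    ext q
    rw [Finset.mem_filter, QJ, Fintype.mem_piFinset, Fintype.mem_piFinset]
    constructor
    · rintro ⟨h1, h2⟩ T
      split_ifs with hT
      · refine Finset.mem_filter.2 ⟨h1 T, ?_⟩
        have h3 := h2 T hT
        rwa [ext, dif_pos T.isLt] at h3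
      · exact h1 T
    · intro h1
      refine ⟨fun T => ?_, fun T hT => ?_⟩
      · have h2 := h1 T
        split_ifs at h2 with hT
        · exact (Finset.mem_filter.1 h2).1
        · exact h2
      · have h2 := h1 ⟨T, lt_of_lt_of_le hT hj⟩
        rw [if_pos hT] at h2
        rw [ext, dif_pos (lt_of_lt_of_le hT hj)]
        exact (Finset.mem_filter.1 h2).2
  have hc1 : ((QJ P J).filter (fun q => ∀ T < j, x T ≡ y T [MOD ext q T])).card =
      ∏ T ∈ range J, (if T < j then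
        (P.bin T).filter (fun p => x T ≡ y T [MOD p]) else P.bin T).card := by
    rw [hset, Fintype.card_piFinset]
    exact Fin.prod_univ_eq_prod_range (fun T => (if T < j then
        (P.bin T).filter (fun p => x T ≡ y T [MOD p]) else P.bin T).card) J
  have hc2 : (QJ P J).card = ∏ T ∈ range J, (P.bin T).card := by
    rw [QJ, Fintype.card_piFinset]
    exact Fin.prod_univ_eq_prod_range (fun T => (P.bin T).card) J
  have hc3 : 2 ^ P.S j = ∏ T ∈ range J, (if T < j then 2 ^ P.s T else 1) := by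
    rw [divCnt_prod hj (fun T => 2 ^ P.s T), Finset.prod_pow_eq_pow_sum]
    rfl
  have hc4 : 2 ^ P.Le j = ∏ T ∈ range J, (if T < j then 2 ^ (2 * (P.S j).size + 2) else 1) := by
    rw [divCnt_prod hj (fun _ => 2 ^ (2 * (P.S j).size + 2)), Finset.prod_const, Finset.card_range,
      ← pow_mul, Par.Le, mul_comm]
  rw [hc1, hc2, hc3, hc4, ← Finset.prod_mul_distrib, ← Finset.prod_mul_distrib]
  refine Finset.prod_le_prod' fun T _ => ?_
  by_cases hT : T < j
  · rw [if_pos hT, if_pos hT, if_pos hT]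
    calc ((P.bin T).filter (fun p => x T ≡ y T [MOD p])).card * 2 ^ P.s T
        ≤ (2 * P.S j) * ((P.s T + 2) * (P.bin T).card) :=
          Nat.mul_le_mul (divCnt_card P h j T _ _ (hne T hT) (hx T hT) (hy T hT))
            (divCnt_win P h T)
      _ = (2 * P.S j * (P.s T + 2)) * (P.bin T).card := by ring
      _ ≤ 2 ^ (2 * (P.S j).size + 2) * (P.bin T).card :=
          Nat.mul_le_mul_right _ (divCnt_num P j T hT)
  · rw [if_neg hT, if_neg hT, if_neg hT, mul_one, one_mul]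

theorem bin_nonempty (P : Par) (h : P.OK) (T : ℕ) : (P.bin T).Nonempty := by
  have h1 := divCnt_win P h T
  rw [← Finset.card_pos]
  rcases Nat.eq_zero_or_pos (P.bin T).card with h0 | h0
  · rw [h0, mul_zero] at h1
    exact absurd h1 (not_le.2 (pow_pos (by norm_num) _))
  · exact h0

end Pool.Agent.SBP
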