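import Pool.Agent.Lib.SBP.DivCnt

/-!
# SBP.EnExp : the average energy

PROOF.  Fix c < Γ (j - d3) (≤ Γ (j - d2) ≤ Γ j) and a pair of triples with all three coordinates different; x = ell j c kz etc.
cong_count with x T := z y x (T < j - d3), z y (j - d3 ≤ T < j - d2), z (j - d2 ≤ T < j), and the primed products for y T.  They are different: OK.inj and
primes of different blocks are different (intervals (2^(a b - 2), 2^(a b)], a b + 2 ≤ a b' for b < b'): the prime z is different from z', y', x', so it does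
not divide z' y' x', z' y', z'.  Sizes: z y x ≤ 2^(a j + a (j-d2) + a (j-d3)) ≤ 2^(2 S j) (OK.ah: 2 a b ≤ S b ≤ S j).
So for every pair of triples the number of q is ≤ 2^(Le j) |QJ| / 2^(S j); the number of pairs is ≤ 2^(2 (ν j + ν (j-d2) + ν (j-d3))), and the number of
colours is 2^((j-d3)^3).
-/

namespace Pool.Agent.SBP

open Finset

private theorem EnExp_amono (P : Par) (h : P.OK) (b : ℕ) (hb : P.b0 ≤ b) (n : ℕ) :
    P.a b + 2 * n ≤ P.a (b + n) := by
  induction n with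
  | zero => simp
  | succ n ih =>
    have h1 := h.a2 (b + n) (by omega)
    rw [← add_assoc]
    omega

private theorem EnExp_lt (P : Par) (h : P.OK) {b b' : ℕ} (hb : P.b0 ≤ b) (hbb : b < b')
    {c c' k k' : ℕ} (hc : c < P.Γ b) (hc' : c' < P.Γ b') (hk : k < 2 ^ P.ν b)
    (hk' : k' < 2 ^ P.ν b') : P.ell b c k < P.ell b' c' k' := by
  have h1 := h.hi b hb c hc k hk
  have h2 := h.lo b' (by omega) c' hc' k' hk'
  have h3 := EnExp_amono P h b hb (b' - b)
  have h4 : b + (b' - b) = b' := by omega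
  rw [h4] at h3
  have h5 : P.a b ≤ P.a b' - 2 := by omega
  exact lt_of_le_of_lt (h1.trans (Nat.pow_le_pow_right (by norm_num) h5)) h2

private theorem EnExp_S (P : Par) {b j : ℕ} (hb : b ≤ j) : P.S b ≤ P.S j := by
  unfold Par.S
  exact Finset.sum_le_sum_of_subset (Finset.range_mono hb)

open Classical in
private theorem EnExp_one (P : Par) (h : P.OK) (J j : ℕ) (hj : P.b0 + P.d3 ≤ j) (hJ : j ≤ J)
    {c : ℕ} (hc : c < P.Γ (j - P.d3)) {kz ky kx kz' ky' kx' : ℕ} (hkz : kz < 2 ^ P.ν j)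
    (hky : ky < 2 ^ P.ν (j - P.d2)) (hkx : kx < 2 ^ P.ν (j - P.d3)) (hkz' : kz' < 2 ^ P.ν j)
    (hky' : ky' < 2 ^ P.ν (j - P.d2)) (hkx' : kx' < 2 ^ P.ν (j - P.d3)) :
    ((QJ P J).filter (fun q => kz ≠ kz' ∧ ky ≠ ky' ∧ kx ≠ kx' ∧
      Cong3 P (ext q) j c kz ky kx kz' ky' kx')).card * 2 ^ P.S j ≤
      2 ^ P.Le j * (QJ P J).card := by
  by_cases hd : kz ≠ kz'
  swap
  · have he : (QJ P J).filter (fun q => kz ≠ kz' ∧ ky ≠ ky' ∧ kx ≠ kx' ∧
        Cong3 P (ext q) j c kz ky kx kz' ky' kx') = ∅ := by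
      rw [Finset.filter_eq_empty_iff]
      rintro q _ ⟨h1, _⟩
      exact hd h1
    rw [he, Finset.card_empty, zero_mul]
    exact Nat.zero_le _
  have hΓ : ∀ b, j - P.d3 ≤ b → c < P.Γ b := by
    intro b hb
    refine lt_of_lt_of_le hc ?_
    exact Nat.pow_le_pow_right (by norm_num) (Nat.pow_le_pow_left hb 3)
  have hd2 := h.d2
  have hd23 := h.d23
  have hc1 : c < P.Γ j := hΓ _ (by omega)
  have hc2 : c < P.Γ (j - P.d2) := hΓ _ (by omega)
  have hb1 : P.b0 ≤ j := by omega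
  have hb2 : P.b0 ≤ j - P.d2 := by omega
  have hb3 : P.b0 ≤ j - P.d3 := by omega
  have pz := h.prime j hb1 c hc1 kz hkz
  have pz' := h.prime j hb1 c hc1 kz' hkz'
  have py' := h.prime (j - P.d2) hb2 c hc2 ky' hky'
  have px' := h.prime (j - P.d3) hb3 c hc kx' hkx'
  have n1 : ¬ P.ell j c kz ∣ P.ell j c kz' := by
    intro h1
    rw [Nat.prime_dvd_prime_iff_eq pz pz'] at h1
    exact hd (h.inj j hb1 c hc1 c hc1 kz hkz kz' hkz' h1).2
  have n2 : ¬ P.ell j c kz ∣ P.ell (j - P.d2) c ky' := by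
    intro h1
    rw [Nat.prime_dvd_prime_iff_eq pz py'] at h1
    have := EnExp_lt P h hb2 (by omega : j - P.d2 < j) hc2 hc1 hky' hkz
    omega
  have n3 : ¬ P.ell j c kz ∣ P.ell (j - P.d3) c kx' := by
    intro h1
    rw [Nat.prime_dvd_prime_iff_eq pz px'] at h1
    have := EnExp_lt P h hb3 (by omega : j - P.d3 < j) hc hc1 hkx' hkz
    omega
  have a1 := h.ah j hb1
  have a2 := h.ah (j - P.d2) hb2
  have a3 := h.ah (j - P.d3) hb3
  have s2 := EnExp_S P (Nat.sub_le j P.d2)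
  have s3 := EnExp_S P (Nat.sub_le j P.d3)
  have size : ∀ {z y x : ℕ}, z ≤ 2 ^ P.a j → y ≤ 2 ^ P.a (j - P.d2) → x ≤ 2 ^ P.a (j - P.d3) →
      z * y * x ≤ 2 ^ (2 * P.S j) ∧ z * y ≤ 2 ^ (2 * P.S j) ∧ z ≤ 2 ^ (2 * P.S j) := by
    intro z y x h1 h2 h3
    refine ⟨?_, ?_, ?_⟩
    · refine (Nat.mul_le_mul (Nat.mul_le_mul h1 h2) h3).trans ?_
      rw [← pow_add, ← pow_add]
      exact Nat.pow_le_pow_right (by norm_num) (by omega)
    · refine (Nat.mul_le_mul h1 h2).trans ?_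
      rw [← pow_add]
      exact Nat.pow_le_pow_right (by norm_num) (by omega)
    · exact h1.trans (Nat.pow_le_pow_right (by norm_num) (by omega))
  have sz := size (h.hi j hb1 c hc1 kz hkz) (h.hi _ hb2 c hc2 ky hky) (h.hi _ hb3 c hc kx hkx)
  have sz' := size (h.hi j hb1 c hc1 kz' hkz') (h.hi _ hb2 c hc2 ky' hky')
    (h.hi _ hb3 c hc kx' hkx')
  refine le_trans (Nat.mul_le_mul_right _ (Finset.card_le_card ?_)) (cong_count P h J j hJ
    (fun T => if T < j - P.d3 then P.ell j c kz * P.ell (j - P.d2) c ky * P.ell (j - P.d3) c kx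
      else if T < j - P.d2 then P.ell j c kz * P.ell (j - P.d2) c ky else P.ell j c kz)
    (fun T => if T < j - P.d3 then
      P.ell j c kz' * P.ell (j - P.d2) c ky' * P.ell (j - P.d3) c kx'
      else if T < j - P.d2 then P.ell j c kz' * P.ell (j - P.d2) c ky' else P.ell j c kz')
    ?_ ?_ ?_)
  · intro q hq
    rw [Finset.mem_filter] at hq ⊢
    obtain ⟨hq1, _, _, _, h1, h2, h3⟩ := hq
    refine ⟨hq1, ?_⟩
    intro T hT
    split_ifs with h4 h5
    · exact h1 T h4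
    · exact h2 T (not_lt.1 h4) h5
    · exact h3 T (not_lt.1 h5) hT
  · intro T hT
    split_ifs with h4 h5
    · intro he
      have h6 : P.ell j c kz ∣ P.ell j c kz' * P.ell (j - P.d2) c ky' * P.ell (j - P.d3) c kx' := by
        rw [← he, mul_assoc]
        exact dvd_mul_right _ _
      rw [pz.dvd_mul, pz.dvd_mul] at h6
      rcases h6 with (h6 | h6) | h6
      · exact n1 h6
      · exact n2 h6
      · exact n3 h6
    · intro he
      have h6 : P.ell j c kz ∣ P.ell j c kz' * P.ell (j - P.d2) c ky' := by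
        rw [← he]
        exact dvd_mul_right _ _
      rw [pz.dvd_mul] at h6
      rcases h6 with h6 | h6
      · exact n1 h6
      · exact n2 h6
    · intro he
      exact n1 (by rw [he])
  · intro T _
    split_ifs
    · exact sz.1
    · exact sz.2.1
    · exact sz.2.2
  · intro T _
    split_ifs
    · exact sz'.1
    · exact sz'.2.1
    · exact sz'.2.2

theorem en_exp (P : Par) (h : P.OK) (J j : ℕ) (hj : P.b0 + P.d3 ≤ j) (hJ : j ≤ J) :
    (∑ q ∈ QJ P J, ∑ c ∈ range (P.Γ (j - P.d3)), energy P (ext q) j c) * 2 ^ P.S j ≤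
      2 ^ ((j - P.d3) ^ 3 + 2 * (P.ν j + P.ν (j - P.d2) + P.ν (j - P.d3)) + P.Le j) *
        (QJ P J).card := by
  classical
  have key : ∀ c ∈ range (P.Γ (j - P.d3)), (∑ q ∈ QJ P J, energy P (ext q) j c) * 2 ^ P.S j ≤
      2 ^ (2 * (P.ν j + P.ν (j - P.d2) + P.ν (j - P.d3))) * (2 ^ P.Le j * (QJ P J).card) := by
    intro c hc
    rw [mem_range] at hc
    have e1 : ∑ q ∈ QJ P J, energy P (ext q) j c =
        ∑ p ∈ ((range (2 ^ P.ν j) ×ˢ range (2 ^ P.ν (j - P.d2)) ×ˢ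
          range (2 ^ P.ν (j - P.d3))) ×ˢ
          (range (2 ^ P.ν j) ×ˢ range (2 ^ P.ν (j - P.d2)) ×ˢ range (2 ^ P.ν (j - P.d3)))),
        ((QJ P J).filter (fun q => p.1.1 ≠ p.2.1 ∧ p.1.2.1 ≠ p.2.2.1 ∧ p.1.2.2 ≠ p.2.2.2 ∧
          Cong3 P (ext q) j c p.1.1 p.1.2.1 p.1.2.2 p.2.1 p.2.2.1 p.2.2.2)).card := by
      simp only [energy, Finset.card_filter]
      exact Finset.sum_comm
    rw [e1, Finset.sum_mul]
    refine (Finset.sum_le_card_nsmul _ _ (2 ^ P.Le j * (QJ P J).card) ?_).trans ?_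
    · rintro ⟨⟨kz, ky, kx⟩, ⟨kz', ky', kx'⟩⟩ hp
      simp only [Finset.mem_product, Finset.mem_range] at hp
      obtain ⟨⟨h1, h2, h3⟩, ⟨h4, h5, h6⟩⟩ := hp
      convert EnExp_one P h J j hj hJ hc h1 h2 h3 h4 h5 h6
    · rw [smul_eq_mul]
      refine le_of_eq (congrArg (· * _) ?_)
      simp only [Finset.card_product, Finset.card_range]
      rw [two_mul, pow_add, pow_add, pow_add]
      ring
  rw [Finset.sum_comm, Finset.sum_mul]
  refine (Finset.sum_le_card_nsmul _ _ _ key).trans (le_of_eq ?_)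
  rw [smul_eq_mul, Finset.card_range, Par.Γ, pow_add, pow_add]
  ring

end Pool.Agent.SBP
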