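import Mathlib

/-!
# SBP.Gad1 : an explicit two-colouring of the nonzero residues mod 439

For every pair (s,t) of residues mod 439 and all colours a, b, c there are nonzero residues
x, y, z of these colours with x + y + z = s and x^2 + y^2 + z^2 = t.  Checked by bit masks.
-/

namespace Pool.Agent.SBP

/-- The bit mask of the colouring. -/
def Lmask : ℕ :=
  0xd3053dd4e72acb5ede193643eb6db2dd2f84728dd919f1a29d18c77bee14241ef5f47de01bf1830723f4401d2016894c2a9fd24697b82

/-- The colour of x. -/
def Lc (x : ℕ) : Bool := Nat.testBit Lmask x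

/-- Code of x. -/
def cd (x : ℕ) : ℕ := x + 1317 * (x * x % 439)

/-- OR over 1 ≤ x ≤ n with colour a of N shifted by the code of x. -/
def orS (a : Bool) (N : ℕ) : ℕ → ℕ
  | 0 => 0
  | n + 1 => if Lc (n + 1) == a then orS a N n ||| (N <<< cd (n + 1)) else orS a N n

/-- rows check -/
def rows (F : ℕ) : ℕ → Bool
  | 0 => true
  | t + 1 => (((F >>> (1317 * t)) % 2 ^ 439) == 2 ^ 439 - 1) && rows F t

def fold1 (T : ℕ) : ℕ := T ||| (T >>> 439) ||| (T >>> 878)
def fold2 (T : ℕ) : ℕ := T ||| (T >>> (439 * 1317)) ||| (T >>> (878 * 1317))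

def chk (a b c : Bool) : Bool :=
  rows (fold2 (fold1 (orS c (orS b (orS a 1 438) 438) 438))) 439

theorem chk_all : ∀ a b c : Bool, chk a b c = true := by decide +kernel

theorem orS_testBit (a : Bool) (N n i : ℕ) (h : (orS a N n).testBit i = true) :
    ∃ x, 1 ≤ x ∧ x ≤ n ∧ Lc x = a ∧ cd x ≤ i ∧ N.testBit (i - cd x) = true := by
  induction n with
  | zero => simp [orS] at h
  | succ n ih =>
    unfold orS at h
    split_ifs at h with hc
    · rw [Nat.testBit_or, Bool.or_eq_true] at h
      rcases h with h | h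
      · obtain ⟨x, h1, h2, h3⟩ := ih h
        exact ⟨x, h1, by omega, h3⟩
      · rw [Nat.testBit_shiftLeft, Bool.and_eq_true] at h
        exact ⟨n + 1, by omega, le_rfl, by simpa using hc, by simpa using h.1, h.2⟩
    · obtain ⟨x, h1, h2, h3⟩ := ih h
      exact ⟨x, h1, by omega, h3⟩

theorem rows_spec (F n : ℕ) (h : rows F n = true) (t : ℕ) (ht : t < n) (s : ℕ) (hs : s < 439) :
    F.testBit (1317 * t + s) = true := by
  induction n with
  | zero => omega
  | succ n ih =>
    unfold rows at h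
    rw [Bool.and_eq_true] at h
    rcases Nat.lt_succ_iff_lt_or_eq.mp ht with h1 | h1
    · exact ih h.2 h1
    · subst h1
      have h2 : (F >>> (1317 * t)) % 2 ^ 439 = 2 ^ 439 - 1 := by simpa using h.1
      have h3 : ((F >>> (1317 * t)) % 2 ^ 439).testBit s = true := by
        rw [h2, Nat.testBit_two_pow_sub_one]
        simpa using hs
      rw [Nat.testBit_mod_two_pow, Bool.and_eq_true, Nat.testBit_shiftRight] at h3
      exact h3.2

theorem fold1_spec (T i : ℕ) (h : (fold1 T).testBit i = true) :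
    ∃ j, j < 3 ∧ T.testBit (i + 439 * j) = true := by
  unfold fold1 at h
  simp only [Nat.testBit_or, Bool.or_eq_true, Nat.testBit_shiftRight] at h
  rcases h with (h | h) | h
  · exact ⟨0, by omega, by simpa using h⟩
  · exact ⟨1, by omega, by rw [show i + 439 * 1 = 439 + i by ring]; exact h⟩
  · exact ⟨2, by omega, by rw [show i + 439 * 2 = 878 + i by ring]; exact h⟩

theorem fold2_spec (T i : ℕ) (h : (fold2 T).testBit i = true) :
    ∃ j, j < 3 ∧ T.testBit (i + 439 * 1317 * j) = true := by
  unfold fold2 at h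
  simp only [Nat.testBit_or, Bool.or_eq_true, Nat.testBit_shiftRight] at h
  rcases h with (h | h) | h
  · exact ⟨0, by omega, by simpa using h⟩
  · exact ⟨1, by omega, by rw [show i + 439 * 1317 * 1 = 439 * 1317 + i by ring]; exact h⟩
  · exact ⟨2, by omega, by rw [show i + 439 * 1317 * 2 = 878 * 1317 + i by ring]; exact h⟩

/-- The cover property. -/
theorem gad_cover (s t : ℕ) (a b c : Bool) : ∃ x y z : ℕ,
    0 < x ∧ x < 439 ∧ 0 < y ∧ y < 439 ∧ 0 < z ∧ z < 439 ∧
    Lc x = a ∧ Lc y = b ∧ Lc z = c ∧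
    (x + y + z) % 439 = s % 439 ∧ (x * x + y * y + z * z) % 439 = t % 439 := by
  have h := chk_all a b c
  unfold chk at h
  have h1 := rows_spec _ _ h (t % 439) (Nat.mod_lt _ (by norm_num)) (s % 439)
    (Nat.mod_lt _ (by norm_num))
  obtain ⟨j2, hj2, h2⟩ := fold2_spec _ _ h1
  obtain ⟨j1, hj1, h3⟩ := fold1_spec _ _ h2
  obtain ⟨z, z1, z2, z3, z4, h4⟩ := orS_testBit _ _ _ _ h3
  obtain ⟨y, y1, y2, y3, y4, h5⟩ := orS_testBit _ _ _ _ h4
  obtain ⟨x, x1, x2, x3, x4, h6⟩ := orS_testBit _ _ _ _ h5
  have h7 := Nat.testBit_one_eq_true_iff_self_eq_zero.mp h6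
  have e1 : 1317 * (t % 439) + s % 439 + 439 * 1317 * j2 + 439 * j1 = cd x + cd y + cd z := by
    omega
  have hx : x * x % 439 < 439 := Nat.mod_lt _ (by norm_num)
  have hy : y * y % 439 < 439 := Nat.mod_lt _ (by norm_num)
  have hz : z * z % 439 < 439 := Nat.mod_lt _ (by norm_num)
  have ht : t % 439 < 439 := Nat.mod_lt _ (by norm_num)
  have hs : s % 439 < 439 := Nat.mod_lt _ (by norm_num)
  unfold cd at e1
  have e2 : s % 439 + 439 * j1 = x + y + z ∧
      t % 439 + 439 * j2 = x * x % 439 + y * y % 439 + z * z % 439 := by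
    generalize x * x % 439 = X at *
    generalize y * y % 439 = Y at *
    generalize z * z % 439 = Z at *
    generalize t % 439 = t' at *
    generalize s % 439 = s' at *
    constructor <;> omega
  refine ⟨x, y, z, by omega, by omega, by omega, by omega, by omega, by omega, x3, y3, z3, ?_, ?_⟩
  · rw [← e2.1]; simp
  · have : (x * x + y * y + z * z) % 439 = (x * x % 439 + y * y % 439 + z * z % 439) % 439 := by
      simp [Nat.add_mod]
    rw [this, ← e2.2]
    simp

end Pool.Agent.SBP
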