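import Pool.Agent.Lib.SBP.Gad1

/-!
# SBP.Gad2 : the binary tag gadget in base 2^26
-/

namespace Pool.Agent.SBP

/-- The tag values of colour a (in base 2^26). -/
def TX (a : Bool) (t : ℕ) : Prop :=
  ∃ u v : ℕ, t = u + 8192 * v ∧ u < 4096 ∧ v < 4096 ∧ u % 439 ≠ 0 ∧ Lc (u % 439) = a ∧
    v % 439 = (u % 439) * (u % 439) % 439

theorem TX_lt {a : Bool} {t : ℕ} (h : TX a t) : 2 * t < 2 ^ 26 := by
  obtain ⟨u, v, rfl, h1, h2, -⟩ := h
  norm_num
  omega

theorem TX_pos {a : Bool} {t : ℕ} (h : TX a t) : 0 < t := by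
  obtain ⟨u, v, rfl, h1, h2, h3, -⟩ := h
  have : 0 < u := by
    rcases Nat.eq_zero_or_pos u with h | h
    · subst h; simp at h3
    · exact h
  omega

/-- digit comparison -/
theorem dig2 {u v u' v' : ℕ} (hu : u < 8192) (hu' : u' < 8192)
    (h : u + 8192 * v = u' + 8192 * v') : u = u' ∧ v = v' := by omega

theorem fact439 : Fact (Nat.Prime 439) := ⟨by norm_num⟩

theorem two_ne439 : (2 : ZMod 439) ≠ 0 := by decide

theorem par_two {x y z w : ℕ} (hx : x < 439) (hy : y < 439) (hz : z < 439) (hw : w < 439)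
    (h1 : (x + y) % 439 = (z + w) % 439)
    (h2 : (x * x + y * y) % 439 = (z * z + w * w) % 439) :
    (x = z ∧ y = w) ∨ (x = w ∧ y = z) := by
  have := fact439
  have e1 : (x : ZMod 439) + y = z + w := by
    have := (ZMod.natCast_eq_natCast_iff (x + y) (z + w) 439).mpr h1
    push_cast at this; exact this
  have e2 : (x : ZMod 439) * x + y * y = z * z + w * w := by
    have := (ZMod.natCast_eq_natCast_iff (x * x + y * y) (z * z + w * w) 439).mpr h2
    push_cast at this; exact this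
  have two := two_ne439
  have e3 : (x : ZMod 439) * y = z * w := by
    have : (2 : ZMod 439) * (x * y) = 2 * (z * w) := by
      have h3 : ((x : ZMod 439) + y) * (x + y) = (z + w) * (z + w) := by rw [e1]
      linear_combination h3 - e2
    exact mul_left_cancel₀ two this
  have e4 : ((x : ZMod 439) - z) * (x - w) = 0 := by
    have : (y : ZMod 439) = z + w - x := by linear_combination e1
    rw [this] at e3
    linear_combination -e3
  have lift : ∀ m n : ℕ, m < 439 → n < 439 → (m : ZMod 439) = n → m = n := by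
    intro m n hm hn h
    have := (ZMod.natCast_eq_natCast_iff m n 439).mp h
    rw [Nat.ModEq, Nat.mod_eq_of_lt hm, Nat.mod_eq_of_lt hn] at this
    exact this
  rcases mul_eq_zero.mp e4 with h | h
  · have hxz : x = z := lift x z hx hz (by linear_combination h)
    left
    refine ⟨hxz, ?_⟩
    subst hxz
    exact lift y w hy hw (by linear_combination e1)
  · have hxw : x = w := lift x w hx hw (by linear_combination h)
    right
    refine ⟨hxw, ?_⟩
    subst hxw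
    exact lift y z hy hz (by linear_combination e1)

theorem par_three {x y z : ℕ} (hx : x < 439) (hy : y < 439) (hx0 : x ≠ 0) (hy0 : y ≠ 0)
    (h1 : (x + y) % 439 = z % 439)
    (h2 : (x * x + y * y) % 439 = (z * z) % 439) : False := by
  have := fact439
  have e1 : (x : ZMod 439) + y = z := by
    have := (ZMod.natCast_eq_natCast_iff (x + y) z 439).mpr h1
    push_cast at this; exact this
  have e2 : (x : ZMod 439) * x + y * y = z * z := by
    have := (ZMod.natCast_eq_natCast_iff (x * x + y * y) (z * z) 439).mpr h2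
    push_cast at this; exact this
  have two := two_ne439
  have e3 : (2 : ZMod 439) * (x * y) = 0 := by
    rw [← e1] at e2
    linear_combination -e2
  have nz : ∀ m : ℕ, m < 439 → m ≠ 0 → (m : ZMod 439) ≠ 0 := by
    intro m hm h0 h
    have := (ZMod.natCast_eq_zero_iff m 439).mp h
    exact absurd (Nat.le_of_dvd (Nat.pos_of_ne_zero h0) this) (by omega)
  rcases mul_eq_zero.mp e3 with h | h
  · exact two h
  · rcases mul_eq_zero.mp h with h | h
    · exact nz x hx hx0 h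
    · exact nz y hy hy0 h

theorem TX_one {a a' : Bool} {t : ℕ} (h : TX a t) (h' : TX a' t) : a = a' := by
  obtain ⟨u, v, rfl, h1, h2, h3, h4, h5⟩ := h
  obtain ⟨u', v', e, h1', h2', h3', h4', h5'⟩ := h'
  obtain ⟨e1, e2⟩ := dig2 (by omega) (by omega) e
  subst e1
  rw [← h4, ← h4']

theorem TX_two {a1 a2 a3 a4 : Bool} {t1 t2 t3 t4 : ℕ} (h1 : TX a1 t1) (h2 : TX a2 t2)
    (h3 : TX a3 t3) (h4 : TX a4 t4) (h : t1 + t2 = t3 + t4) :
    a1.toNat + a2.toNat = a3.toNat + a4.toNat := by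
  obtain ⟨u1, v1, rfl, k1, l1, m1, n1, o1⟩ := h1
  obtain ⟨u2, v2, rfl, k2, l2, m2, n2, o2⟩ := h2
  obtain ⟨u3, v3, rfl, k3, l3, m3, n3, o3⟩ := h3
  obtain ⟨u4, v4, rfl, k4, l4, m4, n4, o4⟩ := h4
  have e : (u1 + u2) + 8192 * (v1 + v2) = (u3 + u4) + 8192 * (v3 + v4) := by omega
  obtain ⟨e1, e2⟩ := dig2 (by omega) (by omega) e
  have f1 : (u1 % 439 + u2 % 439) % 439 = (u3 % 439 + u4 % 439) % 439 := by
    rw [← Nat.add_mod, ← Nat.add_mod, e1]
  have f2 : ((u1 % 439) * (u1 % 439) + (u2 % 439) * (u2 % 439)) % 439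
      = ((u3 % 439) * (u3 % 439) + (u4 % 439) * (u4 % 439)) % 439 := by
    rw [Nat.add_mod, ← o1, ← o2, ← Nat.add_mod,
      Nat.add_mod ((u3 % 439) * (u3 % 439)), ← o3, ← o4, ← Nat.add_mod, e2]
  have := par_two (Nat.mod_lt _ (by norm_num)) (Nat.mod_lt _ (by norm_num))
    (Nat.mod_lt _ (by norm_num)) (Nat.mod_lt _ (by norm_num)) f1 f2
  rcases this with ⟨p, q⟩ | ⟨p, q⟩
  · rw [← n1, ← n2, ← n3, ← n4, p, q]
  · rw [← n1, ← n2, ← n3, ← n4, p, q, add_comm]

theorem TX_three {a1 a2 a3 : Bool} {t1 t2 t3 : ℕ} (h1 : TX a1 t1) (h2 : TX a2 t2)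
    (h3 : TX a3 t3) (h : t1 + t2 = t3) : False := by
  obtain ⟨u1, v1, rfl, k1, l1, m1, n1, o1⟩ := h1
  obtain ⟨u2, v2, rfl, k2, l2, m2, n2, o2⟩ := h2
  obtain ⟨u3, v3, rfl, k3, l3, m3, n3, o3⟩ := h3
  have e : (u1 + u2) + 8192 * (v1 + v2) = u3 + 8192 * v3 := by omega
  obtain ⟨e1, e2⟩ := dig2 (by omega) (by omega) e
  have f1 : (u1 % 439 + u2 % 439) % 439 = (u3 % 439) % 439 := by
    rw [← Nat.add_mod, e1, Nat.mod_mod]
  have f2 : ((u1 % 439) * (u1 % 439) + (u2 % 439) * (u2 % 439)) % 439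
      = ((u3 % 439) * (u3 % 439)) % 439 := by
    rw [Nat.add_mod, ← o1, ← o2, ← Nat.add_mod, ← o3, e2]
  exact par_three (Nat.mod_lt _ (by norm_num)) (Nat.mod_lt _ (by norm_num)) m1 m2 f1 f2

/-- distributing a sum over three residues -/
theorem split3 {x y z V : ℕ} (hx : x < 439) (hy : y < 439) (hz : z < 439)
    (h : (x + y + z) % 439 = V % 439) (h1 : 1317 ≤ V) (h2 : V ≤ 9600) :
    ∃ i j k : ℕ, (x + 439 * i) + (y + 439 * j) + (z + 439 * k) = V ∧
      x + 439 * i < 4096 ∧ y + 439 * j < 4096 ∧ z + 439 * k < 4096 := by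
  obtain ⟨K, hK⟩ : ∃ K, V = x + y + z + 439 * K :=
    ⟨(V - (x + y + z)) / 439, by omega⟩
  exact ⟨K / 3, (K + 1) / 3, (K + 2) / 3, by omega, by omega, by omega, by omega⟩

theorem TX_cover (a b c : Bool) (r : ℕ) : ∃ t1 t2 t3 : ℕ, TX a t1 ∧ TX b t2 ∧ TX c t3 ∧
    (t1 + t2 + t3) % 2 ^ 26 = r % 2 ^ 26 := by
  obtain ⟨V1, κ, hV1, hV1', hκ, eV1⟩ : ∃ V1 κ : ℕ, 1317 ≤ V1 ∧ V1 ≤ 9600 ∧ κ ≤ 1 ∧
      V1 = r % 8192 + 8192 * κ := by
    by_cases h : 1317 ≤ r % 8192
    · exact ⟨r % 8192, 0, by omega, by omega, by omega, by omega⟩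
    · exact ⟨r % 8192 + 8192, 1, by omega, by omega, by omega, by omega⟩
  obtain ⟨V2, hV2, hV2', eV2⟩ : ∃ V2 : ℕ, 1317 ≤ V2 ∧ V2 ≤ 9600 ∧
      (V2 + κ) % 8192 = (r / 8192) % 8192 := by
    by_cases h : 1317 ≤ (r / 8192 + 8192 - κ) % 8192
    · exact ⟨(r / 8192 + 8192 - κ) % 8192, by omega, by omega, by omega⟩
    · exact ⟨(r / 8192 + 8192 - κ) % 8192 + 8192, by omega, by omega, by omega⟩
  obtain ⟨x, y, z, x0, x1, y0, y1, z0, z1, lx, ly, lz, hs, ht⟩ := gad_cover V1 V2 a b c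
  obtain ⟨i, j, k, e1, i1, j1, k1⟩ := split3 x1 y1 z1 hs hV1 hV1'
  have hX : x * x % 439 < 439 := Nat.mod_lt _ (by norm_num)
  have hY : y * y % 439 < 439 := Nat.mod_lt _ (by norm_num)
  have hZ : z * z % 439 < 439 := Nat.mod_lt _ (by norm_num)
  have ht' : (x * x % 439 + y * y % 439 + z * z % 439) % 439 = V2 % 439 := by
    rw [← ht]; simp [Nat.add_mod]
  obtain ⟨i', j', k', e2, i2, j2, k2⟩ := split3 hX hY hZ ht' hV2 hV2'
  have mm : ∀ w n : ℕ, w < 439 → (w + 439 * n) % 439 = w := by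
    intro w n hw
    rw [Nat.add_mul_mod_self_left, Nat.mod_eq_of_lt hw]
  refine ⟨(x + 439 * i) + 8192 * (x * x % 439 + 439 * i'),
    (y + 439 * j) + 8192 * (y * y % 439 + 439 * j'),
    (z + 439 * k) + 8192 * (z * z % 439 + 439 * k'),
    ⟨_, _, rfl, i1, i2, ?_, ?_, ?_⟩, ⟨_, _, rfl, j1, j2, ?_, ?_, ?_⟩,
    ⟨_, _, rfl, k1, k2, ?_, ?_, ?_⟩, ?_⟩
  · rw [mm x i x1]; omega
  · rw [mm x i x1]; exact lx
  · rw [mm x i x1, mm _ i' hX]
  · rw [mm y j y1]; omega
  · rw [mm y j y1]; exact ly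
  · rw [mm y j y1, mm _ j' hY]
  · rw [mm z k z1]; omega
  · rw [mm z k z1]; exact lz
  · rw [mm z k z1, mm _ k' hZ]
  · have e3 : (x + 439 * i + 8192 * (x * x % 439 + 439 * i')) +
        (y + 439 * j + 8192 * (y * y % 439 + 439 * j')) +
        (z + 439 * k + 8192 * (z * z % 439 + 439 * k')) = V1 + 8192 * V2 := by
      rw [← e1, ← e2]; ring
    rw [e3, eV1]
    norm_num
    omega

end Pool.Agent.SBP
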