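import Pool.Agent.Lib.SBP.Defs
import Pool.Agent.Lib.SBP.Gad2

/-!
# SBP.Gad3 : tag families for numbers N < 2^g in base 2^(78 g)

PROOF.  The code word of N is the word of length 3g whose bit number k is testBit N k for k < g
and testBit (N^2) (k - g) for g ≤ k < 3g (N^2 < 2^(2g)).  X N := the set of all t < 2^(78 g) such
that for every k < 3g the digit number k of t in base 2^26, that is (t / 2^(26 k)) % 2^26,
satisfies TX (bit k of the word of N).  (Any other definition is fine, e.g. by recursion over the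
length: W n (w : ℕ → Bool) t : W 0 w t iff t = 0, and W (n+1) w t iff t = x + 2^26 t' with
TX (w 0) x and W n (w ∘ succ) t'.)  By induction on the length n of words, with the facts of Gad2:
(a) W n w t implies 2 t < 2^(26 n) for n ≥ 1, and t < 2^(26 n), 2 t ≤ ... ; precisely
    2 t + 2 ≤ 2^(26 n) for n ≥ 1 is convenient (2 x + 2 ≤ 2^26 as TX_lt and parity), 2 t + 1 ≤ 1 for n = 0;
(b) t > 0 for n ≥ 1 (TX_pos);
(c) W n w t and W n w' t imply w k = w' k for k < n: the digit x = t % 2^26, TX_one;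
(d) if t1 + t2 = t3 + t4 (words w1, w2, w3, w4) then for all k < n
    (w1 k).toNat + (w2 k).toNat = (w3 k).toNat + (w4 k).toNat: x1 + x2 < 2^26 by TX_lt, so
    the lowest digits satisfy x1 + x2 = x3 + x4 (TX_two) and t1' + t2' = t3' + t4';
(e) t1 + t2 = t3 is impossible for n ≥ 1: lowest digits x1 + x2 = x3 contradict TX_three;
(f) cover: for all words w1, w2, w3 and all r there are t1, t2, t3 with sum ≡ r mod 2^(26 n):
    TX_cover gives x1, x2, x3 with x1 + x2 + x3 ≡ r mod 2^26; apply the induction hypothesis to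
    r' with x1 + x2 + x3 + 2^26 r' ≡ r mod 2^(26 (n+1)), e.g. r' = ((r + 2^(26(n+1)) * 3 - x1 - x2 - x3) / 2^26).
From (d): summing 2^k times the equations for k < g gives N1 + N2 = N3 + N4 (N = Σ_{k<g} 2^k bit_k
for N < 2^g), the equations for g ≤ k < 3g give N1^2 + N2^2 = N3^2 + N4^2, hence
{N1, N2} = {N3, N4} (nlinarith / (N1 - N3)(N1 - N4) = 0).  From (c): all bits of N, N' below g
agree, so N = N'.
-/

namespace Pool.Agent.SBP

private def Gad3_W : ℕ → (ℕ → Bool) → ℕ → Prop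
  | 0, _, t => t = 0
  | n + 1, w, t => ∃ x t', TX (w 0) x ∧ Gad3_W n (fun k => w (k + 1)) t' ∧ t = x + 2 ^ 26 * t'

private theorem Gad3_lt : ∀ (n : ℕ) (w : ℕ → Bool) (t : ℕ), Gad3_W n w t →
    2 * t + 1 ≤ 2 ^ (26 * n) := by
  intro n
  induction n with
  | zero =>
    intro w t h
    change t = 0 at h
    subst h
    simp
  | succ n ih =>
    rintro w t ⟨x, t', hx, ht', rfl⟩
    have h1 := TX_lt hx
    have h2 := ih _ _ ht'
    have h3 : 2 ^ (26 * (n + 1)) = 2 ^ 26 * 2 ^ (26 * n) := by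
      rw [mul_add, mul_one, pow_add, mul_comm]
    rw [h3]
    norm_num at h1 ⊢
    omega

private theorem Gad3_one : ∀ (n : ℕ) (w w' : ℕ → Bool) (t : ℕ), Gad3_W n w t → Gad3_W n w' t →
    ∀ k < n, w k = w' k := by
  intro n
  induction n with
  | zero => intro w w' t _ _ k hk; omega
  | succ n ih =>
    rintro w w' t ⟨x, t', hx, ht', rfl⟩ ⟨y, t'', hy, ht'', e⟩ k hk
    have h1 := TX_lt hx
    have h2 := TX_lt hy
    norm_num at h1 h2 e
    have e1 : x = y := by omega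
    have e2 : t' = t'' := by omega
    subst e1
    subst e2
    rcases k with _ | k
    · exact TX_one hx hy
    · exact ih _ _ _ ht' ht'' k (by omega)

private theorem Gad3_two : ∀ (n : ℕ) (w1 w2 w3 w4 : ℕ → Bool) (t1 t2 t3 t4 : ℕ),
    Gad3_W n w1 t1 → Gad3_W n w2 t2 → Gad3_W n w3 t3 → Gad3_W n w4 t4 → t1 + t2 = t3 + t4 →
    ∀ k < n, (w1 k).toNat + (w2 k).toNat = (w3 k).toNat + (w4 k).toNat := by
  intro n
  induction n with
  | zero => intro _ _ _ _ _ _ _ _ _ _ _ _ _ k hk; omega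
  | succ n ih =>
    rintro w1 w2 w3 w4 t1 t2 t3 t4 ⟨x1, s1, h1, k1, rfl⟩ ⟨x2, s2, h2, k2, rfl⟩
      ⟨x3, s3, h3, k3, rfl⟩ ⟨x4, s4, h4, k4, rfl⟩ e k hk
    have l1 := TX_lt h1
    have l2 := TX_lt h2
    have l3 := TX_lt h3
    have l4 := TX_lt h4
    norm_num at l1 l2 l3 l4 e
    have e1 : x1 + x2 = x3 + x4 := by omega
    have e2 : s1 + s2 = s3 + s4 := by omega
    rcases k with _ | k
    · exact TX_two h1 h2 h3 h4 e1
    · exact ih _ _ _ _ _ _ _ _ k1 k2 k3 k4 e2 k (by omega)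

private theorem Gad3_three (n : ℕ) (w1 w2 w3 : ℕ → Bool) (t1 t2 t3 : ℕ)
    (h1 : Gad3_W (n + 1) w1 t1) (h2 : Gad3_W (n + 1) w2 t2) (h3 : Gad3_W (n + 1) w3 t3) :
    t1 + t2 ≠ t3 := by
  obtain ⟨x1, s1, h1, k1, rfl⟩ := h1
  obtain ⟨x2, s2, h2, k2, rfl⟩ := h2
  obtain ⟨x3, s3, h3, k3, rfl⟩ := h3
  intro e
  have l1 := TX_lt h1
  have l2 := TX_lt h2
  have l3 := TX_lt h3
  norm_num at l1 l2 l3 e
  have e1 : x1 + x2 = x3 := by omega
  exact TX_three h1 h2 h3 e1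

private theorem Gad3_cover : ∀ (n : ℕ) (w1 w2 w3 : ℕ → Bool) (r : ℕ),
    ∃ t1 t2 t3, Gad3_W n w1 t1 ∧ Gad3_W n w2 t2 ∧ Gad3_W n w3 t3 ∧
      (t1 + t2 + t3) % 2 ^ (26 * n) = r % 2 ^ (26 * n) := by
  intro n
  induction n with
  | zero =>
    intro w1 w2 w3 r
    refine ⟨0, 0, 0, rfl, rfl, rfl, ?_⟩
    simp [Nat.mod_one]
  | succ n ih =>
    intro w1 w2 w3 r
    obtain ⟨x1, x2, x3, h1, h2, h3, e⟩ := TX_cover (w1 0) (w2 0) (w3 0) r
    have l1 := TX_lt h1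
    have l2 := TX_lt h2
    have l3 := TX_lt h3
    have hP : 2 ^ (26 * (n + 1)) = 2 ^ 26 * 2 ^ (26 * n) := by
      rw [mul_add, mul_one, pow_add, mul_comm]
    have hQ : 1 ≤ 2 ^ (26 * n) := Nat.one_le_two_pow
    obtain ⟨r', hr'⟩ : ∃ r', x1 + x2 + x3 + 2 ^ 26 * r' = r + 2 ^ (26 * (n + 1)) * 3 := by
      refine ⟨(r + 2 ^ (26 * (n + 1)) * 3 - (x1 + x2 + x3)) / 2 ^ 26, ?_⟩
      rw [hP]
      norm_num at e l1 l2 l3 ⊢
      generalize 2 ^ (26 * n) = Q at hQ ⊢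
      omega
    obtain ⟨t1, t2, t3, k1, k2, k3, f⟩ := ih (fun k => w1 (k + 1)) (fun k => w2 (k + 1))
      (fun k => w3 (k + 1)) r'
    refine ⟨x1 + 2 ^ 26 * t1, x2 + 2 ^ 26 * t2, x3 + 2 ^ 26 * t3, ⟨x1, t1, h1, k1, rfl⟩,
      ⟨x2, t2, h2, k2, rfl⟩, ⟨x3, t3, h3, k3, rfl⟩, ?_⟩
    have f' : t1 + t2 + t3 ≡ r' [MOD 2 ^ (26 * n)] := f
    have f2 : 2 ^ 26 * (t1 + t2 + t3) ≡ 2 ^ 26 * r' [MOD 2 ^ 26 * 2 ^ (26 * n)] :=
      Nat.ModEq.mul_left' _ f'
    have f3 : x1 + x2 + x3 + 2 ^ 26 * (t1 + t2 + t3) ≡ x1 + x2 + x3 + 2 ^ 26 * r'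
        [MOD 2 ^ 26 * 2 ^ (26 * n)] := Nat.ModEq.add_left _ f2
    rw [hr', ← hP] at f3
    have f4 : r + 2 ^ (26 * (n + 1)) * 3 ≡ r [MOD 2 ^ (26 * (n + 1))] := by
      rw [Nat.ModEq, Nat.add_mul_mod_self_left]
    have f5 : x1 + 2 ^ 26 * t1 + (x2 + 2 ^ 26 * t2) + (x3 + 2 ^ 26 * t3) =
        x1 + x2 + x3 + 2 ^ 26 * (t1 + t2 + t3) := by ring
    rw [f5]
    exact f3.trans f4

private theorem Gad3_bits : ∀ (g N1 N2 N3 N4 : ℕ), N1 < 2 ^ g → N2 < 2 ^ g → N3 < 2 ^ g →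
    N4 < 2 ^ g → (∀ k < g, (N1.testBit k).toNat + (N2.testBit k).toNat =
      (N3.testBit k).toNat + (N4.testBit k).toNat) → N1 + N2 = N3 + N4 := by
  intro g
  induction g with
  | zero => intro N1 N2 N3 N4 h1 h2 h3 h4 _; omega
  | succ g ih =>
    intro N1 N2 N3 N4 h1 h2 h3 h4 h
    have h0 := h 0 (by omega)
    rw [Nat.toNat_testBit, Nat.toNat_testBit, Nat.toNat_testBit, Nat.toNat_testBit] at h0
    have hs := ih (N1 / 2) (N2 / 2) (N3 / 2) (N4 / 2) (by omega) (by omega) (by omega) (by omega)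
      (fun k hk => by
        have := h (k + 1) (by omega)
        rwa [Nat.testBit_succ, Nat.testBit_succ, Nat.testBit_succ, Nat.testBit_succ] at this)
    norm_num at h0
    omega

private def Gad3_code (g N k : ℕ) : Bool := if k < g then N.testBit k else (N ^ 2).testBit (k - g)

private theorem Gad3_sq {g N : ℕ} (h : N < 2 ^ g) : N ^ 2 < 2 ^ (2 * g) := by
  rw [mul_comm, pow_mul]
  exact Nat.pow_lt_pow_left h (by norm_num)

private theorem Gad3_pair {g N1 N2 N3 N4 : ℕ} (h1 : N1 < 2 ^ g) (h2 : N2 < 2 ^ g)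
    (h3 : N3 < 2 ^ g) (h4 : N4 < 2 ^ g)
    (h : ∀ k < 3 * g, (Gad3_code g N1 k).toNat + (Gad3_code g N2 k).toNat =
      (Gad3_code g N3 k).toNat + (Gad3_code g N4 k).toNat) :
    (N1 = N3 ∧ N2 = N4) ∨ (N1 = N4 ∧ N2 = N3) := by
  have e1 : N1 + N2 = N3 + N4 := Gad3_bits g N1 N2 N3 N4 h1 h2 h3 h4 fun k hk => by
    have := h k (by omega)
    simpa [Gad3_code, hk] using this
  have e2 : N1 ^ 2 + N2 ^ 2 = N3 ^ 2 + N4 ^ 2 :=
    Gad3_bits (2 * g) _ _ _ _ (Gad3_sq h1) (Gad3_sq h2) (Gad3_sq h3) (Gad3_sq h4) fun k hk => by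
      have := h (k + g) (by omega)
      simpa [Gad3_code] using this
  have f1 : (N1 : ℤ) + N2 = N3 + N4 := by exact_mod_cast e1
  have f2 : (N1 : ℤ) ^ 2 + N2 ^ 2 = N3 ^ 2 + N4 ^ 2 := by exact_mod_cast e2
  have f3 : ((N1 : ℤ) - N3) * (N1 - N4) = 0 := by
    have : (N2 : ℤ) = N3 + N4 - N1 := by linear_combination f1
    rw [this] at f2
    have h2 : 2 * (((N1 : ℤ) - N3) * (N1 - N4)) = 0 := by linear_combination f2
    exact (mul_eq_zero.mp h2).resolve_left (by norm_num)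
  rcases mul_eq_zero.mp f3 with h | h
  · left; omega
  · right; omega

theorem exists_tag (g : ℕ) (hg : 1 ≤ g) : ∃ X : ℕ → Set ℕ, TagOK g (78 * g) X := by
  have h78 : 78 * g = 26 * (3 * g) := by ring
  obtain ⟨m, hm⟩ : ∃ m, 3 * g = m + 1 := ⟨3 * g - 1, by omega⟩
  refine ⟨fun N => {t | Gad3_W (3 * g) (Gad3_code g N) t}, ?_, ?_, ?_, ?_, ?_, ?_⟩
  · intro N _ t ht
    have := Gad3_lt _ _ _ ht
    rw [h78]
    omega
  · intro N _ t ht
    change Gad3_W (3 * g) _ t at ht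
    rw [hm] at ht
    obtain ⟨x, t', hx, -, rfl⟩ := ht
    have := TX_pos hx
    omega
  · intro N hN N' hN' t ht ht'
    have h1 := Gad3_one _ _ _ _ ht ht'
    have h2 := Gad3_pair (g := g) (N1 := N) (N2 := N) (N3 := N') (N4 := N') hN hN hN' hN'
      (fun k hk => by rw [h1 k hk])
    omega
  · intro N1 h1 N2 h2 N3 h3 N4 h4 t1 k1 t2 k2 t3 k3 t4 k4 e
    exact Gad3_pair h1 h2 h3 h4 (Gad3_two _ _ _ _ _ _ _ _ _ k1 k2 k3 k4 e)
  · intro N1 h1 N2 h2 N3 h3 t1 k1 t2 k2 t3 k3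
    change Gad3_W (3 * g) _ t1 at k1
    change Gad3_W (3 * g) _ t2 at k2
    change Gad3_W (3 * g) _ t3 at k3
    rw [hm] at k1 k2 k3
    exact Gad3_three m _ _ _ t1 t2 t3 k1 k2 k3
  · intro N1 _ N2 _ N3 _ r
    obtain ⟨t1, t2, t3, k1, k2, k3, e⟩ := Gad3_cover (3 * g) (Gad3_code g N1) (Gad3_code g N2)
      (Gad3_code g N3) r
    refine ⟨t1, k1, t2, k2, t3, k3, ?_⟩
    rw [h78]
    exact e

end Pool.Agent.SBP
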