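import Mathlib

/-!
# SBP.Gro0 : the concrete sequences

lam > 1 is close to 1, gam < sqrt 2 - 1.
S_bounds PROOF: Σ_{T<j} lam^T = (lam^j - 1)/(lam - 1) (geom_sum_eq), lam^T - 1 < ⌊lam^T⌋ ≤ lam^T, Σ_{T<j} (2T + 14) = j (j-1) + 14 j = j^2 + 13 j ≥ j.
tb_bound: every summand is ≤ 78 ((j + 2 d0 + 2)^3 + 4 d0 + 5).
poly_lt: polynomials are o(lam^j): tendsto_pow_const_div_const_pow_of_one_lt.
-/

namespace Pool.Agent.SBP

open Finset Filter

/-- exponents of the moduli -/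
noncomputable def sL (lam : ℝ) (T : ℕ) : ℕ := ⌊lam ^ T⌋₊ + 2 * T + 14
noncomputable def SL (lam : ℝ) (j : ℕ) : ℕ := ∑ T ∈ range j, sL lam T
noncomputable def aL (lam gam : ℝ) (b : ℕ) : ℕ := ⌊gam * (SL lam b : ℝ)⌋₊
noncomputable def νL (lam gam : ℝ) (b : ℕ) : ℕ := aL lam gam b - 2 - b ^ 4
def βL (d0 T : ℕ) : ℕ := 78 * ((T + (2 * d0 + 2)) ^ 3 + (4 * d0 + 5))
def tbL (d0 j : ℕ) : ℕ := ∑ T ∈ range j, βL d0 T
noncomputable def hhL (lam : ℝ) (d0 j : ℕ) : ℕ := ∑ T ∈ range j, (sL lam T + 6 + βL d0 T)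
noncomputable def LeL (lam : ℝ) (j : ℕ) : ℕ := j * (2 * (SL lam j).size + 2)

private theorem Gro0_cast (lam : ℝ) (j : ℕ) :
    (SL lam j : ℝ) = ∑ T ∈ range j, ((⌊lam ^ T⌋₊ : ℝ) + 2 * (T : ℝ) + 14) := by
  unfold SL sL
  push_cast
  rfl

private theorem Gro0_gauss (j : ℕ) :
    ∑ T ∈ range j, (2 * (T : ℝ) + 14) = (j : ℝ) ^ 2 + 13 * j := by
  induction j with
  | zero => simp
  | succ j ih =>
    rw [sum_range_succ, ih]
    push_cast
    ring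

theorem S_lower (lam : ℝ) (h : 1 < lam) (j : ℕ) : (lam ^ j - 1) / (lam - 1) ≤ SL lam j := by
  rw [← geom_sum_eq (ne_of_gt h), Gro0_cast]
  refine sum_le_sum fun T _ => ?_
  have h1 := Nat.lt_floor_add_one (lam ^ T)
  have h2 : (0 : ℝ) ≤ (T : ℝ) := Nat.cast_nonneg _
  linarith

theorem S_upper (lam : ℝ) (h : 1 < lam) (j : ℕ) :
    (SL lam j : ℝ) ≤ lam ^ j / (lam - 1) + (j : ℝ) ^ 2 + 13 * j := by
  have h0 : 0 < lam - 1 := by linarith
  have h1 : (SL lam j : ℝ) ≤ ∑ T ∈ range j, (lam ^ T + (2 * (T : ℝ) + 14)) := by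
    rw [Gro0_cast]
    refine sum_le_sum fun T _ => ?_
    have h2 := Nat.floor_le (show 0 ≤ lam ^ T by positivity)
    linarith
  rw [sum_add_distrib, Gro0_gauss, geom_sum_eq (ne_of_gt h)] at h1
  have h3 : (lam ^ j - 1) / (lam - 1) ≤ lam ^ j / (lam - 1) :=
    div_le_div_of_nonneg_right (by linarith) h0.le
  linarith

theorem tb_bound (d0 j : ℕ) : tbL d0 j ≤ j * (78 * ((j + (2 * d0 + 2)) ^ 3 + (4 * d0 + 5))) := by
  unfold tbL
  have h : ∀ T ∈ range j, βL d0 T ≤ 78 * ((j + (2 * d0 + 2)) ^ 3 + (4 * d0 + 5)) := by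
    intro T hT
    rw [mem_range] at hT
    unfold βL
    have h1 : (T + (2 * d0 + 2)) ^ 3 ≤ (j + (2 * d0 + 2)) ^ 3 :=
      Nat.pow_le_pow_left (by omega) 3
    omega
  calc ∑ T ∈ range j, βL d0 T ≤ (range j).card • (78 * ((j + (2 * d0 + 2)) ^ 3 + (4 * d0 + 5))) :=
        sum_le_card_nsmul _ _ _ h
    _ = _ := by rw [card_range, smul_eq_mul]

theorem hh_eq (lam : ℝ) (d0 j : ℕ) : hhL lam d0 j = SL lam j + 6 * j + tbL d0 j := by
  unfold hhL SL tbL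
  rw [sum_add_distrib, sum_add_distrib, sum_const, card_range, smul_eq_mul, Nat.mul_comm j 6]

/-- SL lam j is at most exponential in j. -/
theorem S_exp (lam : ℝ) (h : 1 < lam) : ∃ K : ℕ, ∀ j, 1 ≤ j → SL lam j < 2 ^ (K * j) := by
  have h0 : 0 < lam - 1 := by linarith
  obtain ⟨K1, hK1⟩ := pow_unbounded_of_one_lt lam (show (1 : ℝ) < 2 by norm_num)
  obtain ⟨K2, hK2⟩ := pow_unbounded_of_one_lt (1 / (lam - 1)) (show (1 : ℝ) < 2 by norm_num)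
  refine ⟨K1 + K2 + 8, fun j hj => ?_⟩
  have hS := S_upper lam h j
  have hA : lam ^ j / (lam - 1) ≤ 2 ^ ((K1 + K2) * j) := by
    have e1 : lam ^ j ≤ (2 ^ K1 : ℝ) ^ j := pow_le_pow_left₀ (by linarith) hK1.le j
    have e2 : 1 / (lam - 1) ≤ (2 : ℝ) ^ (K2 * j) :=
      hK2.le.trans (pow_le_pow_right₀ (by norm_num) (Nat.le_mul_of_pos_right K2 hj))
    have e3 : (0 : ℝ) ≤ 1 / (lam - 1) := by positivity
    calc lam ^ j / (lam - 1) = lam ^ j * (1 / (lam - 1)) := by ring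
      _ ≤ (2 ^ K1 : ℝ) ^ j * (2 : ℝ) ^ (K2 * j) := mul_le_mul e1 e2 e3 (by positivity)
      _ = 2 ^ ((K1 + K2) * j) := by
        rw [← pow_mul, ← pow_add]
        congr 1
        ring
  have hB : (j : ℝ) ^ 2 + 13 * j ≤ 2 ^ (6 * j) := by
    have e1 : (j : ℝ) < 2 ^ j := by exact_mod_cast Nat.lt_two_pow_self
    have e2 : (1 : ℝ) ≤ j := by exact_mod_cast hj
    have e3 : (j : ℝ) ^ 2 ≤ (2 ^ j) ^ 2 := pow_le_pow_left₀ (by linarith) e1.le 2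
    have e4 : (j : ℝ) ^ 2 + 13 * j ≤ 16 * (j : ℝ) ^ 2 := by nlinarith
    have e5 : (16 : ℝ) ≤ 2 ^ (4 * j) := by
      have : (2 : ℝ) ^ 4 ≤ 2 ^ (4 * j) := pow_le_pow_right₀ (by norm_num) (by omega)
      norm_num at this
      linarith
    calc (j : ℝ) ^ 2 + 13 * j ≤ 16 * (j : ℝ) ^ 2 := e4
      _ ≤ 2 ^ (4 * j) * (2 ^ j) ^ 2 := mul_le_mul e5 e3 (by positivity) (by positivity)
      _ = 2 ^ (6 * j) := by
        rw [← pow_mul, ← pow_add]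
        congr 1
        ring
  have e1 : (2 : ℝ) ^ ((K1 + K2) * j) ≤ 2 ^ ((K1 + K2 + 7) * j - 1) :=
    pow_le_pow_right₀ (by norm_num) (by
      have : (K1 + K2 + 7) * j = (K1 + K2) * j + 7 * j := by ring
      omega)
  have e2 : (2 : ℝ) ^ (6 * j) ≤ 2 ^ ((K1 + K2 + 7) * j - 1) :=
    pow_le_pow_right₀ (by norm_num) (by
      have : (K1 + K2 + 7) * j = (K1 + K2) * j + 7 * j := by ring
      omega)
  have e3 : (2 : ℝ) ^ ((K1 + K2 + 7) * j - 1) + 2 ^ ((K1 + K2 + 7) * j - 1) =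
      2 ^ ((K1 + K2 + 7) * j) := by
    rw [← two_mul, ← pow_succ']
    congr 1
    have : 1 ≤ (K1 + K2 + 7) * j := Nat.one_le_iff_ne_zero.2 (by
      apply Nat.mul_ne_zero <;> omega)
    omega
  have e4 : (2 : ℝ) ^ ((K1 + K2 + 7) * j) < 2 ^ ((K1 + K2 + 8) * j) :=
    pow_lt_pow_right₀ (by norm_num) (by
      have : (K1 + K2 + 8) * j = (K1 + K2 + 7) * j + j := by ring
      omega)
  have e5 : (SL lam j : ℝ) < 2 ^ ((K1 + K2 + 8) * j) := by linarith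
  exact_mod_cast e5

theorem poly_lt (lam : ℝ) (h : 1 < lam) (ε : ℝ) (hε : 0 < ε) (C : ℝ) (k : ℕ) :
    ∀ᶠ j : ℕ in atTop, C * (j : ℝ) ^ k ≤ ε * lam ^ j := by
  have h1 := (tendsto_pow_const_div_const_pow_of_one_lt k h).const_mul C
  rw [mul_zero] at h1
  filter_upwards [h1.eventually_lt_const hε] with j hj
  have h2 : 0 < lam ^ j := by positivity
  have h3 : C * (j : ℝ) ^ k = (C * ((j : ℝ) ^ k / lam ^ j)) * lam ^ j := by
    field_simp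
  rw [h3]
  exact mul_le_mul_of_nonneg_right hj.le h2.le

/-- LeL is at most quadratic. -/
theorem Le_quad (lam : ℝ) (h : 1 < lam) : ∃ K : ℕ, ∀ j, 1 ≤ j → LeL lam j ≤ K * j ^ 2 := by
  obtain ⟨K, hK⟩ := S_exp lam h
  refine ⟨2 * K + 2, fun j hj => ?_⟩
  have h1 : (SL lam j).size ≤ K * j := Nat.size_le.2 (hK j hj)
  unfold LeL
  calc j * (2 * (SL lam j).size + 2) ≤ j * (2 * (K * j) + 2 * j) :=
        Nat.mul_le_mul_left _ (by omega)
    _ = (2 * K + 2) * j ^ 2 := by ring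

end Pool.Agent.SBP
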