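import Pool.Agent.Lib.SBP.Gro0

/-!
# SBP.GroA : simple growth facts

gro_a2: gam (S (b+1)) = gam S b + gam s b ≥ gam S b + 14/5 > gam S b + 2, so the floors differ by at least 2.
gro_ah: ⌊gam S⌋ ≤ S / 2.
gro_as: s T ≤ s (b-1) ≤ lam^(b-1) + 2 b + 14 for T < b, and gam S b - 1 ≥ gam (lam^b - 1)/(lam - 1) - 1; gam lam / (lam - 1) > 1, so the difference
(gam lam/(lam-1) - 1) lam^(b-1) dominates the linear terms (poly_lt).
gro_el: a b → ∞ at least like c lam^b, so a b - 2 ≥ b^4 + ... eventually; then ν b + b^3 = a b - 2 - b^4 + b^3 and 2^(ν b + b^3) a b ≤ 2^(a b - 2) iff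
a b ≤ 2^(b^4 - b^3), true eventually: a b ≤ S b < 2^(K b) (S_exp) and K b ≤ b^4 - b^3 for b ≥ K + 2.
gro_tr: hh j + j + 2 ≤ 2^(K1 j), 9 j + 10 + Le j ≤ K2 j^2, so the left side is ≤ 2^(K3 j^2) for large j, and K3 j^2 ≤ (j - d3)^3 eventually.
gro_sz: hhL (j - d) ≤ lam^(j-d)/(lam-1) + poly, c hhL (j-1) ≥ c (lam^(j-1) - 1)/(lam - 1) and lam^(-d) < c lam^(-1).
-/

namespace Pool.Agent.SBP

open Finset Filter

private theorem GroA_sL_ge (lam : ℝ) (T : ℕ) : 14 ≤ sL lam T := by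
  unfold sL
  omega

private theorem GroA_SL_succ (lam : ℝ) (b : ℕ) : SL lam (b + 1) = SL lam b + sL lam b := by
  unfold SL
  rw [Finset.sum_range_succ]

theorem gro_a2 (lam gam : ℝ) (h : 1 < lam) (hg : 1 / 5 ≤ gam) (b : ℕ) :
    aL lam gam b + 2 ≤ aL lam gam (b + 1) := by
  have h1 : (aL lam gam b : ℝ) ≤ gam * (SL lam b : ℝ) :=
    Nat.floor_le (mul_nonneg (by linarith) (Nat.cast_nonneg _))
  have h2 : (14 : ℝ) ≤ (sL lam b : ℝ) := by exact_mod_cast GroA_sL_ge lam b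
  have h3 : (2 : ℝ) ≤ gam * (sL lam b : ℝ) := by nlinarith
  unfold aL at h1 ⊢
  apply Nat.le_floor
  rw [GroA_SL_succ]
  push_cast
  nlinarith

theorem gro_ah (lam gam : ℝ) (h : 1 < lam) (hg0 : 0 ≤ gam) (hg : gam ≤ 1 / 2) (b : ℕ) :
    2 * aL lam gam b ≤ SL lam b := by
  have h1 : (aL lam gam b : ℝ) ≤ gam * (SL lam b : ℝ) :=
    Nat.floor_le (mul_nonneg hg0 (Nat.cast_nonneg _))
  have h2 : (0 : ℝ) ≤ (SL lam b : ℝ) := Nat.cast_nonneg _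
  have h3 : (2 * (aL lam gam b : ℝ)) ≤ (SL lam b : ℝ) := by nlinarith
  exact_mod_cast h3

theorem gro_as (lam gam : ℝ) (h : 1 < lam) (hg : lam - 1 < gam * lam) :
    ∀ᶠ b : ℕ in atTop, ∀ T < b, sL lam T + 4 ≤ aL lam gam b := by
  have hl0 : (0 : ℝ) < lam := by linarith
  have hl1 : (0 : ℝ) < lam - 1 := by linarith
  have hg0 : 0 < gam := by
    by_contra hc
    push Not at hc
    nlinarith
  have hε : 0 < gam / (lam - 1) - 1 / lam := by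
    rw [sub_pos, div_lt_div_iff₀ hl0 hl1]
    linarith
  filter_upwards [poly_lt lam h _ hε (20 + gam / (lam - 1)) 1, Filter.eventually_ge_atTop 1]
    with b hb hb1 T hT
  have hbR : (1 : ℝ) ≤ (b : ℝ) := by exact_mod_cast hb1
  have hTR : (T : ℝ) ≤ (b : ℝ) := by exact_mod_cast hT.le
  have h1 : (⌊lam ^ T⌋₊ : ℝ) ≤ lam ^ T := Nat.floor_le (by positivity)
  have h2 : lam ^ T * lam ≤ lam ^ b := by
    rw [← pow_succ]
    exact pow_le_pow_right₀ h.le hT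
  have h3 : lam ^ T ≤ lam ^ b / lam := by
    rw [le_div_iff₀ hl0]
    exact h2
  have h4 := S_lower lam h b
  have h5 : gam * ((lam ^ b - 1) / (lam - 1)) ≤ gam * (SL lam b : ℝ) :=
    mul_le_mul_of_nonneg_left h4 hg0.le
  have h6 : gam * ((lam ^ b - 1) / (lam - 1)) =
      gam / (lam - 1) * lam ^ b - gam / (lam - 1) := by
    field_simp
  have hc0 : 0 < gam / (lam - 1) := div_pos hg0 hl1
  have h7 : (gam / (lam - 1) - 1 / lam) * lam ^ b = gam / (lam - 1) * lam ^ b - lam ^ b / lam := by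
    ring
  rw [pow_one, h7] at hb
  unfold aL sL
  apply Nat.le_floor
  push_cast
  nlinarith [mul_le_mul_of_nonneg_left hbR hc0.le]

private theorem GroA_a_large (lam gam : ℝ) (h : 1 < lam) (hg0 : 0 < gam) :
    ∀ᶠ b : ℕ in atTop, b ^ 4 + 18 ≤ aL lam gam b := by
  have hl1 : (0 : ℝ) < lam - 1 := by linarith
  have hc0 : 0 < gam / (lam - 1) := div_pos hg0 hl1
  filter_upwards [poly_lt lam h _ hc0 (19 + gam / (lam - 1)) 4, Filter.eventually_ge_atTop 1]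
    with b hb hb1
  have hbR : (1 : ℝ) ≤ (b : ℝ) := by exact_mod_cast hb1
  have hb4 : (1 : ℝ) ≤ (b : ℝ) ^ 4 := one_le_pow₀ hbR
  have h4 := S_lower lam h b
  have h5 : gam * ((lam ^ b - 1) / (lam - 1)) ≤ gam * (SL lam b : ℝ) :=
    mul_le_mul_of_nonneg_left h4 hg0.le
  have h6 : gam * ((lam ^ b - 1) / (lam - 1)) =
      gam / (lam - 1) * lam ^ b - gam / (lam - 1) := by
    field_simp
  unfold aL
  apply Nat.le_floor
  push_cast
  nlinarith [mul_le_mul_of_nonneg_left hb4 hc0.le]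

theorem gro_el (lam gam : ℝ) (h : 1 < lam) (hg0 : 0 < gam) (hg : gam ≤ 1 / 2) :
    ∀ᶠ b : ℕ in atTop, 16 ≤ aL lam gam b ∧
      2 ^ (νL lam gam b + b ^ 3) * aL lam gam b ≤ 2 ^ (aL lam gam b - 2) := by
  obtain ⟨K, hK⟩ := S_exp lam h
  filter_upwards [GroA_a_large lam gam h hg0, Filter.eventually_ge_atTop (K + 2)] with b hb hbK
  have hb1 : 1 ≤ b := by omega
  refine ⟨by omega, ?_⟩
  have h34 : b ^ 3 ≤ b ^ 4 := Nat.pow_le_pow_right hb1 (by norm_num)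
  have hKb : K * b ≤ b ^ 4 - b ^ 3 := by
    have e1 : b ^ 4 - b ^ 3 = b ^ 3 * (b - 1) := by
      rw [Nat.mul_sub, mul_one, ← pow_succ]
    rw [e1, mul_comm]
    exact Nat.mul_le_mul (Nat.le_self_pow (by norm_num) b) (by omega)
  have hνb : aL lam gam b - 2 = νL lam gam b + b ^ 3 + (b ^ 4 - b ^ 3) := by
    unfold νL
    omega
  have ha := gro_ah lam gam h hg0.le hg b
  have hS := hK b hb1
  have ha2 : aL lam gam b ≤ 2 ^ (b ^ 4 - b ^ 3) := by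
    have h1 : 2 ^ (K * b) ≤ 2 ^ (b ^ 4 - b ^ 3) := Nat.pow_le_pow_right (by norm_num) hKb
    omega
  rw [hνb, pow_add 2 (νL lam gam b + b ^ 3)]
  exact Nat.mul_le_mul_left _ ha2

private theorem GroA_tb (d0 j : ℕ) (hj : 4 * d0 + 5 ≤ j) : tbL d0 j ≤ 2 ^ (10 + 4 * j) := by
  have h1 := tb_bound d0 j
  have h2 : j + (2 * d0 + 2) ≤ 2 * j := by omega
  have h3 : (j + (2 * d0 + 2)) ^ 3 ≤ 8 * j ^ 3 := by
    calc (j + (2 * d0 + 2)) ^ 3 ≤ (2 * j) ^ 3 := Nat.pow_le_pow_left h2 3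
      _ = 8 * j ^ 3 := by ring
  have h4 : j ≤ j ^ 3 := Nat.le_self_pow (by norm_num) j
  have h5 : j ≤ 2 ^ j := Nat.lt_two_pow_self.le
  calc tbL d0 j ≤ j * (78 * ((j + (2 * d0 + 2)) ^ 3 + (4 * d0 + 5))) := h1
    _ ≤ j * (78 * (8 * j ^ 3 + j ^ 3)) := by
        apply Nat.mul_le_mul_left
        omega
    _ = 702 * j ^ 4 := by ring
    _ ≤ 2 ^ 10 * (2 ^ j) ^ 4 := Nat.mul_le_mul (by norm_num) (Nat.pow_le_pow_left h5 4)
    _ = 2 ^ (10 + 4 * j) := by rw [← pow_mul, ← pow_add, mul_comm j 4]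

theorem gro_tr (lam : ℝ) (h : 1 < lam) (d0 d3 : ℕ) :
    ∀ᶠ j : ℕ in atTop,
      (hhL lam d0 j + j + 2) * (1 + 2 ^ (9 * j + 10 + LeL lam j)) ≤ 2 ^ ((j - d3) ^ 3) := by
  obtain ⟨K, hK⟩ := S_exp lam h
  obtain ⟨K2, hK2⟩ := Le_quad lam h
  filter_upwards [Filter.eventually_ge_atTop (4 * d0 + 5),
    Filter.eventually_ge_atTop (2 * d3 + 1),
    Filter.eventually_ge_atTop (d3 + (4 * K2 + 2 * K + 60))] with j hj1 hj2 hj3
  have hj0 : 1 ≤ j := by omega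
  have hS := hK j hj0
  have hLe := hK2 j hj0
  have htb := GroA_tb d0 j hj1
  have hjj : j ≤ 2 ^ j := Nat.lt_two_pow_self.le
  have hhh : hhL lam d0 j + j + 2 ≤ 2 ^ (K * j + 4 * j + 13) := by
    rw [hh_eq]
    have a1 : 2 ^ (K * j) ≤ 2 ^ (K * j + 4 * j + 10) := Nat.pow_le_pow_right (by norm_num) (by omega)
    have a2 : 2 ^ (10 + 4 * j) ≤ 2 ^ (K * j + 4 * j + 10) :=
      Nat.pow_le_pow_right (by norm_num) (by omega)
    have a3 : 2 ^ 10 * 2 ^ j ≤ 2 ^ (K * j + 4 * j + 10) := by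
      rw [← pow_add]
      exact Nat.pow_le_pow_right (by norm_num) (by omega)
    have a4 : 2 ^ (K * j + 4 * j + 13) = 8 * 2 ^ (K * j + 4 * j + 10) := by
      rw [show K * j + 4 * j + 13 = (K * j + 4 * j + 10) + 3 by ring, pow_add]
      ring
    have a5 : (1 : ℕ) ≤ 2 ^ (K * j + 4 * j + 10) := Nat.one_le_two_pow
    omega
  have h1X : 1 + 2 ^ (9 * j + 10 + LeL lam j) ≤ 2 ^ (9 * j + 11 + K2 * j ^ 2) := by
    have b1 : (1 : ℕ) ≤ 2 ^ (9 * j + 10 + LeL lam j) := Nat.one_le_two_pow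
    have b2 : 2 ^ (9 * j + 10 + LeL lam j + 1) ≤ 2 ^ (9 * j + 11 + K2 * j ^ 2) :=
      Nat.pow_le_pow_right (by norm_num) (by omega)
    have b3 : 2 ^ (9 * j + 10 + LeL lam j + 1) = 2 * 2 ^ (9 * j + 10 + LeL lam j) := by
      rw [pow_succ]
      ring
    omega
  have hexp : (K * j + 4 * j + 13) + (9 * j + 11 + K2 * j ^ 2) ≤ (j - d3) ^ 3 := by
    obtain ⟨m, hm⟩ : ∃ m, m = j - d3 := ⟨_, rfl⟩
    rw [← hm]
    have hm1 : j ≤ 2 * m := by omega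
    have hm2 : 4 * K2 + 2 * K + 60 ≤ m := by omega
    have hm3 : 1 ≤ m := by omega
    have c1 : j ^ 2 ≤ 4 * m ^ 2 := by
      calc j ^ 2 ≤ (2 * m) ^ 2 := Nat.pow_le_pow_left hm1 2
        _ = 4 * m ^ 2 := by ring
    have c2 : m ≤ m ^ 2 := Nat.le_self_pow (by norm_num) m
    have c3 : K * j ≤ 2 * K * m ^ 2 := by
      calc K * j ≤ K * (2 * m ^ 2) := Nat.mul_le_mul_left _ (by omega)
        _ = 2 * K * m ^ 2 := by ring
    have c4 : K2 * j ^ 2 ≤ 4 * K2 * m ^ 2 := by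
      calc K2 * j ^ 2 ≤ K2 * (4 * m ^ 2) := Nat.mul_le_mul_left _ c1
        _ = 4 * K2 * m ^ 2 := by ring
    have c5 : (4 * K2 + 2 * K + 60) * m ^ 2 ≤ m ^ 3 := by
      calc (4 * K2 + 2 * K + 60) * m ^ 2 ≤ m * m ^ 2 := Nat.mul_le_mul_right _ hm2
        _ = m ^ 3 := by ring
    have c6 : (4 * K2 + 2 * K + 60) * m ^ 2 = 4 * K2 * m ^ 2 + 2 * K * m ^ 2 + 60 * m ^ 2 := by
      ring
    omega
  calc (hhL lam d0 j + j + 2) * (1 + 2 ^ (9 * j + 10 + LeL lam j)) ≤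
      2 ^ (K * j + 4 * j + 13) * 2 ^ (9 * j + 11 + K2 * j ^ 2) := Nat.mul_le_mul hhh h1X
    _ = 2 ^ ((K * j + 4 * j + 13) + (9 * j + 11 + K2 * j ^ 2)) := by rw [← pow_add]
    _ ≤ 2 ^ ((j - d3) ^ 3) := Nat.pow_le_pow_right (by norm_num) hexp

theorem gro_sz (lam : ℝ) (h : 1 < lam) (d0 d : ℕ) (c : ℝ) (hc : 0 < c)
    (hd : lam < c * lam ^ d) :
    ∀ᶠ j : ℕ in atTop, (hhL lam d0 (j - d) : ℝ) ≤ c * hhL lam d0 (j - 1) := by
  have hl0 : (0 : ℝ) < lam := by linarith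
  have hl1 : (0 : ℝ) < lam - 1 := by linarith
  have hld : (0 : ℝ) < lam ^ d := pow_pos hl0 d
  have hε : 0 < (c / lam - 1 / lam ^ d) / (lam - 1) := by
    apply div_pos _ hl1
    rw [sub_pos, div_lt_div_iff₀ hld hl0]
    linarith
  have hc1 : 0 < c / (lam - 1) := div_pos hc hl1
  set C : ℝ := 20 + 78 * (2 * (d0 : ℝ) + 3) ^ 3 + 78 * (4 * (d0 : ℝ) + 5) + c / (lam - 1) with hC
  filter_upwards [poly_lt lam h _ hε C 4, Filter.eventually_ge_atTop (d + 1)] with j hj hjd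
  obtain ⟨n, hn⟩ : ∃ n, n = j - d := ⟨_, rfl⟩
  have hjn : j = n + d := by omega
  have hn1 : 1 ≤ n := by omega
  have hj1 : 1 ≤ j := by omega
  rw [← hn]
  have hnR : (1 : ℝ) ≤ (n : ℝ) := by exact_mod_cast hn1
  have hnj : (n : ℝ) ≤ (j : ℝ) := by exact_mod_cast (by omega : n ≤ j)
  have hjR : (1 : ℝ) ≤ (j : ℝ) := by exact_mod_cast hj1
  -- upper bound
  have hup := S_upper lam h n
  have htb : (tbL d0 n : ℝ) ≤ n * (78 * ((n + (2 * d0 + 2)) ^ 3 + (4 * d0 + 5))) := by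
    exact_mod_cast tb_bound d0 n
  have hhn : (hhL lam d0 n : ℝ) = SL lam n + 6 * n + tbL d0 n := by
    rw [hh_eq]
    push_cast
    ring
  -- lower bound
  have hlo := S_lower lam h (j - 1)
  have hhl : (SL lam (j - 1) : ℝ) ≤ (hhL lam d0 (j - 1) : ℝ) := by
    rw [hh_eq]
    push_cast
    have : (0 : ℝ) ≤ (tbL d0 (j - 1) : ℝ) := Nat.cast_nonneg _
    have h2 : (0 : ℝ) ≤ ((j - 1 : ℕ) : ℝ) := Nat.cast_nonneg _
    linarith
  have hp1 : lam ^ (j - 1) = lam ^ j / lam := by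
    rw [eq_div_iff hl0.ne', ← pow_succ]
    congr 1
    omega
  have hp2 : lam ^ n = lam ^ j / lam ^ d := by
    rw [eq_div_iff hld.ne', ← pow_add, hjn]
  have hlow : c / (lam - 1) * (lam ^ j / lam) - c / (lam - 1) ≤ c * hhL lam d0 (j - 1) := by
    have e1 : c * ((lam ^ (j - 1) - 1) / (lam - 1)) ≤ c * hhL lam d0 (j - 1) :=
      mul_le_mul_of_nonneg_left (hlo.trans hhl) hc.le
    rw [hp1] at e1
    have e2 : c * ((lam ^ j / lam - 1) / (lam - 1)) =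
        c / (lam - 1) * (lam ^ j / lam) - c / (lam - 1) := by
      field_simp
    linarith
  -- polynomial bound
  have hj4 : (1 : ℝ) ≤ (j : ℝ) ^ 4 := one_le_pow₀ hjR
  have q1 : (j : ℝ) ≤ (j : ℝ) ^ 4 := le_self_pow₀ hjR (by norm_num)
  have q2 : (j : ℝ) ^ 2 ≤ (j : ℝ) ^ 4 := pow_le_pow_right₀ hjR (by norm_num)
  have q3 : (n : ℝ) ^ 2 ≤ (j : ℝ) ^ 4 :=
    (pow_le_pow_left₀ (by linarith) hnj 2).trans q2
  have hd0 : (0 : ℝ) ≤ (d0 : ℝ) := Nat.cast_nonneg _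
  have q4 : (n : ℝ) * ((n : ℝ) + (2 * d0 + 2)) ^ 3 ≤ (2 * (d0 : ℝ) + 3) ^ 3 * (j : ℝ) ^ 4 := by
    have r1 : (n : ℝ) + (2 * d0 + 2) ≤ (2 * (d0 : ℝ) + 3) * j := by
      nlinarith [mul_nonneg hd0 (by linarith : (0 : ℝ) ≤ (j : ℝ) - 1)]
    have r2 : ((n : ℝ) + (2 * d0 + 2)) ^ 3 ≤ ((2 * (d0 : ℝ) + 3) * j) ^ 3 :=
      pow_le_pow_left₀ (by positivity) r1 3
    calc (n : ℝ) * ((n : ℝ) + (2 * d0 + 2)) ^ 3 ≤ j * ((2 * (d0 : ℝ) + 3) * j) ^ 3 :=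
          mul_le_mul hnj r2 (by positivity) (by linarith)
      _ = (2 * (d0 : ℝ) + 3) ^ 3 * (j : ℝ) ^ 4 := by ring
  have q5 : (n : ℝ) * (4 * d0 + 5) ≤ (4 * (d0 : ℝ) + 5) * (j : ℝ) ^ 4 := by
    have q6 : (n : ℝ) ≤ (j : ℝ) ^ 4 := hnj.trans q1
    rw [mul_comm]
    exact mul_le_mul_of_nonneg_left q6 (by positivity)
  have hpoly : (n : ℝ) ^ 2 + 13 * n + 6 * n +
      n * (78 * ((n + (2 * d0 + 2)) ^ 3 + (4 * d0 + 5))) ≤
      (C - c / (lam - 1)) * (j : ℝ) ^ 4 := by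
    have q6 : (n : ℝ) ≤ (j : ℝ) ^ 4 := hnj.trans q1
    have q7 : (C - c / (lam - 1)) * (j : ℝ) ^ 4 = 20 * (j : ℝ) ^ 4 +
        78 * ((2 * (d0 : ℝ) + 3) ^ 3 * (j : ℝ) ^ 4) + 78 * ((4 * (d0 : ℝ) + 5) * (j : ℝ) ^ 4) := by
      rw [hC]
      ring
    have q8 : (n : ℝ) ^ 2 + 13 * n + 6 * n + n * (78 * ((n + (2 * d0 + 2)) ^ 3 + (4 * d0 + 5))) =
        (n : ℝ) ^ 2 + 19 * n + 78 * ((n : ℝ) * ((n : ℝ) + (2 * d0 + 2)) ^ 3) +
          78 * ((n : ℝ) * (4 * d0 + 5)) := by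
      ring
    rw [q7, q8]
    linarith
  have hCc : c / (lam - 1) ≤ c / (lam - 1) * (j : ℝ) ^ 4 := le_mul_of_one_le_right hc1.le hj4
  have hfin : (c / lam - 1 / lam ^ d) / (lam - 1) * lam ^ j =
      c / (lam - 1) * (lam ^ j / lam) - lam ^ j / lam ^ d / (lam - 1) := by
    field_simp
  rw [hfin] at hj
  rw [hp2] at hup
  have hsplit : C * (j : ℝ) ^ 4 = (C - c / (lam - 1)) * (j : ℝ) ^ 4 + c / (lam - 1) * (j : ℝ) ^ 4 := by
    ring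
  linarith

end Pool.Agent.SBP
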