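import Pool.Agent.Lib.SBP.Gro0

/-!
# SBP.GroB : the condition OK.bad

PROOF.  Let S = S j, S' = S l (l < j, so S' ≤ S), a ≤ gam S, a' ≤ gam S'.  S' < a + a' ≤ gam S + gam S' gives S' < gam/(1-gam) S, so
ν j + 2 ν l ≤ a + 2 a' ≤ (gam + 2 gam^2/(1-gam)) S = gam (1+gam)/(1-gam) S =: κ S with κ < 1 because gam < √2 - 1 iff gam^2 + 2 gam - 1 < 0 iff
gam (1 + gam) < 1 - gam.  It remains j^3 + l^3 + Le j + 2 j + 5 ≤ (1 - κ) S j for large j: the left side is ≤ 2 j^3 + K j^2 + 2 j + 5 (Le_quad), and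
S j ≥ (lam^j - 1)/(lam - 1) (S_lower, poly_lt).
-/

namespace Pool.Agent.SBP

open Finset Filter

theorem gro_bad (lam gam : ℝ) (h : 1 < lam) (hg0 : 0 < gam) (hg : gam < Real.sqrt 2 - 1) :
    ∀ᶠ j : ℕ in atTop, ∀ l < j, SL lam l < aL lam gam j + aL lam gam l →
      j ^ 3 + νL lam gam j + l ^ 3 + 2 * νL lam gam l + LeL lam j + 2 * j + 5 ≤ SL lam j := by
  have hs2 : Real.sqrt 2 * Real.sqrt 2 = 2 := Real.mul_self_sqrt (by norm_num)
  have hs0 : (0 : ℝ) ≤ Real.sqrt 2 := Real.sqrt_nonneg 2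
  have hs3 : Real.sqrt 2 < 3 / 2 := by nlinarith
  have hg1 : 0 < 1 - gam := by linarith
  have hl0 : 0 < lam - 1 := by linarith
  have hk : gam * (1 + gam) < 1 - gam := by nlinarith
  obtain ⟨K, hK⟩ := Le_quad lam h
  have hε : 0 < ((1 - gam) - gam * (1 + gam)) / (2 * (lam - 1)) := by
    apply div_pos <;> linarith
  have h2 := poly_lt lam h 1 one_pos 2 0
  filter_upwards [poly_lt lam h _ hε (9 + K) 3, h2, eventually_ge_atTop 1] with j hj hj2 hj1
  intro l hlj hS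
  have hSj : (SL lam j : ℝ) ≥ lam ^ j / (2 * (lam - 1)) := by
    refine le_trans ?_ (S_lower lam h j)
    rw [div_le_div_iff₀ (by linarith) hl0]
    have h3 : 2 ≤ lam ^ j := by simpa using hj2
    nlinarith
  have ha : (aL lam gam j : ℝ) ≤ gam * SL lam j := Nat.floor_le (by positivity)
  have ha' : (aL lam gam l : ℝ) ≤ gam * SL lam l := Nat.floor_le (by positivity)
  have hν : νL lam gam j ≤ aL lam gam j := by unfold νL; omega
  have hν' : νL lam gam l ≤ aL lam gam l := by unfold νL; omega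
  have hS' : (SL lam l : ℝ) < aL lam gam j + aL lam gam l := by exact_mod_cast hS
  have hS2 : (1 - gam) * (SL lam l : ℝ) ≤ gam * SL lam j := by linarith
  have hLe := hK j hj1
  have hl3 : l ^ 3 ≤ j ^ 3 := Nat.pow_le_pow_left hlj.le 3
  have hj3 : j ≤ j ^ 3 := Nat.le_self_pow (by norm_num) j
  have hj23 : K * j ^ 2 ≤ K * j ^ 3 :=
    Nat.mul_le_mul_left K (Nat.pow_le_pow_right hj1 (by norm_num))
  have hpol : ((9 + K) * j ^ 3 : ℕ) ≤ (((1 - gam) - gam * (1 + gam))) * (SL lam j : ℝ) := by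
    push_cast
    refine hj.trans ?_
    have h3 : ((1 - gam) - gam * (1 + gam)) / (2 * (lam - 1)) * lam ^ j =
        ((1 - gam) - gam * (1 + gam)) * (lam ^ j / (2 * (lam - 1))) := by
      field_simp
    rw [h3]
    exact mul_le_mul_of_nonneg_left hSj (by linarith)
  have hnat : j ^ 3 + νL lam gam j + l ^ 3 + 2 * νL lam gam l + LeL lam j + 2 * j + 5 ≤
      (9 + K) * j ^ 3 + aL lam gam j + 2 * aL lam gam l := by
    have e : (9 + K) * j ^ 3 = 9 * j ^ 3 + K * j ^ 3 := by ring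
    rw [e]
    omega
  refine hnat.trans ?_
  have hmain : (((9 + K) * j ^ 3 + aL lam gam j + 2 * aL lam gam l : ℕ) : ℝ) ≤ SL lam j := by
    rw [Nat.cast_add, Nat.cast_add]
    have hS0 : (0 : ℝ) ≤ SL lam j := Nat.cast_nonneg _
    have hc : (0 : ℝ) ≤ ((9 + K) * j ^ 3 : ℕ) := Nat.cast_nonneg _
    push_cast at hpol hc ⊢
    have e1 : (aL lam gam j : ℝ) + 2 * aL lam gam l ≤ gam * SL lam j + 2 * (gam * SL lam l) := by
      linarith
    have e2 : gam * ((1 - gam) * (SL lam l : ℝ)) ≤ gam * (gam * SL lam j) :=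
      mul_le_mul_of_nonneg_left hS2 hg0.le
    have e3 : (1 - gam) * (gam * SL lam j + 2 * (gam * SL lam l)) ≤
        gam * (1 + gam) * SL lam j := by nlinarith
    have e4 : (1 - gam) * ((9 + K) * (j : ℝ) ^ 3 + (aL lam gam j + 2 * aL lam gam l)) ≤
        (1 - gam) * SL lam j := by
      have e5 : (1 - gam) * ((9 + K) * (j : ℝ) ^ 3) ≤ (9 + K) * (j : ℝ) ^ 3 := by
        nlinarith
      nlinarith
    have := le_of_mul_le_mul_left e4 hg1
    linarith
  exact_mod_cast hmain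

end Pool.Agent.SBP
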