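import Pool.Agent.Lib.SBP.Gro0

/-!
# SBP.GroC : the condition OK.en

PROOF.  ν b ≥ a b - 2 - b^4 ≥ gam S b - 3 - b^4 (real numbers; natural subtraction only helps).  S b ≥ (lam^b - 1)/(lam - 1).  So the right side is
≥ gam (lam^j + lam^(j-d2) + lam^(j-d3) - 3)/(lam - 1) - 9 - 3 j^4 and the left side is ≤ lam^j/(lam-1) + j^2 + 13 j + 23 j + 3 + 3 tb j, with tb j polynomial
(tb_bound).  The difference is ≥ lam^j/(lam-1) (gam (1 + lam^(-d2) + lam^(-d3)) - 1) - polynomial (j ≥ d3), which is ≥ 0 for large j (poly_lt).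
The hypothesis is written as lam^d3 < gam (lam^d3 + lam^(d3-d2) + 1), d2 ≤ d3.
-/

namespace Pool.Agent.SBP

open Finset Filter

private theorem groC_nu (lam gam : ℝ) (h : 1 < lam) (hg0 : 0 < gam) (b : ℕ) :
    gam * ((lam ^ b - 1) / (lam - 1)) - 3 - (b : ℝ) ^ 4 ≤ (νL lam gam b : ℝ) := by
  have h1 : gam * (SL lam b : ℝ) - 1 < (aL lam gam b : ℝ) := Nat.sub_one_lt_floor _
  have h2 : gam * ((lam ^ b - 1) / (lam - 1)) ≤ gam * (SL lam b : ℝ) :=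
    mul_le_mul_of_nonneg_left (S_lower lam h b) hg0.le
  have h3 : aL lam gam b ≤ νL lam gam b + 2 + b ^ 4 := by
    unfold νL
    omega
  have h4 : (aL lam gam b : ℝ) ≤ (νL lam gam b : ℝ) + 2 + (b : ℝ) ^ 4 := by exact_mod_cast h3
  linarith

theorem gro_en (lam gam : ℝ) (h : 1 < lam) (hg0 : 0 < gam) (d0 d2 d3 : ℕ) (hd : d2 ≤ d3)
    (hg : lam ^ d3 < gam * (lam ^ d3 + lam ^ (d3 - d2) + 1)) :
    ∀ᶠ j : ℕ in atTop, SL lam j + 23 * j + 3 + 3 * tbL d0 j ≤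
      νL lam gam j + νL lam gam (j - d2) + νL lam gam (j - d3) := by
  have hl1 : 0 < lam - 1 := by linarith
  have hl0 : 0 < lam := by linarith
  have hg' : 1 < gam * (1 + (lam ^ d2)⁻¹ + (lam ^ d3)⁻¹) := by
    have h3 : 0 < lam ^ d3 := pow_pos hl0 _
    have h2 : 0 < lam ^ d2 := pow_pos hl0 _
    have e1 : lam ^ (d3 - d2) = lam ^ d3 * (lam ^ d2)⁻¹ := pow_sub₀ lam hl0.ne' hd
    rw [e1] at hg
    have e2 : gam * (lam ^ d3 + lam ^ d3 * (lam ^ d2)⁻¹ + 1) =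
        lam ^ d3 * (gam * (1 + (lam ^ d2)⁻¹ + (lam ^ d3)⁻¹)) := by
      field_simp
    rw [e2] at hg
    by_contra hc
    push Not at hc
    have := mul_le_mul_of_nonneg_left hc h3.le
    linarith
  have hε : 0 < (gam * (1 + (lam ^ d2)⁻¹ + (lam ^ d3)⁻¹) - 1) / (lam - 1) :=
    div_pos (by linarith) hl1
  filter_upwards [poly_lt lam h _ hε
    (3 * gam / (lam - 1) + 52 + 234 * ((2 * (d0 : ℝ) + 3) ^ 3 + (4 * d0 + 5))) 4,
    eventually_ge_atTop (d3 + 1)] with j hj1 hj2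
  have hj : (1 : ℝ) ≤ j := by
    have : 1 ≤ j := by omega
    exact_mod_cast this
  have n1 := groC_nu lam gam h hg0 j
  have n2 := groC_nu lam gam h hg0 (j - d2)
  have n3 := groC_nu lam gam h hg0 (j - d3)
  have p2 : ((j - d2 : ℕ) : ℝ) ^ 4 ≤ (j : ℝ) ^ 4 :=
    pow_le_pow_left₀ (Nat.cast_nonneg _) (by exact_mod_cast Nat.sub_le j d2) 4
  have p3 : ((j - d3 : ℕ) : ℝ) ^ 4 ≤ (j : ℝ) ^ 4 :=
    pow_le_pow_left₀ (Nat.cast_nonneg _) (by exact_mod_cast Nat.sub_le j d3) 4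
  have e2 : lam ^ (j - d2) = lam ^ j * (lam ^ d2)⁻¹ := pow_sub₀ lam hl0.ne' (by omega)
  have e3 : lam ^ (j - d3) = lam ^ j * (lam ^ d3)⁻¹ := pow_sub₀ lam hl0.ne' (by omega)
  rw [e2] at n2
  rw [e3] at n3
  have u1 := S_upper lam h j
  have u2 : (tbL d0 j : ℝ) ≤ j * (78 * ((j + (2 * (d0 : ℝ) + 2)) ^ 3 + (4 * d0 + 5))) := by
    exact_mod_cast tb_bound d0 j
  have q1 : (j : ℝ) ≤ (j : ℝ) ^ 4 := by
    have := pow_le_pow_right₀ hj (show 1 ≤ 4 by norm_num)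
    rwa [pow_one] at this
  have q2 : (j : ℝ) ^ 2 ≤ (j : ℝ) ^ 4 := pow_le_pow_right₀ hj (by norm_num)
  have q0 : (1 : ℝ) ≤ (j : ℝ) ^ 4 := one_le_pow₀ hj
  have hd0 : (0 : ℝ) ≤ d0 := Nat.cast_nonneg _
  have q3 : (j : ℝ) * ((j + (2 * (d0 : ℝ) + 2)) ^ 3 + (4 * d0 + 5)) ≤
      ((2 * (d0 : ℝ) + 3) ^ 3 + (4 * d0 + 5)) * (j : ℝ) ^ 4 := by
    have r1 : (j + (2 * (d0 : ℝ) + 2)) ≤ j * (2 * (d0 : ℝ) + 3) := by nlinarith
    have r2 : (j + (2 * (d0 : ℝ) + 2)) ^ 3 ≤ (j * (2 * (d0 : ℝ) + 3)) ^ 3 :=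
      pow_le_pow_left₀ (by positivity) r1 3
    have r3 : (j : ℝ) * (j + (2 * (d0 : ℝ) + 2)) ^ 3 ≤ j * (j * (2 * (d0 : ℝ) + 3)) ^ 3 :=
      mul_le_mul_of_nonneg_left r2 (by linarith)
    have r4 : (j : ℝ) * (4 * d0 + 5) ≤ (j : ℝ) ^ 4 * (4 * d0 + 5) :=
      mul_le_mul_of_nonneg_right q1 (by positivity)
    nlinarith
  have q4 : 3 * gam / (lam - 1) ≤ 3 * gam / (lam - 1) * (j : ℝ) ^ 4 := by
    have : 0 ≤ 3 * gam / (lam - 1) := by positivity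
    nlinarith
  have m1 : gam * ((lam ^ j - 1) / (lam - 1)) +
      gam * ((lam ^ j * (lam ^ d2)⁻¹ - 1) / (lam - 1)) +
      gam * ((lam ^ j * (lam ^ d3)⁻¹ - 1) / (lam - 1)) =
      (gam * (1 + (lam ^ d2)⁻¹ + (lam ^ d3)⁻¹) - 1) / (lam - 1) * lam ^ j +
        lam ^ j / (lam - 1) - 3 * gam / (lam - 1) := by
    field_simp
    ring
  have main : (SL lam j : ℝ) + 23 * j + 3 + 3 * (tbL d0 j : ℝ) ≤
      (νL lam gam j : ℝ) + (νL lam gam (j - d2) : ℝ) + (νL lam gam (j - d3) : ℝ) := by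
    nlinarith
  exact_mod_cast main

end Pool.Agent.SBP
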