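import Pool.Agent.Lib.SBP.LevDefs

/-!
# SBP.LevCov : colour data which fit k and the forced element data give a representation of m

PROOF.  n T = q T - 1, 2^(s T) ≤ n T.  As in LevG2: WZ + wyv + wxv = V T (T < j) and by res3, res2, res1: WZ, wyv, wxv < 2^(s T + 5).  WZ / n T < 32, because
WZ < 2^(s T + 5) = 32 * 2^(s T) ≤ 32 n T; so the % 32 in FF does nothing, the % 32 and % 2^β in PYv, PXv, FF do nothing on the ranges (hξy, hξx, htz, hty, htx).
The log digit of z at T < j: (lg ℓz + σz) % n + n (WZ / n) = WZ % n + n (WZ / n) = WZ; of y: wyv; of x: wxv.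
Valid: b: j ≥ b0 etc.; c: c < Γ; w: shown; e1, f1: eY, fY ≤ 1 (Bool.toNat_le); lowe: eY = 0 if T + d0 < b (not b ≤ T + d0); lowt: lz, ly, lx; widet: f = 1 iff 2^(β-1) ≤ t,
t < 2^β = 2 * 2^(β - 1) (β T ≥ 1).
SUM: apply pr.sum to wz = WZ, wy = wyv, wx = wxv (as functions of T).  eY of z at T < j is ez T: at wide cells the bit is decide (ez T = 1), toNat = ez T as ez T ≤ 1; at low
cells both are 0 (lz).  The same for y (ly) and for x the bit is false.  So the three values are the three sums in pr.sum.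
-/

namespace Pool.Agent.SBP

open Finset

private theorem LevCov_beta (P : Par) (T : ℕ) : 2 ^ P.β T = 2 * 2 ^ (P.β T - 1) := by
  have h : 1 ≤ P.β T := by
    unfold Par.β Par.g Par.M
    have : 0 ≤ (T + P.D) ^ 3 := Nat.zero_le _
    omega
  calc 2 ^ P.β T = 2 ^ ((P.β T - 1) + 1) := by rw [Nat.sub_add_cancel h]
    _ = 2 * 2 ^ (P.β T - 1) := by rw [pow_succ, mul_comm]

private theorem LevCov_valid {P : Par} {q : ℕ → ℕ} {b c : ℕ} (lg : ℕ → ℕ → ℕ)
    (y : Yb P q b) (kk : Fin (2 ^ P.ν b)) (hb : P.b0 ≤ b) (hc : c < P.Γ b) (W t : ℕ → ℕ)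
    (hw : ∀ T < b, (eltY P q lg b c y kk).w T = W T) (hW : ∀ T < b, W T < 2 ^ (P.s T + 5))
    (ht : ∀ T < b, (eltY P q lg b c y kk).t T = t T) (ht2 : ∀ T < b, t T < 2 ^ P.β T)
    (hlow : ∀ T, T + P.d0 < b → t T ∈ P.X T (P.lab b c T))
    (hf : ∀ (T : ℕ) (hT : T < b), (y.1 ⟨T, hT⟩).2.2 = decide (2 ^ (P.β T - 1) ≤ t T)) :
    (eltY P q lg b c y kk).Valid P (eY P y) (fY P y) := by
  refine ⟨hb, hc, ?_, ?_, ?_, ?_, ?_, ?_⟩
  · intro T hT
    rw [hw T hT]
    exact hW T hT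
  · intro T
    unfold eY
    split_ifs
    · exact Bool.toNat_le _
    · exact Nat.zero_le _
    · exact Nat.zero_le _
  · intro T
    unfold fY
    split_ifs
    · exact Bool.toNat_le _
    · exact Nat.zero_le _
  · intro T hT
    have hT' : T + P.d0 < b := hT
    unfold eY
    split_ifs with h1 h2
    · omega
    · rfl
    · rfl
  · intro T hT
    have hT' : T + P.d0 < b := hT
    rw [ht T (by omega)]
    exact hlow T hT'
  · intro T hT _
    have hT' : T < b := hT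
    rw [ht T hT']
    have hB := LevCov_beta P T
    have h2 := ht2 T hT'
    have hfv : fY P y (eltY P q lg b c y kk).b (eltY P q lg b c y kk).c T =
        (decide (2 ^ (P.β T - 1) ≤ t T)).toNat := by
      unfold fY
      rw [dif_pos hT', hf T hT']
    rw [hfv]
    by_cases h3 : 2 ^ (P.β T - 1) ≤ t T
    · rw [decide_eq_true h3]
      simp only [Bool.toNat_true]
      omega
    · rw [decide_eq_false h3]
      simp only [Bool.toNat_false]
      omega

private theorem LevCov_WZ {P : Par} (h : P.OK) {q : ℕ → ℕ} (hq : ∀ T, 0 < q T - 1) {j m c : ℕ}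
    (lg : ℕ → ℕ → ℕ) (pr : Pres P (fun T => q T - 1) j m c) (k : K3 P j)
    (θy : Th q (j - P.d2)) (θx : Th q (j - P.d3)) (T : ℕ) (hT : T < j) :
    WZ lg pr θy θx k.2.1 k.2.2 T + wyv lg pr θy k.2.1 T + wxv lg pr θx k.2.2 T = pr.V T ∧
    WZ lg pr θy θx k.2.1 k.2.2 T < 2 ^ (P.s T + 5) ∧ wyv lg pr θy k.2.1 T < 2 ^ (P.s T + 5) ∧
    wxv lg pr θx k.2.2 T < 2 ^ (P.s T + 5) ∧
    (j - P.d3 ≤ T → wxv lg pr θx k.2.2 T = 0) ∧ (j - P.d2 ≤ T → wyv lg pr θy k.2.1 T = 0) := by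
  have hd := h.d23
  by_cases h3 : T < j - P.d3
  · have h2 : T < j - P.d2 := by omega
    have hy : wyv lg pr θy k.2.1 T =
        (lg T (P.ell (j - P.d2) c k.2.1) + ((θy ⟨T, h2⟩).1 : ℕ)) % (q T - 1) +
          (q T - 1) * pr.ξy T := by
      unfold wyv
      rw [dif_pos h2]
    have hx : wxv lg pr θx k.2.2 T =
        (lg T (P.ell (j - P.d3) c k.2.2) + ((θx ⟨T, h3⟩).1 : ℕ)) % (q T - 1) +
          (q T - 1) * pr.ξx T := by
      unfold wxv
      rw [dif_pos h3]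
    have hr := pr.res3 T h3 _ (Nat.mod_lt (lg T (P.ell (j - P.d2) c k.2.1) +
      ((θy ⟨T, h2⟩).1 : ℕ)) (hq T)) _ (Nat.mod_lt (lg T (P.ell (j - P.d3) c k.2.2) +
      ((θx ⟨T, h3⟩).1 : ℕ)) (hq T))
    obtain ⟨r1, r2, r3, r4⟩ := hr
    rw [← hy] at r1
    rw [← hx] at r2
    rw [← hy, ← hx] at r3 r4
    unfold WZ
    refine ⟨by omega, by omega, r1, r2, fun h5 => by omega, fun h5 => by omega⟩
  · have hx : wxv lg pr θx k.2.2 T = 0 := by
      unfold wxv
      rw [dif_neg h3]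
    have hpos : 0 < 2 ^ (P.s T + 5) := by positivity
    by_cases h2 : T < j - P.d2
    · have hy : wyv lg pr θy k.2.1 T =
          (lg T (P.ell (j - P.d2) c k.2.1) + ((θy ⟨T, h2⟩).1 : ℕ)) % (q T - 1) +
            (q T - 1) * pr.ξy T := by
        unfold wyv
        rw [dif_pos h2]
      obtain ⟨r1, r3, r4⟩ := pr.res2 T (by omega) h2 _ (Nat.mod_lt (lg T (P.ell (j - P.d2) c k.2.1) +
        ((θy ⟨T, h2⟩).1 : ℕ)) (hq T))
      rw [← hy] at r1 r3 r4
      unfold WZ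
      rw [hx]
      refine ⟨by omega, by omega, r1, hpos, fun _ => rfl, fun h5 => by omega⟩
    · have hy : wyv lg pr θy k.2.1 T = 0 := by
        unfold wyv
        rw [dif_neg h2]
      have r1 := pr.res1 T (by omega) hT
      unfold WZ
      rw [hx, hy]
      refine ⟨by omega, by omega, hpos, hpos, fun _ => rfl, fun _ => rfl⟩

theorem GG_cov {P : Par} (h : P.OK) {q : ℕ → ℕ} (hq : ∀ T, q T ∈ P.bin T) {j m c : ℕ}
    (hj : P.b0 + P.d3 ≤ j) (hc : c < P.Γ (j - P.d3)) (lg : ℕ → ℕ → ℕ)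
    (pr : Pres P (fun T => q T - 1) j m c) (k : K3 P j)
    (bz : ¬ Bad P q j c k.1) (by' : ¬ Bad P q (j - P.d2) c k.2.1)
    (bx : ¬ Bad P q (j - P.d3) c k.2.2)
    (u : Yb P q j) (v : Yb P q (j - P.d2)) (w : Yb P q (j - P.d3))
    (h1 : (u.1, v.1, w.1) ∈ GG lg pr k) (hz : u.2 k.1 = FF lg pr (u.1, v.1, w.1) k)
    (hy : v.2 k.2.1 = PYv pr) (hx : w.2 k.2.2 = PXv pr) : cov P q lg j m c u v w := by
  have hd := h.d23
  have hqn : ∀ T, 2 ^ P.s T ≤ q T - 1 := by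
    intro T
    have := (mem_filter.1 (hq T)).1
    rw [mem_Ioc] at this
    omega
  have hq0 : ∀ T, 0 < q T - 1 := fun T => lt_of_lt_of_le (by positivity) (hqn T)
  have hΓ : ∀ a b : ℕ, a ≤ b → P.Γ a ≤ P.Γ b := by
    intro a b hab
    exact Nat.pow_le_pow_right (by norm_num) (Nat.pow_le_pow_left hab 3)
  obtain ⟨g1, g2, g3⟩ := (mem_filter.1 h1).2
  have hW := LevCov_WZ h hq0 lg pr k v.1 w.1
  -- the log digits
  have wz : ∀ T < j, (eltY P q lg j c u k.1).w T = WZ lg pr v.1 w.1 k.2.1 k.2.2 T := by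
    intro T hT
    change (if h : T < j then (lg T (P.ell j c k.1) + ((u.1 ⟨T, h⟩).1 : ℕ)) % (q T - 1) +
      (q T - 1) * ((u.2 k.1 ⟨T, h⟩).1 : ℕ) else 0) = _
    rw [dif_pos hT, hz]
    have h5 : (lg T (P.ell j c k.1) + ((u.1 ⟨T, hT⟩).1 : ℕ)) % (q T - 1) =
        WZ lg pr v.1 w.1 k.2.1 k.2.2 T % (q T - 1) := (g1 ⟨T, hT⟩).2.2
    rw [h5]
    change _ + (q T - 1) * (WZ lg pr v.1 w.1 k.2.1 k.2.2 T / (q T - 1) % 32) = _
    have h6 : WZ lg pr v.1 w.1 k.2.1 k.2.2 T / (q T - 1) < 32 := by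
      rw [Nat.div_lt_iff_lt_mul (hq0 T)]
      have h7 := (hW T hT).2.1
      have h8 := hqn T
      calc WZ lg pr v.1 w.1 k.2.1 k.2.2 T < 2 ^ (P.s T + 5) := h7
        _ = 32 * 2 ^ P.s T := by rw [pow_add]; ring
        _ ≤ 32 * (q T - 1) := Nat.mul_le_mul_left _ h8
    rw [Nat.mod_eq_of_lt h6]
    exact Nat.mod_add_div _ _
  have wy : ∀ T < j - P.d2, (eltY P q lg (j - P.d2) c v k.2.1).w T = wyv lg pr v.1 k.2.1 T := by
    intro T hT
    change (if h : T < j - P.d2 then (lg T (P.ell (j - P.d2) c k.2.1) +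
      ((v.1 ⟨T, h⟩).1 : ℕ)) % (q T - 1) + (q T - 1) * ((v.2 k.2.1 ⟨T, h⟩).1 : ℕ) else 0) = _
    unfold wyv
    rw [dif_pos hT, dif_pos hT, hy]
    change _ + (q T - 1) * (pr.ξy T % 32) = _
    rw [Nat.mod_eq_of_lt (pr.hξy T)]
  have wx : ∀ T < j - P.d3, (eltY P q lg (j - P.d3) c w k.2.2).w T = wxv lg pr w.1 k.2.2 T := by
    intro T hT
    change (if h : T < j - P.d3 then (lg T (P.ell (j - P.d3) c k.2.2) +
      ((w.1 ⟨T, h⟩).1 : ℕ)) % (q T - 1) + (q T - 1) * ((w.2 k.2.2 ⟨T, h⟩).1 : ℕ) else 0) = _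
    unfold wxv
    rw [dif_pos hT, dif_pos hT, hx]
    change _ + (q T - 1) * (pr.ξx T % 32) = _
    rw [Nat.mod_eq_of_lt (pr.hξx T)]
  -- the tags
  have tz : ∀ T < j, (eltY P q lg j c u k.1).t T = pr.tz T := by
    intro T hT
    change (if h : T < j then ((u.2 k.1 ⟨T, h⟩).2 : ℕ) else 0) = _
    rw [dif_pos hT, hz]
    change pr.tz T % 2 ^ P.β T = _
    exact Nat.mod_eq_of_lt (pr.htz T hT)
  have ty : ∀ T < j - P.d2, (eltY P q lg (j - P.d2) c v k.2.1).t T = pr.ty T := by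
    intro T hT
    change (if h : T < j - P.d2 then ((v.2 k.2.1 ⟨T, h⟩).2 : ℕ) else 0) = _
    rw [dif_pos hT, hy]
    change pr.ty T % 2 ^ P.β T = _
    exact Nat.mod_eq_of_lt (pr.hty T hT)
  have tx : ∀ T < j - P.d3, (eltY P q lg (j - P.d3) c w k.2.2).t T = pr.tx T := by
    intro T hT
    change (if h : T < j - P.d3 then ((w.2 k.2.2 ⟨T, h⟩).2 : ℕ) else 0) = _
    rw [dif_pos hT, hx]
    change pr.tx T % 2 ^ P.β T = _
    exact Nat.mod_eq_of_lt (pr.htx T hT)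
  -- the bits e
  have tn : ∀ e : ℕ, e ≤ 1 → (decide (e = 1)).toNat = e := by
    intro e he
    interval_cases e <;> rfl
  have ez : ∀ T < j, eY P u j c T = pr.ez T := by
    intro T hT
    unfold eY
    rw [dif_pos hT]
    split_ifs with h5
    · have h6 : (u.1 ⟨T, hT⟩).2.1 = decide (pr.ez T = 1) := (g1 ⟨T, hT⟩).1
      rw [h6]
      exact tn _ (pr.hez T)
    · exact (pr.lz T (by omega)).1.symm
  have ey : ∀ T < j - P.d2, eY P v (j - P.d2) c T = pr.ey T := by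
    intro T hT
    unfold eY
    rw [dif_pos hT]
    split_ifs with h5
    · have h6 : (v.1 ⟨T, hT⟩).2.1 = decide (pr.ey T = 1) := (g2 ⟨T, hT⟩).1
      rw [h6]
      exact tn _ (pr.hey T)
    · exact (pr.ly T (by omega)).1.symm
  have ex : ∀ T < j - P.d3, eY P w (j - P.d3) c T = 0 := by
    intro T hT
    unfold eY
    rw [dif_pos hT]
    split_ifs with h5
    · have h6 : (w.1 ⟨T, hT⟩).2.1 = false := (g3 ⟨T, hT⟩).1
      rw [h6]
      rfl
    · rfl
  refine ⟨k.1, k.2.1, k.2.2, bz, by', bx, ?_, ?_, ?_, ?_⟩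
  · exact LevCov_valid lg u k.1 (by omega) (lt_of_lt_of_le hc (hΓ _ _ (by omega))) _ _ wz
      (fun T hT => (hW T hT).2.1) tz pr.htz (fun T hT => (pr.lz T hT).2)
      (fun T hT => (g1 ⟨T, hT⟩).2.1)
  · exact LevCov_valid lg v k.2.1 (by omega) (lt_of_lt_of_le hc (hΓ _ _ (by omega))) _ _ wy
      (fun T hT => (hW T (by omega)).2.2.1) ty pr.hty (fun T hT => (pr.ly T hT).2)
      (fun T hT => (g2 ⟨T, hT⟩).2)
  · exact LevCov_valid lg w k.2.2 (by omega) hc _ _ wx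
      (fun T hT => (hW T (by omega)).2.2.2.1) tx pr.htx (fun T hT => pr.lx T hT)
      (fun T hT => (g3 ⟨T, hT⟩).2)
  · have hs := pr.sum (WZ lg pr v.1 w.1 k.2.1 k.2.2) (wyv lg pr v.1 k.2.1) (wxv lg pr w.1 k.2.2)
      (fun T hT => (hW T (by omega)).1)
      (fun T hT1 hT2 => by
        have h5 := (hW T (by omega)).1
        have h6 := (hW T (by omega)).2.2.2.2.1 hT1
        omega)
      (fun T hT1 hT2 => by
        have h5 := (hW T hT2).1
        have h6 := (hW T hT2).2.2.2.2.1 (by omega)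
        have h7 := (hW T hT2).2.2.2.2.2 hT1
        omega)
    rw [← hs]
    unfold Elt.val
    refine congrArg₂ (· + ·) (congrArg₂ (· + ·) ?_ ?_) ?_
    · refine Finset.sum_congr rfl (fun T hT => ?_)
      have hT' : T < j := mem_range.1 hT
      rw [wz T hT', tz T hT']
      change (_ + eY P u j c T * _ + _) * _ = _
      rw [ez T hT']
    · refine Finset.sum_congr rfl (fun T hT => ?_)
      have hT' : T < j - P.d2 := mem_range.1 hT
      rw [wy T hT', ty T hT']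
      change (_ + eY P v (j - P.d2) c T * _ + _) * _ = _
      rw [ey T hT']
    · refine Finset.sum_congr rfl (fun T hT => ?_)
      have hT' : T < j - P.d3 := mem_range.1 hT
      rw [wx T hT', tx T hT']
      change (_ + eY P w (j - P.d3) c T * _ + _) * _ = _
      rw [ex T hT', zero_mul, add_zero]

end Pool.Agent.SBP
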