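import Pool.Agent.Lib.SBP.Defs2

/-!
# SBP.LevDefs : the events of one colour at level j
-/

namespace Pool.Agent.SBP

open Finset

variable {P : Par} {q : ℕ → ℕ} {j m c : ℕ}

/-- the log digit of y -/
def wyv (lg : ℕ → ℕ → ℕ) (pr : Pres P (fun T => q T - 1) j m c) (θy : Th q (j - P.d2))
    (ky T : ℕ) : ℕ :=
  if h : T < j - P.d2 then (lg T (P.ell (j - P.d2) c ky) + ((θy ⟨T, h⟩).1 : ℕ)) % (q T - 1) +
    (q T - 1) * pr.ξy T else 0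

/-- the log digit of x -/
def wxv (lg : ℕ → ℕ → ℕ) (pr : Pres P (fun T => q T - 1) j m c) (θx : Th q (j - P.d3))
    (kx T : ℕ) : ℕ :=
  if h : T < j - P.d3 then (lg T (P.ell (j - P.d3) c kx) + ((θx ⟨T, h⟩).1 : ℕ)) % (q T - 1) +
    (q T - 1) * pr.ξx T else 0

/-- the forced log digit of z -/
def WZ (lg : ℕ → ℕ → ℕ) (pr : Pres P (fun T => q T - 1) j m c) (θy : Th q (j - P.d2))
    (θx : Th q (j - P.d3)) (ky kx T : ℕ) : ℕ :=
  pr.V T - wyv lg pr θy ky T - wxv lg pr θx kx T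

/-- the index set of the triples -/
abbrev K3 (P : Par) (j : ℕ) : Type :=
  Fin (2 ^ P.ν j) × Fin (2 ^ P.ν (j - P.d2)) × Fin (2 ^ P.ν (j - P.d3))

/-- the colour data which fit the triple k -/
def GG (lg : ℕ → ℕ → ℕ) (pr : Pres P (fun T => q T - 1) j m c) (k : K3 P j) :
    Finset (Th q j × Th q (j - P.d2) × Th q (j - P.d3)) :=
  univ.filter (fun θ =>
    (∀ T : Fin j, (θ.1 T).2.1 = decide (pr.ez T = 1) ∧
      (θ.1 T).2.2 = decide (2 ^ (P.β T - 1) ≤ pr.tz T) ∧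
      (lg T (P.ell j c k.1) + ((θ.1 T).1 : ℕ)) % (q T - 1) =
        WZ lg pr θ.2.1 θ.2.2 k.2.1 k.2.2 T % (q T - 1)) ∧
    (∀ T : Fin (j - P.d2), (θ.2.1 T).2.1 = decide (pr.ey T = 1) ∧
      (θ.2.1 T).2.2 = decide (2 ^ (P.β T - 1) ≤ pr.ty T)) ∧
    (∀ T : Fin (j - P.d3), (θ.2.2 T).2.1 = false ∧
      (θ.2.2 T).2.2 = decide (2 ^ (P.β T - 1) ≤ pr.tx T)))

/-- the forced element data of z -/
def FF (lg : ℕ → ℕ → ℕ) (pr : Pres P (fun T => q T - 1) j m c)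
    (θ : Th q j × Th q (j - P.d2) × Th q (j - P.d3)) (k : K3 P j) : Ed P j := fun T =>
  (⟨WZ lg pr θ.2.1 θ.2.2 k.2.1 k.2.2 T / (q T - 1) % 32, Nat.mod_lt _ (by norm_num)⟩,
   ⟨pr.tz T % 2 ^ P.β T, Nat.mod_lt _ (by positivity)⟩)

/-- the prescribed element data of y -/
def PYv (pr : Pres P (fun T => q T - 1) j m c) : Ed P (j - P.d2) := fun T =>
  (⟨pr.ξy T % 32, Nat.mod_lt _ (by norm_num)⟩, ⟨pr.ty T % 2 ^ P.β T, Nat.mod_lt _ (by positivity)⟩)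

/-- the prescribed element data of x -/
def PXv (pr : Pres P (fun T => q T - 1) j m c) : Ed P (j - P.d3) := fun T =>
  (⟨pr.ξx T % 32, Nat.mod_lt _ (by norm_num)⟩, ⟨pr.tx T % 2 ^ P.β T, Nat.mod_lt _ (by positivity)⟩)

end Pool.Agent.SBP
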