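import Pool.Agent.Lib.SBP.LevDefs

/-!
# SBP.LevG1 : the number of colour data which fit a triple

PROOF.  q T ≥ 3 (q T > 2^(s T), s T ≥ 14), so q T - 2 + 1 = q T - 1 =: n T ≥ 1.  For given (θy, θx) satisfying the bit conditions there is exactly one θz: its bits are
given and σz T ∈ [0, n T) is determined by (lg + σz T) % n T = r, where r = WZ % n T < n T (exactly one solution σ < n: σ = (r + n - lg % n) % n).
The number of θy with given bits is ∏_{T < j - d2} n T (Fintype.card_piFinset, or card of {f | ∀ T, (f T).2 = a T} = ∏ card of {v | v.2 = a T} = n T), the same for θx.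
So the card is Σ over the (θy, θx) with the right bits of 1.  (E.g. a bijection of GG k with (∀ T : Fin (j-d2), Fin (q T - 2 + 1)) × (∀ T : Fin (j-d3), Fin (q T - 2 + 1)).)
-/

namespace Pool.Agent.SBP

open Finset

private theorem levG1_card_pi {b : ℕ} {α : Fin b → Type} [∀ i, Fintype (α i)]
    [∀ i, DecidableEq (α i)] (p : ∀ i, α i → Prop) [∀ i, DecidablePred (p i)]
    [DecidablePred fun f : (∀ i, α i) => ∀ i, p i (f i)] :
    (univ.filter (fun f : (∀ i, α i) => ∀ i, p i (f i))).card =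
      ∏ i, (univ.filter (p i)).card := by
  have h1 : univ.filter (fun f : (∀ i, α i) => ∀ i, p i (f i)) =
      Fintype.piFinset (fun i => univ.filter (p i)) := by
    ext f
    simp [Fintype.mem_piFinset]
  rw [h1, Fintype.card_piFinset]

private theorem levG1_bits (n : ℕ) (a b : Bool) :
    (univ.filter (fun v : Fin n × Bool × Bool => v.2.1 = a ∧ v.2.2 = b)).card = n := by
  have h1 : univ.filter (fun v : Fin n × Bool × Bool => v.2.1 = a ∧ v.2.2 = b) =
      (univ : Finset (Fin n)) ×ˢ ({(a, b)} : Finset (Bool × Bool)) := by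
    ext v
    simp [Prod.ext_iff, eq_comm]
  rw [h1, card_product, card_singleton, mul_one, card_univ, Fintype.card_fin]

private theorem levG1_one (n m : ℕ) (hn : 0 < n) (hm : m = n) (a b : Bool) (L W : ℕ) :
    (univ.filter (fun v : Fin m × Bool × Bool => v.2.1 = a ∧ v.2.2 = b ∧
      (L + (v.1 : ℕ)) % n = W % n)).card = 1 := by
  subst hm
  have hL : L % m < m := Nat.mod_lt _ hn
  have hσ : (W % m + (m - L % m)) % m < m := Nat.mod_lt _ hn
  have h1 : L + (W % m + (m - L % m)) % m ≡ W [MOD m] := by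
    have h2 : L + (W % m + (m - L % m)) % m ≡ L % m + (W % m + (m - L % m)) [MOD m] :=
      (Nat.mod_modEq L m).symm.add (Nat.mod_modEq _ m)
    have h3 : L % m + (W % m + (m - L % m)) = W % m + m := by omega
    rw [h3] at h2
    have h4 : W % m + m ≡ W + 0 [MOD m] :=
      (Nat.mod_modEq W m).add ((Nat.modEq_zero_iff_dvd).2 dvd_rfl)
    exact h2.trans h4
  rw [card_eq_one]
  refine ⟨(⟨(W % m + (m - L % m)) % m, hσ⟩, a, b), ?_⟩
  ext v
  rw [mem_filter, mem_singleton]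
  constructor
  · rintro ⟨-, h2, h3, h4⟩
    have h5 : L + (v.1 : ℕ) ≡ L + (W % m + (m - L % m)) % m [MOD m] :=
      (show L + (v.1 : ℕ) ≡ W [MOD m] from h4).trans h1.symm
    have h6 : (v.1 : ℕ) = (W % m + (m - L % m)) % m :=
      Nat.ModEq.eq_of_lt_of_lt (Nat.ModEq.add_left_cancel' L h5) v.1.2 hσ
    refine Prod.ext (Fin.ext h6) (Prod.ext h2 h3)
  · rintro rfl
    exact ⟨mem_univ _, rfl, rfl, h1⟩

private theorem levG1_prod {q : ℕ → ℕ} (hq : ∀ T, 3 ≤ q T) (b : ℕ) (A B : Fin b → Bool) :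
    (univ.filter (fun f : Th q b => ∀ T : Fin b, (f T).2.1 = A T ∧ (f T).2.2 = B T)).card =
      ∏ T ∈ range b, (q T - 1) := by
  have h1 := levG1_card_pi (b := b) (α := fun T => Fin (q T - 2 + 1) × Bool × Bool)
    (fun T v => v.2.1 = A T ∧ v.2.2 = B T)
  refine h1.trans ?_
  rw [Finset.prod_range]
  refine Finset.prod_congr rfl fun T _ => ?_
  rw [levG1_bits]
  have := hq T
  omega

private theorem levG1_z {q : ℕ → ℕ} (hq : ∀ T, 3 ≤ q T) (b : ℕ) (A B : Fin b → Bool)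
    (L W : Fin b → ℕ) :
    (univ.filter (fun f : Th q b => ∀ T : Fin b, (f T).2.1 = A T ∧ (f T).2.2 = B T ∧
      (L T + ((f T).1 : ℕ)) % (q T - 1) = W T % (q T - 1))).card = 1 := by
  have h1 := levG1_card_pi (b := b) (α := fun T => Fin (q T - 2 + 1) × Bool × Bool)
    (fun T v => v.2.1 = A T ∧ v.2.2 = B T ∧ (L T + (v.1 : ℕ)) % (q T - 1) = W T % (q T - 1))
  refine h1.trans ?_
  refine Finset.prod_eq_one fun T _ => ?_
  have := hq T
  exact levG1_one _ _ (by omega) (by omega) _ _ _ _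

theorem GG_card {P : Par} (h : P.OK) {q : ℕ → ℕ} (hq : ∀ T, q T ∈ P.bin T) {j m c : ℕ}
    (lg : ℕ → ℕ → ℕ) (pr : Pres P (fun T => q T - 1) j m c) (k : K3 P j) :
    (GG lg pr k).card =
      (∏ T ∈ range (j - P.d2), (q T - 1)) * ∏ T ∈ range (j - P.d3), (q T - 1) := by
  classical
  have hq3 : ∀ T, 3 ≤ q T := by
    intro T
    have h1 := hq T
    unfold Par.bin at h1
    rw [mem_filter, mem_Ioc] at h1
    have h2 : 2 ^ 14 ≤ 2 ^ P.s T := Nat.pow_le_pow_right (by norm_num) (h.s14 T)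
    have h3 := h1.1.1
    omega
  set Fy : Finset (Th q (j - P.d2)) := univ.filter (fun f => ∀ T : Fin (j - P.d2),
    (f T).2.1 = decide (pr.ey T = 1) ∧ (f T).2.2 = decide (2 ^ (P.β T - 1) ≤ pr.ty T)) with hFy
  set Fx : Finset (Th q (j - P.d3)) := univ.filter (fun f => ∀ T : Fin (j - P.d3),
    (f T).2.1 = false ∧ (f T).2.2 = decide (2 ^ (P.β T - 1) ≤ pr.tx T)) with hFx
  have hcy : Fy.card = ∏ T ∈ range (j - P.d2), (q T - 1) := levG1_prod hq3 _ _ _
  have hcx : Fx.card = ∏ T ∈ range (j - P.d3), (q T - 1) := levG1_prod hq3 _ _ _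
  rw [← hcy, ← hcx, ← card_product]
  have hmaps : ∀ θ ∈ GG lg pr k, θ.2 ∈ Fy ×ˢ Fx := by
    intro θ hθ
    unfold GG at hθ
    rw [mem_filter] at hθ
    rw [mem_product, hFy, hFx, mem_filter, mem_filter]
    exact ⟨⟨mem_univ _, hθ.2.2.1⟩, ⟨mem_univ _, hθ.2.2.2⟩⟩
  rw [card_eq_sum_card_fiberwise hmaps, card_eq_sum_ones]
  refine sum_congr rfl fun θ' hθ' => ?_
  rw [mem_product, hFy, hFx, mem_filter, mem_filter] at hθ'
  have h1 := levG1_z hq3 j (fun T => decide (pr.ez T = 1))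
    (fun T => decide (2 ^ (P.β T - 1) ≤ pr.tz T)) (fun T => lg T (P.ell j c k.1))
    (fun T => WZ lg pr θ'.1 θ'.2 k.2.1 k.2.2 T)
  refine Eq.trans (Eq.symm ?_) h1
  refine card_bij (fun θz _ => (θz, θ')) ?_ ?_ ?_
  · intro θz hθz
    rw [mem_filter] at hθz
    rw [mem_filter]
    refine ⟨?_, rfl⟩
    unfold GG
    rw [mem_filter]
    exact ⟨mem_univ _, hθz.2, hθ'.1.2, hθ'.2.2⟩
  · intro a _ b _ hab
    exact (Prod.ext_iff.1 hab).1
  · rintro ⟨θz, θ2⟩ hθ
    rw [mem_filter] at hθ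
    obtain ⟨h2, h3⟩ := hθ
    have h4 : θ2 = θ' := h3
    subst h4
    unfold GG at h2
    rw [mem_filter] at h2
    exact ⟨θz, mem_filter.2 ⟨mem_univ _, h2.2.1⟩, rfl⟩

end Pool.Agent.SBP
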