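import Pool.Agent.Lib.SBP.Defs2

/-!
# SBP.Pair : the arithmetic of two pairs

The moduli `q T` are distinct primes whose product over `T < l` is larger than `2 ^ S l`; so numbers up to
`2 ^ S l` which are congruent modulo all of them are equal (`mod_eq`), and no `q T`, `T < b`, divides a prime of
block `b` (`not_dvd_ell`). `pair`, `triple`: congruences between products of two or three primes of the blocks
determine the primes.
-/

namespace Pool.Agent.SBP

open Finset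

private theorem Pair_prime {P : Par} {q : ℕ → ℕ} (hq : ∀ T, q T ∈ P.bin T) (T : ℕ) :
    (q T).Prime := by
  have := hq T
  simp only [Par.bin, mem_filter] at this
  exact this.2

private theorem Pair_lo {P : Par} {q : ℕ → ℕ} (hq : ∀ T, q T ∈ P.bin T) (T : ℕ) :
    2 ^ P.s T < q T := by
  have := hq T
  simp only [Par.bin, mem_filter, mem_Ioc] at this
  exact this.1.1

private theorem Pair_hi {P : Par} {q : ℕ → ℕ} (hq : ∀ T, q T ∈ P.bin T) (T : ℕ) :
    q T ≤ 2 ^ (P.s T + 2) := by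
  have := hq T
  simp only [Par.bin, mem_filter, mem_Ioc] at this
  exact this.1.2

private theorem Pair_mono {P : Par} (h : P.OK) {q : ℕ → ℕ} (hq : ∀ T, q T ∈ P.bin T) :
    StrictMono q := by
  refine strictMono_nat_of_lt_succ fun T => ?_
  calc q T ≤ 2 ^ (P.s T + 2) := Pair_hi hq T
    _ ≤ 2 ^ (P.s (T + 1)) := Nat.pow_le_pow_right (by norm_num) (h.s2 T)
    _ < q (T + 1) := Pair_lo hq (T + 1)

private theorem Pair_prod {P : Par} (h : P.OK) {q : ℕ → ℕ} (hq : ∀ T, q T ∈ P.bin T) (l x y : ℕ)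
    (hxy : ∀ T < l, x ≡ y [MOD q T]) : x ≡ y [MOD ∏ T ∈ range l, q T] := by
  induction l with
  | zero => simp [Nat.modEq_one]
  | succ l ih =>
    rw [prod_range_succ]
    have hc : Nat.Coprime (∏ T ∈ range l, q T) (q l) := by
      refine Nat.Coprime.prod_left fun i hi => ?_
      refine (Nat.coprime_primes (Pair_prime hq i) (Pair_prime hq l)).2 ?_
      exact (Pair_mono h hq (mem_range.1 hi)).ne
    exact (Nat.modEq_and_modEq_iff_modEq_mul hc).1
      ⟨ih fun T hT => hxy T (by omega), hxy l (by omega)⟩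

theorem mod_eq (P : Par) (h : P.OK) (q : ℕ → ℕ) (hq : ∀ T, q T ∈ P.bin T) (l x y : ℕ)
    (hl : 1 ≤ l) (hx : x ≤ 2 ^ P.S l) (hy : y ≤ 2 ^ P.S l) (hxy : ∀ T < l, x ≡ y [MOD q T]) :
    x = y := by
  have h1 := Pair_prod h hq l x y hxy
  have h2 : 2 ^ P.S l < ∏ T ∈ range l, q T := by
    have h3 : 2 ^ P.S l = ∏ T ∈ range l, 2 ^ P.s T := by
      rw [prod_pow_eq_pow_sum]
      rfl
    rw [h3]
    refine prod_lt_prod_of_nonempty (fun T _ => by positivity) (fun T _ => Pair_lo hq T) ?_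
    exact ⟨0, mem_range.2 hl⟩
  exact Nat.ModEq.eq_of_lt_of_lt h1 (by omega) (by omega)

theorem not_dvd_ell (P : Par) (h : P.OK) (q : ℕ → ℕ) (hq : ∀ T, q T ∈ P.bin T) {b c k T : ℕ}
    (hb : P.b0 ≤ b) (hc : c < P.Γ b) (hk : k < 2 ^ P.ν b) (hT : T < b) :
    ¬ q T ∣ P.ell b c k := by
  intro hd
  have h1 := (Nat.prime_dvd_prime_iff_eq (Pair_prime hq T) (h.prime b hb c hc k hk)).1 hd
  have h2 := h.lo b hb c hc k hk
  have h3 := Pair_hi hq T
  have h4 : 2 ^ (P.s T + 2) ≤ 2 ^ (P.a b - 2) := by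
    refine Nat.pow_le_pow_right (by norm_num) ?_
    have := h.as b hb T hT
    omega
  omega

private theorem Pair_a {P : Par} (h : P.OK) {l j : ℕ} (hl : P.b0 ≤ l) (hlj : l < j) :
    P.a l + 2 ≤ P.a j := by
  induction j, hlj using Nat.le_induction with
  | base => exact h.a2 l hl
  | succ j hj ih =>
    have := h.a2 j (by omega)
    omega

private theorem Pair_one {P : Par} (h : P.OK) : 1 ≤ P.b0 := by
  have := h.b0
  omega

private theorem Pair_cancel {P : Par} (h : P.OK) {q : ℕ → ℕ} (hq : ∀ T, q T ∈ P.bin T)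
    {b c k T : ℕ} (hb : P.b0 ≤ b) (hc : c < P.Γ b) (hk : k < 2 ^ P.ν b) (hT : T < b) {u v : ℕ}
    (huv : P.ell b c k * u ≡ P.ell b c k * v [MOD q T]) : u ≡ v [MOD q T] := by
  refine Nat.ModEq.cancel_left_of_coprime ?_ huv
  exact ((Pair_prime hq T).coprime_iff_not_dvd).2 (not_dvd_ell P h q hq hb hc hk hT)

private theorem Pair_split {x1 x2 x3 x4 : ℕ} (h1 : x1.Prime) (h3 : x3.Prime) (h4 : x4.Prime)
    (h : x1 * x2 = x3 * x4) : (x1 = x3 ∧ x2 = x4) ∨ (x1 = x4 ∧ x2 = x3) := by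
  have hd : x1 ∣ x3 * x4 := ⟨x2, h.symm⟩
  rcases (Nat.Prime.dvd_mul h1).1 hd with h5 | h5
  · left
    have h6 := (Nat.prime_dvd_prime_iff_eq h1 h3).1 h5
    subst h6
    exact ⟨rfl, Nat.eq_of_mul_eq_mul_left h1.pos h⟩
  · right
    have h6 := (Nat.prime_dvd_prime_iff_eq h1 h4).1 h5
    subst h6
    refine ⟨rfl, Nat.eq_of_mul_eq_mul_left h1.pos ?_⟩
    rw [h, mul_comm]

theorem pair (P : Par) (h : P.OK) (q : ℕ → ℕ) (hq : ∀ T, q T ∈ P.bin T) {l j c c' k1 k2 k3 k4 : ℕ}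
    (hl : P.b0 ≤ l) (hlj : l ≤ j) (hc : c < P.Γ j) (hc' : c' < P.Γ l)
    (h1 : k1 < 2 ^ P.ν j) (h3 : k3 < 2 ^ P.ν j) (h2 : k2 < 2 ^ P.ν l) (h4 : k4 < 2 ^ P.ν l)
    (hbad : ¬ Bad P q j c k1)
    (hC : Cong q l j (P.ell j c k1) (P.ell l c' k2) (P.ell j c k3) (P.ell l c' k4)) :
    (k1 = k3 ∧ k2 = k4) ∨ (l = j ∧ c = c' ∧ k1 = k4 ∧ k2 = k3) := by
  have hj : P.b0 ≤ j := hl.trans hlj
  have hl1 : 1 ≤ l := (Pair_one h).trans hl
  have p1 := h.prime j hj c hc k1 h1
  have p3 := h.prime j hj c hc k3 h3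
  have p4 := h.prime l hl c' hc' k4 h4
  have u1 := h.hi j hj c hc k1 h1
  have u3 := h.hi j hj c hc k3 h3
  have u2 := h.hi l hl c' hc' k2 h2
  have u4 := h.hi l hl c' hc' k4 h4
  have hprod : P.a j + P.a l ≤ P.S l →
      P.ell j c k1 * P.ell l c' k2 = P.ell j c k3 * P.ell l c' k4 := by
    intro hS
    have hb : 2 ^ (P.a j) * 2 ^ (P.a l) ≤ 2 ^ P.S l := by
      rw [← pow_add]
      exact Nat.pow_le_pow_right (by norm_num) hS
    exact mod_eq P h q hq l _ _ hl1 ((Nat.mul_le_mul u1 u2).trans hb)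
      ((Nat.mul_le_mul u3 u4).trans hb) hC.1
  rcases eq_or_lt_of_le hlj with hE | hL
  · subst hE
    have hS : P.a l + P.a l ≤ P.S l := by
      have := h.ah l hl
      omega
    rcases Pair_split p1 p3 p4 (hprod hS) with ⟨e1, e2⟩ | ⟨e1, e2⟩
    · left
      exact ⟨(h.inj l hl c hc c hc k1 h1 k3 h3 e1).2, (h.inj l hl c' hc' c' hc' k2 h2 k4 h4 e2).2⟩
    · right
      have i1 := h.inj l hl c hc c' hc' k1 h1 k4 h4 e1
      have i2 := h.inj l hl c' hc' c hc k2 h2 k3 h3 e2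
      exact ⟨rfl, i1.1, i1.2, i2.2⟩
  · left
    by_cases hS : P.a j + P.a l ≤ P.S l
    · rcases Pair_split p1 p3 p4 (hprod hS) with ⟨e1, e2⟩ | ⟨e1, e2⟩
      · exact ⟨(h.inj j hj c hc c hc k1 h1 k3 h3 e1).2, (h.inj l hl c' hc' c' hc' k2 h2 k4 h4 e2).2⟩
      · exfalso
        have h5 := h.lo j hj c hc k1 h1
        have h6 := Pair_a h hl hL
        have h7 : 2 ^ (P.a l) ≤ 2 ^ (P.a j - 2) := Nat.pow_le_pow_right (by norm_num) (by omega)
        omega
    · by_cases hk : k3 = k1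
      · subst hk
        refine ⟨rfl, ?_⟩
        have hb : 2 ^ (P.a l) ≤ 2 ^ P.S l := by
          refine Nat.pow_le_pow_right (by norm_num) ?_
          have := h.ah l hl
          omega
        have e := mod_eq P h q hq l _ _ hl1 (u2.trans hb) (u4.trans hb)
          fun T hT => Pair_cancel h hq hj hc h3 (hT.trans hL) (hC.1 T hT)
        exact (h.inj l hl c' hc' c' hc' k2 h2 k4 h4 e).2
      · exact absurd ⟨l, hl, hL, not_le.1 hS, c', hc', k3, h3, hk, k2, h2, k4, h4, hC⟩ hbad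

theorem triple (P : Par) (h : P.OK) (q : ℕ → ℕ) (hq : ∀ T, q T ∈ P.bin T)
    {j c kz ky kx kz' ky' kx' : ℕ} (hj : P.b0 + P.d3 ≤ j) (hc : c < P.Γ (j - P.d3))
    (hz : kz < 2 ^ P.ν j) (hy : ky < 2 ^ P.ν (j - P.d2)) (hx : kx < 2 ^ P.ν (j - P.d3))
    (hz' : kz' < 2 ^ P.ν j) (hy' : ky' < 2 ^ P.ν (j - P.d2)) (hx' : kx' < 2 ^ P.ν (j - P.d3))
    (bz : ¬ Bad P q j c kz) (by' : ¬ Bad P q (j - P.d2) c ky)
    (hC : Cong3 P q j c kz ky kx kz' ky' kx')
    (hsh : kz = kz' ∨ ky = ky' ∨ kx = kx') : kz = kz' ∧ ky = ky' ∧ kx = kx' := by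
  have d2 := h.d2
  have d23 := h.d23
  have b3 : P.b0 ≤ j - P.d3 := by omega
  have b2 : P.b0 ≤ j - P.d2 := by omega
  have bj : P.b0 ≤ j := by omega
  have l32 : j - P.d3 < j - P.d2 := by omega
  have l2 : j - P.d2 < j := by omega
  have g2 : c < P.Γ (j - P.d2) := hc.trans_le
    (Nat.pow_le_pow_right (by norm_num) (Nat.pow_le_pow_left (by omega) 3))
  have gj : c < P.Γ j := hc.trans_le
    (Nat.pow_le_pow_right (by norm_num) (Nat.pow_le_pow_left (by omega) 3))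
  obtain ⟨c1, c2, c3⟩ := hC
  rcases hsh with e | e | e
  · subst e
    have hp := pair P h q hq b3 l32.le g2 hc hy hy' hx hx' by' ⟨fun T hT => by
        have := c1 T hT
        rw [mul_assoc, mul_assoc] at this
        exact Pair_cancel h hq bj gj hz (by omega) this, fun T hT hT' =>
        Pair_cancel h hq bj gj hz (by omega) (c2 T hT hT')⟩
    rcases hp with ⟨e1, e2⟩ | ⟨e1, _⟩
    · exact ⟨rfl, e1, e2⟩
    · omega
  · subst e
    have hp := pair P h q hq b3 (l32.trans l2).le gj hc hz hz' hx hx' bz ⟨fun T hT => by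
        have := c1 T hT
        have e1 : P.ell j c kz * P.ell (j - P.d2) c ky * P.ell (j - P.d3) c kx =
          P.ell (j - P.d2) c ky * (P.ell j c kz * P.ell (j - P.d3) c kx) := by ring
        have e2 : P.ell j c kz' * P.ell (j - P.d2) c ky * P.ell (j - P.d3) c kx' =
          P.ell (j - P.d2) c ky * (P.ell j c kz' * P.ell (j - P.d3) c kx') := by ring
        rw [e1, e2] at this
        exact Pair_cancel h hq b2 g2 hy (by omega) this, fun T hT hT' => by
        rcases Nat.lt_or_ge T (j - P.d2) with h5 | h5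
        · have := c2 T hT h5
          rw [mul_comm (P.ell j c kz), mul_comm (P.ell j c kz')] at this
          exact Pair_cancel h hq b2 g2 hy h5 this
        · exact c3 T h5 hT'⟩
    rcases hp with ⟨e1, e2⟩ | ⟨e1, _⟩
    · exact ⟨e1, rfl, e2⟩
    · omega
  · subst e
    have hp := pair P h q hq b2 l2.le gj g2 hz hz' hy hy' bz ⟨fun T hT => by
        rcases Nat.lt_or_ge T (j - P.d3) with h5 | h5
        · have := c1 T h5
          rw [mul_comm (P.ell j c kz * _), mul_comm (P.ell j c kz' * _)] at this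
          exact Pair_cancel h hq b3 hc hx h5 this
        · exact c2 T h5 hT, fun T hT hT' => c3 T hT hT'⟩
    rcases hp with ⟨e1, e2⟩ | ⟨e1, _⟩
    · exact ⟨e1, e2, rfl⟩
    · omega

end Pool.Agent.SBP
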