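import Pool.Agent.Lib.SBP.LevDefs
import Pool.Agent.Lib.SBP.Pair

/-!
# SBP.LevG2 : if one colour datum fits two triples then the congruences Cong3 hold

PROOF.  Let n = q T - 1, T < j.  By res3, res2, res1 (with ry, rx < n the residues) wyv + wxv ≤ V, so WZ + wyv + wxv = V (no truncation; wyv = 0 for T ≥ j - d2,
wxv = 0 for T ≥ j - d3).  θ ∈ GG k: lg ℓz + σz ≡ WZ [MOD n], wyv ≡ lg ℓy + σy (T < j - d2), wxv ≡ lg ℓx + σx (T < j - d3).  So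
lg ℓz + σz + [lg ℓy + σy] + [lg ℓx + σx] ≡ V T ≡ the same with ℓ'; cancel the σ: the sums of the lg agree mod n, IsLog (products of primes not divisible by q T,
not_dvd_ell; q T prime) gives the congruences mod q T.  c < Γ (j - d3) ≤ Γ (j - d2) ≤ Γ j, j - d3 ≥ b0.
-/

namespace Pool.Agent.SBP

open Finset

private theorem LevG2_log2 {q : ℕ} (hp : q.Prime) {f : ℕ → ℕ} (hl : IsLog q f)
    {x y x' y' : ℕ} (hx : ¬ q ∣ x) (hy : ¬ q ∣ y) (hx' : ¬ q ∣ x') (hy' : ¬ q ∣ y')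
    (h : f x + f y ≡ f x' + f y' [MOD (q - 1)]) : x * y ≡ x' * y' [MOD q] := by
  have h1 : ¬ q ∣ x * y := fun hd => (hp.dvd_mul.1 hd).elim hx hy
  have h2 : ¬ q ∣ x' * y' := fun hd => (hp.dvd_mul.1 hd).elim hx' hy'
  refine ((hl _ _ h1 h2).2).1 ?_
  exact ((hl _ _ hx hy).1.trans h).trans ((hl _ _ hx' hy').1.symm)

private theorem LevG2_log3 {q : ℕ} (hp : q.Prime) {f : ℕ → ℕ} (hl : IsLog q f)
    {x y z x' y' z' : ℕ} (hx : ¬ q ∣ x) (hy : ¬ q ∣ y) (hz : ¬ q ∣ z) (hx' : ¬ q ∣ x')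
    (hy' : ¬ q ∣ y') (hz' : ¬ q ∣ z')
    (h : f x + f y + f z ≡ f x' + f y' + f z' [MOD (q - 1)]) :
    x * y * z ≡ x' * y' * z' [MOD q] := by
  have h1 : ¬ q ∣ x * y := fun hd => (hp.dvd_mul.1 hd).elim hx hy
  have h2 : ¬ q ∣ x' * y' := fun hd => (hp.dvd_mul.1 hd).elim hx' hy'
  refine LevG2_log2 hp hl h1 hz h2 hz' ?_
  exact (((hl _ _ hx hy).1.add_right _).trans h).trans (((hl _ _ hx' hy').1.symm).add_right _)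

private theorem LevG2_mod (a n ξ : ℕ) : a % n + n * ξ ≡ a [MOD n] := by
  unfold Nat.ModEq
  rw [Nat.add_mul_mod_self_left, Nat.mod_mod]

private theorem LevG2_r3 {P : Par} (h : P.OK) {q : ℕ → ℕ} {j m c : ℕ} (lg : ℕ → ℕ → ℕ)
    (pr : Pres P (fun T => q T - 1) j m c) (k : K3 P j)
    (θ : Th q j × Th q (j - P.d2) × Th q (j - P.d3)) (h1 : θ ∈ GG lg pr k) {T : ℕ}
    (hn : 0 < q T - 1) (hT : T < j) (hT2 : T < j - P.d2) (hT3 : T < j - P.d3) :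
    lg T (P.ell j c k.1) + lg T (P.ell (j - P.d2) c k.2.1) + lg T (P.ell (j - P.d3) c k.2.2) +
      (((θ.1 ⟨T, hT⟩).1 : ℕ) + ((θ.2.1 ⟨T, hT2⟩).1 : ℕ) + ((θ.2.2 ⟨T, hT3⟩).1 : ℕ)) ≡
      pr.V T [MOD (q T - 1)] := by
  have h2 := ((mem_filter.1 h1).2.1 ⟨T, hT⟩).2.2
  have h3 : lg T (P.ell j c k.1) + ((θ.1 ⟨T, hT⟩).1 : ℕ) ≡
      WZ lg pr θ.2.1 θ.2.2 k.2.1 k.2.2 T [MOD (q T - 1)] := h2
  have hy : wyv lg pr θ.2.1 k.2.1 T =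
      (lg T (P.ell (j - P.d2) c k.2.1) + ((θ.2.1 ⟨T, hT2⟩).1 : ℕ)) % (q T - 1) +
        (q T - 1) * pr.ξy T := by
    unfold wyv
    rw [dif_pos hT2]
  have hx : wxv lg pr θ.2.2 k.2.2 T =
      (lg T (P.ell (j - P.d3) c k.2.2) + ((θ.2.2 ⟨T, hT3⟩).1 : ℕ)) % (q T - 1) +
        (q T - 1) * pr.ξx T := by
    unfold wxv
    rw [dif_pos hT3]
  have hr := (pr.res3 T hT3 _ (Nat.mod_lt (lg T (P.ell (j - P.d2) c k.2.1) +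
    ((θ.2.1 ⟨T, hT2⟩).1 : ℕ)) hn) _ (Nat.mod_lt (lg T (P.ell (j - P.d3) c k.2.2) +
    ((θ.2.2 ⟨T, hT3⟩).1 : ℕ)) hn)).2.2.1
  have hV : WZ lg pr θ.2.1 θ.2.2 k.2.1 k.2.2 T + wyv lg pr θ.2.1 k.2.1 T +
      wxv lg pr θ.2.2 k.2.2 T = pr.V T := by
    unfold WZ
    simp only [hy, hx] at *
    omega
  have hy' : wyv lg pr θ.2.1 k.2.1 T ≡
      lg T (P.ell (j - P.d2) c k.2.1) + ((θ.2.1 ⟨T, hT2⟩).1 : ℕ) [MOD (q T - 1)] := by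
    rw [hy]
    exact LevG2_mod _ _ _
  have hx' : wxv lg pr θ.2.2 k.2.2 T ≡
      lg T (P.ell (j - P.d3) c k.2.2) + ((θ.2.2 ⟨T, hT3⟩).1 : ℕ) [MOD (q T - 1)] := by
    rw [hx]
    exact LevG2_mod _ _ _
  have h4 := (h3.add hy'.symm).add hx'.symm
  rw [hV] at h4
  refine Nat.ModEq.trans ?_ h4
  have h5 : lg T (P.ell j c k.1) + lg T (P.ell (j - P.d2) c k.2.1) +
      lg T (P.ell (j - P.d3) c k.2.2) +
      (((θ.1 ⟨T, hT⟩).1 : ℕ) + ((θ.2.1 ⟨T, hT2⟩).1 : ℕ) + ((θ.2.2 ⟨T, hT3⟩).1 : ℕ)) =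
      lg T (P.ell j c k.1) + ((θ.1 ⟨T, hT⟩).1 : ℕ) +
      (lg T (P.ell (j - P.d2) c k.2.1) + ((θ.2.1 ⟨T, hT2⟩).1 : ℕ)) +
      (lg T (P.ell (j - P.d3) c k.2.2) + ((θ.2.2 ⟨T, hT3⟩).1 : ℕ)) := by ring
  rw [h5]

private theorem LevG2_r2 {P : Par} (h : P.OK) {q : ℕ → ℕ} {j m c : ℕ} (lg : ℕ → ℕ → ℕ)
    (pr : Pres P (fun T => q T - 1) j m c) (k : K3 P j)
    (θ : Th q j × Th q (j - P.d2) × Th q (j - P.d3)) (h1 : θ ∈ GG lg pr k) {T : ℕ}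
    (hn : 0 < q T - 1) (hT : T < j) (hT2 : T < j - P.d2) (hT3 : j - P.d3 ≤ T) :
    lg T (P.ell j c k.1) + lg T (P.ell (j - P.d2) c k.2.1) +
      (((θ.1 ⟨T, hT⟩).1 : ℕ) + ((θ.2.1 ⟨T, hT2⟩).1 : ℕ)) ≡
      pr.V T [MOD (q T - 1)] := by
  have h2 := ((mem_filter.1 h1).2.1 ⟨T, hT⟩).2.2
  have h3 : lg T (P.ell j c k.1) + ((θ.1 ⟨T, hT⟩).1 : ℕ) ≡
      WZ lg pr θ.2.1 θ.2.2 k.2.1 k.2.2 T [MOD (q T - 1)] := h2
  have hy : wyv lg pr θ.2.1 k.2.1 T =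
      (lg T (P.ell (j - P.d2) c k.2.1) + ((θ.2.1 ⟨T, hT2⟩).1 : ℕ)) % (q T - 1) +
        (q T - 1) * pr.ξy T := by
    unfold wyv
    rw [dif_pos hT2]
  have hx : wxv lg pr θ.2.2 k.2.2 T = 0 := by
    unfold wxv
    rw [dif_neg (not_lt.2 hT3)]
  have hr := (pr.res2 T hT3 hT2 _ (Nat.mod_lt (lg T (P.ell (j - P.d2) c k.2.1) +
    ((θ.2.1 ⟨T, hT2⟩).1 : ℕ)) hn)).2.1
  have hV : WZ lg pr θ.2.1 θ.2.2 k.2.1 k.2.2 T + wyv lg pr θ.2.1 k.2.1 T = pr.V T := by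
    unfold WZ
    simp only [hy, hx] at *
    omega
  have hy' : wyv lg pr θ.2.1 k.2.1 T ≡
      lg T (P.ell (j - P.d2) c k.2.1) + ((θ.2.1 ⟨T, hT2⟩).1 : ℕ) [MOD (q T - 1)] := by
    rw [hy]
    exact LevG2_mod _ _ _
  have h4 := h3.add hy'.symm
  rw [hV] at h4
  refine Nat.ModEq.trans ?_ h4
  have h5 : lg T (P.ell j c k.1) + lg T (P.ell (j - P.d2) c k.2.1) +
      (((θ.1 ⟨T, hT⟩).1 : ℕ) + ((θ.2.1 ⟨T, hT2⟩).1 : ℕ)) =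
      lg T (P.ell j c k.1) + ((θ.1 ⟨T, hT⟩).1 : ℕ) +
      (lg T (P.ell (j - P.d2) c k.2.1) + ((θ.2.1 ⟨T, hT2⟩).1 : ℕ)) := by ring
  rw [h5]

private theorem LevG2_r1 {P : Par} (h : P.OK) {q : ℕ → ℕ} {j m c : ℕ} (lg : ℕ → ℕ → ℕ)
    (pr : Pres P (fun T => q T - 1) j m c) (k : K3 P j)
    (θ : Th q j × Th q (j - P.d2) × Th q (j - P.d3)) (h1 : θ ∈ GG lg pr k) {T : ℕ}
    (hT : T < j) (hT2 : j - P.d2 ≤ T) :
    lg T (P.ell j c k.1) + ((θ.1 ⟨T, hT⟩).1 : ℕ) ≡ pr.V T [MOD (q T - 1)] := by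
  have h2 := ((mem_filter.1 h1).2.1 ⟨T, hT⟩).2.2
  have h3 : lg T (P.ell j c k.1) + ((θ.1 ⟨T, hT⟩).1 : ℕ) ≡
      WZ lg pr θ.2.1 θ.2.2 k.2.1 k.2.2 T [MOD (q T - 1)] := h2
  have hT3 : j - P.d3 ≤ T := by
    have := h.d23
    omega
  have hy : wyv lg pr θ.2.1 k.2.1 T = 0 := by
    unfold wyv
    rw [dif_neg (not_lt.2 hT2)]
  have hx : wxv lg pr θ.2.2 k.2.2 T = 0 := by
    unfold wxv
    rw [dif_neg (not_lt.2 hT3)]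
  have hV : WZ lg pr θ.2.1 θ.2.2 k.2.1 k.2.2 T = pr.V T := by
    unfold WZ
    rw [hy, hx]
    rfl
  rw [hV] at h3
  exact h3

theorem GG_cong {P : Par} (h : P.OK) {q : ℕ → ℕ} (hq : ∀ T, q T ∈ P.bin T) {j m c : ℕ}
    (hj : P.b0 + P.d3 ≤ j) (hc : c < P.Γ (j - P.d3)) (lg : ℕ → ℕ → ℕ)
    (hlg : ∀ T, IsLog (q T) (lg T)) (pr : Pres P (fun T => q T - 1) j m c) (k k' : K3 P j)
    (θ : Th q j × Th q (j - P.d2) × Th q (j - P.d3)) (h1 : θ ∈ GG lg pr k)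
    (h2 : θ ∈ GG lg pr k') :
    Cong3 P q j c k.1 k.2.1 k.2.2 k'.1 k'.2.1 k'.2.2 := by
  have hprime : ∀ T, (q T).Prime := fun T => (mem_filter.1 (hq T)).2
  have hn : ∀ T, 0 < q T - 1 := fun T => by
    have := (hprime T).two_le
    omega
  have hd := h.d23
  have hΓ : ∀ b b' : ℕ, b ≤ b' → P.Γ b ≤ P.Γ b' := by
    intro b b' hb
    unfold Par.Γ
    exact Nat.pow_le_pow_right (by norm_num) (Nat.pow_le_pow_left hb 3)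
  have hc2 : c < P.Γ (j - P.d2) := lt_of_lt_of_le hc (hΓ _ _ (by omega))
  have hc1 : c < P.Γ j := lt_of_lt_of_le hc (hΓ _ _ (by omega))
  have nz : ∀ (i : Fin (2 ^ P.ν j)) (T : ℕ), T < j → ¬ q T ∣ P.ell j c i := fun i T hT =>
    not_dvd_ell P h q hq (by omega) hc1 i.2 hT
  have ny : ∀ (i : Fin (2 ^ P.ν (j - P.d2))) (T : ℕ), T < j - P.d2 →
      ¬ q T ∣ P.ell (j - P.d2) c i := fun i T hT =>
    not_dvd_ell P h q hq (by omega) hc2 i.2 hT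
  have nx : ∀ (i : Fin (2 ^ P.ν (j - P.d3))) (T : ℕ), T < j - P.d3 →
      ¬ q T ∣ P.ell (j - P.d3) c i := fun i T hT =>
    not_dvd_ell P h q hq (by omega) hc i.2 hT
  refine ⟨?_, ?_, ?_⟩
  · intro T hT3
    have hT : T < j := by omega
    have hT2 : T < j - P.d2 := by omega
    have e1 := LevG2_r3 h lg pr k θ h1 (hn T) hT hT2 hT3
    have e2 := LevG2_r3 h lg pr k' θ h2 (hn T) hT hT2 hT3
    exact LevG2_log3 (hprime T) (hlg T) (nz _ T hT) (ny _ T hT2) (nx _ T hT3) (nz _ T hT)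
      (ny _ T hT2) (nx _ T hT3) (Nat.ModEq.add_right_cancel' _ (e1.trans e2.symm))
  · intro T hT3 hT2
    have hT : T < j := by omega
    have e1 := LevG2_r2 h lg pr k θ h1 (hn T) hT hT2 hT3
    have e2 := LevG2_r2 h lg pr k' θ h2 (hn T) hT hT2 hT3
    exact LevG2_log2 (hprime T) (hlg T) (nz _ T hT) (ny _ T hT2) (nz _ T hT)
      (ny _ T hT2) (Nat.ModEq.add_right_cancel' _ (e1.trans e2.symm))
  · intro T hT2 hT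
    have e1 := LevG2_r1 h lg pr k θ h1 hT hT2
    have e2 := LevG2_r1 h lg pr k' θ h2 hT hT2
    exact ((hlg T _ _ (nz _ T hT) (nz _ T hT)).2).1
      (Nat.ModEq.add_right_cancel' _ (e1.trans e2.symm))

end Pool.Agent.SBP
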