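import Pool.Agent.Lib.SBP.Defs2

/-!
# SBP.LevNum : the numerical inequality of the second moment

PROOF.  Θ = |Th q j| |Th q by| |Th q bx|, |Th q b| = ∏_{T<b} 4 (q T - 1) (q T - 2 + 1 = q T - 1 as q T ≥ 2), E = |Ed P j| |Ed P by| |Ed P bx|,
|Ed P b| = ∏_{T<b} (32 * 2^(β T)) = 2^(5 b + tb b) ≤ 2^(5 j + tb j) (b ≤ j).  So Θ = 4^(j + by + bx) (∏_{T<j} (q T - 1)) g ≤ 2^(6 j) 2^(S j + 2 j) g
(q T - 1 ≤ 2^(s T + 2)), E ≤ 2^(15 j + 3 tb j), A ≥ 2^(Σν) / 8 (hypothesis 8 A ≥ 2^Σν).  First term: Θ E / (g A) ≤ 2^(8 j + S j + 15 j + 3 tb j + 3 - Σν) ≤ 1 by OK.en.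
Second term: Θ N / (g A^2) ≤ 2^(8 j + S j) N 64 / 2^(2 Σν).
-/

namespace Pool.Agent.SBP

open Finset

private theorem ln_q {P : Par} {q : ℕ → ℕ} (hq : ∀ T, q T ∈ P.bin T) (T : ℕ) :
    2 ≤ q T ∧ q T ≤ 2 ^ (P.s T + 2) := by
  have h1 := hq T
  simp only [Par.bin, mem_filter, mem_Ioc] at h1
  exact ⟨h1.2.two_le, h1.1.2⟩

private theorem ln_cardTh {P : Par} {q : ℕ → ℕ} (hq : ∀ T, q T ∈ P.bin T) (b : ℕ) :
    Fintype.card (Th q b) = 4 ^ b * ∏ T ∈ range b, (q T - 1) := by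
  have e : ∀ T : Fin b, Fintype.card (Fin (q T - 2 + 1) × Bool × Bool) = 4 * (q T - 1) := by
    intro T
    have := (ln_q hq T).1
    rw [Fintype.card_prod, Fintype.card_prod, Fintype.card_fin, Fintype.card_bool]
    omega
  rw [Fintype.card_pi, Finset.prod_congr rfl (fun T _ => e T), Finset.prod_mul_distrib,
    Finset.prod_const, Finset.card_univ, Fintype.card_fin, Finset.prod_range]

private theorem ln_cardEd (P : Par) (b : ℕ) : Fintype.card (Ed P b) = 2 ^ (5 * b + P.tb b) := by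
  have e : ∀ T : Fin b, Fintype.card (Fin 32 × Fin (2 ^ P.β T)) = 2 ^ 5 * 2 ^ P.β T := by
    intro T
    rw [Fintype.card_prod, Fintype.card_fin, Fintype.card_fin]
    norm_num
  rw [Fintype.card_pi, Finset.prod_congr rfl (fun T _ => e T), Finset.prod_mul_distrib,
    Finset.prod_const, Finset.card_univ, Fintype.card_fin, Finset.prod_pow_eq_pow_sum, pow_add,
    pow_mul, Par.tb, Finset.sum_range]

private theorem ln_tb (P : Par) {b j : ℕ} (h : b ≤ j) : P.tb b ≤ P.tb j :=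
  Finset.sum_le_sum_of_subset (Finset.range_mono h)

private theorem ln_Q {P : Par} {q : ℕ → ℕ} (hq : ∀ T, q T ∈ P.bin T) (j : ℕ) :
    ∏ T ∈ range j, (q T - 1) ≤ 2 ^ (P.S j + 2 * j) := by
  have h1 : ∏ T ∈ range j, (q T - 1) ≤ ∏ T ∈ range j, 2 ^ (P.s T + 2) := by
    apply Finset.prod_le_prod'
    intro T _
    have := (ln_q hq T).2
    omega
  refine h1.trans_eq ?_
  rw [Finset.prod_pow_eq_pow_sum, Finset.sum_add_distrib, Finset.sum_const, Finset.card_range,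
    Par.S, smul_eq_mul, mul_comm j 2]

private theorem ln_Qpos {P : Par} {q : ℕ → ℕ} (hq : ∀ T, q T ∈ P.bin T) (j : ℕ) :
    0 < ∏ T ∈ range j, (q T - 1) := by
  apply Finset.prod_pos
  intro T _
  have := (ln_q hq T).1
  omega

theorem lev_num {P : Par} (h : P.OK) {q : ℕ → ℕ} (hq : ∀ T, q T ∈ P.bin T) {j : ℕ}
    (hj : P.b0 + P.d3 ≤ j) (A N : ℕ)
    (hA : 2 ^ (P.ν j + P.ν (j - P.d2) + P.ν (j - P.d3)) ≤ 8 * A) :
    ((Fintype.card (Th q j) * Fintype.card (Th q (j - P.d2)) * Fintype.card (Th q (j - P.d3)) : ℕ)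
        : ℝ) *
      ((Fintype.card (Ed P j) * Fintype.card (Ed P (j - P.d2)) * Fintype.card (Ed P (j - P.d3)) : ℕ)
        : ℝ) /
      ((((∏ T ∈ range (j - P.d2), (q T - 1)) * ∏ T ∈ range (j - P.d3), (q T - 1) : ℕ) : ℝ) * A) +
    ((Fintype.card (Th q j) * Fintype.card (Th q (j - P.d2)) * Fintype.card (Th q (j - P.d3)) : ℕ)
        : ℝ) * N /
      ((((∏ T ∈ range (j - P.d2), (q T - 1)) * ∏ T ∈ range (j - P.d3), (q T - 1) : ℕ) : ℝ) *
        (A : ℝ) ^ 2) ≤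
    1 + 2 ^ (8 * j + P.S j + 6) * (N : ℝ) /
      2 ^ (2 * (P.ν j + P.ν (j - P.d2) + P.ν (j - P.d3))) := by
  set b1 := j - P.d2 with hb1
  set b2 := j - P.d3 with hb2
  have l1 : b1 ≤ j := Nat.sub_le _ _
  have l2 : b2 ≤ j := Nat.sub_le _ _
  have hen := h.en j hj
  set V := P.ν j + P.ν b1 + P.ν b2 with hV
  set Q0 := ∏ T ∈ range j, (q T - 1) with hQ0
  set Q1 := ∏ T ∈ range b1, (q T - 1) with hQ1
  set Q2 := ∏ T ∈ range b2, (q T - 1) with hQ2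
  have p1 : 0 < Q1 := ln_Qpos hq b1
  have p2 : 0 < Q2 := ln_Qpos hq b2
  have hApos : 0 < A := by
    rcases Nat.eq_zero_or_pos A with h0 | h0
    · rw [h0, mul_zero] at hA
      exact absurd hA (not_le.2 (pow_pos (by norm_num) _))
    · exact h0
  have hF : 4 ^ (j + b1 + b2) * Q0 ≤ 2 ^ (8 * j + P.S j) := by
    have e1 : (4 : ℕ) ^ (j + b1 + b2) ≤ 2 ^ (6 * j) := by
      have e2 : (4 : ℕ) = 2 ^ 2 := by norm_num
      rw [e2, ← pow_mul]
      exact Nat.pow_le_pow_right (by norm_num) (by omega)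
    calc 4 ^ (j + b1 + b2) * Q0 ≤ 2 ^ (6 * j) * 2 ^ (P.S j + 2 * j) :=
          Nat.mul_le_mul e1 (ln_Q hq j)
      _ = 2 ^ (8 * j + P.S j) := by
          rw [← pow_add]
          congr 1
          omega
  have hT : Fintype.card (Th q j) * Fintype.card (Th q b1) * Fintype.card (Th q b2) =
      (4 ^ (j + b1 + b2) * Q0) * (Q1 * Q2) := by
    rw [ln_cardTh hq, ln_cardTh hq, ln_cardTh hq, pow_add, pow_add]
    ring
  have hE : Fintype.card (Ed P j) * Fintype.card (Ed P b1) * Fintype.card (Ed P b2) ≤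
      2 ^ (15 * j + 3 * P.tb j) := by
    rw [ln_cardEd, ln_cardEd, ln_cardEd, ← pow_add, ← pow_add]
    apply Nat.pow_le_pow_right (by norm_num)
    have t1 := ln_tb P l1
    have t2 := ln_tb P l2
    omega
  have hFE : (4 ^ (j + b1 + b2) * Q0) *
      (Fintype.card (Ed P j) * Fintype.card (Ed P b1) * Fintype.card (Ed P b2)) ≤ A := by
    have e1 : 8 * ((4 ^ (j + b1 + b2) * Q0) *
        (Fintype.card (Ed P j) * Fintype.card (Ed P b1) * Fintype.card (Ed P b2))) ≤ 8 * A := by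
      calc 8 * ((4 ^ (j + b1 + b2) * Q0) *
            (Fintype.card (Ed P j) * Fintype.card (Ed P b1) * Fintype.card (Ed P b2))) ≤
            2 ^ 3 * (2 ^ (8 * j + P.S j) * 2 ^ (15 * j + 3 * P.tb j)) :=
            Nat.mul_le_mul (by norm_num) (Nat.mul_le_mul hF hE)
        _ = 2 ^ (P.S j + 23 * j + 3 + 3 * P.tb j) := by
            rw [← pow_add, ← pow_add]
            congr 1
            omega
        _ ≤ 2 ^ V := Nat.pow_le_pow_right (by norm_num) hen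
        _ ≤ 8 * A := hA
    omega
  rw [hT]
  set F := 4 ^ (j + b1 + b2) * Q0 with hFdef
  set E := Fintype.card (Ed P j) * Fintype.card (Ed P b1) * Fintype.card (Ed P b2) with hEdef
  have hg : ((Q1 * Q2 : ℕ) : ℝ) ≠ 0 := by
    exact_mod_cast (Nat.mul_pos p1 p2).ne'
  have hAr : (0 : ℝ) < A := by exact_mod_cast hApos
  have t1 : ((F * (Q1 * Q2) : ℕ) : ℝ) * (E : ℝ) / (((Q1 * Q2 : ℕ) : ℝ) * A) ≤ 1 := by
    have e1 : ((F * (Q1 * Q2) : ℕ) : ℝ) * (E : ℝ) =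
        ((Q1 * Q2 : ℕ) : ℝ) * ((F * E : ℕ) : ℝ) := by
      push_cast
      ring
    rw [e1, mul_div_mul_left _ _ hg, div_le_one hAr]
    exact_mod_cast hFE
  have t2 : ((F * (Q1 * Q2) : ℕ) : ℝ) * N / (((Q1 * Q2 : ℕ) : ℝ) * (A : ℝ) ^ 2) ≤
      2 ^ (8 * j + P.S j + 6) * (N : ℝ) / 2 ^ (2 * V) := by
    have e1 : ((F * (Q1 * Q2) : ℕ) : ℝ) * (N : ℝ) =
        ((Q1 * Q2 : ℕ) : ℝ) * ((F * N : ℕ) : ℝ) := by
      push_cast
      ring
    rw [e1, mul_div_mul_left _ _ hg, div_le_div_iff₀ (by positivity) (by positivity)]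
    have e2 : (2 : ℕ) ^ (2 * V) ≤ 2 ^ 6 * A ^ 2 := by
      calc (2 : ℕ) ^ (2 * V) = 2 ^ V * 2 ^ V := by rw [two_mul, pow_add]
        _ ≤ (8 * A) * (8 * A) := Nat.mul_le_mul hA hA
        _ = 2 ^ 6 * A ^ 2 := by ring
    have e3 : F * N * 2 ^ (2 * V) ≤ 2 ^ (8 * j + P.S j + 6) * N * A ^ 2 := by
      calc F * N * 2 ^ (2 * V) ≤ 2 ^ (8 * j + P.S j) * N * (2 ^ 6 * A ^ 2) :=
            Nat.mul_le_mul (Nat.mul_le_mul hF le_rfl) e2
        _ = 2 ^ (8 * j + P.S j + 6) * N * A ^ 2 := by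
            rw [pow_add 2 (8 * j + P.S j) 6]
            ring
    exact_mod_cast e3
  exact add_le_add t1 t2

end Pool.Agent.SBP
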