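import Pool.Agent.Lib.SBP.SecMom
import Pool.Agent.Lib.SBP.Cover
import Pool.Agent.Lib.SBP.LevG1
import Pool.Agent.Lib.SBP.LevG2
import Pool.Agent.Lib.SBP.LevCov
import Pool.Agent.Lib.SBP.LevNum
import Pool.Agent.Lib.SBP.Pair

/-!
# SBP.Level : for one colour c a number m of level j is covered with probability ≥ pj

PROOF.  n T = q T - 1, so 2^(s T) ≤ n T ≤ 2^(s T + 2).  Let pr be a Pres (exists_pres).  second_moment with Θz = Th q j, Iz = Fin (2^ν j), Ez = Ed P j, ..., A := product of the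
three sets of survivors {k | ¬ Bad}, G := GG lg pr, F := FF lg pr, PY := PYv pr, PX := PXv pr, g := the product in GG_card (> 0), N := energy P q j c, B := the filter of ¬ cov.
|A| : by GoodQ.bad (applied to the finset of the bad k of one block, as a finset of ℕ: image under Fin.val) every set of survivors has at least half of the
elements, so 2^Σν ≤ 8 |A| and A is nonempty.  h1: GG_card.  h2: GG_cong and triple.  h3: the pairs inject into the set counted by energy (k ↦ values; GG_cong for a common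
element of GG k and GG k').  hX: lev_num, Xb := 1 + 2^(8j+S+6) energy / 2^(2Σν), so 1 / Xb = pj.  hB: GG_cov.
-/

namespace Pool.Agent.SBP

open Finset

/-- lower bound for the probability of success with colour c at level j -/
noncomputable def pj (P : Par) (q : ℕ → ℕ) (j c : ℕ) : ℝ :=
  1 / (1 + 2 ^ (8 * j + P.S j + 6) * (energy P q j c : ℝ) /
    2 ^ (2 * (P.ν j + P.ν (j - P.d2) + P.ν (j - P.d3))))

open Classical in
private lemma Level_surv (P : Par) (q : ℕ → ℕ) (hG : GoodQ P q) (b c : ℕ) (hb : P.b0 ≤ b)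
    (hc : c < P.Γ b) :
    2 ^ P.ν b ≤ 2 * ((univ : Finset (Fin (2 ^ P.ν b))).filter
    (fun k : Fin (2 ^ P.ν b) => ¬ Bad P q b c k.val)).card := by
  have h1 := hG.bad b hb c hc
    (((univ : Finset (Fin (2 ^ P.ν b))).filter
      (fun k : Fin (2 ^ P.ν b) => Bad P q b c k.val)).image Fin.val) (by
      intro k hk
      obtain ⟨k', hk', rfl⟩ := Finset.mem_image.1 hk
      exact ⟨k'.2, (Finset.mem_filter.1 hk').2⟩)
  rw [Finset.card_image_of_injective _ Fin.val_injective] at h1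
  have h2 := Finset.card_filter_add_card_filter_not (s := (univ : Finset (Fin (2 ^ P.ν b))))
    (fun k : Fin (2 ^ P.ν b) => Bad P q b c k.val)
  rw [Finset.card_univ, Fintype.card_fin] at h2
  omega

private lemma Level_mem {α : Type*} {p : α → Prop} (i : DecidablePred p) {s : Finset α} {a : α} :
    a ∈ @Finset.filter α p i s ↔ a ∈ s ∧ p a := Finset.mem_filter

private lemma Level_Γ (P : Par) {b b' : ℕ} (h : b ≤ b') : P.Γ b ≤ P.Γ b' :=
  Nat.pow_le_pow_right (by norm_num) (Nat.pow_le_pow_left h 3)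

open Classical in
theorem level (P : Par) (h : P.OK) (q : ℕ → ℕ) (hG : GoodQ P q) (lg : ℕ → ℕ → ℕ)
    (hlg : ∀ T, IsLog (q T) (lg T)) (j m c : ℕ) (hj : P.b0 + P.d3 ≤ j)
    (hm1 : 2 ^ P.hh (j - 1) ≤ m) (hm2 : m < 2 ^ P.hh j) (hc : c < P.Γ (j - P.d3)) :
    (((univ : Finset (Yb P q j × Yb P q (j - P.d2) × Yb P q (j - P.d3))).filter
      (fun ω => ¬ cov P q lg j m c ω.1 ω.2.1 ω.2.2)).card : ℝ) ≤
    (1 - pj P q j c) * (Fintype.card (Yb P q j × Yb P q (j - P.d2) × Yb P q (j - P.d3)) : ℝ) := by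
  have hbin : ∀ T, 2 ^ P.s T < q T ∧ q T ≤ 2 ^ (P.s T + 2) := by
    intro T
    have h1 := hG.mem T
    unfold Par.bin at h1
    exact Finset.mem_Ioc.1 (Finset.mem_filter.1 h1).1
  obtain ⟨pr⟩ := exists_pres P h (fun T => q T - 1)
    (fun T => by have := (hbin T).1; show 2 ^ P.s T ≤ q T - 1; omega)
    (fun T => by have := (hbin T).2; show q T - 1 ≤ _; omega) j m c hj hm1 hm2 hc
  have hd23 := h.d23
  have hc2 : c < P.Γ (j - P.d2) := lt_of_lt_of_le hc (Level_Γ P (by omega))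
  have hc1 : c < P.Γ j := lt_of_lt_of_le hc (Level_Γ P (by omega))
  have sz := Level_surv P q hG j c (by omega) hc1
  have sy := Level_surv P q hG (j - P.d2) c (by omega) hc2
  have sx := Level_surv P q hG (j - P.d3) c (by omega) hc
  set Az := (univ : Finset (Fin (2 ^ P.ν j))).filter
    (fun k : Fin (2 ^ P.ν j) => ¬ Bad P q j c k.val) with hAz
  set Ay := (univ : Finset (Fin (2 ^ P.ν (j - P.d2)))).filter
    (fun k : Fin (2 ^ P.ν (j - P.d2)) => ¬ Bad P q (j - P.d2) c k.val) with hAy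
  set Ax := (univ : Finset (Fin (2 ^ P.ν (j - P.d3)))).filter
    (fun k : Fin (2 ^ P.ν (j - P.d3)) => ¬ Bad P q (j - P.d3) c k.val) with hAx
  have hAc : (Az ×ˢ Ay ×ˢ Ax).card = Az.card * (Ay.card * Ax.card) := by
    rw [Finset.card_product, Finset.card_product]
  have h8 : 2 ^ (P.ν j + P.ν (j - P.d2) + P.ν (j - P.d3)) ≤ 8 * (Az ×ˢ Ay ×ˢ Ax).card := by
    rw [hAc, pow_add, pow_add]
    calc _ ≤ (2 * Az.card) * (2 * Ay.card) * (2 * Ax.card) :=
          Nat.mul_le_mul (Nat.mul_le_mul sz sy) sx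
      _ = _ := by ring
  have hAn : (Az ×ˢ Ay ×ˢ Ax).Nonempty := by
    rw [← Finset.card_pos]
    have : 0 < 2 ^ (P.ν j + P.ν (j - P.d2) + P.ν (j - P.d3)) := by positivity
    omega
  have hmem : ∀ k ∈ Az ×ˢ Ay ×ˢ Ax, ¬ Bad P q j c k.1 ∧ ¬ Bad P q (j - P.d2) c k.2.1 ∧
      ¬ Bad P q (j - P.d3) c k.2.2 := by
    intro k hk
    obtain ⟨h1, h2⟩ := Finset.mem_product.1 hk
    obtain ⟨h2, h3⟩ := Finset.mem_product.1 h2
    exact ⟨(Finset.mem_filter.1 h1).2, (Finset.mem_filter.1 h2).2, (Finset.mem_filter.1 h3).2⟩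
  have hg : 0 < (∏ T ∈ range (j - P.d2), (q T - 1)) * ∏ T ∈ range (j - P.d3), (q T - 1) := by
    have h1 : ∀ T, 0 < q T - 1 := by
      intro T
      have h2 := (hbin T).1
      have h3 : 0 < 2 ^ P.s T := by positivity
      omega
    exact Nat.mul_pos (Finset.prod_pos fun T _ => h1 T) (Finset.prod_pos fun T _ => h1 T)
  refine second_moment (Az ×ˢ Ay ×ˢ Ax) hAn (fun k => GG lg pr k) (fun θ k => FF lg pr θ k)
    (PYv pr) (PXv pr) _ hg (fun k _ => GG_card h hG.mem lg pr k) ?_ (energy P q j c) ?_ _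
    (lev_num h hG.mem hj _ _ h8) _ ?_
  · intro k hk k' hk' hne hsh
    rw [Finset.disjoint_left]
    intro θ h1 h2
    have hC := GG_cong h hG.mem hj hc lg hlg pr k k' θ h1 h2
    obtain ⟨b1, b2, b3⟩ := hmem k hk
    have ht := triple P h q hG.mem hj hc k.1.2 k.2.1.2 k.2.2.2 k'.1.2 k'.2.1.2 k'.2.2.2 b1 b2 hC
      (by
        rcases hsh with h3 | h3 | h3
        · exact Or.inl (by rw [h3])
        · exact Or.inr (Or.inl (by rw [h3]))
        · exact Or.inr (Or.inr (by rw [h3])))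
    exact hne (Prod.ext (Fin.ext ht.1) (Prod.ext (Fin.ext ht.2.1) (Fin.ext ht.2.2)))
  · unfold energy
    refine Finset.card_le_card_of_injOn (fun p =>
      (((p.1.1 : ℕ), (p.1.2.1 : ℕ), (p.1.2.2 : ℕ)), ((p.2.1 : ℕ), (p.2.2.1 : ℕ), (p.2.2.2 : ℕ))))
      ?_ ?_
    · intro p hp
      have hp' := Finset.mem_coe.1 hp
      obtain ⟨h1, h2, h3, h4, h5⟩ := (Level_mem _).1 hp'
      rw [Finset.not_disjoint_iff] at h5
      obtain ⟨θ, h6, h7⟩ := h5
      have hC := GG_cong h hG.mem hj hc lg hlg pr p.1 p.2 θ h6 h7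
      refine Finset.mem_coe.2 (Finset.mem_filter.2 ⟨?_, ?_, ?_, ?_, hC⟩)
      · simp only [Finset.mem_product, Finset.mem_range]
        exact ⟨⟨p.1.1.2, p.1.2.1.2, p.1.2.2.2⟩, ⟨p.2.1.2, p.2.2.1.2, p.2.2.2.2⟩⟩
      · exact fun h8 => h2 (Fin.ext h8)
      · exact fun h8 => h3 (Fin.ext h8)
      · exact fun h8 => h4 (Fin.ext h8)
    · intro p _ p' _ hpp
      simp only [Prod.mk.injEq] at hpp
      obtain ⟨⟨e1, e2, e3⟩, e4, e5, e6⟩ := hpp
      exact Prod.ext (Prod.ext (Fin.ext e1) (Prod.ext (Fin.ext e2) (Fin.ext e3)))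
        (Prod.ext (Fin.ext e4) (Prod.ext (Fin.ext e5) (Fin.ext e6)))
  · intro ω hω k hk hkG hz hy hx
    obtain ⟨b1, b2, b3⟩ := hmem k hk
    exact (Finset.mem_filter.1 hω).2
      (GG_cov h hG.mem hj hc lg pr k b1 b2 b3 ω.1 ω.2.1 ω.2.2 hkG hz hy hx)

end Pool.Agent.SBP
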