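import Pool.Agent.Lib.SBP.BadExp
import Pool.Agent.Lib.SBP.EnExp
import Pool.Agent.Lib.SBP.Compact

/-!
# SBP.ModSel : good moduli exist

PROOF.  STEP 1: for every J there is q ∈ QJ P J (nonempty by bin_nonempty) with
 (B) 2 nb P (ext q) b < 2^(ν b) for b0 ≤ b ≤ J, and (E) (Σ_c energy P (ext q) j c) 2^(S j) < 2^(j + 4 + ...) for b0 + d3 ≤ j ≤ J:
 otherwise for every q some of the nonnegative real numbers 2 nb / 2^(ν b), (Σ_c energy) 2^(S j) / 2^(j+4+...) is ≥ 1, so their sum over b, j is ≥ 1; the average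
 over q of the sum is ≤ Σ_b 2 / 2^(b+5) + Σ_j 1 / 2^(j+4) < 1 by bad_exp and en_exp (b, j ≥ b0 ≥ 1): contradiction.
STEP 2: compact_choice with ι = ℕ, A T = {x // x ∈ P.bin T} (finite), D J = q_J for T < J, any element of bin T for T ≥ J.  For b (or j) take F = range b, n0 = b: there is
J ≥ b with q_J = q on T < b.  Bad P q b c k, nb P q b, energy P q j c depend only on q T for T < b (resp. j), because Cong q l b and Cong3 P q j only use T < b, T < j.
So (B), (E) hold for q; (B) gives GoodQ.bad: a finset s of bad k (one colour c) is contained in the filter of that colour, whose card is ≤ nb.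
-/

namespace Pool.Agent.SBP

open Finset

private theorem ModSel_cong {q q' : ℕ → ℕ} {b l : ℕ} (hl : l < b) (hq : ∀ T < b, q T = q' T)
    {x1 x2 x3 x4 : ℕ} (h : Cong q l b x1 x2 x3 x4) : Cong q' l b x1 x2 x3 x4 := by
  refine ⟨fun T hT => ?_, fun T h1 h2 => ?_⟩
  · rw [← hq T (by omega)]; exact h.1 T hT
  · rw [← hq T h2]; exact h.2 T h1 h2

private theorem ModSel_bad {P : Par} {q q' : ℕ → ℕ} {b c k : ℕ} (hq : ∀ T < b, q T = q' T)
    (h : Bad P q b c k) : Bad P q' b c k := by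
  obtain ⟨l, h1, h2, h3, c', hc', k3, hk3, h4, k2, hk2, k4, hk4, h5⟩ := h
  exact ⟨l, h1, h2, h3, c', hc', k3, hk3, h4, k2, hk2, k4, hk4, ModSel_cong h2 hq h5⟩

private theorem ModSel_cong3 {P : Par} {q q' : ℕ → ℕ} {j c : ℕ} (hq : ∀ T < j, q T = q' T)
    {kz ky kx kz' ky' kx' : ℕ} (h : Cong3 P q j c kz ky kx kz' ky' kx') :
    Cong3 P q' j c kz ky kx kz' ky' kx' := by
  refine ⟨fun T hT => ?_, fun T h1 h2 => ?_, fun T h1 h2 => ?_⟩
  · rw [← hq T (by omega)]; exact h.1 T hT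
  · rw [← hq T (by omega)]; exact h.2.1 T h1 h2
  · rw [← hq T h2]; exact h.2.2 T h1 h2

private theorem ModSel_energy {P : Par} {q q' : ℕ → ℕ} {j c : ℕ} (hq : ∀ T < j, q T = q' T) :
    energy P q j c ≤ energy P q' j c := by
  classical
  unfold energy
  apply Finset.card_le_card
  intro p hp
  rw [Finset.mem_filter] at hp ⊢
  exact ⟨hp.1, hp.2.1, hp.2.2.1, hp.2.2.2.1, ModSel_cong3 hq hp.2.2.2.2⟩

private theorem ModSel_geo (J : ℕ) : ∑ b ∈ range (J + 1), (1 / 2 : ℝ) ^ (b + 4) ≤ 1 / 8 := by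
  have h := sum_geometric_two_le (J + 1)
  have h2 : ∑ b ∈ range (J + 1), (1 / 2 : ℝ) ^ (b + 4) =
      (1 / 16) * ∑ b ∈ range (J + 1), (1 / 2 : ℝ) ^ b := by
    rw [Finset.mul_sum]
    exact Finset.sum_congr rfl fun b _ => by rw [pow_add]; norm_num; ring
  rw [h2]
  linarith

private theorem ModSel_step (P : Par) (h : P.OK) (J : ℕ) : ∃ q ∈ QJ P J,
    (∀ b, P.b0 ≤ b → b ≤ J → 2 * nb P (ext q) b ≤ 2 ^ P.ν b) ∧
    (∀ j, P.b0 + P.d3 ≤ j → j ≤ J →
      (∑ c ∈ range (P.Γ (j - P.d3)), energy P (ext q) j c) * 2 ^ P.S j ≤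
      2 ^ (j + 4 + (j - P.d3) ^ 3 + 2 * (P.ν j + P.ν (j - P.d2) + P.ν (j - P.d3)) + P.Le j)) := by
  have hne : (QJ P J).Nonempty := Fintype.piFinset_nonempty.2 fun T => bin_nonempty P h T
  have hcard : (0 : ℝ) < ((QJ P J).card : ℝ) := by exact_mod_cast hne.card_pos
  set A : (Fin J → ℕ) → ℕ → ℝ := fun q b => if P.b0 ≤ b then
    2 * (nb P (ext q) b : ℝ) / 2 ^ P.ν b else 0 with hA
  set K : ℕ → ℕ := fun j => (j - P.d3) ^ 3 +
    2 * (P.ν j + P.ν (j - P.d2) + P.ν (j - P.d3)) + P.Le j with hK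
  set B : (Fin J → ℕ) → ℕ → ℝ := fun q j => if P.b0 + P.d3 ≤ j then
    ((∑ c ∈ range (P.Γ (j - P.d3)), energy P (ext q) j c : ℕ) : ℝ) * 2 ^ P.S j /
      2 ^ (j + 4 + K j) else 0 with hB
  have hA0 : ∀ q b, 0 ≤ A q b := fun q b => by
    simp only [hA]; split_ifs
    · positivity
    · exact le_rfl
  have hB0 : ∀ q b, 0 ≤ B q b := fun q b => by
    simp only [hB]; split_ifs
    · positivity
    · exact le_rfl
  have hAs : ∀ b ∈ range (J + 1), ∑ q ∈ QJ P J, A q b ≤ (1 / 2 : ℝ) ^ (b + 4) *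
      ((QJ P J).card : ℝ) := by
    intro b hb
    rw [Finset.mem_range] at hb
    by_cases hb0 : P.b0 ≤ b
    · have h1 := bad_exp P h J b hb0 (by omega)
      have h2 : (∑ q ∈ QJ P J, (nb P (ext q) b : ℝ)) * 2 ^ (b + 5) ≤
          2 ^ P.ν b * ((QJ P J).card : ℝ) := by exact_mod_cast h1
      have h3 : ∑ q ∈ QJ P J, A q b = 2 * (∑ q ∈ QJ P J, (nb P (ext q) b : ℝ)) / 2 ^ P.ν b := by
        simp only [hA, if_pos hb0]
        rw [← Finset.sum_div, ← Finset.mul_sum]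
      have h4 : (0 : ℝ) < 2 ^ P.ν b := by positivity
      have h5 : (1 / 2 : ℝ) ^ (b + 4) * 2 ^ (b + 5) = 2 := by
        rw [show b + 5 = (b + 4) + 1 by omega, pow_succ (2 : ℝ) (b + 4), ← mul_assoc, ← mul_pow]
        norm_num
      have h6 : (0 : ℝ) < 2 ^ (b + 5) := by positivity
      rw [h3, div_le_iff₀ h4]
      refine le_of_mul_le_mul_right ?_ h6
      calc 2 * (∑ q ∈ QJ P J, (nb P (ext q) b : ℝ)) * 2 ^ (b + 5)
          = 2 * ((∑ q ∈ QJ P J, (nb P (ext q) b : ℝ)) * 2 ^ (b + 5)) := by ring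
        _ ≤ 2 * (2 ^ P.ν b * ((QJ P J).card : ℝ)) := by linarith
        _ = ((1 / 2 : ℝ) ^ (b + 4) * 2 ^ (b + 5)) * (2 ^ P.ν b * ((QJ P J).card : ℝ)) := by
            rw [h5]
        _ = (1 / 2 : ℝ) ^ (b + 4) * ((QJ P J).card : ℝ) * 2 ^ P.ν b * 2 ^ (b + 5) := by ring
    · have h3 : ∑ q ∈ QJ P J, A q b = 0 := by
        simp only [hA, if_neg hb0, Finset.sum_const_zero]
      rw [h3]; positivity
  have hBs : ∀ j ∈ range (J + 1), ∑ q ∈ QJ P J, B q j ≤ (1 / 2 : ℝ) ^ (j + 4) *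
      ((QJ P J).card : ℝ) := by
    intro j hj
    rw [Finset.mem_range] at hj
    by_cases hj0 : P.b0 + P.d3 ≤ j
    · have h1 := en_exp P h J j hj0 (by omega)
      have h2 : ((∑ q ∈ QJ P J, ∑ c ∈ range (P.Γ (j - P.d3)), energy P (ext q) j c : ℕ) : ℝ) *
          2 ^ P.S j ≤ 2 ^ K j * ((QJ P J).card : ℝ) := by exact_mod_cast h1
      have h3 : ∑ q ∈ QJ P J, B q j =
          ((∑ q ∈ QJ P J, ∑ c ∈ range (P.Γ (j - P.d3)), energy P (ext q) j c : ℕ) : ℝ) *
          2 ^ P.S j / 2 ^ (j + 4 + K j) := by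
        simp only [hB, if_pos hj0]
        rw [← Finset.sum_div, ← Finset.sum_mul]
        push_cast
        rfl
      have h4 : (0 : ℝ) < 2 ^ (j + 4 + K j) := by positivity
      rw [h3, div_le_iff₀ h4]
      refine h2.trans (le_of_eq ?_)
      rw [pow_add (2 : ℝ) (j + 4) (K j)]
      have h5 : (1 / 2 : ℝ) ^ (j + 4) * 2 ^ (j + 4) = 1 := by
        rw [← mul_pow]; norm_num
      calc (2 : ℝ) ^ K j * ((QJ P J).card : ℝ)
          = ((1 / 2 : ℝ) ^ (j + 4) * 2 ^ (j + 4)) * (2 ^ K j * ((QJ P J).card : ℝ)) := by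
            rw [h5, one_mul]
        _ = _ := by ring
    · have h3 : ∑ q ∈ QJ P J, B q j = 0 := by
        simp only [hB, if_neg hj0, Finset.sum_const_zero]
      rw [h3]; positivity
  have htot : ∑ q ∈ QJ P J, (∑ b ∈ range (J + 1), A q b + ∑ j ∈ range (J + 1), B q j) <
      ∑ q ∈ QJ P J, (1 : ℝ) := by
    rw [Finset.sum_add_distrib, Finset.sum_comm, Finset.sum_comm (s := QJ P J) (f := B),
      Finset.sum_const, nsmul_eq_mul, mul_one]
    have hA2 := Finset.sum_le_sum hAs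
    have hB2 := Finset.sum_le_sum hBs
    rw [← Finset.sum_mul] at hA2 hB2
    have hg := ModSel_geo J
    have h1 : (∑ b ∈ range (J + 1), (1 / 2 : ℝ) ^ (b + 4)) * ((QJ P J).card : ℝ) ≤
        1 / 8 * ((QJ P J).card : ℝ) := by gcongr
    linarith
  obtain ⟨q, hq, hlt⟩ := Finset.exists_lt_of_sum_lt htot
  have hAq : ∀ b ∈ range (J + 1), A q b < 1 := fun b hb => by
    have h1 := Finset.single_le_sum (f := A q) (fun b _ => hA0 q b) hb
    have h2 : 0 ≤ ∑ j ∈ range (J + 1), B q j := Finset.sum_nonneg fun j _ => hB0 q j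
    linarith
  have hBq : ∀ b ∈ range (J + 1), B q b < 1 := fun b hb => by
    have h1 := Finset.single_le_sum (f := B q) (fun b _ => hB0 q b) hb
    have h2 : 0 ≤ ∑ j ∈ range (J + 1), A q j := Finset.sum_nonneg fun j _ => hA0 q j
    linarith
  refine ⟨q, hq, fun b hb hbJ => ?_, fun j hj hjJ => ?_⟩
  · have h1 := hAq b (Finset.mem_range.2 (by omega))
    simp only [hA, if_pos hb] at h1
    rw [div_lt_one (by positivity)] at h1
    exact_mod_cast h1.le
  · have h1 := hBq j (Finset.mem_range.2 (by omega))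
    simp only [hB, if_pos hj] at h1
    rw [div_lt_one (by positivity)] at h1
    have h2 : (∑ c ∈ range (P.Γ (j - P.d3)), energy P (ext q) j c) * 2 ^ P.S j ≤
        2 ^ (j + 4 + K j) := by exact_mod_cast h1.le
    rw [show j + 4 + (j - P.d3) ^ 3 + 2 * (P.ν j + P.ν (j - P.d2) + P.ν (j - P.d3)) + P.Le j =
      j + 4 + K j by simp only [hK]; omega]
    exact h2

theorem exists_goodQ (P : Par) (h : P.OK) : ∃ q : ℕ → ℕ, GoodQ P q := by
  classical
  choose Q hQ hQb hQe using ModSel_step P h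
  have hmem : ∀ J (T : Fin J), Q J T ∈ P.bin T := fun J T => (Fintype.mem_piFinset.1 (hQ J)) T
  let D : ∀ (_ : ℕ) (T : ℕ), {x // x ∈ P.bin T} := fun J T =>
    if hT : T < J then ⟨Q J ⟨T, hT⟩, hmem J ⟨T, hT⟩⟩
    else ⟨(bin_nonempty P h T).choose, (bin_nonempty P h T).choose_spec⟩
  obtain ⟨E, hE⟩ := compact_choice (A := fun T : ℕ => {x // x ∈ P.bin T}) D
  have key : ∀ b, ∃ J, b ≤ J ∧ ∀ T < b, ext (Q J) T = (E T : ℕ) := by
    intro b
    obtain ⟨J, hJ, hJ2⟩ := hE (range b) b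
    refine ⟨J, hJ, fun T hT => ?_⟩
    rw [← hJ2 T (Finset.mem_range.2 hT)]
    have hTJ : T < J := by omega
    simp only [D, ext, dif_pos hTJ]
  refine ⟨fun T => (E T : ℕ), fun T => (E T).2, ?_, ?_⟩
  · intro b hb c hc s hs
    obtain ⟨J, hJ, hJ2⟩ := key b
    have h1 := hQb J b hb hJ
    have h2 : s.card ≤ nb P (ext (Q J)) b := by
      unfold nb
      refine le_trans ?_ (Finset.single_le_sum (f := fun c =>
        ((range (2 ^ P.ν b)).filter (fun k => Bad P (ext (Q J)) b c k)).card)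
        (fun _ _ => Nat.zero_le _) (Finset.mem_range.2 hc))
      apply Finset.card_le_card
      intro k hk
      rw [Finset.mem_filter, Finset.mem_range]
      exact ⟨(hs k hk).1, ModSel_bad (fun T hT => (hJ2 T hT).symm) (hs k hk).2⟩
    omega
  · intro j hj
    obtain ⟨J, hJ, hJ2⟩ := key j
    refine le_trans ?_ (hQe J j hj hJ)
    refine Nat.mul_le_mul_right _ (Finset.sum_le_sum fun c _ => ?_)
    exact ModSel_energy fun T hT => (hJ2 T hT).symm

end Pool.Agent.SBP
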