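import Pool.Agent.Lib.SBP.Compact

/-!
# SBP.Select : choice of all data (independence of the colours, union bound, compactness)

PROOF.  STEP 1 (finite version).  Fix J and let C be > G j for all j ≤ J.  Sample space Π := (c : Fin C) → ((b : Fin (J+1)) → Y b), uniform.
For j0 ≤ j ≤ J and m ∈ Ms j let Fail(j, m) := {D | ∀ c < G j, ¬ cov j m c (D c j) (D c (j-d2)) (D c (j-d3))}.  It is a product set
(Fintype.card_piFinset): |Fail| / |Π| = ∏_{c < G j} φ_c, where φ_c = |{y : (b : Fin (J+1)) → Y b | ¬ cov j m c (y j) (y (j-d2)) (y (j-d3))}| / |∏ Y b|.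
MARGINALS: j, j - d2, j - d3 are three different indices < J + 1, so φ_c = |{ω : Y j × Y (j-d2) × Y (j-d3) | ¬ cov}| / (|Y j| |Y (j-d2)| |Y (j-d3)|)
(the map y ↦ (y j, y (j-d2), y (j-d3)) has fibres of the same size |∏ Y b| / (|Y j| |Y (j-d2)| |Y (j-d3)|): e.g. all fibres are in bijection by
Function.update at the three places; or count with Fintype.piFinset for every given triple).  So φ_c ≤ 1 - p j c and |Fail(j, m)| / |Π| ≤ ∏_{c<G j} (1 - p j c).
UNION: Σ_{j0 ≤ j ≤ J} Σ_{m ∈ Ms j} |Fail(j,m)| ≤ |Π| Σ_j (1/2)^(j+2) < |Π|, so some D lies in no Fail(j, m).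
STEP 2 (compactness).  Let D_J be such a D, extended to all (b, c) by arbitrary values; apply compact_choice with ι = ℕ × ℕ (b, c), A (b, c) = Y b.
For given j ≥ j0 take F = {j, j - d2, j - d3} × range (G j) and n0 = j: there is J ≥ j with D_J = E on F.
For m ∈ Ms j there is c < G j with cov j m c (D_J ...), hence with E.
-/

namespace Pool.Agent.SBP

open Finset

section marg

variable {ι : Type} [Fintype ι] [DecidableEq ι] {Z : ι → Type} [∀ i, Fintype (Z i)]

/-- the triple of coordinates -/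
def tri (a1 a2 a3 : ι) (y : ∀ i, Z i) : Z a1 × Z a2 × Z a3 := (y a1, y a2, y a3)

/-- change the three coordinates -/
def upd3 (a1 a2 a3 : ι) (y : ∀ i, Z i) (w : Z a1 × Z a2 × Z a3) : ∀ i, Z i :=
  Function.update (Function.update (Function.update y a1 w.1) a2 w.2.1) a3 w.2.2

theorem tri_upd3 {a1 a2 a3 : ι} (h12 : a1 ≠ a2) (h13 : a1 ≠ a3) (h23 : a2 ≠ a3)
    (y : ∀ i, Z i) (w : Z a1 × Z a2 × Z a3) : tri a1 a2 a3 (upd3 a1 a2 a3 y w) = w := by
  unfold tri upd3
  rw [Function.update_of_ne h13, Function.update_of_ne h12, Function.update_self,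
    Function.update_of_ne h23, Function.update_self, Function.update_self]

theorem upd3_upd3 {a1 a2 a3 : ι}
    (y : ∀ i, Z i) (w : Z a1 × Z a2 × Z a3) :
    upd3 a1 a2 a3 (upd3 a1 a2 a3 y w) (tri a1 a2 a3 y) = y := by
  funext i
  unfold tri upd3
  by_cases h3 : i = a3
  · subst h3
    rw [Function.update_self]
  · rw [Function.update_of_ne h3]
    by_cases h2 : i = a2
    · subst h2
      rw [Function.update_self]
    · rw [Function.update_of_ne h2]
      by_cases h1 : i = a1
      · subst h1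
        rw [Function.update_self]
      · rw [Function.update_of_ne h1, Function.update_of_ne h3, Function.update_of_ne h2,
          Function.update_of_ne h1]

open Classical in
theorem fib_card_eq {a1 a2 a3 : ι} (h12 : a1 ≠ a2) (h13 : a1 ≠ a3) (h23 : a2 ≠ a3)
    (w w' : Z a1 × Z a2 × Z a3) :
    ((univ : Finset (∀ i, Z i)).filter (fun y => tri a1 a2 a3 y = w)).card =
    ((univ : Finset (∀ i, Z i)).filter (fun y => tri a1 a2 a3 y = w')).card := by
  refine Finset.card_nbij' (fun y => upd3 a1 a2 a3 y w') (fun y => upd3 a1 a2 a3 y w) ?_ ?_ ?_ ?_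
  · intro y _
    simp only [Finset.coe_filter, Finset.mem_univ, true_and, Set.mem_ofPred_eq]
    exact tri_upd3 h12 h13 h23 y w'
  · intro y _
    simp only [Finset.coe_filter, Finset.mem_univ, true_and, Set.mem_ofPred_eq]
    exact tri_upd3 h12 h13 h23 y w
  · intro y hy
    simp only [Finset.coe_filter, Finset.mem_univ, true_and, Set.mem_ofPred_eq] at hy
    have := upd3_upd3 (a1 := a1) (a2 := a2) (a3 := a3) y w'
    rw [hy] at this
    exact this
  · intro y hy
    simp only [Finset.coe_filter, Finset.mem_univ, true_and, Set.mem_ofPred_eq] at hy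
    have := upd3_upd3 (a1 := a1) (a2 := a2) (a3 := a3) y w
    rw [hy] at this
    exact this

open Classical in
theorem marg_card {a1 a2 a3 : ι} (h12 : a1 ≠ a2) (h13 : a1 ≠ a3) (h23 : a2 ≠ a3)
    (S : Finset (Z a1 × Z a2 × Z a3)) :
    ((univ : Finset (∀ i, Z i)).filter (fun y => tri a1 a2 a3 y ∈ S)).card *
      Fintype.card (Z a1 × Z a2 × Z a3) = S.card * Fintype.card (∀ i, Z i) := by
  rcases isEmpty_or_nonempty (Z a1 × Z a2 × Z a3) with he | hne
  · have : S = ∅ := Finset.eq_empty_of_isEmpty S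
    subst this
    simp
  obtain ⟨w0⟩ := hne
  set N := ((univ : Finset (∀ i, Z i)).filter (fun y => tri a1 a2 a3 y = w0)).card with hN
  have h1 : ((univ : Finset (∀ i, Z i)).filter (fun y => tri a1 a2 a3 y ∈ S)).card = S.card * N := by
    rw [Finset.card_eq_sum_card_fiberwise (f := tri a1 a2 a3) (t := S)]
    · rw [Finset.sum_congr rfl (g := fun _ => N)]
      · simp
      · intro w hw
        rw [hN, ← fib_card_eq h12 h13 h23 w w0]
        congr 1
        ext y
        simp only [Finset.mem_filter, Finset.mem_univ, true_and]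
        constructor
        · rintro ⟨_, h⟩; exact h
        · intro h; exact ⟨h ▸ hw, h⟩
    · intro y hy
      simpa using hy
  have h2 : Fintype.card (∀ i, Z i) = Fintype.card (Z a1 × Z a2 × Z a3) * N := by
    rw [← Finset.card_univ (α := ∀ i, Z i),
      Finset.card_eq_sum_card_fiberwise (f := tri a1 a2 a3) (t := univ)]
    · rw [Finset.sum_congr rfl (g := fun _ => N)]
      · simp only [Finset.sum_const, smul_eq_mul, Finset.card_univ]
      · intro w _
        rw [hN, ← fib_card_eq h12 h13 h23 w w0]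
    · intro y _
      exact Finset.mem_coe.2 (Finset.mem_univ _)
  rw [h1, h2]
  ring

theorem marg_card' {a1 a2 a3 : ι} (h12 : a1 ≠ a2) (h13 : a1 ≠ a3) (h23 : a2 ≠ a3)
    (P : Z a1 → Z a2 → Z a3 → Prop) [∀ u v w, Decidable (P u v w)] :
    ((univ : Finset (∀ i, Z i)).filter (fun y => P (y a1) (y a2) (y a3))).card *
      Fintype.card (Z a1 × Z a2 × Z a3) =
    ((univ : Finset (Z a1 × Z a2 × Z a3)).filter (fun w => P w.1 w.2.1 w.2.2)).card *
      Fintype.card (∀ i, Z i) := by
  classical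
  rw [← marg_card h12 h13 h23]
  congr 2
  ext y
  simp only [Finset.mem_filter, Finset.mem_univ, true_and, tri]

end marg

open Classical in
theorem select_fin {Y : ℕ → Type} [∀ b, Fintype (Y b)] [∀ b, Nonempty (Y b)] (d2 d3 j0 : ℕ)
    (h2 : 0 < d2) (h3 : d2 < d3) (hj0 : d3 ≤ j0) (Ms : ℕ → Finset ℕ) (G : ℕ → ℕ)
    (cov : ∀ j _m _c : ℕ, Y j → Y (j - d2) → Y (j - d3) → Prop) (p : ℕ → ℕ → ℝ)
    (hp0 : ∀ j, j0 ≤ j → ∀ c < G j, p j c ≤ 1)
    (hp : ∀ j, j0 ≤ j → ∀ m ∈ Ms j, ∀ c < G j,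
      (((univ : Finset (Y j × Y (j - d2) × Y (j - d3))).filter
        (fun ω => ¬ cov j m c ω.1 ω.2.1 ω.2.2)).card : ℝ) ≤
      (1 - p j c) * (Fintype.card (Y j × Y (j - d2) × Y (j - d3)) : ℝ))
    (hs : ∀ j, j0 ≤ j → ((Ms j).card : ℝ) * ∏ c ∈ range (G j), (1 - p j c) ≤ (1 / 2) ^ (j + 2))
    (J : ℕ) :
    ∃ D : ∀ b, ℕ → Y b, ∀ j, j0 ≤ j → j ≤ J → ∀ m ∈ Ms j, ∃ c < G j,
      cov j m c (D j c) (D (j - d2) c) (D (j - d3) c) := by
  set C := ∑ j ∈ range (J + 1), G j with hC
  have hGC : ∀ j ≤ J, G j ≤ C := fun j hj =>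
    Finset.single_le_sum (f := G) (fun _ _ => Nat.zero_le _) (Finset.mem_range.2 (by omega))
  let T := (b : Fin (J + 1)) → Y b
  have hfail : ∀ j, j0 ≤ j → (hjJ : j ≤ J) → ∀ m ∈ Ms j,
      (((univ : Finset (Fin C → T)).filter (fun D => ∀ c : Fin C, (c : ℕ) < G j →
        ¬ cov j m c (D c ⟨j, by omega⟩) (D c ⟨j - d2, by omega⟩) (D c ⟨j - d3, by omega⟩))).card : ℝ)
      ≤ (∏ c ∈ range (G j), (1 - p j c)) * (Fintype.card (Fin C → T) : ℝ) := by
    intro j hj hjJ m hm
    set B : Fin C → Finset T := fun c => if (c : ℕ) < G j then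
      (univ : Finset T).filter (fun y => ¬ cov j m c (y ⟨j, by omega⟩) (y ⟨j - d2, by omega⟩)
        (y ⟨j - d3, by omega⟩)) else univ with hB
    have e1 : ((univ : Finset (Fin C → T)).filter (fun D => ∀ c : Fin C, (c : ℕ) < G j →
        ¬ cov j m c (D c ⟨j, by omega⟩) (D c ⟨j - d2, by omega⟩) (D c ⟨j - d3, by omega⟩)))
        = Fintype.piFinset B := by
      ext D
      simp only [Finset.mem_filter, Finset.mem_univ, true_and, Fintype.mem_piFinset]
      refine forall_congr' fun c => ?_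
      rw [hB]
      by_cases hc : (c : ℕ) < G j
      · simp only [hc, if_true, Finset.mem_filter, Finset.mem_univ, true_and, forall_true_left]
      · simp only [hc, if_false, Finset.mem_univ, false_imp_iff]
    rw [e1, Fintype.card_piFinset, Nat.cast_prod]
    have hBc : ∀ c : Fin C, ((B c).card : ℝ) ≤
        (if (c : ℕ) < G j then (1 - p j c) else 1) * (Fintype.card T : ℝ) := by
      intro c
      by_cases hc : (c : ℕ) < G j
      · rw [hB]
        simp only [hc, if_true]
        have hn : (0 : ℝ) < (Fintype.card (Y j × Y (j - d2) × Y (j - d3)) : ℝ) := by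
          exact_mod_cast Fintype.card_pos
        have i12 : (⟨j, by omega⟩ : Fin (J + 1)) ≠ ⟨j - d2, by omega⟩ := by
          intro h; have := congrArg Fin.val h; simp only at this; omega
        have i13 : (⟨j, by omega⟩ : Fin (J + 1)) ≠ ⟨j - d3, by omega⟩ := by
          intro h; have := congrArg Fin.val h; simp only at this; omega
        have i23 : (⟨j - d2, by omega⟩ : Fin (J + 1)) ≠ ⟨j - d3, by omega⟩ := by
          intro h; have := congrArg Fin.val h; simp only at this; omega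
        have hm1 := marg_card' (Z := fun b : Fin (J + 1) => Y b) i12 i13 i23
          (fun u v w => ¬ cov j m c u v w)
        have hm2 := hp j hj m hm c hc
        have hm3 : ((((univ : Finset T).filter (fun y => ¬ cov j m c (y ⟨j, by omega⟩)
            (y ⟨j - d2, by omega⟩) (y ⟨j - d3, by omega⟩))).card : ℕ) : ℝ) *
            (Fintype.card (Y j × Y (j - d2) × Y (j - d3)) : ℝ) =
            ((((univ : Finset (Y j × Y (j - d2) × Y (j - d3))).filter
            (fun ω => ¬ cov j m c ω.1 ω.2.1 ω.2.2)).card : ℕ) : ℝ) * (Fintype.card T : ℝ) := by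
          have hm4 : ((univ : Finset T).filter (fun y => ¬ cov j m c (y ⟨j, by omega⟩)
            (y ⟨j - d2, by omega⟩) (y ⟨j - d3, by omega⟩))).card *
            (Fintype.card (Y j × Y (j - d2) × Y (j - d3))) =
            (((univ : Finset (Y j × Y (j - d2) × Y (j - d3))).filter
            (fun ω => ¬ cov j m c ω.1 ω.2.1 ω.2.2)).card) * (Fintype.card T) := hm1
          exact_mod_cast hm4
        have hT : (0 : ℝ) ≤ (Fintype.card T : ℝ) := Nat.cast_nonneg _
        refine le_of_mul_le_mul_right ?_ hn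
        rw [hm3]
        calc _ ≤ ((1 - p j c) * (Fintype.card (Y j × Y (j - d2) × Y (j - d3)) : ℝ)) *
              (Fintype.card T : ℝ) := mul_le_mul_of_nonneg_right hm2 hT
          _ = _ := by ring
      · rw [hB]
        simp only [hc, if_false, one_mul]
        rw [Finset.card_univ]
    calc (∏ c : Fin C, ((B c).card : ℝ))
        ≤ ∏ c : Fin C, ((if (c : ℕ) < G j then (1 - p j c) else 1) * (Fintype.card T : ℝ)) :=
          Finset.prod_le_prod (fun _ _ => Nat.cast_nonneg _) (fun c _ => hBc c)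
      _ = (∏ c : Fin C, (if (c : ℕ) < G j then (1 - p j c) else 1)) *
            (Fintype.card T : ℝ) ^ C := by
          rw [Finset.prod_mul_distrib]
          simp
      _ = (∏ c ∈ range (G j), (1 - p j c)) * (Fintype.card (Fin C → T) : ℝ) := by
          congr 1
          · rw [Finset.prod_range (fun c => if c < G j then (1 - p j c) else 1) |>.symm]
            rw [← Finset.prod_filter]
            congr 1
            ext c
            simp only [Finset.mem_filter, Finset.mem_range]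
            have := hGC j hjJ
            omega
          · rw [Fintype.card_fun, Fintype.card_fin]
            push_cast
            rfl
  have hpos : (0 : ℝ) < (Fintype.card (Fin C → T) : ℝ) := by
    have : Nonempty (Fin C → T) := inferInstance
    exact_mod_cast Fintype.card_pos
  -- union bound
  obtain ⟨D0, hD0⟩ : ∃ D0 : Fin C → T, ∀ j, j0 ≤ j → (hjJ : j ≤ J) → ∀ m ∈ Ms j,
      ¬ ∀ c : Fin C, (c : ℕ) < G j →
        ¬ cov j m c (D0 c ⟨j, by omega⟩) (D0 c ⟨j - d2, by omega⟩) (D0 c ⟨j - d3, by omega⟩) := by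
    by_contra hcon
    push Not at hcon
    -- every D0 fails at some (j, m)
    let Bad : ℕ → ℕ → Finset (Fin C → T) := fun j m => if h : j ≤ J then
      ((univ : Finset (Fin C → T)).filter (fun D => ∀ c : Fin C, (c : ℕ) < G j →
        ¬ cov j m c (D c ⟨j, by omega⟩) (D c ⟨j - d2, by omega⟩) (D c ⟨j - d3, by omega⟩)))
      else ∅
    have hsub : (univ : Finset (Fin C → T)) ⊆
        (Finset.Icc j0 J).biUnion (fun j => (Ms j).biUnion (fun m => Bad j m)) := by
      intro D _
      obtain ⟨j, hj, hjJ, m, hm, hc⟩ := hcon D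
      simp only [Finset.mem_biUnion, Finset.mem_Icc]
      refine ⟨j, ⟨hj, hjJ⟩, m, hm, ?_⟩
      simp only [Bad, hjJ, dif_pos, Finset.mem_filter, Finset.mem_univ, true_and]
      exact hc
    have hcard : (Fintype.card (Fin C → T) : ℝ) ≤
        ∑ j ∈ Finset.Icc j0 J, ∑ m ∈ Ms j, ((Bad j m).card : ℝ) := by
      have h1 := Finset.card_le_card hsub
      rw [Finset.card_univ] at h1
      have h2 := h1.trans Finset.card_biUnion_le
      have h3 : ∑ j ∈ Finset.Icc j0 J, ((Ms j).biUnion (fun m => Bad j m)).card ≤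
          ∑ j ∈ Finset.Icc j0 J, ∑ m ∈ Ms j, (Bad j m).card :=
        Finset.sum_le_sum (fun j _ => Finset.card_biUnion_le)
      have h4 := h2.trans h3
      exact_mod_cast h4
    have hb : ∀ j ∈ Finset.Icc j0 J, ∑ m ∈ Ms j, ((Bad j m).card : ℝ) ≤
        (1 / 2 : ℝ) ^ (j + 2) * (Fintype.card (Fin C → T) : ℝ) := by
      intro j hj
      rw [Finset.mem_Icc] at hj
      calc ∑ m ∈ Ms j, ((Bad j m).card : ℝ)
          ≤ ∑ m ∈ Ms j, (∏ c ∈ range (G j), (1 - p j c)) * (Fintype.card (Fin C → T) : ℝ) := by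
            refine Finset.sum_le_sum fun m hm => ?_
            simp only [Bad, hj.2, dif_pos]
            exact hfail j hj.1 hj.2 m hm
        _ = ((Ms j).card : ℝ) * (∏ c ∈ range (G j), (1 - p j c)) *
              (Fintype.card (Fin C → T) : ℝ) := by
            rw [Finset.sum_const, nsmul_eq_mul]; ring
        _ ≤ _ := mul_le_mul_of_nonneg_right (hs j hj.1) hpos.le
    have hgeo : ∑ j ∈ Finset.Icc j0 J, (1 / 2 : ℝ) ^ (j + 2) ≤ 1 / 2 := by
      calc ∑ j ∈ Finset.Icc j0 J, (1 / 2 : ℝ) ^ (j + 2)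
          ≤ ∑ j ∈ range (J + 1), (1 / 2 : ℝ) ^ (j + 2) := by
            refine Finset.sum_le_sum_of_subset_of_nonneg ?_ (fun _ _ _ => by positivity)
            intro j hj
            rw [Finset.mem_Icc] at hj
            rw [Finset.mem_range]; omega
        _ = (1 / 4) * ∑ j ∈ range (J + 1), (1 / 2 : ℝ) ^ j := by
            rw [Finset.mul_sum]
            refine Finset.sum_congr rfl fun j _ => ?_
            rw [pow_add]; ring
        _ ≤ (1 / 4) * 2 := by
            refine mul_le_mul_of_nonneg_left ?_ (by norm_num)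
            exact sum_geometric_two_le (J + 1)
        _ = 1 / 2 := by norm_num
    have hfin : (Fintype.card (Fin C → T) : ℝ) ≤ 1 / 2 * (Fintype.card (Fin C → T) : ℝ) := by
      calc (Fintype.card (Fin C → T) : ℝ) ≤ _ := hcard
        _ ≤ ∑ j ∈ Finset.Icc j0 J, (1 / 2 : ℝ) ^ (j + 2) * (Fintype.card (Fin C → T) : ℝ) :=
            Finset.sum_le_sum hb
        _ = (∑ j ∈ Finset.Icc j0 J, (1 / 2 : ℝ) ^ (j + 2)) * (Fintype.card (Fin C → T) : ℝ) := by
            rw [Finset.sum_mul]
        _ ≤ _ := mul_le_mul_of_nonneg_right hgeo hpos.le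
    linarith
  refine ⟨fun b c => if h : b < J + 1 ∧ c < C then D0 ⟨c, h.2⟩ ⟨b, h.1⟩
    else Classical.arbitrary _, ?_⟩
  intro j hj hjJ m hm
  have h := hD0 j hj hjJ m hm
  push Not at h
  obtain ⟨c, hc, hcov⟩ := h
  refine ⟨c, hc, ?_⟩
  have k1 : j < J + 1 ∧ (c : ℕ) < C := ⟨by omega, c.2⟩
  have k2 : j - d2 < J + 1 ∧ (c : ℕ) < C := ⟨by omega, c.2⟩
  have k3 : j - d3 < J + 1 ∧ (c : ℕ) < C := ⟨by omega, c.2⟩
  simp only [dif_pos k1, dif_pos k2, dif_pos k3, Fin.eta]
  exact hcov

open Classical in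
theorem select {Y : ℕ → Type} [∀ b, Fintype (Y b)] [∀ b, Nonempty (Y b)] (d2 d3 j0 : ℕ)
    (h2 : 0 < d2) (h3 : d2 < d3) (hj0 : d3 ≤ j0) (Ms : ℕ → Finset ℕ) (G : ℕ → ℕ)
    (cov : ∀ j _m _c : ℕ, Y j → Y (j - d2) → Y (j - d3) → Prop) (p : ℕ → ℕ → ℝ)
    (hp0 : ∀ j, j0 ≤ j → ∀ c < G j, p j c ≤ 1)
    (hp : ∀ j, j0 ≤ j → ∀ m ∈ Ms j, ∀ c < G j,
      (((univ : Finset (Y j × Y (j - d2) × Y (j - d3))).filter
        (fun ω => ¬ cov j m c ω.1 ω.2.1 ω.2.2)).card : ℝ) ≤
      (1 - p j c) * (Fintype.card (Y j × Y (j - d2) × Y (j - d3)) : ℝ))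
    (hs : ∀ j, j0 ≤ j → ((Ms j).card : ℝ) * ∏ c ∈ range (G j), (1 - p j c) ≤ (1 / 2) ^ (j + 2)) :
    ∃ D : ∀ b, ℕ → Y b, ∀ j, j0 ≤ j → ∀ m ∈ Ms j, ∃ c < G j,
      cov j m c (D j c) (D (j - d2) c) (D (j - d3) c) := by
  choose D hD using select_fin d2 d3 j0 h2 h3 hj0 Ms G cov p hp0 hp hs
  obtain ⟨E, hE⟩ := compact_choice (ι := ℕ × ℕ) (A := fun bc => Y bc.1)
    (fun J bc => D J bc.1 bc.2)
  refine ⟨fun b c => E (b, c), ?_⟩
  intro j hj m hm
  obtain ⟨J, hJ, hF⟩ := hE (({j, j - d2, j - d3} : Finset ℕ) ×ˢ range (G j)) j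
  obtain ⟨c, hc, hcov⟩ := hD J j hj hJ m hm
  refine ⟨c, hc, ?_⟩
  have q1 := hF (j, c) (by simp [hc])
  have q2 := hF (j - d2, c) (by simp [hc])
  have q3 := hF (j - d3, c) (by simp [hc])
  simp only at q1 q2 q3
  rw [q1, q2, q3] at hcov
  exact hcov

end Pool.Agent.SBP
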