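import Pool.Agent.Lib.SBP.Core
import Pool.Agent.Lib.SBP.Pair

/-!
# SBP.SidonS : the set SS is a Sidon set

PROOF.  Put e := fun b c T => eY P (D b c) b c T, f := fun b c T => fY P (D b c) b c T.  The elements ui = eltY of (bi, ci, ki) are
Valid P e f and have val P e (Valid and val only use e u.b u.c, and eY ignores its first two arguments; u.b = b, u.c = c by rfl).
Let u1 + u2 = u3 + u4.  core gives the alignment and the equality of the sums of the log digits.  By the symmetry 3 <-> 4 assume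
b1 = b3, c1 = c3, b2 = b4, c2 = c4 (subst), and by the symmetry (1,3) <-> (2,4) assume l := b2 ≤ b1 =: j.
For T < l: wi = (lg T xi + σi) % (q T - 1) + (q T - 1) ξi, xi = ell, where σ depends only on (b, c), so modulo q T - 1:
lg x1 + σ + lg x2 + σ' ≡ lg x3 + σ + lg x4 + σ', so lg x1 + lg x2 ≡ lg x3 + lg x4, IsLog: lg (x1 x2) ≡ lg (x3 x4) and
x1 x2 ≡ x3 x4 [MOD q T] (not_dvd_ell; q T prime, from q T ∈ bin T).  For l ≤ T < j: w1 = w3, so x1 ≡ x3 [MOD q T].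
So Cong q l j x1 x2 x3 x4 and pair gives k1 = k3 and k2 = k4 (u1 = u3, u2 = u4) or everything swapped (u1 = u4, u2 = u3).
-/

namespace Pool.Agent.SBP

private theorem sidonS_w (P : Par) (q : ℕ → ℕ) (lg : ℕ → ℕ → ℕ) {b c T : ℕ} (y : Yb P q b)
    (k : Fin (2 ^ P.ν b)) (hT : T < b) :
    (eltY P q lg b c y k).w T ≡ lg T (P.ell b c k) + ((y.1 ⟨T, hT⟩).1 : ℕ) [MOD (q T - 1)] := by
  have h1 : (eltY P q lg b c y k).w T =
      (lg T (P.ell b c k) + ((y.1 ⟨T, hT⟩).1 : ℕ)) % (q T - 1) +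
        (q T - 1) * ((y.2 k ⟨T, hT⟩).1 : ℕ) := by
    change (if h : T < b then
      (lg T (P.ell b c k) + ((y.1 ⟨T, h⟩).1 : ℕ)) % (q T - 1) + (q T - 1) * ((y.2 k ⟨T, h⟩).1 : ℕ)
      else 0) = _
    rw [dif_pos hT]
  rw [h1]
  unfold Nat.ModEq
  rw [Nat.add_mul_mod_self_left, Nat.mod_mod]

private theorem sidonS_cong (P : Par) (h : P.OK) (q : ℕ → ℕ) (hq : ∀ T, q T ∈ P.bin T)
    (lg : ℕ → ℕ → ℕ) (hlg : ∀ T, IsLog (q T) (lg T)) {j l c c' : ℕ} (hl : P.b0 ≤ l) (hlj : l ≤ j)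
    (hc : c < P.Γ j) (hc' : c' < P.Γ l) (y : Yb P q j) (y' : Yb P q l)
    (k1 k3 : Fin (2 ^ P.ν j)) (k2 k4 : Fin (2 ^ P.ν l))
    (hs : ∀ T, (if T < j then (eltY P q lg j c y k1).w T else 0) +
        (if T < l then (eltY P q lg l c' y' k2).w T else 0) =
      (if T < j then (eltY P q lg j c y k3).w T else 0) +
        (if T < l then (eltY P q lg l c' y' k4).w T else 0)) :
    Cong q l j (P.ell j c k1) (P.ell l c' k2) (P.ell j c k3) (P.ell l c' k4) := by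
  have hj : P.b0 ≤ j := hl.trans hlj
  have hpr : ∀ T, (q T).Prime := fun T => (Finset.mem_filter.1 (hq T)).2
  constructor
  · intro T hT
    have hTj : T < j := lt_of_lt_of_le hT hlj
    have h0 := hs T
    rw [if_pos hTj, if_pos hT, if_pos hTj, if_pos hT] at h0
    have n1 := not_dvd_ell P h q hq hj hc k1.2 hTj
    have n3 := not_dvd_ell P h q hq hj hc k3.2 hTj
    have n2 := not_dvd_ell P h q hq hl hc' k2.2 hT
    have n4 := not_dvd_ell P h q hq hl hc' k4.2 hT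
    have m1 := sidonS_w P q lg (c := c) y k1 hTj
    have m3 := sidonS_w P q lg (c := c) y k3 hTj
    have m2 := sidonS_w P q lg (c := c') y' k2 hT
    have m4 := sidonS_w P q lg (c := c') y' k4 hT
    have e1 := (m1.add m2).symm
    rw [h0] at e1
    have e2 := e1.trans (m3.add m4)
    have e3 : (lg T (P.ell j c k1) + lg T (P.ell l c' k2)) +
        (((y.1 ⟨T, hTj⟩).1 : ℕ) + ((y'.1 ⟨T, hT⟩).1 : ℕ)) ≡
        (lg T (P.ell j c k3) + lg T (P.ell l c' k4)) +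
        (((y.1 ⟨T, hTj⟩).1 : ℕ) + ((y'.1 ⟨T, hT⟩).1 : ℕ)) [MOD (q T - 1)] := by
      have a1 : ∀ a b s t : ℕ, (a + b) + (s + t) = a + s + (b + t) := fun a b s t => by ring
      rw [a1 (lg T (P.ell j c k1)), a1 (lg T (P.ell j c k3))]
      exact e2
    have e4 := Nat.ModEq.add_right_cancel' _ e3
    have e5 := ((hlg T _ _ n1 n2).1.trans e4).trans (hlg T _ _ n3 n4).1.symm
    have d12 : ¬ q T ∣ P.ell j c k1 * P.ell l c' k2 := fun hd =>
      ((hpr T).dvd_mul.1 hd).elim n1 n2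
    have d34 : ¬ q T ∣ P.ell j c k3 * P.ell l c' k4 := fun hd =>
      ((hpr T).dvd_mul.1 hd).elim n3 n4
    exact (hlg T _ _ d12 d34).2.1 e5
  · intro T hlT hTj
    have h0 := hs T
    rw [if_pos hTj, if_neg (not_lt.2 hlT), if_pos hTj, if_neg (not_lt.2 hlT), add_zero,
      add_zero] at h0
    have n1 := not_dvd_ell P h q hq hj hc k1.2 hTj
    have n3 := not_dvd_ell P h q hq hj hc k3.2 hTj
    have m1 := sidonS_w P q lg (c := c) y k1 hTj
    have m3 := sidonS_w P q lg (c := c) y k3 hTj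
    rw [h0] at m1
    have e3 := m1.symm.trans m3
    have e4 := Nat.ModEq.add_right_cancel' _ e3
    exact (hlg T _ _ n1 n3).2.1 e4

private theorem sidonS_key (P : Par) (h : P.OK) (q : ℕ → ℕ) (hq : ∀ T, q T ∈ P.bin T)
    (lg : ℕ → ℕ → ℕ) (hlg : ∀ T, IsLog (q T) (lg T)) (D : ∀ b : ℕ, ℕ → Yb P q b) {j l c c' : ℕ}
    (hj : P.b0 ≤ j) (hl : P.b0 ≤ l) (hc : c < P.Γ j) (hc' : c' < P.Γ l)
    (k1 k3 : Fin (2 ^ P.ν j)) (k2 k4 : Fin (2 ^ P.ν l))
    (hb1 : ¬ Bad P q j c k1) (hb2 : ¬ Bad P q l c' k2)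
    (hs : ∀ T, (if T < j then (eltY P q lg j c (D j c) k1).w T else 0) +
        (if T < l then (eltY P q lg l c' (D l c') k2).w T else 0) =
      (if T < j then (eltY P q lg j c (D j c) k3).w T else 0) +
        (if T < l then (eltY P q lg l c' (D l c') k4).w T else 0))
    (V : (b : ℕ) → ℕ → Fin (2 ^ P.ν b) → ℕ) :
    (V j c k1 = V j c k3 ∧ V l c' k2 = V l c' k4) ∨
      (V j c k1 = V l c' k4 ∧ V l c' k2 = V j c k3) := by
  rcases le_total l j with hlj | hlj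
  · rcases pair P h q hq hl hlj hc hc' k1.2 k3.2 k2.2 k4.2 hb1
      (sidonS_cong P h q hq lg hlg hl hlj hc hc' (D j c) (D l c') k1 k3 k2 k4 hs) with
      ⟨h1, h2⟩ | ⟨h0, h1, h2, h3⟩
    · left
      rw [Fin.ext h1, Fin.ext h2]
      exact ⟨rfl, rfl⟩
    · right
      subst h0
      subst h1
      rw [Fin.ext h2, Fin.ext h3]
      exact ⟨rfl, rfl⟩
  · have hs' : ∀ T, (if T < l then (eltY P q lg l c' (D l c') k2).w T else 0) +
        (if T < j then (eltY P q lg j c (D j c) k1).w T else 0) =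
      (if T < l then (eltY P q lg l c' (D l c') k4).w T else 0) +
        (if T < j then (eltY P q lg j c (D j c) k3).w T else 0) := by
      intro T
      rw [add_comm, hs T, add_comm]
    rcases pair P h q hq hj hlj hc' hc k2.2 k4.2 k1.2 k3.2 hb2
      (sidonS_cong P h q hq lg hlg hj hlj hc' hc (D l c') (D j c) k2 k4 k1 k3 hs') with
      ⟨h1, h2⟩ | ⟨h0, h1, h2, h3⟩
    · left
      rw [Fin.ext h1, Fin.ext h2]
      exact ⟨rfl, rfl⟩
    · right
      subst h0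
      subst h1
      rw [Fin.ext h2, Fin.ext h3]
      exact ⟨rfl, rfl⟩

theorem SS_sidon (P : Par) (h : P.OK) (q : ℕ → ℕ) (hq : ∀ T, q T ∈ P.bin T) (lg : ℕ → ℕ → ℕ)
    (hlg : ∀ T, IsLog (q T) (lg T)) (D : ∀ b : ℕ, ℕ → Yb P q b) :
    ∀ x ∈ SS P q lg D, ∀ y ∈ SS P q lg D, ∀ z ∈ SS P q lg D, ∀ w ∈ SS P q lg D,
      x + y = z + w → (x = z ∧ y = w) ∨ (x = w ∧ y = z) := by
  rintro x ⟨b1, hb1, c1, hc1, k1, hB1, hV1, rfl⟩ y ⟨b2, hb2, c2, hc2, k2, hB2, hV2, rfl⟩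
    z ⟨b3, hb3, c3, hc3, k3, hB3, hV3, rfl⟩ w ⟨b4, hb4, c4, hc4, k4, hB4, hV4, rfl⟩ hs
  have hval : ∀ (b c : ℕ) (k : Fin (2 ^ P.ν b)),
      (eltY P q lg b c (D b c) k).Valid P (eY P (D b c)) (fY P (D b c)) →
      (eltY P q lg b c (D b c) k).Valid P (fun b c T => eY P (D b c) b c T)
        (fun b c T => fY P (D b c) b c T) := fun b c k hv =>
    ⟨hv.b, hv.c, hv.w, hv.e1, hv.f1, hv.lowe, hv.lowt, hv.widet⟩
  have hcore := core P h (fun b c T => eY P (D b c) b c T) (fun b c T => fY P (D b c) b c T)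
    _ _ _ _ (hval _ _ _ hV1) (hval _ _ _ hV2) (hval _ _ _ hV3) (hval _ _ _ hV4) hs
  obtain ⟨hal, hsum⟩ := hcore
  rcases hal with ⟨e1, e2, e3, e4⟩ | ⟨e1, e2, e3, e4⟩
  · have e1' : b1 = b3 := e1
    have e2' : c1 = c3 := e2
    have e3' : b2 = b4 := e3
    have e4' : c2 = c4 := e4
    subst e1' e2' e3' e4'
    exact sidonS_key P h q hq lg hlg D hb1 hb2 hc1 hc2 k1 k3 k2 k4 hB1 hB2 hsum
      (fun b c k => (eltY P q lg b c (D b c) k).val P (eY P (D b c)))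
  · have e1' : b1 = b4 := e1
    have e2' : c1 = c4 := e2
    have e3' : b2 = b3 := e3
    have e4' : c2 = c3 := e4
    subst e1' e2' e3' e4'
    have hsum' : ∀ T, (if T < b1 then (eltY P q lg b1 c1 (D b1 c1) k1).w T else 0) +
        (if T < b2 then (eltY P q lg b2 c2 (D b2 c2) k2).w T else 0) =
      (if T < b1 then (eltY P q lg b1 c1 (D b1 c1) k4).w T else 0) +
        (if T < b2 then (eltY P q lg b2 c2 (D b2 c2) k3).w T else 0) := by
      intro T
      have h0 := hsum T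
      rw [add_comm (if T < b1 then (eltY P q lg b1 c1 (D b1 c1) k4).w T else 0)]
      exact h0
    exact (sidonS_key P h q hq lg hlg D hb1 hb2 hc1 hc2 k1 k4 k2 k3 hB1 hB2 hsum'
      (fun b c k => (eltY P q lg b c (D b c) k).val P (eY P (D b c)))).symm

end Pool.Agent.SBP
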