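import Pool.Agent.Lib.SBP.Level

/-!
# SBP.Trials : the colours suffice

PROOF.  Let Γ = Γ (j - d3) = 2^((j-d3)^3), x_c = 1 + 2^(8j+S+6) energy_c / 2^(2 Σν) ≥ 1, so pj c = 1 / x_c.  By GoodQ.en
Σ_{c<Γ} energy_c ≤ 2^(j + 4 + (j-d3)^3 + 2 Σν + Le j) / 2^(S j), so Σ_c x_c ≤ Γ + 2^(8 j + S + 6 + j + 4 + (j-d3)^3 + Le - S) = Γ (1 + 2^(9 j + 10 + Le j)).
Cauchy-Schwarz: Γ^2 ≤ (Σ x_c) (Σ 1/x_c), so Σ pj ≥ Γ / (1 + 2^(9 j + 10 + Le j)) ≥ hh j + j + 2 (OK.tr).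
1 - p ≤ exp (-p) (Real.add_one_le_exp), so ∏ (1 - pj) ≤ exp (-(hh j + j + 2)) ≤ 2^(-(hh j + j + 2)) (exp 1 ≥ 2), and the number of m is
≤ 2^(hh j).
-/

namespace Pool.Agent.SBP

open Finset

private theorem trials_y_nonneg (P : Par) (q : ℕ → ℕ) (j c : ℕ) :
    (0 : ℝ) ≤ 2 ^ (8 * j + P.S j + 6) * (energy P q j c : ℝ) /
      2 ^ (2 * (P.ν j + P.ν (j - P.d2) + P.ν (j - P.d3))) := by
  positivity

theorem pj_le_one (P : Par) (q : ℕ → ℕ) (j c : ℕ) : pj P q j c ≤ 1 := by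
  have h := trials_y_nonneg P q j c
  unfold pj
  rw [div_le_one (by linarith)]
  linarith

private theorem trials_sum (P : Par) (q : ℕ → ℕ) (hG : GoodQ P q) (j : ℕ)
    (hj : P.b0 + P.d3 ≤ j) :
    ∑ c ∈ range (P.Γ (j - P.d3)), (1 + 2 ^ (8 * j + P.S j + 6) * (energy P q j c : ℝ) /
      2 ^ (2 * (P.ν j + P.ν (j - P.d2) + P.ν (j - P.d3)))) ≤
    2 ^ ((j - P.d3) ^ 3) * (1 + 2 ^ (9 * j + 10 + P.Le j)) := by
  have h1 := hG.en j hj
  set nn := P.ν j + P.ν (j - P.d2) + P.ν (j - P.d3) with hnn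
  have h2 : (∑ c ∈ range (P.Γ (j - P.d3)), (energy P q j c : ℝ)) * 2 ^ P.S j ≤
      2 ^ (j + 4 + (j - P.d3) ^ 3 + 2 * nn + P.Le j) := by
    exact_mod_cast h1
  rw [Finset.sum_add_distrib, Finset.sum_const, Finset.card_range, ← Finset.sum_div,
    ← Finset.mul_sum, nsmul_eq_mul, mul_one]
  have h3 : ((P.Γ (j - P.d3) : ℕ) : ℝ) = 2 ^ ((j - P.d3) ^ 3) := by
    unfold Par.Γ
    push_cast
    rfl
  rw [h3, mul_one_add]
  refine add_le_add le_rfl ?_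
  rw [div_le_iff₀ (by positivity)]
  have h4 : (2 : ℝ) ^ (8 * j + P.S j + 6) = 2 ^ (8 * j + 6) * 2 ^ P.S j := by
    rw [← pow_add]
    congr 1
    ring
  calc (2 : ℝ) ^ (8 * j + P.S j + 6) * ∑ c ∈ range (P.Γ (j - P.d3)), (energy P q j c : ℝ)
      = 2 ^ (8 * j + 6) * ((∑ c ∈ range (P.Γ (j - P.d3)), (energy P q j c : ℝ)) * 2 ^ P.S j) := by
        rw [h4]
        ring
    _ ≤ 2 ^ (8 * j + 6) * 2 ^ (j + 4 + (j - P.d3) ^ 3 + 2 * nn + P.Le j) := by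
        gcongr
    _ = 2 ^ ((j - P.d3) ^ 3) * 2 ^ (9 * j + 10 + P.Le j) * 2 ^ (2 * nn) := by
        rw [← pow_add, ← pow_add, ← pow_add]
        congr 1
        ring

private theorem trials_lower (P : Par) (h : P.OK) (q : ℕ → ℕ) (hG : GoodQ P q) (j : ℕ)
    (hj : P.b0 + P.d3 ≤ j) :
    ((P.hh j + j + 2 : ℕ) : ℝ) ≤ ∑ c ∈ range (P.Γ (j - P.d3)), pj P q j c := by
  have h1 := trials_sum P q hG j hj
  have h2 : (((P.hh j + j + 2) * (1 + 2 ^ (9 * j + 10 + P.Le j)) : ℕ) : ℝ) ≤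
      ((2 ^ ((j - P.d3) ^ 3) : ℕ) : ℝ) := Nat.cast_le.2 (h.tr j hj)
  push_cast at h2
  have hx : ∀ c, (0 : ℝ) < 1 + 2 ^ (8 * j + P.S j + 6) * (energy P q j c : ℝ) /
      2 ^ (2 * (P.ν j + P.ν (j - P.d2) + P.ν (j - P.d3))) := by
    intro c
    have := trials_y_nonneg P q j c
    linarith
  have hcs := Finset.sum_sq_le_sum_mul_sum_of_sq_le_mul (range (P.Γ (j - P.d3)))
    (r := fun _ => (1 : ℝ))
    (f := fun c => 1 + 2 ^ (8 * j + P.S j + 6) * (energy P q j c : ℝ) /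
      2 ^ (2 * (P.ν j + P.ν (j - P.d2) + P.ν (j - P.d3))))
    (g := fun c => pj P q j c)
    (fun c _ => (hx c).le)
    (fun c _ => by
      have := hx c
      unfold pj
      positivity)
    (fun c _ => by
      have := hx c
      unfold pj
      rw [one_pow, mul_one_div_cancel this.ne'])
  rw [Finset.sum_const, Finset.card_range, nsmul_eq_mul, mul_one] at hcs
  have h3 : ((P.Γ (j - P.d3) : ℕ) : ℝ) = 2 ^ ((j - P.d3) ^ 3) := by
    unfold Par.Γ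
    push_cast
    rfl
  rw [h3] at hcs
  have hp : (0 : ℝ) ≤ ∑ c ∈ range (P.Γ (j - P.d3)), pj P q j c := by
    refine Finset.sum_nonneg fun c _ => ?_
    have := hx c
    unfold pj
    positivity
  have hG0 : (0 : ℝ) < 2 ^ ((j - P.d3) ^ 3) := by positivity
  have hL0 : (0 : ℝ) < 1 + 2 ^ (9 * j + 10 + P.Le j) := by positivity
  have h4 : (2 : ℝ) ^ ((j - P.d3) ^ 3) ^ 1 ≤
      (1 + 2 ^ (9 * j + 10 + P.Le j)) * ∑ c ∈ range (P.Γ (j - P.d3)), pj P q j c := by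
    rw [pow_one]
    have h5 := hcs.trans (mul_le_mul_of_nonneg_right h1 hp)
    rw [sq, mul_assoc] at h5
    exact le_of_mul_le_mul_left h5 hG0
  rw [pow_one] at h4
  have h6 := h2.trans h4
  rw [mul_comm (1 + (2 : ℝ) ^ (9 * j + 10 + P.Le j))] at h6
  have h7 := le_of_mul_le_mul_right h6 hL0
  push_cast
  exact h7

theorem trials (P : Par) (h : P.OK) (q : ℕ → ℕ) (hG : GoodQ P q) (j : ℕ)
    (hj : P.b0 + P.d3 ≤ j) :
    ((Finset.Ico (2 ^ P.hh (j - 1)) (2 ^ P.hh j)).card : ℝ) *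
      ∏ c ∈ range (P.Γ (j - P.d3)), (1 - pj P q j c) ≤ (1 / 2) ^ (j + 2) := by
  have h1 := trials_lower P h q hG j hj
  have h2 : ∏ c ∈ range (P.Γ (j - P.d3)), (1 - pj P q j c) ≤ (1 / 2) ^ (P.hh j + j + 2) := by
    calc ∏ c ∈ range (P.Γ (j - P.d3)), (1 - pj P q j c)
        ≤ ∏ c ∈ range (P.Γ (j - P.d3)), Real.exp (-pj P q j c) := by
          refine Finset.prod_le_prod (fun c _ => ?_) (fun c _ => ?_)
          · have := pj_le_one P q j c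
            linarith
          · have := Real.add_one_le_exp (-pj P q j c)
            linarith
      _ = Real.exp (-∑ c ∈ range (P.Γ (j - P.d3)), pj P q j c) := by
          rw [← Real.exp_sum, Finset.sum_neg_distrib]
      _ ≤ Real.exp (-((P.hh j + j + 2 : ℕ) : ℝ)) := by
          exact Real.exp_le_exp.2 (neg_le_neg h1)
      _ = (Real.exp (-1)) ^ (P.hh j + j + 2) := by
          rw [← Real.exp_nat_mul]
          congr 1
          ring
      _ ≤ (1 / 2) ^ (P.hh j + j + 2) := by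
          refine pow_le_pow_left₀ (Real.exp_pos _).le ?_ _
          rw [Real.exp_neg, ← one_div]
          have := Real.add_one_le_exp (1 : ℝ)
          exact one_div_le_one_div_of_le (by norm_num) (by linarith)
  have h3 : ((Finset.Ico (2 ^ P.hh (j - 1)) (2 ^ P.hh j)).card : ℝ) ≤ 2 ^ P.hh j := by
    rw [Nat.card_Ico]
    have : 2 ^ P.hh j - 2 ^ P.hh (j - 1) ≤ 2 ^ P.hh j := Nat.sub_le _ _
    exact_mod_cast this
  have h4 : (0 : ℝ) ≤ ∏ c ∈ range (P.Γ (j - P.d3)), (1 - pj P q j c) := by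
    refine Finset.prod_nonneg fun c _ => ?_
    have := pj_le_one P q j c
    linarith
  calc ((Finset.Ico (2 ^ P.hh (j - 1)) (2 ^ P.hh j)).card : ℝ) *
      ∏ c ∈ range (P.Γ (j - P.d3)), (1 - pj P q j c)
      ≤ 2 ^ P.hh j * (1 / 2) ^ (P.hh j + j + 2) := mul_le_mul h3 h2 h4 (by positivity)
    _ = (1 / 2) ^ (j + 2) := by
        rw [add_assoc, pow_add, ← mul_assoc, ← mul_pow]
        norm_num

end Pool.Agent.SBP
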