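import Pool.Agent.Lib.SBP.ParCon
import Pool.Agent.Lib.SBP.SidonS
import Pool.Agent.Lib.SBP.DLog
import Pool.Agent.Lib.SBP.Select
import Pool.Agent.Lib.SBP.Trials
import Pool.Agent.Lib.SBP.ModSel

/-!
# SBP.Main : the final theorem
-/

namespace Pool.Agent.SBP

open Finset

theorem hh_mono (P : Par) : Monotone P.hh := by
  intro i j hij
  unfold Par.hh
  exact Finset.sum_le_sum_of_subset (Finset.range_subset_range.mpr hij)

theorem hh_ge (P : Par) (j : ℕ) : j ≤ P.hh j := by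
  unfold Par.hh
  calc j = ∑ _T ∈ range j, 1 := by simp
    _ ≤ _ := Finset.sum_le_sum (fun T _ => by omega)

theorem hh_succ (P : Par) (j : ℕ) : P.hh j + 6 ≤ P.hh (j + 1) := by
  unfold Par.hh
  rw [Finset.sum_range_succ]
  omega

/-- the value of a valid element is smaller than 2^(hh b) -/
theorem val_lt (P : Par) (h : P.OK) {e f : ℕ → ℕ → ℕ → ℕ} {u : Elt} (hu : u.Valid P e f) :
    u.val P e < 2 ^ P.hh u.b := by
  have hcell : ∀ T < u.b,
      u.w T + e u.b u.c T * 2 ^ (P.s T + 5) + 2 ^ (P.s T + 6) * u.t T <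
        2 ^ (P.s T + 6 + P.β T) := by
    intro T hT
    have hw := hu.w T hT
    have he := hu.e1 T
    have h1 : u.w T + e u.b u.c T * 2 ^ (P.s T + 5) < 2 ^ (P.s T + 6) := by
      have : 2 ^ (P.s T + 6) = 2 * 2 ^ (P.s T + 5) := by ring
      rw [this]
      nlinarith [Nat.two_pow_pos (P.s T + 5)]
    have h2 : u.t T < 2 ^ P.β T := by
      by_cases hl : T + P.d0 < u.b
      · have := (h.X T).lt _ (lab_lt P hu.c T) _ (hu.lowt T hl)
        omega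
      · have h3 := (hu.widet T hT (by omega)).2
        have hf := hu.f1 T
        have hβ : 1 ≤ P.β T := by
          unfold Par.β Par.g Par.M; omega
        have : 2 ^ P.β T = 2 * 2 ^ (P.β T - 1) := by
          rw [← pow_succ', Nat.sub_add_cancel hβ]
        have h5 : (f u.b u.c T + 1) * 2 ^ (P.β T - 1) ≤ 2 * 2 ^ (P.β T - 1) :=
          Nat.mul_le_mul_right _ (by omega)
        omega
    have h4 : 2 ^ (P.s T + 6 + P.β T) = 2 ^ (P.s T + 6) * 2 ^ P.β T := by rw [pow_add]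
    rw [h4]
    calc u.w T + e u.b u.c T * 2 ^ (P.s T + 5) + 2 ^ (P.s T + 6) * u.t T
        < 2 ^ (P.s T + 6) + 2 ^ (P.s T + 6) * u.t T := by omega
      _ = 2 ^ (P.s T + 6) * (u.t T + 1) := by ring
      _ ≤ 2 ^ (P.s T + 6) * 2 ^ P.β T := Nat.mul_le_mul_left _ h2
  have key : ∀ n ≤ u.b, ∑ T ∈ range n,
      (u.w T + e u.b u.c T * 2 ^ (P.s T + 5) + 2 ^ (P.s T + 6) * u.t T) * 2 ^ (P.hh T) <
        2 ^ P.hh n := by
    intro n
    induction n with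
    | zero => intro _; simp [Par.hh]
    | succ n ih =>
      intro hn
      rw [Finset.sum_range_succ]
      have i1 := ih (by omega)
      have i2 := hcell n (by omega)
      have e1 : P.hh (n + 1) = P.hh n + (P.s n + 6 + P.β n) := by
        unfold Par.hh; rw [Finset.sum_range_succ]
      rw [e1, pow_add 2 (P.hh n) (P.s n + 6 + P.β n)]
      generalize hA : u.w n + e u.b u.c n * 2 ^ (P.s n + 5) + 2 ^ (P.s n + 6) * u.t n = A at *
      generalize hB : 2 ^ (P.s n + 6 + P.β n) = B at *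
      have h6 : (A + 1) * 2 ^ P.hh n ≤ B * 2 ^ P.hh n :=
        Nat.mul_le_mul_right _ (Nat.succ_le_of_lt i2)
      have h7 : (A + 1) * 2 ^ P.hh n = A * 2 ^ P.hh n + 2 ^ P.hh n := by ring
      have h8 : 2 ^ P.hh n * B = B * 2 ^ P.hh n := by ring
      omega
  exact key u.b le_rfl

theorem sidon_prescribed (a b : ℝ) (hab : a ≤ b) (hb : b ≤ 1) (h : Real.sqrt 2 < a + b) :
    ∃ S : Set ℕ,
      (∀ x ∈ S, ∀ y ∈ S, ∀ z ∈ S, ∀ w ∈ S,
        x + y = z + w → (x = z ∧ y = w) ∨ (x = w ∧ y = z)) ∧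
      ∃ C : ℝ, 0 < C ∧ ∃ c : ℝ, 0 < c ∧ ∃ N : ℕ, ∀ m : ℕ, N ≤ m →
        ∃ s₁ ∈ S, ∃ s₂ ∈ S, ∃ s₃ ∈ S, m = s₁ + s₂ + s₃ ∧
          (s₁ : ℝ) ≤ C * (m : ℝ) ^ a ∧ (s₂ : ℝ) ≤ C * (m : ℝ) ^ b ∧
          c * (m : ℝ) ≤ (s₃ : ℝ) ∧ (s₃ : ℝ) ≤ C * (m : ℝ) := by
  obtain ⟨P, hP, hsz⟩ := exists_par a b hab hb h
  obtain ⟨q, hG⟩ := exists_goodQ P hP
  have hlog : ∀ T, ∃ f : ℕ → ℕ, IsLog (q T) f := fun T =>
    exists_isLog (q T) (Finset.mem_filter.mp (hG.mem T)).2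
  choose lg hlg using hlog
  have hne : ∀ b, Nonempty (Yb P q b) := by
    intro b
    have h1 : ∀ T, 0 < 2 ^ P.β T := fun T => by positivity
    exact ⟨⟨fun T => (⟨0, by omega⟩, false, false), fun _ T => (0, ⟨0, h1 T⟩)⟩⟩
  obtain ⟨D, hD⟩ := select (Y := Yb P q) P.d2 P.d3 (P.b0 + P.d3) (by have := hP.d2; omega)
    hP.d23 (by omega) (fun j => Finset.Ico (2 ^ P.hh (j - 1)) (2 ^ P.hh j))
    (fun j => P.Γ (j - P.d3)) (cov P q lg) (pj P q)
    (fun j _ c _ => pj_le_one P q j c)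
    (by
      intro j hj m hm c hc
      have hm' := Finset.mem_Ico.mp hm
      exact level P hP q hG lg hlg j m c hj hm'.1 hm'.2 hc)
    (fun j hj => trials P hP q hG j hj)
  refine ⟨SS P q lg D, SS_sidon P hP q hG.mem lg hlg D, 1, one_pos, 1 / 2, by norm_num,
    2 ^ P.hh (P.b0 + P.d3 - 1), ?_⟩
  intro m hm
  have hb0 := hP.b0
  have hd2 := hP.d2
  have hd23 := hP.d23
  -- the level of m
  have hex : ∃ j, m < 2 ^ P.hh j :=
    ⟨m, lt_of_lt_of_le Nat.lt_two_pow_self (Nat.pow_le_pow_right (by norm_num) (hh_ge P m))⟩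
  classical
  obtain ⟨j, hj1, hj2⟩ : ∃ j, m < 2 ^ P.hh j ∧ ∀ i < j, ¬ m < 2 ^ P.hh i :=
    ⟨Nat.find hex, Nat.find_spec hex, fun i hi => Nat.find_min hex hi⟩
  have hj0 : P.b0 + P.d3 ≤ j := by
    by_contra hcon
    have h1 : j ≤ P.b0 + P.d3 - 1 := by omega
    have h2 : 2 ^ P.hh j ≤ 2 ^ P.hh (P.b0 + P.d3 - 1) :=
      Nat.pow_le_pow_right (by norm_num) (hh_mono P h1)
    omega
  have hmj : 2 ^ P.hh (j - 1) ≤ m := by
    have := hj2 (j - 1) (by omega)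
    omega
  obtain ⟨c, hc, kz, ky, kx, bz, by', bx, vz, vy, vx, hsum⟩ :=
    hD j hj0 m (Finset.mem_Ico.mpr ⟨hmj, hj1⟩)
  have hc1 : c < P.Γ (j - P.d2) := lt_of_lt_of_le hc (by
    unfold Par.Γ
    exact Nat.pow_le_pow_right (by norm_num) (Nat.pow_le_pow_left (by omega) 3))
  have hc2 : c < P.Γ j := lt_of_lt_of_le hc (by
    unfold Par.Γ
    exact Nat.pow_le_pow_right (by norm_num) (Nat.pow_le_pow_left (by omega) 3))
  have hm1 : (1 : ℝ) ≤ m := by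
    have : 1 ≤ m := le_trans Nat.one_le_two_pow hmj
    exact_mod_cast this
  have lx := val_lt P hP vx
  have ly := val_lt P hP vy
  have size : ∀ (s : ℕ) (i : ℕ) (r : ℝ), s < 2 ^ P.hh i → (P.hh i : ℝ) ≤ r * P.hh (j - 1) → 0 ≤ r →
      (s : ℝ) ≤ 1 * (m : ℝ) ^ r := by
    intro s i r hs hr hr0
    have h1 : (s : ℝ) ≤ (2 : ℝ) ^ (P.hh i : ℝ) := by
      rw [Real.rpow_natCast]
      exact_mod_cast hs.le
    have h2 : (2 : ℝ) ^ (P.hh i : ℝ) ≤ (2 : ℝ) ^ (r * P.hh (j - 1)) :=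
      Real.rpow_le_rpow_of_exponent_le (by norm_num) hr
    have h3 : (2 : ℝ) ^ (r * P.hh (j - 1)) = ((2 : ℝ) ^ (P.hh (j - 1))) ^ r := by
      rw [← Real.rpow_natCast, ← Real.rpow_mul (by norm_num), mul_comm]
    have h4 : ((2 : ℝ) ^ (P.hh (j - 1))) ^ r ≤ (m : ℝ) ^ r :=
      Real.rpow_le_rpow (by positivity) (by exact_mod_cast hmj) hr0
    rw [one_mul]
    linarith [h1, h2, h3.le, h4]
  have hs2 : (1 : ℝ) < Real.sqrt 2 := by
    rw [show (1 : ℝ) = Real.sqrt 1 by simp]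
    exact Real.sqrt_lt_sqrt (by norm_num) (by norm_num)
  refine ⟨_, ⟨j - P.d3, by omega, c, hc, kx, bx, vx, rfl⟩, _,
    ⟨j - P.d2, by omega, c, hc1, ky, by', vy, rfl⟩, _,
    ⟨j, by omega, c, hc2, kz, bz, vz, rfl⟩, ?_, ?_, ?_, ?_, ?_⟩
  · omega
  · exact size _ _ a lx (hsz j hj0).2 (by linarith)
  · exact size _ _ b ly (hsz j hj0).1 (by linarith)
  · have hx2 : 2 ^ P.hh (j - P.d3) ≤ 2 ^ P.hh (j - 2) :=
      Nat.pow_le_pow_right (by norm_num) (hh_mono P (by omega))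
    have hy2 : 2 ^ P.hh (j - P.d2) ≤ 2 ^ P.hh (j - 2) :=
      Nat.pow_le_pow_right (by norm_num) (hh_mono P (by omega))
    have hz2 : 4 * 2 ^ P.hh (j - 2) ≤ 2 ^ P.hh (j - 1) := by
      have h1 := hh_succ P (j - 2)
      have h2 : j - 2 + 1 = j - 1 := by omega
      rw [h2] at h1
      calc 4 * 2 ^ P.hh (j - 2) = 2 ^ (P.hh (j - 2) + 2) := by rw [pow_add]; ring
        _ ≤ 2 ^ P.hh (j - 1) := Nat.pow_le_pow_right (by norm_num) (by omega)
    change (1 / 2 : ℝ) * m ≤ _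
    have lx' : (eltY P q lg (j - P.d3) c (D (j - P.d3) c) kx).val P (eY P (D (j - P.d3) c)) <
      2 ^ P.hh (j - P.d3) := lx
    have ly' : (eltY P q lg (j - P.d2) c (D (j - P.d2) c) ky).val P (eY P (D (j - P.d2) c)) <
      2 ^ P.hh (j - P.d2) := ly
    have : m ≤ 2 * (eltY P q lg j c (D j c) kz).val P (eY P (D j c)) := by omega
    have h5 : (m : ℝ) ≤ 2 * ((eltY P q lg j c (D j c) kz).val P (eY P (D j c)) : ℝ) := by
      exact_mod_cast this
    linarith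
  · have : (eltY P q lg j c (D j c) kz).val P (eY P (D j c)) ≤ m := by omega
    rw [one_mul]
    exact_mod_cast this

end Pool.Agent.SBP
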