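import Pool.Agent.Lib.SBP.GroA
import Pool.Agent.Lib.SBP.GroB
import Pool.Agent.Lib.SBP.GroC
import Pool.Agent.Lib.SBP.Choice
import Pool.Agent.Lib.SBP.PrimeW
import Pool.Agent.Lib.SBP.Gad3
import Pool.Agent.Lib.SBP.Defs2

/-!
# SBP.ParCon : admissible parameters exist
-/

namespace Pool.Agent.SBP

open Finset Filter

theorem exists_par (a b : ℝ) (hab : a ≤ b) (hb : b ≤ 1) (h : Real.sqrt 2 < a + b) :
    ∃ P : Par, P.OK ∧ ∀ j, P.b0 + P.d3 ≤ j →
      (P.hh (j - P.d2) : ℝ) ≤ b * P.hh (j - 1) ∧ (P.hh (j - P.d3) : ℝ) ≤ a * P.hh (j - 1) := by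
  obtain ⟨lam, gam, d2, d3, hl, hg1, hg2, hg3, hlg, hd2, hd23, hdb, hda, hen⟩ :=
    choice a b hab hb h
  have hg0 : 0 < gam := by linarith
  have hs2 : (0 : ℝ) ≤ Real.sqrt 2 := Real.sqrt_nonneg 2
  have hs2' : (1 : ℝ) < Real.sqrt 2 := by
    rw [show (1 : ℝ) = Real.sqrt 1 by simp]
    exact Real.sqrt_lt_sqrt (by norm_num) (by norm_num)
  have ha0 : 0 < a := by linarith
  have hb0 : 0 < b := by linarith
  have ev : ∀ᶠ j : ℕ in atTop,
      (∀ T < j, sL lam T + 4 ≤ aL lam gam j) ∧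
      (16 ≤ aL lam gam j ∧
        2 ^ (νL lam gam j + j ^ 3) * aL lam gam j ≤ 2 ^ (aL lam gam j - 2)) ∧
      ((hhL lam d3 j + j + 2) * (1 + 2 ^ (9 * j + 10 + LeL lam j)) ≤ 2 ^ ((j - d3) ^ 3)) ∧
      ((hhL lam d3 (j - d2) : ℝ) ≤ b * hhL lam d3 (j - 1)) ∧
      ((hhL lam d3 (j - d3) : ℝ) ≤ a * hhL lam d3 (j - 1)) ∧
      (∀ l < j, SL lam l < aL lam gam j + aL lam gam l →
        j ^ 3 + νL lam gam j + l ^ 3 + 2 * νL lam gam l + LeL lam j + 2 * j + 5 ≤ SL lam j) ∧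
      (SL lam j + 23 * j + 3 + 3 * tbL d3 j ≤
        νL lam gam j + νL lam gam (j - d2) + νL lam gam (j - d3)) := by
    filter_upwards [gro_as lam gam hl hlg, gro_el lam gam hl hg0 hg2, gro_tr lam hl d3 d3,
      gro_sz lam hl d3 d2 b hb0 hdb, gro_sz lam hl d3 d3 a ha0 hda, gro_bad lam gam hl hg0 hg3,
      gro_en lam gam hl hg0 d3 d2 d3 hd23.le hen] with j h1 h2 h3 h4 h5 h6 h7
    exact ⟨h1, h2, h3, h4, h5, h6, h7⟩
  obtain ⟨N, hN⟩ := eventually_atTop.mp ev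
  obtain ⟨ell, hell⟩ := exists_ell (N + (2 * d3 + 2) + d3 + 1) (aL lam gam) (νL lam gam)
    (fun b hb => (hN b (by omega)).2.1)
  have htag : ∀ T : ℕ, ∃ X : ℕ → Set ℕ,
      TagOK ((T + (2 * d3 + 2)) ^ 3 + (4 * d3 + 5)) (78 * ((T + (2 * d3 + 2)) ^ 3 + (4 * d3 + 5)))
        X := fun T => exists_tag _ (by omega)
  choose X hX using htag
  refine ⟨⟨d3, d2, d3, N + (2 * d3 + 2) + d3 + 1, sL lam, aL lam gam, νL lam gam, ell, X⟩, ?_, ?_⟩
  · constructor
    · exact hd2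
    · exact hd23
    · exact hd23.le
    · exact Nat.le_add_left _ _
    · simp only [Par.D]; omega
    · intro T; simp only [sL]; omega
    · intro T
      simp only [sL]
      have : ⌊lam ^ T⌋₊ ≤ ⌊lam ^ (T + 1)⌋₊ :=
        Nat.floor_mono (pow_le_pow_right₀ hl.le (Nat.le_succ T))
      omega
    · intro T; exact hX T
    · intro b hb; exact gro_a2 lam gam hl hg1 b
    · intro b hb; exact (hN b (by simp only at hb; omega)).1
    · intro b hb; exact gro_ah lam gam hl hg0.le hg2 b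
    · intro b hb c hc k hk; exact ((hell b hb).1 c hc k hk).1
    · intro b hb c hc k hk; exact ((hell b hb).1 c hc k hk).2.1
    · intro b hb c hc k hk; exact ((hell b hb).1 c hc k hk).2.2
    · intro b hb c hc c' hc' k hk k' hk' he; exact (hell b hb).2 c hc c' hc' k hk k' hk' he
    · intro j hj l hl' hlj hS
      exact (hN j (by simp only at hj; omega)).2.2.2.2.2.1 l hlj hS
    · intro j hj
      exact (hN j (by simp only at hj; omega)).2.2.2.2.2.2
    · intro j hj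
      exact (hN j (by simp only at hj; omega)).2.2.1
  · intro j hj
    exact ⟨(hN j (by simp only at hj; omega)).2.2.2.1, (hN j (by simp only at hj; omega)).2.2.2.2.1⟩

end Pool.Agent.SBP
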