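import Mathlib

/-!
# SBP.SecMom : second moment in a product space

Sample space: Ω = (Θz × (Iz → Ez)) × (Θy × (Iy → Ey)) × (Θx × (Ix → Ex)), uniform.
R(ω) := number of k = (kz, ky, kx) ∈ A with (θz, θy, θx) ∈ G k, ρz kz = F θ k, ρy ky = PY, ρx kx = PX.
Let E = |Ez| |Ey| |Ex|, Θ = |Θz| |Θy| |Θx|, W = |Iz → Ez| |Iy → Ey| |Ix → Ex|, |Ω| = Θ W.
FIRST MOMENT: Σ_ω R = Σ_{k ∈ A} Σ_{θ ∈ G k} #(ρ with three prescribed values) = |A| g W / E
(#{ρ : I → E | ρ k = a} = |I → E| / |E|: Fintype.card of functions with one prescribed value; e.g. the maps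
ρ ↦ Function.update, or sum over a of the fibres of ρ ↦ ρ k, all fibres have the same size by Equiv.swap / update).
SECOND MOMENT: Σ_ω R^2 = Σ_{k, k' ∈ A} #{ω : both}.  k = k': total |A| g W / E.  k ≠ k' sharing a coordinate: 0 because
G k ∩ G k' = ∅.  All three coordinates different: |G k ∩ G k'| W / E^2 (two prescribed values at different places in each factor)
≤ g W / E^2, and 0 if G k and G k' are disjoint; total ≤ N g W / E^2.
CAUCHY-SCHWARZ: (Σ R)^2 ≤ #{R > 0} Σ R^2, so #{R > 0} ≥ (|A| g W / E)^2 / (|A| g W / E + N g W / E^2)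
= W / (E / (|A| g) + N / (g |A|^2)) = |Ω| / (Θ E / (g |A|) + Θ N / (g |A|^2)) ≥ |Ω| / Xb.
-/

namespace Pool.Agent.SBP

open Finset

private theorem SecMom_one {I E : Type} [Fintype I] [DecidableEq I] [Fintype E] [DecidableEq E]
    (i : I) (a : E) :
    ((univ.filter fun ρ : I → E => ρ i = a).card : ℝ) * (Fintype.card E : ℝ)
      = (Fintype.card (I → E) : ℝ) := by
  have h1 : (univ.filter fun ρ : I → E => ρ i = a)
      = Fintype.piFinset (fun l => if l = i then ({a} : Finset E) else univ) := by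
    ext ρ
    simp only [mem_filter, mem_univ, true_and, Fintype.mem_piFinset]
    constructor
    · intro h l
      by_cases hl : l = i
      · subst hl; simp [h]
      · simp [hl]
    · intro h
      have h2 := h i
      simpa using h2
  have h2 : (univ.filter fun ρ : I → E => ρ i = a).card * Fintype.card E
      = Fintype.card (I → E) := by
    rw [h1, Fintype.card_piFinset, Fintype.card_fun, ← Finset.card_univ (α := I),
      ← Finset.prod_const]
    have h3 : Fintype.card E = ∏ l : I, if l = i then Fintype.card E else 1 := by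
      rw [Finset.prod_ite_eq' univ i (fun _ => Fintype.card E)]
      simp
    conv_lhs => rw [h3]
    rw [← Finset.prod_mul_distrib]
    refine Finset.prod_congr rfl fun l _ => ?_
    by_cases hl : l = i <;> simp [hl]
  exact_mod_cast h2

private theorem SecMom_two {I E : Type} [Fintype I] [DecidableEq I] [Fintype E] [DecidableEq E]
    (i j : I) (hij : i ≠ j) (a b : E) :
    ((univ.filter fun ρ : I → E => ρ i = a ∧ ρ j = b).card : ℝ) * (Fintype.card E : ℝ) ^ 2
      = (Fintype.card (I → E) : ℝ) := by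
  have h1 : (univ.filter fun ρ : I → E => ρ i = a ∧ ρ j = b)
      = Fintype.piFinset (fun l => if l = i then ({a} : Finset E) else
        if l = j then {b} else univ) := by
    ext ρ
    simp only [mem_filter, mem_univ, true_and, Fintype.mem_piFinset]
    constructor
    · rintro ⟨h, h'⟩ l
      by_cases hl : l = i
      · subst hl; simp [h]
      · by_cases hl' : l = j
        · subst hl'; simp [h', hl]
        · simp [hl, hl']
    · intro h
      have h2 := h i
      have h3 := h j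
      rw [if_pos rfl] at h2
      rw [if_neg (Ne.symm hij), if_pos rfl] at h3
      exact ⟨by simpa using h2, by simpa using h3⟩
  have h2 : (univ.filter fun ρ : I → E => ρ i = a ∧ ρ j = b).card *
      (Fintype.card E * Fintype.card E) = Fintype.card (I → E) := by
    rw [h1, Fintype.card_piFinset, Fintype.card_fun, ← Finset.card_univ (α := I),
      ← Finset.prod_const]
    have h3 : ∀ i0 : I, Fintype.card E = ∏ l : I, if l = i0 then Fintype.card E else 1 := by
      intro i0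
      rw [Finset.prod_ite_eq' univ i0 (fun _ => Fintype.card E)]
      simp
    have h4 : Fintype.card E * Fintype.card E = (∏ l : I, if l = i then Fintype.card E else 1) *
        ∏ l : I, if l = j then Fintype.card E else 1 := by
      rw [← h3 i, ← h3 j]
    rw [h4, ← Finset.prod_mul_distrib, ← Finset.prod_mul_distrib]
    refine Finset.prod_congr rfl fun l _ => ?_
    by_cases hl : l = i
    · subst hl
      simp [hij]
    · by_cases hl' : l = j
      · subst hl'
        simp [hl]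
      · simp [hl, hl']
  have h5 : ((univ.filter fun ρ : I → E => ρ i = a ∧ ρ j = b).card : ℝ) *
      ((Fintype.card E : ℝ) * (Fintype.card E : ℝ)) = (Fintype.card (I → E) : ℝ) := by
    exact_mod_cast h2
  rw [sq]
  exact h5

private theorem SecMom_count {Θz Θy Θx Wz Wy Wx : Type}
    [Fintype Θz] [Fintype Θy] [Fintype Θx] [Fintype Wz] [Fintype Wy] [Fintype Wx]
    [DecidableEq Θz] [DecidableEq Θy] [DecidableEq Θx]
    [DecidableEq Wz] [DecidableEq Wy] [DecidableEq Wx]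
    (D : Finset (Θz × Θy × Θx)) (az : Θz × Θy × Θx → Finset Wz) (ay : Finset Wy)
    (ax : Finset Wx) :
    (univ.filter fun ω : (Θz × Wz) × (Θy × Wy) × (Θx × Wx) =>
      (ω.1.1, ω.2.1.1, ω.2.2.1) ∈ D ∧ ω.1.2 ∈ az (ω.1.1, ω.2.1.1, ω.2.2.1) ∧
      ω.2.1.2 ∈ ay ∧ ω.2.2.2 ∈ ax).card = ∑ θ ∈ D, (az θ).card * (ay.card * ax.card) := by
  have h1 : ∑ θ ∈ D, (az θ).card * (ay.card * ax.card)
      = (D.sigma fun θ => (az θ) ×ˢ (ay ×ˢ ax)).card := by
    rw [Finset.card_sigma]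
    refine Finset.sum_congr rfl fun θ _ => ?_
    rw [Finset.card_product, Finset.card_product]
  rw [h1]
  refine Finset.card_nbij'
    (fun ω => ⟨(ω.1.1, ω.2.1.1, ω.2.2.1), (ω.1.2, ω.2.1.2, ω.2.2.2)⟩)
    (fun p => ((p.1.1, p.2.1), (p.1.2.1, p.2.2.1), (p.1.2.2, p.2.2.2))) ?_ ?_ ?_ ?_
  · intro ω hω
    simp only [coe_filter, mem_univ, true_and, Set.mem_setOf_eq] at hω
    simp only [mem_coe, Finset.mem_sigma, Finset.mem_product]
    exact ⟨hω.1, hω.2.1, hω.2.2.1, hω.2.2.2⟩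
  · intro p hp
    simp only [mem_coe, Finset.mem_sigma, Finset.mem_product] at hp
    simp only [coe_filter, mem_univ, true_and, Set.mem_setOf_eq]
    exact ⟨hp.1, hp.2.1, hp.2.2.1, hp.2.2.2⟩
  · intro ω _
    rfl
  · intro p _
    rfl

private abbrev SecMomOm (Θz Θy Θx Iz Iy Ix Ez Ey Ex : Type) : Type :=
  (Θz × (Iz → Ez)) × (Θy × (Iy → Ey)) × (Θx × (Ix → Ex))

theorem second_moment {Θz Θy Θx Iz Iy Ix Ez Ey Ex : Type}
    [Fintype Θz] [Fintype Θy] [Fintype Θx] [Fintype Iz] [Fintype Iy] [Fintype Ix]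
    [Fintype Ez] [Fintype Ey] [Fintype Ex]
    [DecidableEq Θz] [DecidableEq Θy] [DecidableEq Θx]
    [DecidableEq Iz] [DecidableEq Iy] [DecidableEq Ix]
    [DecidableEq Ez] [DecidableEq Ey] [DecidableEq Ex]
    (A : Finset (Iz × Iy × Ix)) (hA : A.Nonempty)
    (G : Iz × Iy × Ix → Finset (Θz × Θy × Θx))
    (F : Θz × Θy × Θx → Iz × Iy × Ix → Ez) (PY : Ey) (PX : Ex) (g : ℕ) (hg : 0 < g)
    (h1 : ∀ k ∈ A, (G k).card = g)
    (h2 : ∀ k ∈ A, ∀ k' ∈ A, k ≠ k' → (k.1 = k'.1 ∨ k.2.1 = k'.2.1 ∨ k.2.2 = k'.2.2) →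
      Disjoint (G k) (G k'))
    (N : ℕ) (h3 : ((A ×ˢ A).filter (fun p => p.1.1 ≠ p.2.1 ∧ p.1.2.1 ≠ p.2.2.1 ∧
      p.1.2.2 ≠ p.2.2.2 ∧ ¬ Disjoint (G p.1) (G p.2))).card ≤ N)
    (Xb : ℝ) (hX : ((Fintype.card Θz * Fintype.card Θy * Fintype.card Θx : ℕ) : ℝ) *
        ((Fintype.card Ez * Fintype.card Ey * Fintype.card Ex : ℕ) : ℝ) / (g * A.card) +
      ((Fintype.card Θz * Fintype.card Θy * Fintype.card Θx : ℕ) : ℝ) * N /
        (g * (A.card : ℝ) ^ 2) ≤ Xb)
    (B : Finset ((Θz × (Iz → Ez)) × (Θy × (Iy → Ey)) × (Θx × (Ix → Ex))))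
    (hB : ∀ ω ∈ B, ∀ k ∈ A, (ω.1.1, ω.2.1.1, ω.2.2.1) ∈ G k →
      ω.1.2 k.1 = F (ω.1.1, ω.2.1.1, ω.2.2.1) k → ω.2.1.2 k.2.1 = PY →
      ω.2.2.2 k.2.2 = PX → False) :
    (B.card : ℝ) ≤ (1 - 1 / Xb) *
      (Fintype.card ((Θz × (Iz → Ez)) × (Θy × (Iy → Ey)) × (Θx × (Ix → Ex))) : ℝ) := by
  classical
  -- notation
  obtain ⟨k0, hk0⟩ := hA
  have hG0 : (G k0).Nonempty := by
    rw [← Finset.card_pos, h1 k0 hk0]
    exact hg
  obtain ⟨θ0, hθ0⟩ := hG0
  have hEz : 0 < (Fintype.card Ez : ℝ) := by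
    exact_mod_cast Fintype.card_pos_iff.2 ⟨F θ0 k0⟩
  have hEy : 0 < (Fintype.card Ey : ℝ) := by
    exact_mod_cast Fintype.card_pos_iff.2 ⟨PY⟩
  have hEx : 0 < (Fintype.card Ex : ℝ) := by
    exact_mod_cast Fintype.card_pos_iff.2 ⟨PX⟩
  have hTz : 0 < (Fintype.card Θz : ℝ) := by
    exact_mod_cast Fintype.card_pos_iff.2 ⟨θ0.1⟩
  have hTy : 0 < (Fintype.card Θy : ℝ) := by
    exact_mod_cast Fintype.card_pos_iff.2 ⟨θ0.2.1⟩
  have hTx : 0 < (Fintype.card Θx : ℝ) := by
    exact_mod_cast Fintype.card_pos_iff.2 ⟨θ0.2.2⟩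
  have hWz : 0 < (Fintype.card (Iz → Ez) : ℝ) := by
    exact_mod_cast Fintype.card_pos_iff.2 ⟨fun _ => F θ0 k0⟩
  have hWy : 0 < (Fintype.card (Iy → Ey) : ℝ) := by
    exact_mod_cast Fintype.card_pos_iff.2 ⟨fun _ => PY⟩
  have hWx : 0 < (Fintype.card (Ix → Ex) : ℝ) := by
    exact_mod_cast Fintype.card_pos_iff.2 ⟨fun _ => PX⟩
  set E : ℝ := (Fintype.card Ez : ℝ) * Fintype.card Ey * Fintype.card Ex with hE
  set T : ℝ := (Fintype.card Θz : ℝ) * Fintype.card Θy * Fintype.card Θx with hT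
  set W : ℝ := (Fintype.card (Iz → Ez) : ℝ) * Fintype.card (Iy → Ey) * Fintype.card (Ix → Ex)
    with hW
  have hEpos : 0 < E := by positivity
  have hTpos : 0 < T := by positivity
  have hWpos : 0 < W := by positivity
  have hapos : 0 < (A.card : ℝ) := by exact_mod_cast Finset.card_pos.2 ⟨k0, hk0⟩
  have hgpos : 0 < (g : ℝ) := by exact_mod_cast hg
  have hcardΩ : (Fintype.card (SecMomOm Θz Θy Θx Iz Iy Ix Ez Ey Ex) : ℝ) = T * W := by
    rw [Fintype.card_prod, Fintype.card_prod, Fintype.card_prod, Fintype.card_prod,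
      Fintype.card_prod, hT, hW]
    push_cast
    ring
  -- the events
  set S : Iz × Iy × Ix → Finset (SecMomOm Θz Θy Θx Iz Iy Ix Ez Ey Ex) := fun k => univ.filter fun ω : (SecMomOm Θz Θy Θx Iz Iy Ix Ez Ey Ex) =>
    (ω.1.1, ω.2.1.1, ω.2.2.1) ∈ G k ∧ ω.1.2 k.1 = F (ω.1.1, ω.2.1.1, ω.2.2.1) k ∧
    ω.2.1.2 k.2.1 = PY ∧ ω.2.2.2 k.2.2 = PX with hS
  have hScard : ∀ k ∈ A, ((S k).card : ℝ) = g * (W / E) := by
    intro k hk
    have h4 : (S k).card = ∑ θ ∈ G k, (univ.filter fun ρ : Iz → Ez => ρ k.1 = F θ k).card *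
        ((univ.filter fun ρ : Iy → Ey => ρ k.2.1 = PY).card *
        (univ.filter fun ρ : Ix → Ex => ρ k.2.2 = PX).card) := by
      rw [← SecMom_count]
      simp only [hS, mem_filter, mem_univ, true_and]
    rw [h4]
    push_cast
    have h5 : ∀ θ ∈ G k, ((univ.filter fun ρ : Iz → Ez => ρ k.1 = F θ k).card : ℝ) *
        (((univ.filter fun ρ : Iy → Ey => ρ k.2.1 = PY).card : ℝ) *
        ((univ.filter fun ρ : Ix → Ex => ρ k.2.2 = PX).card : ℝ)) = W / E := by
      intro θ _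
      have e1 := SecMom_one k.1 (F θ k)
      have e2 := SecMom_one k.2.1 PY
      have e3 := SecMom_one k.2.2 PX
      rw [eq_div_iff hEpos.ne', hW, ← e1, ← e2, ← e3, hE]
      ring
    rw [Finset.sum_congr rfl h5, Finset.sum_const, h1 k hk, nsmul_eq_mul]
  have hSinter : ∀ k ∈ A, ∀ k' ∈ A, k.1 ≠ k'.1 → k.2.1 ≠ k'.2.1 → k.2.2 ≠ k'.2.2 →
      ((S k ∩ S k').card : ℝ) ≤ g * (W / E) / E := by
    intro k hk k' hk' hz hy hx
    have h4 : (S k ∩ S k').card = ∑ θ ∈ G k ∩ G k',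
        (univ.filter fun ρ : Iz → Ez => ρ k.1 = F θ k ∧ ρ k'.1 = F θ k').card *
        ((univ.filter fun ρ : Iy → Ey => ρ k.2.1 = PY ∧ ρ k'.2.1 = PY).card *
        (univ.filter fun ρ : Ix → Ex => ρ k.2.2 = PX ∧ ρ k'.2.2 = PX).card) := by
      rw [← SecMom_count]
      congr 1
      ext ω
      simp only [hS, mem_filter, mem_univ, true_and, mem_inter]
      tauto
    rw [h4]
    push_cast
    have h5 : ∀ θ ∈ G k ∩ G k',
        ((univ.filter fun ρ : Iz → Ez => ρ k.1 = F θ k ∧ ρ k'.1 = F θ k').card : ℝ) *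
        (((univ.filter fun ρ : Iy → Ey => ρ k.2.1 = PY ∧ ρ k'.2.1 = PY).card : ℝ) *
        ((univ.filter fun ρ : Ix → Ex => ρ k.2.2 = PX ∧ ρ k'.2.2 = PX).card : ℝ))
          = W / E / E := by
      intro θ _
      have e1 := SecMom_two k.1 k'.1 hz (F θ k) (F θ k')
      have e2 := SecMom_two k.2.1 k'.2.1 hy PY PY
      have e3 := SecMom_two k.2.2 k'.2.2 hx PX PX
      rw [eq_div_iff hEpos.ne', eq_div_iff hEpos.ne', hW, ← e1, ← e2, ← e3, hE]
      ring
    rw [Finset.sum_congr rfl h5, Finset.sum_const, nsmul_eq_mul, mul_div_assoc (g : ℝ) (W / E) E]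
    have h6 : ((G k ∩ G k').card : ℝ) ≤ g := by
      rw [← h1 k hk]
      exact_mod_cast Finset.card_le_card Finset.inter_subset_left
    have h7 : (0 : ℝ) ≤ W / E / E := by positivity
    exact mul_le_mul_of_nonneg_right h6 h7
  have hSdisj : ∀ k k', Disjoint (G k) (G k') → ((S k ∩ S k').card : ℝ) = 0 := by
    intro k k' hd
    have h4 : S k ∩ S k' = ∅ := by
      rw [Finset.eq_empty_iff_forall_notMem]
      intro ω hω
      rw [mem_inter] at hω
      simp only [hS, mem_filter, mem_univ, true_and] at hω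
      exact (Finset.disjoint_left.1 hd hω.1.1) hω.2.1
    rw [h4, Finset.card_empty, Nat.cast_zero]
  -- the counting function
  set R : (SecMomOm Θz Θy Θx Iz Iy Ix Ez Ey Ex) → ℝ := fun ω => ∑ k ∈ A, if ω ∈ S k then (1 : ℝ) else 0 with hR
  have hRB : ∀ ω ∈ B, R ω = 0 := by
    intro ω hω
    rw [hR]
    refine Finset.sum_eq_zero fun k hk => ?_
    rw [if_neg]
    intro hmem
    simp only [hS, mem_filter, mem_univ, true_and] at hmem
    exact hB ω hω k hk hmem.1 hmem.2.1 hmem.2.2.1 hmem.2.2.2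
  have hconst : ∀ x : ℝ, (A.card : ℝ) * x = ∑ _k ∈ A, x := fun x => by
    rw [Finset.sum_const, nsmul_eq_mul]
  have hR1 : ∑ ω, R ω = A.card * (g * (W / E)) := by
    rw [hR, Finset.sum_comm]
    rw [hconst]
    refine Finset.sum_congr rfl fun k hk => ?_
    rw [← hScard k hk, Finset.sum_ite_mem, Finset.univ_inter, Finset.sum_const, nsmul_eq_mul,
      mul_one]
  have hR2 : ∑ ω, R ω ^ 2 = ∑ p ∈ A ×ˢ A, ((S p.1 ∩ S p.2).card : ℝ) := by
    have h4 : ∀ ω, R ω ^ 2 = ∑ p ∈ A ×ˢ A, if ω ∈ S p.1 ∩ S p.2 then (1 : ℝ) else 0 := by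
      intro ω
      rw [hR, sq]
      simp only
      rw [Finset.sum_mul_sum, Finset.sum_product]
      refine Finset.sum_congr rfl fun k _ => Finset.sum_congr rfl fun k' _ => ?_
      by_cases ha : ω ∈ S k <;> by_cases hb : ω ∈ S k' <;> simp [ha, hb]
    rw [Finset.sum_congr rfl fun ω _ => h4 ω, Finset.sum_comm]
    refine Finset.sum_congr rfl fun p _ => ?_
    rw [Finset.sum_ite_mem, Finset.univ_inter, Finset.sum_const, nsmul_eq_mul, mul_one]
  set Fl := (A ×ˢ A).filter (fun p => p.1.1 ≠ p.2.1 ∧ p.1.2.1 ≠ p.2.2.1 ∧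
      p.1.2.2 ≠ p.2.2.2 ∧ ¬ Disjoint (G p.1) (G p.2)) with hFl
  have hbound : ∀ p ∈ A ×ˢ A, ((S p.1 ∩ S p.2).card : ℝ) ≤
      (if p.1 = p.2 then g * (W / E) else 0) +
      (if p ∈ Fl then g * (W / E) / E else 0) := by
    intro p hp
    rw [Finset.mem_product] at hp
    by_cases heq : p.1 = p.2
    · have h4 : (0 : ℝ) ≤ (if p ∈ Fl then g * (W / E) / E else 0) := by
        split_ifs
        · positivity
        · exact le_rfl
      rw [if_pos heq, ← heq, Finset.inter_self, hScard p.1 hp.1]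
      linarith
    · rw [if_neg heq, zero_add]
      by_cases hd : Disjoint (G p.1) (G p.2)
      · rw [hSdisj _ _ hd]
        split_ifs
        · positivity
        · exact le_rfl
      · have hne : ¬ (p.1.1 = p.2.1 ∨ p.1.2.1 = p.2.2.1 ∨ p.1.2.2 = p.2.2.2) :=
          fun h => hd (h2 p.1 hp.1 p.2 hp.2 heq h)
        push Not at hne
        have hmem : p ∈ Fl := by
          rw [hFl, Finset.mem_filter, Finset.mem_product]
          exact ⟨hp, hne.1, hne.2.1, hne.2.2, hd⟩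
        rw [if_pos hmem]
        exact hSinter p.1 hp.1 p.2 hp.2 hne.1 hne.2.1 hne.2.2
  have hR2le : ∑ ω, R ω ^ 2 ≤ A.card * (g * (W / E)) + N * (g * (W / E) / E) := by
    rw [hR2]
    refine (Finset.sum_le_sum hbound).trans ?_
    rw [Finset.sum_add_distrib]
    refine add_le_add ?_ ?_
    · rw [Finset.sum_product]
      refine le_of_eq ?_
      rw [hconst]
      refine Finset.sum_congr rfl fun k hk => ?_
      simp only
      rw [Finset.sum_ite_eq A k (fun _ => g * (W / E)), if_pos hk]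
    · rw [Finset.sum_ite_mem]
      have h4 : (A ×ˢ A) ∩ Fl = Fl := by
        rw [hFl]
        exact Finset.inter_eq_right.2 (Finset.filter_subset _ _)
      rw [h4, Finset.sum_const, nsmul_eq_mul]
      refine mul_le_mul_of_nonneg_right ?_ (by positivity)
      exact_mod_cast h3
  -- Cauchy-Schwarz on the complement of `B`
  have hsumc : ∑ ω ∈ univ \ B, R ω = ∑ ω, R ω := by
    have h4 := Finset.sum_sdiff (f := R) (Finset.subset_univ B)
    rw [Finset.sum_eq_zero hRB, add_zero] at h4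
    exact h4
  have hsq : ∑ ω ∈ univ \ B, R ω ^ 2 ≤ ∑ ω, R ω ^ 2 :=
    Finset.sum_le_sum_of_subset_of_nonneg (Finset.subset_univ _) fun ω _ _ => sq_nonneg _
  have hCS : (∑ ω ∈ univ \ B, R ω) ^ 2 ≤ ((univ \ B).card : ℝ) * ∑ ω ∈ univ \ B, R ω ^ 2 :=
    sq_sum_le_card_mul_sum_sq
  set c : ℝ := ((univ \ B).card : ℝ) with hc
  have hc0 : 0 ≤ c := Nat.cast_nonneg _
  set a : ℝ := (A.card : ℝ) with ha
  set Q : ℝ := W / E with hQ
  have hQpos : 0 < Q := by positivity
  have hN0 : (0 : ℝ) ≤ N := Nat.cast_nonneg _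
  have hmain : (a * (g * Q)) ^ 2 ≤ c * (a * (g * Q) + N * (g * Q / E)) := by
    have h4 : (a * (g * Q)) ^ 2 = (∑ ω ∈ univ \ B, R ω) ^ 2 := by rw [hsumc, hR1]
    rw [h4]
    exact hCS.trans (mul_le_mul_of_nonneg_left (hsq.trans hR2le) hc0)
  have hmain2 : a ^ 2 * (g * Q) ≤ c * (a + N / E) := by
    have h4 : (g * Q) * (a ^ 2 * (g * Q)) ≤ (g * Q) * (c * (a + N / E)) := by
      have h5 : c * (a * (g * Q) + N * (g * Q / E)) = (g * Q) * (c * (a + N / E)) := by
        ring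
      have h6 : (a * (g * Q)) ^ 2 = (g * Q) * (a ^ 2 * (g * Q)) := by ring
      rw [← h5, ← h6]
      exact hmain
    exact le_of_mul_le_mul_left h4 (by positivity)
  have hTc : ((Fintype.card Θz * Fintype.card Θy * Fintype.card Θx : ℕ) : ℝ) = T := by
    rw [hT]; push_cast; ring
  have hEc : ((Fintype.card Ez * Fintype.card Ey * Fintype.card Ex : ℕ) : ℝ) = E := by
    rw [hE]; push_cast; ring
  rw [hTc, hEc] at hX
  set X0 : ℝ := T * E / (g * a) + T * N / (g * a ^ 2) with hX0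
  have hX0pos : 0 < X0 := by positivity
  have hXb : 0 < Xb := lt_of_lt_of_le hX0pos hX
  have hX0' : X0 = T * E * (a + N / E) / (g * a ^ 2) := by
    rw [hX0]
    field_simp
  have hΩle : (T * W : ℝ) ≤ c * X0 := by
    have h4 : T * W = T * E * (a ^ 2 * (g * Q)) / (g * a ^ 2) := by
      rw [hQ]
      field_simp
    rw [h4, hX0', ← mul_div_assoc c (T * E * (a + N / E)) (g * a ^ 2)]
    apply div_le_div_of_nonneg_right _ (by positivity)
    calc T * E * (a ^ 2 * (g * Q)) ≤ T * E * (c * (a + N / E)) :=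
          mul_le_mul_of_nonneg_left hmain2 (by positivity)
      _ = c * (T * E * (a + N / E)) := by ring
  have hΩle2 : (T * W : ℝ) ≤ c * Xb := hΩle.trans (mul_le_mul_of_nonneg_left hX hc0)
  have hcB : (B.card : ℝ) + c = T * W := by
    rw [← hcardΩ, hc]
    have h4 := Finset.card_sdiff_add_card_eq_card (Finset.subset_univ B)
    rw [Finset.card_univ, add_comm] at h4
    exact_mod_cast h4
  rw [hcardΩ]
  have h7 : T * W / Xb ≤ c := by
    rw [div_le_iff₀ hXb]
    exact hΩle2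
  have h8 : (1 - 1 / Xb) * (T * W) = T * W - T * W / Xb := by ring
  rw [h8]
  linarith

end Pool.Agent.SBP
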